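import Mathlib
import Pool.Agent.LiebT2.Final

open Real Finset MeasureTheory Matrix
open Pool.Agent.LiebT2

set_option autoImplicit false

namespace Pool.Agent.LTHD

variable {d k N : ℕ}

/-- the Bessel property (Gram matrix at most one) -/
def Bes (v : Fin N → (Fin d → ℝ) → ℂ) : Prop :=
  ∀ c : Fin N → ℂ, ∫ y, ‖∑ n, c n * v n y‖ ^ 2 ≤ ∑ n, ‖c n‖ ^ 2

/-- kinetic energy in direction `j` -/
noncomputable def kinj (v : Fin N → (Fin d → ℝ) → ℂ) (j : Fin d) : ℝ :=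
  ∫ y, ∑ n, ‖fderiv ℝ (v n) y (Pi.single j 1)‖ ^ 2

/-- Hellinger distance between the density and its shift by `s` in direction `j` -/
noncomputable def Hs (v : Fin N → (Fin d → ℝ) → ℂ) (j : Fin d) (s : ℝ) : ℝ :=
  ∫ x, (√(rho v x) - √(rho v (x + Pi.single j s))) ^ 2

/-- averaged Hellinger distance for shifts up to `b` -/
noncomputable def DD (v : Fin N → (Fin d → ℝ) → ℂ) (j : Fin d) (b : ℝ) : ℝ :=
  b⁻¹ * ∫ s in (-b)..b, Hs v j s

/-- the semiclassical constant -/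
noncomputable def Kc (d : ℕ) : ℝ :=
  (d : ℝ) / ((d : ℝ) + 2) * (2 * π) ^ 2 / (om d) ^ (2 / (d : ℝ))

/-- a localisation function on the line: supported in `[-1/2, 1/2]`, normalised in `L²` -/
structure Loc (f : ℝ → ℝ) (B C : ℝ) : Prop where
  smooth : ContDiff ℝ 1 f
  supp : ∀ x, 1 / 2 ≤ |x| → f x = 0
  norm : ∫ x, f x ^ 2 = 1
  bound : ∀ x, f x ^ 2 ≤ B
  energy : ∫ x, deriv f x ^ 2 ≤ C

/-- the averaging kernel at scale `l` -/
noncomputable def ka (f : ℝ → ℝ) (l z : ℝ) : ℝ := l⁻¹ * f (z / l) ^ 2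

/-- averaged density in direction `j` -/
noncomputable def Av (v : Fin N → (Fin d → ℝ) → ℂ) (f : ℝ → ℝ) (l : ℝ) (j : Fin d)
    (x : Fin d → ℝ) : ℝ := ∫ z, ka f l z * rho v (x + Pi.single j z)

/-- entropy sum `∑ λ log λ` of a Hermitian matrix -/
noncomputable def ent {ι : Type*} [Fintype ι] [DecidableEq ι] (G : Matrix ι ι ℂ) : ℝ := by
  classical
  exact if h : G.IsHermitian then ∑ i, h.eigenvalues i * Real.log (h.eigenvalues i) else 0

/-- lattice Laplacian on the cycle -/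
noncomputable def Kl (L : ℕ) (c : ℝ) : Matrix (ZMod L) (ZMod L) ℂ := fun i j =>
  (c : ℂ) * ((if i = j then 2 else 0) - (if j = i + 1 then 1 else 0) - (if i = j + 1 then 1 else 0))

/-- a pair of transition functions -/
structure Trans (a b : ℝ → ℝ) (D : ℝ) : Prop where
  ca : ContDiff ℝ 1 a
  cb : ContDiff ℝ 1 b
  sq : ∀ x, a x ^ 2 + b x ^ 2 = 1
  na : ∀ x, 0 ≤ a x
  nb : ∀ x, 0 ≤ b x
  a0 : ∀ x, x ≤ 0 → a x = 0
  b1 : ∀ x, 1 ≤ x → b x = 0
  dd : ∀ x, deriv a x ^ 2 + deriv b x ^ 2 ≤ D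

/-- the window function as a function of the density -/
noncomputable def chi (a b : ℝ → ℝ) (d : ℕ) (w s t r : ℝ) : ℝ :=
  if r ≤ 0 then 0 else a ((2 / (d : ℝ) * Real.log r - s) / w) * b ((2 / (d : ℝ) * Real.log r - t) / w)

/-- the window family -/
noncomputable def win (a b : ℝ → ℝ) (w s t : ℝ) (u : Fin N → (Fin d → ℝ) → ℂ) :
    Fin N → (Fin d → ℝ) → ℂ := fun n x => ((chi a b d w s t (rho u x) : ℝ) : ℂ) * u n x

/-- the transition zones -/
noncomputable def zn (w η t₀ : ℝ) (m : ℕ) (v : ℝ) : ℝ := by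
  classical
  exact if ∃ i ∈ range (m + 1), t₀ + i * η < v ∧ v < t₀ + i * η + w then 1 else 0

/-- the contribution of one window, as a function of the window density -/
noncomputable def Pw (d : ℕ) (K C lam s E r : ℝ) : ℝ :=
  (1 - s) * K * r ^ (1 + 2 / (d : ℝ)) - C * E / lam * r
      + s * (2 * π * d / Real.exp 1) * E * (r - 2 / (d : ℝ) * (r * Real.log (E ^ ((d : ℝ) / 2) / r)))

/-- entries of the lattice heat kernel -/
noncomputable def kk (L : ℕ) (c : ℝ) (m : ℤ) : ℝ :=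
  1 / (L : ℝ) * ∑ q ∈ range L, Real.exp (-(2 * c * (1 - Real.cos (2 * π * q / L)))) *
    Real.cos (2 * π * q * m / L)

/-- lattice points in the box `[-R, R)^d` -/
noncomputable def XX (R : ℝ) (L : ℕ) (z : Fin d → ZMod L) : Fin d → ℝ :=
  fun i => -R + 2 * R / L * ((z i).val : ℝ)

/-- frequencies -/
noncomputable def fq (l : ℝ) (M : ℕ) (m : Fin (2 * M + 1)) : ℝ := 2 * π * ((m : ℝ) - M) / l

/-- Fourier coefficient family in the first variable -/
noncomputable def FG (g : Fin N → (Fin (k + 1) → ℝ) → ℂ) (l : ℝ) (M : ℕ) :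
    Fin (N * (2 * M + 1)) → (Fin k → ℝ) → ℂ := fun i w =>
  (((1 / √l : ℝ)) : ℂ) * ∫ x, g (finProdFinEquiv.symm i).1 (cL k (x, w)) *
    Complex.exp (-(Complex.I * (fq l M (finProdFinEquiv.symm i).2 : ℝ) * x))

end Pool.Agent.LTHD
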