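import Mathlib
import Pool.Agent.LTHD.Defs

open Real Finset MeasureTheory Matrix
open Pool.Agent.LiebT2

set_option autoImplicit false

namespace Pool.Agent.LTHD

variable {d k N : ℕ}

/-- the window density is bounded by the top of the window -/
theorem chi_bound {a b : ℝ → ℝ} {D : ℝ} (hT : Trans a b D) {w s t : ℝ} (hw : 0 < w) (hd : 1 ≤ d)
    {r : ℝ} (hr : 0 ≤ r) : chi a b d w s t r ^ 2 * r ≤ Real.exp (t + w) ^ ((d : ℝ) / 2) := by
  have hd0 : (0 : ℝ) < d := by exact_mod_cast hd
  have hE : Real.exp (t + w) ^ ((d : ℝ) / 2) = Real.exp ((d : ℝ) / 2 * (t + w)) := by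
    rw [← Real.exp_mul, mul_comm]
  rw [hE]
  unfold chi
  split_ifs with h
  · simp
    positivity
  · push Not at h
    by_cases hv : 1 ≤ (2 / (d : ℝ) * Real.log r - t) / w
    · rw [hT.b1 _ hv]
      simp
      positivity
    · push Not at hv
      rw [div_lt_one hw] at hv
      have h1 : Real.log r ≤ (d : ℝ) / 2 * (t + w) := by
        have : Real.log r = (d : ℝ) / 2 * (2 / (d : ℝ) * Real.log r) := by field_simp
        rw [this]
        apply mul_le_mul_of_nonneg_left _ (by positivity)
        linarith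
      have h2 : r ≤ Real.exp ((d : ℝ) / 2 * (t + w)) := by
        rw [← Real.log_le_iff_le_exp h]
        exact h1
      have ha : a ((2 / (d : ℝ) * Real.log r - s) / w) ^ 2 ≤ 1 := by
        have := hT.sq ((2 / (d : ℝ) * Real.log r - s) / w)
        nlinarith [sq_nonneg (b ((2 / (d : ℝ) * Real.log r - s) / w))]
      have hb : b ((2 / (d : ℝ) * Real.log r - t) / w) ^ 2 ≤ 1 := by
        have := hT.sq ((2 / (d : ℝ) * Real.log r - t) / w)
        nlinarith [sq_nonneg (a ((2 / (d : ℝ) * Real.log r - t) / w))]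
      calc _ ≤ 1 * r := by
            apply mul_le_mul_of_nonneg_right _ hr
            rw [mul_pow]
            exact mul_le_one₀ ha (sq_nonneg _) hb
        _ = r := one_mul r
        _ ≤ _ := h2

theorem exists_bound_rho {v : Fin N → (Fin d → ℝ) → ℂ} (hv : Fam v) :
    ∃ M : ℝ, 1 ≤ M ∧ ∀ x, rho v x ≤ M := by
  obtain ⟨R, _, hR⟩ := hv.van
  obtain ⟨C, hC⟩ := (isCompact_closedBall (0 : Fin d → ℝ) R).exists_bound_of_continuousOn
    (continuous_rho hv).continuousOn
  refine ⟨max C 1, le_max_right _ _, fun x => ?_⟩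
  by_cases hx : ‖x‖ ≤ R
  · have := hC x (by rw [mem_closedBall_zero_iff]; exact hx)
    exact ((le_abs_self _).trans this).trans (le_max_left _ _)
  · rw [van_rho (fun n => (hR n).1) x (not_le.mp hx).le]
    exact zero_le_one.trans (le_max_right _ _)

end Pool.Agent.LTHD
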