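import Mathlib
import Pool.Agent.LTHD.Defs

open Real Finset MeasureTheory Matrix ComplexOrder
open Pool.Agent.LiebT2

set_option autoImplicit false

namespace Pool.Agent.LTHD

variable {d k N : ℕ}

theorem integrable_comp_rho {v : Fin N → (Fin d → ℝ) → ℂ} (hv : Fam v) {F : ℝ → ℝ}
    (hF : Continuous F) (h0 : F 0 = 0) : Integrable (fun x => F (rho v x)) := by
  have hc : Continuous (fun x => F (rho v x)) := hF.comp (continuous_rho hv)
  apply hc.integrable_of_hasCompactSupport
  obtain ⟨R, _, hR⟩ := hv.van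
  apply HasCompactSupport.intro (isCompact_closedBall (0 : Fin d → ℝ) R)
  intro y hy
  rw [mem_closedBall_zero_iff, not_le] at hy
  rw [van_rho (fun n => (hR n).1) y hy.le, h0]

theorem q_pos (d : ℕ) : 0 < 1 + 2 / (d : ℝ) := by positivity

theorem continuous_pow_q (d : ℕ) : Continuous (fun r : ℝ => r ^ (1 + 2 / (d : ℝ))) :=
  continuous_id.rpow_const fun _ => Or.inr (q_pos d).le

theorem integrable_rho {v : Fin N → (Fin d → ℝ) → ℂ} (hv : Fam v) : Integrable (rho v) :=
  integrable_comp_rho hv continuous_id rfl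

theorem integrable_rho_q {v : Fin N → (Fin d → ℝ) → ℂ} (hv : Fam v) :
    Integrable (fun x => rho v x ^ (1 + 2 / (d : ℝ))) :=
  integrable_comp_rho hv (continuous_pow_q d) (Real.zero_rpow (q_pos d).ne')

theorem mul_log_div {E : ℝ} (hE : 0 < E) (r : ℝ) :
    r * Real.log (E / r) = r * Real.log E - r * Real.log r := by
  rcases eq_or_ne r 0 with rfl | hr
  · simp
  · rw [Real.log_div hE.ne' hr]
    ring

theorem continuous_mul_log_div {E : ℝ} (hE : 0 < E) :
    Continuous (fun r : ℝ => r * Real.log (E / r)) := by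
  have : (fun r : ℝ => r * Real.log (E / r)) = fun r => r * Real.log E - r * Real.log r := by
    funext r
    exact mul_log_div hE r
  rw [this]
  exact (continuous_id.mul continuous_const).sub Real.continuous_mul_log

theorem integrable_rho_log_div {v : Fin N → (Fin d → ℝ) → ℂ} (hv : Fam v) {E : ℝ} (hE : 0 < E) :
    Integrable (fun x => rho v x * Real.log (E / rho v x)) :=
  integrable_comp_rho hv (continuous_mul_log_div hE) (by simp)

theorem continuous_Pw (d : ℕ) (K C lam s : ℝ) {E : ℝ} (hE : 0 < E) :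
    Continuous (Pw d K C lam s E) := by
  unfold Pw
  have hE' : 0 < E ^ ((d : ℝ) / 2) := Real.rpow_pos_of_pos hE _
  exact ((continuous_const.mul (continuous_pow_q d)).sub (continuous_const.mul continuous_id)).add
    (continuous_const.mul (continuous_id.sub (continuous_const.mul (continuous_mul_log_div hE'))))

theorem Pw_zero (d : ℕ) (K C lam s E : ℝ) : Pw d K C lam s E 0 = 0 := by
  unfold Pw
  rw [Real.zero_rpow (q_pos d).ne']
  simp

theorem integrable_Pw {v : Fin N → (Fin d → ℝ) → ℂ} (hv : Fam v) (K C lam s : ℝ) {E : ℝ}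
    (hE : 0 < E) : Integrable (fun x => Pw d K C lam s E (rho v x)) :=
  integrable_comp_rho hv (continuous_Pw d K C lam s hE) (Pw_zero d K C lam s E)

theorem integral_Pw {v : Fin N → (Fin d → ℝ) → ℂ} (hv : Fam v) (K C lam s : ℝ) {E : ℝ}
    (hE : 0 < E) : (∫ x, Pw d K C lam s E (rho v x))
      = (1 - s) * K * (∫ x, rho v x ^ (1 + 2 / (d : ℝ))) - C * E / lam * (∫ x, rho v x)
      + s * (2 * π * d / Real.exp 1) * E *
        ((∫ x, rho v x) - 2 / (d : ℝ) * (∫ x, rho v x * Real.log (E ^ ((d : ℝ) / 2) / rho v x))) := by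
  have hE' : 0 < E ^ ((d : ℝ) / 2) := Real.rpow_pos_of_pos hE _
  have i1 := (integrable_rho_q hv).const_mul ((1 - s) * K)
  have i2 := (integrable_rho hv).const_mul (C * E / lam)
  have i3 := (integrable_rho_log_div hv hE').const_mul (2 / (d : ℝ))
  have i4 := ((integrable_rho hv).sub i3).const_mul (s * (2 * π * d / Real.exp 1) * E)
  unfold Pw
  have e1 : (∫ x, ((1 - s) * K * rho v x ^ (1 + 2 / (d : ℝ)) - C * E / lam * rho v x
      + s * (2 * π * d / Real.exp 1) * E *
        (rho v x - 2 / (d : ℝ) * (rho v x * Real.log (E ^ ((d : ℝ) / 2) / rho v x)))))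
      = (∫ x, ((1 - s) * K * rho v x ^ (1 + 2 / (d : ℝ)) - C * E / lam * rho v x))
      + (∫ x, s * (2 * π * d / Real.exp 1) * E *
        (rho v x - 2 / (d : ℝ) * (rho v x * Real.log (E ^ ((d : ℝ) / 2) / rho v x)))) :=
    integral_add (i1.sub i2) i4
  rw [e1, integral_const_mul, integral_sub (integrable_rho hv) i3, integral_sub i1 i2,
    integral_const_mul, integral_const_mul, integral_const_mul]

theorem kin_nonneg (v : Fin N → (Fin d → ℝ) → ℂ) : 0 ≤ kin v := by
  unfold Pool.Agent.LiebT2.kin Pool.Agent.LiebT2.dens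
  exact integral_nonneg fun y => Finset.sum_nonneg fun n _ => Finset.sum_nonneg fun i _ => by
    positivity

end Pool.Agent.LTHD
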