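import Mathlib
import Pool.Agent.LTHD.Defs

open Real Finset MeasureTheory Matrix ComplexOrder
open Pool.Agent.LiebT2

set_option autoImplicit false

namespace Pool.Agent.LTHD

variable {d k N : ℕ}

/-- cyclicity of the trace of powers -/
theorem trp_mul_pow_comm {ι : Type*} [Fintype ι] [DecidableEq ι] (X Y : Matrix ι ι ℂ) (n : ℕ) :
    trace ((X * Y) ^ n) = trace ((Y * X) ^ n) := by
  cases n with
  | zero => rw [pow_zero, pow_zero]
  | succ n =>
    have h : ∀ m : ℕ, (X * Y) ^ m * X = X * (Y * X) ^ m := by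
      intro m
      induction m with
      | zero => rw [pow_zero, pow_zero, one_mul, mul_one]
      | succ m ih =>
        rw [pow_succ, pow_succ, ← mul_assoc X, ← ih]
        simp only [mul_assoc]
    rw [pow_succ, ← mul_assoc, h, mul_assoc, trace_mul_comm, mul_assoc, ← pow_succ]

theorem trp_norm_le {ι : Type*} [Fintype ι] [DecidableEq ι] (A B : Matrix ι ι ℂ) :
    ‖trace (A * B)‖ ≤ ((trace (Aᴴ * A)).re + (trace (Bᴴ * B)).re) / 2 := by
  have hA : ∀ A : Matrix ι ι ℂ, (trace (Aᴴ * A)).re = ∑ i, ∑ j, ‖A j i‖ ^ 2 := by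
    intro A
    unfold trace
    rw [Complex.re_sum]
    refine Finset.sum_congr rfl fun i _ => ?_
    rw [diag_apply, mul_apply, Complex.re_sum]
    refine Finset.sum_congr rfl fun j _ => ?_
    rw [conjTranspose_apply, Complex.star_def, ← Complex.normSq_eq_conj_mul_self,
      Complex.ofReal_re, Complex.normSq_eq_norm_sq]
  rw [hA A, hA B, Finset.sum_comm]
  have h1 : ‖trace (A * B)‖ ≤ ∑ i, ∑ j, ‖A i j‖ * ‖B j i‖ := by
    unfold trace
    refine (norm_sum_le _ _).trans (Finset.sum_le_sum fun i _ => ?_)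
    rw [diag_apply, mul_apply]
    refine (norm_sum_le _ _).trans (Finset.sum_le_sum fun j _ => ?_)
    rw [norm_mul]
  refine h1.trans ?_
  rw [← Finset.sum_add_distrib, Finset.sum_div]
  refine Finset.sum_le_sum fun i _ => ?_
  rw [← Finset.sum_add_distrib, Finset.sum_div]
  refine Finset.sum_le_sum fun j _ => ?_
  nlinarith [sq_nonneg (‖A i j‖ - ‖B j i‖)]

/-- the induction step for products of Hermitian matrices -/
theorem trp_step {ι : Type*} [Fintype ι] [DecidableEq ι] {n : ℕ}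
    (ha : ∀ Z : Matrix ι ι ℂ, ‖trace (Z ^ (2 * n))‖ ≤ (trace ((Zᴴ * Z) ^ n)).re)
    {P Q : Matrix ι ι ℂ} (hP : P.IsHermitian) (hQ : Q.IsHermitian) :
    (trace ((P * Q) ^ (2 * n))).re ≤ (trace ((P ^ 2 * Q ^ 2) ^ n)).re := by
  refine (Complex.re_le_norm _).trans ((ha _).trans (le_of_eq ?_))
  rw [conjTranspose_mul, hP.eq, hQ.eq]
  have e1 : Q * P * (P * Q) = Q * (P ^ 2 * Q) := by
    rw [pow_two]; simp only [mul_assoc]
  have e2 : P ^ 2 * Q ^ 2 = P ^ 2 * Q * Q := by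
    rw [pow_two Q]; simp only [mul_assoc]
  rw [e1, e2, trp_mul_pow_comm]

theorem trp_ind {ι : Type*} [Fintype ι] [DecidableEq ι] (j : ℕ) :
    (∀ Z : Matrix ι ι ℂ, ‖trace (Z ^ (2 * 2 ^ j))‖ ≤ (trace ((Zᴴ * Z) ^ (2 ^ j))).re) ∧
    ∀ P Q : Matrix ι ι ℂ, P.IsHermitian → Q.IsHermitian →
      (trace ((P * Q) ^ (2 ^ j))).re ≤ (trace (P ^ (2 ^ j) * Q ^ (2 ^ j))).re := by
  induction j with
  | zero =>
    constructor
    · intro Z
      rw [pow_zero, mul_one, pow_one, pow_two]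
      refine (trp_norm_le Z Z).trans (le_of_eq (by ring))
    · intro P Q _ _
      rw [pow_zero, pow_one, pow_one, pow_one]
  | succ j ih =>
    obtain ⟨ha, hc⟩ := ih
    have e : 2 ^ (j + 1) = 2 * 2 ^ j := by ring
    constructor
    · intro Z
      have h1 := ha (Z ^ 2)
      rw [← pow_mul] at h1
      have e1 : (Z ^ 2)ᴴ * Z ^ 2 = Zᴴ * (Zᴴ * Z * Z) := by
        rw [conjTranspose_pow, pow_two, pow_two]; simp only [mul_assoc]
      have e2 : Zᴴ * Z * Z * Zᴴ = (Zᴴ * Z) * (Z * Zᴴ) := by simp only [mul_assoc]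
      rw [e1, trp_mul_pow_comm, e2] at h1
      have hA : (Zᴴ * Z).IsHermitian := isHermitian_conjTranspose_mul_self Z
      have hB : (Z * Zᴴ).IsHermitian := isHermitian_mul_conjTranspose_self Z
      have h2 := hc _ _ hA hB
      have h3 := (Complex.re_le_norm _).trans
        (trp_norm_le ((Zᴴ * Z) ^ (2 ^ j)) ((Z * Zᴴ) ^ (2 ^ j)))
      rw [(hA.pow _).eq, (hB.pow _).eq, ← pow_add, ← pow_add, ← two_mul, ← e,
        trp_mul_pow_comm Z Zᴴ] at h3
      rw [e, show 2 * (2 * 2 ^ j) = 2 * (2 * 2 ^ j) from rfl]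
      refine (h1.trans (h2.trans h3)).trans (le_of_eq ?_)
      rw [e]
      ring
    · intro P Q hP hQ
      rw [e]
      refine (trp_step ha hP hQ).trans ?_
      have h2 := hc _ _ (hP.pow 2) (hQ.pow 2)
      rw [← pow_mul, ← pow_mul] at h2
      exact h2

theorem trace_pow_le {ι : Type*} [Fintype ι] [DecidableEq ι] {P Q : Matrix ι ι ℂ}
    (hP : P.PosSemidef) (hQ : Q.PosSemidef) (k : ℕ) :
    (trace ((P * Q) ^ (2 ^ (k + 1)))).re
      ≤ (trace ((P ^ (2 ^ k) * Q ^ (2 ^ k)) * (P ^ (2 ^ k) * Q ^ (2 ^ k)))).re := by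
  have key : ∀ (k : ℕ) (P Q : Matrix ι ι ℂ), P.IsHermitian → Q.IsHermitian →
      (trace ((P * Q) ^ (2 ^ (k + 1)))).re
        ≤ (trace ((P ^ (2 ^ k) * Q ^ (2 ^ k)) * (P ^ (2 ^ k) * Q ^ (2 ^ k)))).re := by
    intro k
    induction k with
    | zero =>
      intro P Q _ _
      rw [zero_add, pow_one, pow_zero, pow_one, pow_one, pow_two]
    | succ k ih =>
      intro P Q hP hQ
      have e : 2 ^ (k + 1 + 1) = 2 * 2 ^ (k + 1) := by ring
      rw [e]
      refine (trp_step (trp_ind (k + 1)).1 hP hQ).trans ((ih _ _ (hP.pow 2) (hQ.pow 2)).trans ?_)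
      rw [← pow_mul, ← pow_mul, ← pow_succ']
  exact key k P Q hP.isHermitian hQ.isHermitian

end Pool.Agent.LTHD
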