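import Mathlib
import Pool.Agent.LTHD.Defs
import Pool.Agent.LTHD.Tr

open Real Finset MeasureTheory Matrix ComplexOrder
open Pool.Agent.LiebT2

set_option autoImplicit false

namespace Pool.Agent.LTHD

variable {d k N : ℕ}

section GT

variable {ι : Type*} [Fintype ι] [DecidableEq ι]

omit [Fintype ι] [DecidableEq ι] in
theorem gt_herm_smul {A : Matrix ι ι ℂ} (hA : A.IsHermitian) (t : ℝ) :
    ((t : ℂ) • A).IsHermitian := by
  unfold Matrix.IsHermitian
  rw [Matrix.conjTranspose_smul, hA.eq]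
  simp

/-- the exponential of a real multiple -/
noncomputable def gtE (A : Matrix ι ι ℂ) (t : ℝ) : Matrix ι ι ℂ := NormedSpace.exp ((t : ℂ) • A)

theorem gtE_herm {A : Matrix ι ι ℂ} (hA : A.IsHermitian) (t : ℝ) :
    (gtE A t).IsHermitian := (gt_herm_smul hA t).exp

theorem gtE_add (A : Matrix ι ι ℂ) (s t : ℝ) : gtE A (s + t) = gtE A s * gtE A t := by
  unfold gtE
  rw [← Matrix.exp_add_of_commute]
  · congr 1
    push_cast
    rw [add_smul]
  · exact (Commute.refl A).smul_left _ |>.smul_right _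

theorem gtE_nsmul (A : Matrix ι ι ℂ) (n : ℕ) (t : ℝ) : gtE A (n * t) = gtE A t ^ n := by
  unfold gtE
  rw [← Matrix.exp_nsmul]
  congr 1
  push_cast
  rw [← smul_smul, Nat.cast_smul_eq_nsmul]

theorem gtE_psd {A : Matrix ι ι ℂ} (hA : A.IsHermitian) (t : ℝ) : (gtE A t).PosSemidef := by
  have h : gtE A t = (gtE A (t / 2))ᴴ * gtE A (t / 2) := by
    rw [(gtE_herm hA (t / 2)).eq, ← gtE_add]
    congr 1
    ring
  rw [h]
  exact posSemidef_conjTranspose_mul_self _

/-- the symmetrised Trotter factor -/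
noncomputable def gtX (A B : Matrix ι ι ℂ) (t : ℝ) : Matrix ι ι ℂ :=
  gtE A (t / 2) * gtE B t * gtE A (t / 2)

theorem gtX_psd {A B : Matrix ι ι ℂ} (hA : A.IsHermitian) (hB : B.IsHermitian) (t : ℝ) :
    (gtX A B t).PosSemidef := by
  have h := (gtE_psd hB t).mul_mul_conjTranspose_same (gtE A (t / 2))
  rwa [(gtE_herm hA (t / 2)).eq] at h

theorem gt_tr (P Q : Matrix ι ι ℂ) (n : ℕ) :
    trace ((P * Q) ^ (n + 1)) = trace ((Q * P) ^ (n + 1)) := by
  rw [pow_succ, ← Matrix.mul_assoc, mul_pow_mul, Matrix.mul_assoc, Matrix.trace_mul_comm,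
    Matrix.mul_assoc, ← pow_succ]

theorem gtX_trace (A B : Matrix ι ι ℂ) (t : ℝ) (n : ℕ) :
    trace (gtX A B t ^ (n + 1)) = trace ((gtE A t * gtE B t) ^ (n + 1)) := by
  unfold gtX
  have hA : gtE A t = gtE A (t / 2) * gtE A (t / 2) := by
    rw [← gtE_add]; congr 1; ring
  rw [gt_tr, ← Matrix.mul_assoc, ← hA]

theorem gt_cs {Y U : Matrix ι ι ℂ} (hY : Y.IsHermitian) (hU : star U * U = 1) (i : ι) :
    ((star U * Y * U) i i).re ^ 2 ≤ ((star U * (Y * Y) * U) i i).re := by
  set c : ℝ := ((star U * Y * U) i i).re with hc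
  have hp : (((Y - (c : ℂ) • (1 : Matrix ι ι ℂ)) * U)ᴴ * ((Y - (c : ℂ) • 1) * U)).PosSemidef :=
    posSemidef_conjTranspose_mul_self _
  have hd := hp.diag_nonneg (i := i)
  have he : ((Y - (c : ℂ) • (1 : Matrix ι ι ℂ)) * U)ᴴ * ((Y - (c : ℂ) • 1) * U)
      = star U * (Y * Y) * U - (2 * c : ℂ) • (star U * Y * U) + ((c : ℂ) ^ 2) • (star U * U) := by
    rw [Matrix.conjTranspose_mul, Matrix.conjTranspose_sub, Matrix.conjTranspose_smul, hY.eq,
      Matrix.conjTranspose_one, Matrix.star_eq_conjTranspose]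
    simp only [Complex.star_def, Complex.conj_ofReal]
    simp only [Matrix.mul_sub, Matrix.sub_mul, Matrix.mul_smul, Matrix.smul_mul, Matrix.mul_one,
      Matrix.one_mul, Matrix.mul_assoc]
    module
  rw [he, hU] at hd
  have hre := (Complex.le_def.1 hd).1
  simp only [Matrix.add_apply, Matrix.sub_apply, Matrix.smul_apply, Matrix.one_apply_eq,
    smul_eq_mul, Complex.zero_re, Complex.add_re, Complex.sub_re] at hre
  have h1 : ((2 * c : ℂ) * (star U * Y * U) i i).re = 2 * c * c := by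
    have : (2 * c : ℂ) = ((2 * c : ℝ) : ℂ) := by push_cast; ring
    rw [this, Complex.re_ofReal_mul, ← hc]
  have h2 : ((c : ℂ) ^ 2 * 1).re = c ^ 2 := by
    rw [mul_one, ← Complex.ofReal_pow, Complex.ofReal_re]
  rw [h1, h2] at hre
  nlinarith [hre]

theorem gt_pow {X U : Matrix ι ι ℂ} (hX : X.PosSemidef) (hU : star U * U = 1) (i : ι) (m : ℕ) :
    ((star U * X * U) i i).re ^ (2 ^ m) ≤ ((star U * X ^ (2 ^ m) * U) i i).re := by
  induction m with
  | zero => simp
  | succ m ih =>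
    have h0 : 0 ≤ ((star U * X * U) i i).re := by
      have h := (hX.conjTranspose_mul_mul_same U).diag_nonneg (i := i)
      exact (Complex.le_def.1 h).1
    rw [pow_succ 2 m, pow_mul, pow_mul]
    calc (((star U * X * U) i i).re ^ 2 ^ m) ^ 2
        ≤ (((star U * X ^ (2 ^ m) * U) i i).re) ^ 2 := pow_le_pow_left₀ (by positivity) ih 2
      _ ≤ ((star U * (X ^ (2 ^ m) * X ^ (2 ^ m)) * U) i i).re :=
          gt_cs (hX.isHermitian.pow _) hU i
      _ = _ := by rw [pow_two]

section norm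

attribute [local instance] Matrix.linftyOpNormedRing Matrix.linftyOpNormedAlgebra

theorem gtE_deriv (A : Matrix ι ι ℂ) : HasDerivAt (gtE A) A 0 := by
  have h := hasDerivAt_exp_smul_const (𝕂 := ℝ) A (0 : ℝ)
  simp only [zero_smul, NormedSpace.exp_zero, one_mul] at h
  have he : gtE A = fun t : ℝ => NormedSpace.exp (t • A) := by
    funext t
    unfold gtE
    congr 1
  rw [he]
  exact h

theorem gtE_zero (A : Matrix ι ι ℂ) : gtE A 0 = 1 := by
  unfold gtE
  simp

theorem gtX_deriv (A B : Matrix ι ι ℂ) : HasDerivAt (gtX A B) (A + B) 0 := by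
  have h1 : HasDerivAt (fun t : ℝ => gtE A (t / 2)) ((1 / 2 : ℝ) • A) 0 := by
    have h := gtE_deriv A
    have h2 : HasDerivAt (fun t : ℝ => t / 2) (1 / 2 : ℝ) 0 := (hasDerivAt_id (0 : ℝ)).div_const 2
    have h3 : HasDerivAt (gtE A) A ((fun t : ℝ => t / 2) 0) := by simpa using h
    exact h3.scomp 0 h2
  have h := (h1.mul (gtE_deriv B)).mul h1
  refine h.congr_deriv ?_
  simp only [Pi.mul_apply, zero_div, gtE_zero, mul_one, one_mul]
  module

theorem gt_f_deriv (A B U : Matrix ι ι ℂ) (i : ι) :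
    HasDerivAt (fun t : ℝ => ((star U * gtX A B t * U) i i).re)
      ((star U * (A + B) * U) i i).re 0 := by
  let L : Matrix ι ι ℂ →ₗ[ℝ] ℝ :=
    { toFun := fun M => ((star U * M * U) i i).re
      map_add' := fun M N => by simp [Matrix.mul_add, Matrix.add_mul]
      map_smul' := fun c M => by simp }
  have hL : HasFDerivAt (fun M : Matrix ι ι ℂ => L M) (LinearMap.toContinuousLinearMap L)
      (gtX A B 0) := (LinearMap.toContinuousLinearMap L).hasFDerivAt
  exact hL.comp_hasDerivAt 0 (gtX_deriv A B)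

end norm

theorem gt_f_zero (A B : Matrix ι ι ℂ) {U : Matrix ι ι ℂ} (hU : star U * U = 1) (i : ι) :
    ((star U * gtX A B 0 * U) i i).re = 1 := by
  unfold gtX
  simp only [zero_div, gtE_zero, mul_one, hU, Matrix.one_apply_eq, Complex.one_re]

theorem gt_limit (A B U : Matrix ι ι ℂ) (hU : star U * U = 1) (i : ι) :
    Filter.Tendsto (fun n : ℕ => ((star U * gtX A B (1 / (2 : ℝ) ^ (n + 1)) * U) i i).re ^ (2 ^ (n + 1)))
      Filter.atTop (nhds (Real.exp ((star U * (A + B) * U) i i).re)) := by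
  have hd := gt_f_deriv A B U i
  have h0 := gt_f_zero A B hU i
  set f : ℝ → ℝ := fun t => ((star U * gtX A B t * U) i i).re with hf
  set D : ℝ := ((star U * (A + B) * U) i i).re with hD
  have hs := hd.tendsto_slope_zero
  have h0' : f 0 = 1 := h0
  have hn : Filter.Tendsto (fun n : ℕ => (1 / (n : ℝ))) Filter.atTop (nhdsWithin 0 {0}ᶜ) := by
    refine tendsto_nhdsWithin_iff.2 ⟨tendsto_one_div_atTop_nhds_zero_nat, ?_⟩
    filter_upwards [Filter.eventually_gt_atTop 0] with n hn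
    simp only [Set.mem_compl_iff, Set.mem_singleton_iff]
    positivity
  have h1 : Filter.Tendsto (fun n : ℕ => (n : ℝ) * (f (1 / (n : ℝ)) - 1)) Filter.atTop (nhds D) := by
    have h2 := hs.comp hn
    refine h2.congr fun n => ?_
    simp only [Function.comp, zero_add, smul_eq_mul, h0', one_div, inv_inv]
  have h3 := Real.tendsto_one_add_pow_exp_of_tendsto h1
  have h4 : Filter.Tendsto (fun n : ℕ => f (1 / (n : ℝ)) ^ n) Filter.atTop (nhds (Real.exp D)) := by
    refine h3.congr fun n => ?_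
    congr 1
    ring
  have h5 : Filter.Tendsto (fun n : ℕ => 2 ^ (n + 1)) Filter.atTop Filter.atTop :=
    (tendsto_pow_atTop_atTop_of_one_lt one_lt_two).comp (Filter.tendsto_add_atTop_nat 1)
  have h6 := h4.comp h5
  refine h6.congr fun n => ?_
  simp only [Function.comp, Nat.cast_pow, Nat.cast_ofNat, hf]

end GT

theorem peierls_gt {ι : Type*} [Fintype ι] [DecidableEq ι] {A B U : Matrix ι ι ℂ}
    (hA : A.IsHermitian) (hB : B.IsHermitian) (hU : star U * U = 1) :
    ∑ i, Real.exp ((star U * (A + B) * U) i i).re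
      ≤ (trace (NormedSpace.exp ((1 / 2 : ℂ) • A) * NormedSpace.exp ((1 / 2 : ℂ) • B) *
        (NormedSpace.exp ((1 / 2 : ℂ) • A) * NormedSpace.exp ((1 / 2 : ℂ) • B)))).re := by
  have hl := tendsto_finsetSum Finset.univ (fun i _ => gt_limit A B U hU i)
  refine le_of_tendsto' hl fun n => ?_
  have hU' : U * star U = 1 := mul_eq_one_comm.1 hU
  set t : ℝ := 1 / (2 : ℝ) ^ (n + 1) with ht
  have h1 : ∑ i, ((star U * gtX A B t * U) i i).re ^ (2 ^ (n + 1))
      ≤ ∑ i, ((star U * gtX A B t ^ (2 ^ (n + 1)) * U) i i).re :=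
    Finset.sum_le_sum fun i _ => gt_pow (gtX_psd hA hB t) hU i (n + 1)
  have h2 : ∑ i, ((star U * gtX A B t ^ (2 ^ (n + 1)) * U) i i).re
      = (trace (gtX A B t ^ (2 ^ (n + 1)))).re := by
    have : trace (star U * gtX A B t ^ (2 ^ (n + 1)) * U) = trace (gtX A B t ^ (2 ^ (n + 1))) := by
      rw [Matrix.trace_mul_cycle, hU', Matrix.one_mul]
    rw [← this, Matrix.trace, Complex.re_sum]
    rfl
  have h3 : trace (gtX A B t ^ (2 ^ (n + 1))) = trace ((gtE A t * gtE B t) ^ (2 ^ (n + 1))) := by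
    have h4 : 2 ^ (n + 1) = (2 ^ (n + 1) - 1) + 1 := (Nat.sub_add_cancel Nat.one_le_two_pow).symm
    rw [h4]
    exact gtX_trace A B t _
  have h5 := trace_pow_le (gtE_psd hA t) (gtE_psd hB t) n
  have h6 : ∀ C : Matrix ι ι ℂ, gtE C t ^ (2 ^ n) = NormedSpace.exp ((1 / 2 : ℂ) • C) := by
    intro C
    rw [← gtE_nsmul]
    unfold gtE
    congr 2
    rw [ht]
    push_cast
    field_simp
    ring
  rw [h6, h6] at h5
  calc _ ≤ _ := h1
    _ = _ := h2
    _ = _ := by rw [h3]
    _ ≤ _ := h5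

end Pool.Agent.LTHD
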