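import Mathlib
import Pool.Agent.LTHD.Defs
import Pool.Agent.LTHD.GT

open Real Finset MeasureTheory Matrix ComplexOrder
open Pool.Agent.LiebT2

set_option autoImplicit false

namespace Pool.Agent.LTHD

variable {d k N : ℕ}

/-! # EStep: the one-site entropy inequality (helper56) -/

theorem es_exp_submatrix {m n : Type*} [Fintype m] [DecidableEq m] [Fintype n] [DecidableEq n]
    (A : Matrix m m ℂ) (e : n ≃ m) :
    NormedSpace.exp (A.submatrix e e) = (NormedSpace.exp A).submatrix e e := by
  let f : Matrix m m ℂ ≃L[ℂ] Matrix n n ℂ :=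
    { toLinearEquiv := reindexLinearEquiv ℂ ℂ e.symm e.symm
      continuous_toFun := by
        change Continuous (fun M : Matrix m m ℂ => M.submatrix e e)
        exact continuous_id.matrix_submatrix e e
      continuous_invFun := by
        change Continuous (fun M : Matrix n n ℂ => M.submatrix e.symm e.symm)
        exact continuous_id.matrix_submatrix e.symm e.symm }
  have hf : ∀ M : Matrix m m ℂ, f M = M.submatrix e e := fun M => rfl
  have hpow : ∀ k : ℕ, (A.submatrix e e) ^ k = (A ^ k).submatrix e e := by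
    intro k
    induction k with
    | zero => simp
    | succ k ih => rw [pow_succ, pow_succ, ih, Matrix.submatrix_mul_equiv]
  rw [NormedSpace.exp_eq_tsum_rat, NormedSpace.exp_eq_tsum_rat]
  simp only
  change _ = f (∑' k : ℕ, ((k.factorial : ℚ)⁻¹) • A ^ k)
  rw [f.map_tsum]
  refine tsum_congr fun k => ?_
  rw [hpow, hf, Matrix.submatrix_smul]
  rfl

/-- the spectral calculus of a positive definite matrix -/
theorem es_spec {ι : Type*} [Fintype ι] [DecidableEq ι] {R : Matrix ι ι ℂ} (hR : R.PosDef) :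
    ∃ L S : Matrix ι ι ℂ, L.IsHermitian ∧ S.IsHermitian ∧ S * S = R ∧
      NormedSpace.exp ((1 / 2 : ℂ) • L) = S ∧ (trace (R * L)).re = ent R := by
  have hH : R.IsHermitian := hR.isHermitian
  set U : Matrix ι ι ℂ := (hH.eigenvectorUnitary : Matrix ι ι ℂ) with hU
  have hUU : star U * U = 1 := by
    rw [hU]
    exact Unitary.star_mul_self_of_mem hH.eigenvectorUnitary.2
  have hUU' : U * star U = 1 := by
    rw [hU]
    exact Unitary.mul_star_self_of_mem hH.eigenvectorUnitary.2
  set l : ι → ℝ := hH.eigenvalues with hl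
  have hlpos : ∀ i, 0 < l i := fun i => hR.eigenvalues_pos i
  have hsp : R = U * diagonal (fun i => ((l i : ℝ) : ℂ)) * star U := by
    have h := hH.spectral_theorem
    rw [Unitary.conjStarAlgAut_apply] at h
    exact h
  have hmul : ∀ f g : ι → ℂ, (U * diagonal f * star U) * (U * diagonal g * star U) =
      U * diagonal (fun i => f i * g i) * star U := by
    intro f g
    calc (U * diagonal f * star U) * (U * diagonal g * star U)
        = U * diagonal f * (star U * U) * diagonal g * star U := by simp only [Matrix.mul_assoc]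
      _ = U * (diagonal f * diagonal g) * star U := by
          rw [hUU, Matrix.mul_one]; simp only [Matrix.mul_assoc]
      _ = _ := by rw [diagonal_mul_diagonal]
  have hherm : ∀ f : ι → ℝ, (U * diagonal (fun i => ((f i : ℝ) : ℂ)) * star U).IsHermitian := by
    intro f
    unfold Matrix.IsHermitian
    rw [← Matrix.star_eq_conjTranspose, star_mul, star_mul, star_star, ← Matrix.mul_assoc]
    congr 2
    rw [Matrix.star_eq_conjTranspose, diagonal_conjTranspose]
    congr 1
    ext i
    simp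
  have hUinv : U⁻¹ = star U := Matrix.inv_eq_left_inv hUU
  have hUunit : IsUnit U := by
    rw [Matrix.isUnit_iff_isUnit_det]
    exact Matrix.isUnit_det_of_left_inverse hUU
  refine ⟨U * diagonal (fun i => ((Real.log (l i) : ℝ) : ℂ)) * star U,
    U * diagonal (fun i => ((√(l i) : ℝ) : ℂ)) * star U, hherm _, hherm _, ?_, ?_, ?_⟩
  · rw [hmul, hsp]
    congr 2
    congr 1
    ext i
    rw [← Complex.ofReal_mul, Real.mul_self_sqrt (hlpos i).le]
  · have h1 : (1 / 2 : ℂ) • (U * diagonal (fun i => ((Real.log (l i) : ℝ) : ℂ)) * star U) =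
        U * diagonal (fun i => (((1 / 2) * Real.log (l i) : ℝ) : ℂ)) * U⁻¹ := by
      rw [hUinv, ← Matrix.smul_mul, ← Matrix.mul_smul]
      congr 2
      ext i j
      simp only [Matrix.smul_apply, diagonal_apply, smul_eq_mul]
      split_ifs
      · push_cast; ring
      · simp
    rw [h1, Matrix.exp_conj _ _ hUunit, Matrix.exp_diagonal, hUinv]
    congr 2
    congr 1
    ext i
    rw [Pi.coe_exp, ← Complex.exp_eq_exp_ℂ, ← Complex.ofReal_exp]
    congr 1
    rw [Real.sqrt_eq_rpow, Real.rpow_def_of_pos (hlpos i)]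
    congr 1
    ring
  · rw [hsp, hmul, Matrix.mul_assoc, Matrix.trace_mul_comm, Matrix.mul_assoc, hUU, Matrix.mul_one,
      ← hsp]
    unfold ent
    rw [dif_pos hH]
    simp only [trace, diag_apply, diagonal_apply_eq]
    rw [Complex.re_sum]
    refine Finset.sum_congr rfl fun i _ => ?_
    rw [← Complex.ofReal_mul, Complex.ofReal_re]

set_option backward.isDefEq.respectTransparency false in
theorem es_pi_exp {o n : Type*} [Fintype o] [Fintype n] [DecidableEq n]
    (v : o → Matrix n n ℂ) (i : o) : NormedSpace.exp v i = NormedSpace.exp (v i) :=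
  open scoped Norms.Operator in Pi.coe_exp v i

theorem es_rev_tri {n : Type*} [Fintype n] (a b : n → ℂ) :
    (√(∑ w, ‖a w‖ ^ 2) - √(∑ w, ‖b w‖ ^ 2)) ^ 2 ≤ ∑ w, ‖a w - b w‖ ^ 2 := by
  have h1 := abs_norm_sub_norm_le (WithLp.toLp 2 a : EuclideanSpace ℂ n) (WithLp.toLp 2 b)
  have h2 : (‖(WithLp.toLp 2 a : EuclideanSpace ℂ n)‖ - ‖(WithLp.toLp 2 b : EuclideanSpace ℂ n)‖) ^ 2
      ≤ ‖(WithLp.toLp 2 a : EuclideanSpace ℂ n) - WithLp.toLp 2 b‖ ^ 2 := by
    rw [← sq_abs]
    exact pow_le_pow_left₀ (abs_nonneg _) h1 2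
  rw [EuclideanSpace.norm_eq, EuclideanSpace.norm_eq] at h2
  rw [← WithLp.toLp_sub, EuclideanSpace.norm_sq_eq] at h2
  exact h2

theorem es_diag {n : Type*} [Fintype n] {S R : Matrix n n ℂ} (hS : S.IsHermitian)
    (hSS : S * S = R) (v : n) : (R v v).re = ∑ w, ‖S v w‖ ^ 2 := by
  rw [← hSS, Matrix.mul_apply, Complex.re_sum]
  refine Finset.sum_congr rfl fun w _ => ?_
  have h := hS.apply w v
  rw [← h]
  rw [show S v w = (starRingEnd ℂ) (star (S v w)) by simp]
  have h3 : (starRingEnd ℂ) (star (S v w)) = S v w := by simp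
  rw [h3, show (star (S v w) : ℂ) = (starRingEnd ℂ) (S v w) from rfl, Complex.mul_conj,
    Complex.ofReal_re, Complex.normSq_eq_norm_sq]

theorem es_diag2 {n : Type*} [Fintype n] {S R S' R' : Matrix n n ℂ} (hS : S.IsHermitian)
    (hSS : S * S = R) (hS' : S'.IsHermitian) (hSS' : S' * S' = R') :
    ∑ v, (√((R v v).re) - √((R' v v).re)) ^ 2 ≤ ∑ v, ∑ w, ‖S v w - S' v w‖ ^ 2 := by
  refine Finset.sum_le_sum fun v _ => ?_
  rw [es_diag hS hSS, es_diag hS' hSS']
  exact es_rev_tri _ _

theorem es_hs {n : Type*} [Fintype n] {S R S' R' : Matrix n n ℂ} (hS : S.IsHermitian)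
    (hSS : S * S = R) (hS' : S'.IsHermitian) (hSS' : S' * S' = R') :
    (trace (S * S')).re = 1 / 2 * (trace R).re + 1 / 2 * (trace R').re
      - 1 / 2 * ∑ v, ∑ w, ‖S v w - S' v w‖ ^ 2 := by
  have h1 : (trace R).re = ∑ v, ∑ w, ‖S v w‖ ^ 2 := by
    simp only [trace, diag_apply]
    rw [Complex.re_sum]
    exact Finset.sum_congr rfl fun v _ => es_diag hS hSS v
  have h2 : (trace R').re = ∑ v, ∑ w, ‖S' v w‖ ^ 2 := by
    simp only [trace, diag_apply]
    rw [Complex.re_sum]
    exact Finset.sum_congr rfl fun v _ => es_diag hS' hSS' v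
  have h3 : (trace (S * S')).re = ∑ v, ∑ w, (S v w * (starRingEnd ℂ) (S' v w)).re := by
    simp only [trace, diag_apply]
    rw [Complex.re_sum]
    refine Finset.sum_congr rfl fun v _ => ?_
    rw [Matrix.mul_apply, Complex.re_sum]
    refine Finset.sum_congr rfl fun w _ => ?_
    have h := hS'.apply w v
    rw [← h]
    rfl
  rw [h1, h2, h3]
  simp only [Finset.mul_sum]
  rw [← Finset.sum_add_distrib, ← Finset.sum_sub_distrib]
  refine Finset.sum_congr rfl fun v _ => ?_
  rw [← Finset.sum_add_distrib, ← Finset.sum_sub_distrib]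
  refine Finset.sum_congr rfl fun w _ => ?_
  rw [← Complex.normSq_eq_norm_sq, ← Complex.normSq_eq_norm_sq, ← Complex.normSq_eq_norm_sq,
    Complex.normSq_sub]
  ring

theorem es_gibbs {l h κ : ℝ} (hl : 0 < l) (hκ : 0 < κ) :
    l * h - l * Real.log κ - l * Real.log l ≤ Real.exp h / κ - l := by
  have h1 : Real.log (Real.exp h / (κ * l)) ≤ Real.exp h / (κ * l) - 1 :=
    Real.log_le_sub_one_of_pos (by positivity)
  rw [Real.log_div (Real.exp_pos h).ne' (by positivity), Real.log_exp,
    Real.log_mul hκ.ne' hl.ne'] at h1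
  have h2 := mul_le_mul_of_nonneg_left h1 hl.le
  have h3 : l * (Real.exp h / (κ * l) - 1) = Real.exp h / κ - l := by
    field_simp
  rw [h3] at h2
  linarith

theorem es_gibbs_sum {ι : Type*} [Fintype ι] [DecidableEq ι] {G X : Matrix ι ι ℂ} (hG : G.PosDef)
    {κ Z : ℝ} (hκ : 0 < κ) (hZ : ∀ U : Matrix ι ι ℂ, star U * U = 1 →
      ∑ i, Real.exp ((star U * X * U) i i).re ≤ Z) :
    -Real.log κ * (trace G).re + (trace G).re - Z / κ ≤ ent G - (trace (G * X)).re := by
  have hH : G.IsHermitian := hG.isHermitian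
  set U : Matrix ι ι ℂ := (hH.eigenvectorUnitary : Matrix ι ι ℂ) with hU
  have hUU : star U * U = 1 := by
    rw [hU]
    exact Unitary.star_mul_self_of_mem hH.eigenvectorUnitary.2
  set l : ι → ℝ := hH.eigenvalues with hl
  have hlpos : ∀ i, 0 < l i := fun i => hG.eigenvalues_pos i
  have hsp : G = U * diagonal (fun i => ((l i : ℝ) : ℂ)) * star U := by
    have h := hH.spectral_theorem
    rw [Unitary.conjStarAlgAut_apply] at h
    exact h
  have hent : ent G = ∑ i, l i * Real.log (l i) := by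
    unfold ent
    rw [dif_pos hH]
  have htr : (trace G).re = ∑ i, l i := by
    rw [hsp, Matrix.mul_assoc, Matrix.trace_mul_comm, Matrix.mul_assoc, hUU, Matrix.mul_one]
    simp only [trace, diag_apply, diagonal_apply_eq]
    rw [Complex.re_sum]
    exact Finset.sum_congr rfl fun i _ => Complex.ofReal_re _
  have htrX : (trace (G * X)).re = ∑ i, l i * ((star U * X * U) i i).re := by
    have h1 : trace (G * X) = trace (diagonal (fun i => ((l i : ℝ) : ℂ)) * (star U * X * U)) := by
      conv_lhs => rw [hsp]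
      rw [Matrix.mul_assoc, Matrix.mul_assoc, Matrix.trace_mul_comm]
      simp only [Matrix.mul_assoc]
    rw [h1]
    simp only [trace, diag_apply, Matrix.diagonal_mul]
    rw [Complex.re_sum]
    refine Finset.sum_congr rfl fun i _ => ?_
    rw [Complex.re_ofReal_mul]
  have hsum : ∑ i, (l i * ((star U * X * U) i i).re - l i * Real.log κ - l i * Real.log (l i)) ≤
      ∑ i, (Real.exp ((star U * X * U) i i).re / κ - l i) :=
    Finset.sum_le_sum fun i _ => es_gibbs (hlpos i) hκ
  rw [Finset.sum_sub_distrib, Finset.sum_sub_distrib, Finset.sum_sub_distrib, ← htrX, ← hent,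
    ← Finset.sum_mul, ← htr, ← Finset.sum_div] at hsum
  have h4 : (∑ i, Real.exp ((star U * X * U) i i).re) / κ ≤ Z / κ :=
    div_le_div_of_nonneg_right (hZ U hUU) hκ.le
  linarith

theorem estep {Y V : Type*} [Fintype Y] [DecidableEq Y] [Fintype V] [DecidableEq V]
    {K : Matrix Y Y ℂ} (hK : K.IsHermitian) {κ : ℝ} (hκ0 : 0 < κ)
    (hκ : ∀ y, NormedSpace.exp (-K) y y = (κ : ℂ)) {G : Matrix (Y × V) (Y × V) ℂ}
    (hG : G.PosDef) :
    -Real.log κ * (trace G).re + 1 / (2 * κ) * ∑ y, ∑ y', ‖NormedSpace.exp (-((1 / 2 : ℂ) • K)) y y'‖ ^ 2 *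
        ∑ v, (√((G (y, v) (y, v)).re) - √((G (y', v) (y', v)).re)) ^ 2
      ≤ ent G + (∑ y, ∑ y', ∑ v, K y y' * G (y', v) (y, v)).re
        - ∑ y, ent (G.submatrix (fun v => (y, v)) (fun v => (y, v))) := by
  set k : Matrix Y Y ℂ := NormedSpace.exp (-((1 / 2 : ℂ) • K)) with hk
  have hR : ∀ y, (G.submatrix (fun v : V => (y, v)) (fun v : V => (y, v))).PosDef := fun y =>
    hG.submatrix (fun a b h => (Prod.mk.inj h).2)
  choose L S hL hS hSS hexp htr using fun y => es_spec (hR y)
  have hhalf : (-((1 / 2 : ℂ) • K)).IsHermitian := by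
    unfold Matrix.IsHermitian
    rw [conjTranspose_neg, conjTranspose_smul, hK.eq]
    simp
  have hkH : k.IsHermitian := hhalf.exp
  have hkk : k * k = NormedSpace.exp (-K) := by
    rw [hk, ← Matrix.exp_add_of_commute _ _ (Commute.refl _)]
    congr 1
    rw [← neg_add, ← add_smul]
    norm_num
  have hknorm : ∀ y y', k y y' * k y' y = ((‖k y y'‖ ^ 2 : ℝ) : ℂ) := by
    intro y y'
    have h := hkH.apply y' y
    rw [← h, show (star (k y y') : ℂ) = (starRingEnd ℂ) (k y y') from rfl, Complex.mul_conj,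
      Complex.normSq_eq_norm_sq]
  have hkrow : ∀ y, ∑ y', ‖k y y'‖ ^ 2 = κ := by
    intro y
    have h1 : ((∑ y', ‖k y y'‖ ^ 2 : ℝ) : ℂ) = (κ : ℂ) := by
      rw [← hκ y, ← hkk, Matrix.mul_apply]
      push_cast
      refine Finset.sum_congr rfl fun y' _ => ?_
      rw [hknorm]
      push_cast
      rfl
    exact_mod_cast h1
  have hksym : ∀ y y', ‖k y y'‖ = ‖k y' y‖ := by
    intro y y'
    rw [← hkH.apply y y', norm_star]
  -- the matrices
  set A : Matrix (Y × V) (Y × V) ℂ := blockDiagonal (fun _ : V => -K) with hA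
  set B : Matrix (Y × V) (Y × V) ℂ :=
    (blockDiagonal L).submatrix (Equiv.prodComm Y V) (Equiv.prodComm Y V) with hB
  have hAH : A.IsHermitian := by
    unfold Matrix.IsHermitian
    rw [hA, blockDiagonal_conjTranspose]
    congr 1
    ext v
    rw [conjTranspose_neg, hK.eq]
  have hBH : B.IsHermitian := by
    unfold Matrix.IsHermitian
    rw [hB, conjTranspose_submatrix, blockDiagonal_conjTranspose]
    congr 2
    ext y
    rw [(hL y).eq]
  have hEA : NormedSpace.exp ((1 / 2 : ℂ) • A) = blockDiagonal (fun _ : V => k) := by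
    rw [hA, ← blockDiagonal_smul, Matrix.exp_blockDiagonal]
    congr 1
    funext v
    rw [es_pi_exp, Pi.smul_apply, hk, smul_neg]
  have hEB : NormedSpace.exp ((1 / 2 : ℂ) • B) =
      (blockDiagonal S).submatrix (Equiv.prodComm Y V) (Equiv.prodComm Y V) := by
    have h1 : (1 / 2 : ℂ) • B = (blockDiagonal ((1 / 2 : ℂ) • L)).submatrix
        (Equiv.prodComm Y V) (Equiv.prodComm Y V) := by
      rw [hB, blockDiagonal_smul]
      rfl
    rw [h1, es_exp_submatrix, Matrix.exp_blockDiagonal]
    congr 2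
    funext y
    rw [es_pi_exp, Pi.smul_apply, hexp]
  -- product
  have hprod : ∀ y v y' v', (blockDiagonal (fun _ : V => k) *
      (blockDiagonal S).submatrix (Equiv.prodComm Y V) (Equiv.prodComm Y V)) (y, v) (y', v') =
      k y y' * S y' v v' := by
    intro y v y' v'
    rw [Matrix.mul_apply, Fintype.sum_prod_type]
    rw [Finset.sum_eq_single y']
    · rw [Finset.sum_eq_single v]
      · rw [blockDiagonal_apply', Matrix.submatrix_apply]
        simp [blockDiagonal_apply]
      · intro b _ hb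
        rw [blockDiagonal_apply', if_neg (fun h => hb h.symm), zero_mul]
      · intro h
        exact absurd (Finset.mem_univ _) h
    · intro b _ hb
      refine Finset.sum_eq_zero fun v'' _ => ?_
      rw [Matrix.submatrix_apply]
      simp [blockDiagonal_apply, hb]
    · intro h
      exact absurd (Finset.mem_univ _) h
  -- the trace of the square
  have hZ : (trace (NormedSpace.exp ((1 / 2 : ℂ) • A) * NormedSpace.exp ((1 / 2 : ℂ) • B) *
        (NormedSpace.exp ((1 / 2 : ℂ) • A) * NormedSpace.exp ((1 / 2 : ℂ) • B)))).re =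
      ∑ y, ∑ y', ‖k y y'‖ ^ 2 * (trace (S y * S y')).re := by
    rw [hEA, hEB]
    simp only [trace, diag_apply]
    rw [Fintype.sum_prod_type, Complex.re_sum]
    refine Finset.sum_congr rfl fun y _ => ?_
    have h1 : ∀ v, ((blockDiagonal (fun _ : V => k) *
        (blockDiagonal S).submatrix (Equiv.prodComm Y V) (Equiv.prodComm Y V)) *
        (blockDiagonal (fun _ : V => k) *
        (blockDiagonal S).submatrix (Equiv.prodComm Y V) (Equiv.prodComm Y V))) (y, v) (y, v) =
        ∑ y', ((‖k y y'‖ ^ 2 : ℝ) : ℂ) * ∑ v', S y' v v' * S y v' v := by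
      intro v
      rw [Matrix.mul_apply, Fintype.sum_prod_type]
      refine Finset.sum_congr rfl fun y' _ => ?_
      rw [Finset.mul_sum]
      refine Finset.sum_congr rfl fun v' _ => ?_
      rw [hprod, hprod, ← hknorm]
      ring
    simp only [h1]
    rw [Finset.sum_comm, Complex.re_sum]
    refine Finset.sum_congr rfl fun y' _ => ?_
    rw [← Finset.mul_sum, Complex.re_ofReal_mul]
    congr 2
    rw [show (∑ v, (S y * S y') v v) = trace (S y * S y') from rfl, Matrix.trace_mul_comm]
    simp only [trace, diag_apply, Matrix.mul_apply]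
  have hZ2 : ∀ y y', (trace (S y * S y')).re = 1 / 2 * (trace (G.submatrix (fun v : V => (y, v))
      (fun v : V => (y, v)))).re + 1 / 2 * (trace (G.submatrix (fun v : V => (y', v))
      (fun v : V => (y', v)))).re - 1 / 2 * ∑ v, ∑ w, ‖S y v w - S y' v w‖ ^ 2 := fun y y' =>
    es_hs (hS y) (hSS y) (hS y') (hSS y')
  have htrG : (trace G).re = ∑ y, (trace (G.submatrix (fun v : V => (y, v))
      (fun v : V => (y, v)))).re := by
    simp only [trace, diag_apply]
    rw [Fintype.sum_prod_type, Complex.re_sum]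
    rfl
  set t : Y → ℝ := fun y => (trace (G.submatrix (fun v : V => (y, v))
      (fun v : V => (y, v)))).re with ht
  set D : Y → Y → ℝ := fun y y' => ∑ v, ∑ w, ‖S y v w - S y' v w‖ ^ 2 with hD
  have hZ3 : (trace (NormedSpace.exp ((1 / 2 : ℂ) • A) * NormedSpace.exp ((1 / 2 : ℂ) • B) *
        (NormedSpace.exp ((1 / 2 : ℂ) • A) * NormedSpace.exp ((1 / 2 : ℂ) • B)))).re =
      κ * (trace G).re - 1 / 2 * ∑ y, ∑ y', ‖k y y'‖ ^ 2 * D y y' := by
    rw [hZ, htrG]
    have h1 : ∀ y y', ‖k y y'‖ ^ 2 * (trace (S y * S y')).re =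
        1 / 2 * (‖k y y'‖ ^ 2 * t y) + 1 / 2 * (‖k y y'‖ ^ 2 * t y') -
          1 / 2 * (‖k y y'‖ ^ 2 * D y y') := by
      intro y y'
      rw [hZ2]
      ring
    simp only [h1, Finset.sum_add_distrib, Finset.sum_sub_distrib, ← Finset.mul_sum]
    have h2 : ∑ y, ∑ y', ‖k y y'‖ ^ 2 * t y = κ * ∑ y, t y := by
      rw [Finset.mul_sum]
      refine Finset.sum_congr rfl fun y _ => ?_
      rw [← Finset.sum_mul, hkrow]
    have h3 : ∑ y, ∑ y', ‖k y y'‖ ^ 2 * t y' = κ * ∑ y, t y := by
      rw [Finset.sum_comm, Finset.mul_sum]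
      refine Finset.sum_congr rfl fun y _ => ?_
      rw [← Finset.sum_mul]
      congr 1
      rw [← hkrow y]
      refine Finset.sum_congr rfl fun y' _ => ?_
      rw [hksym]
    have h2' : ∑ y, (∑ y', ‖k y y'‖ ^ 2) * t y = κ * ∑ y, t y := by
      rw [← h2]
      refine Finset.sum_congr rfl fun y _ => ?_
      rw [Finset.sum_mul]
    simp only [← Finset.sum_mul] 
    rw [h2', h3]
    ring
  have hmain := es_gibbs_sum hG (X := A + B) hκ0 (Z := κ * (trace G).re -
    1 / 2 * ∑ y, ∑ y', ‖k y y'‖ ^ 2 * D y y') (fun U hU => by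
      rw [← hZ3]
      exact peierls_gt hAH hBH hU)
  have hGA1 : ∀ y' v, (G * A) (y', v) (y', v) = ∑ y, -(K y y' * G (y', v) (y, v)) := by
    intro y' v
    rw [Matrix.mul_apply, Fintype.sum_prod_type]
    refine Finset.sum_congr rfl fun y _ => ?_
    rw [Finset.sum_eq_single v]
    · rw [hA, blockDiagonal_apply', if_pos rfl, Matrix.neg_apply]
      ring
    · intro b _ hb
      rw [hA, blockDiagonal_apply', if_neg hb, mul_zero]
    · intro h
      exact absurd (Finset.mem_univ _) h
  have hGA : (trace (G * A)).re = -(∑ y, ∑ y', ∑ v, K y y' * G (y', v) (y, v)).re := by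
    rw [← Complex.neg_re]
    congr 1
    simp only [trace, diag_apply]
    rw [Fintype.sum_prod_type]
    simp only [hGA1]
    have h5 : ∀ y' : Y, ∑ v, ∑ y, -(K y y' * G (y', v) (y, v)) =
        ∑ y, ∑ v, -(K y y' * G (y', v) (y, v)) := fun y' => Finset.sum_comm
    simp only [h5]
    rw [Finset.sum_comm, ← Finset.sum_neg_distrib]
    refine Finset.sum_congr rfl fun y _ => ?_
    rw [← Finset.sum_neg_distrib]
    refine Finset.sum_congr rfl fun y' _ => ?_
    rw [← Finset.sum_neg_distrib]
  have hGB1 : ∀ y v, (G * B) (y, v) (y, v) = ∑ v', G (y, v) (y, v') * L y v' v := by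
    intro y v
    rw [Matrix.mul_apply, Fintype.sum_prod_type, Finset.sum_eq_single y]
    · refine Finset.sum_congr rfl fun v' _ => ?_
      rw [hB, Matrix.submatrix_apply]
      simp [blockDiagonal_apply]
    · intro b _ hb
      refine Finset.sum_eq_zero fun v' _ => ?_
      rw [hB, Matrix.submatrix_apply]
      simp [blockDiagonal_apply, hb]
    · intro h
      exact absurd (Finset.mem_univ _) h
  have hGB : (trace (G * B)).re = ∑ y, ent (G.submatrix (fun v => (y, v)) (fun v => (y, v))) := by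
    simp only [trace, diag_apply]
    rw [Fintype.sum_prod_type, Complex.re_sum]
    refine Finset.sum_congr rfl fun y _ => ?_
    rw [← htr y]
    congr 1
    simp only [trace, diag_apply, hGB1, Matrix.mul_apply, Matrix.submatrix_apply]
  have hDle : ∑ y, ∑ y', ‖k y y'‖ ^ 2 *
        ∑ v, (√((G (y, v) (y, v)).re) - √((G (y', v) (y', v)).re)) ^ 2 ≤
        ∑ y, ∑ y', ‖k y y'‖ ^ 2 * D y y' := by
    refine Finset.sum_le_sum fun y _ => Finset.sum_le_sum fun y' _ => ?_
    refine mul_le_mul_of_nonneg_left ?_ (sq_nonneg _)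
    exact es_diag2 (hS y) (hSS y) (hS y') (hSS y')
  have htrX : (trace (G * (A + B))).re = (trace (G * A)).re + (trace (G * B)).re := by
    rw [Matrix.mul_add, Matrix.trace_add, Complex.add_re]
  rw [htrX, hGA, hGB] at hmain
  have hfin : 1 / (2 * κ) * ∑ y, ∑ y', ‖k y y'‖ ^ 2 *
        ∑ v, (√((G (y, v) (y, v)).re) - √((G (y', v) (y', v)).re)) ^ 2 ≤
        (trace G).re - (κ * (trace G).re - 1 / 2 * ∑ y, ∑ y', ‖k y y'‖ ^ 2 * D y y') / κ := by
    have h1 : (trace G).re - (κ * (trace G).re - 1 / 2 * ∑ y, ∑ y', ‖k y y'‖ ^ 2 * D y y') / κ =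
        1 / (2 * κ) * ∑ y, ∑ y', ‖k y y'‖ ^ 2 * D y y' := by
      field_simp
      ring
    rw [h1]
    exact mul_le_mul_of_nonneg_left hDle (by positivity)
  linarith

end Pool.Agent.LTHD
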