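import Mathlib
import Pool.Agent.LTHD.Defs
import Pool.Agent.LTHD.EStep

open Real Finset MeasureTheory Matrix ComplexOrder
open Pool.Agent.LiebT2

set_option autoImplicit false

namespace Pool.Agent.LTHD

variable {d k N : ℕ}

/-- entropy through the characteristic polynomial -/
lemma ent_eq {ι : Type*} [Fintype ι] [DecidableEq ι] {G : Matrix ι ι ℂ} (hG : G.IsHermitian) :
    ent G = (G.charpoly.roots.map (fun x => x.re * Real.log x.re)).sum := by
  rw [ent, dif_pos hG, hG.roots_charpoly_eq_eigenvalues, Multiset.map_map]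
  rfl

lemma ent_submatrix {ι κ : Type*} [Fintype ι] [DecidableEq ι] [Fintype κ] [DecidableEq κ]
    (e : ι ≃ κ) {G : Matrix κ κ ℂ} (hG : G.IsHermitian) :
    ent (G.submatrix e e) = ent G := by
  rw [ent_eq (hG.submatrix e), ent_eq hG]
  have h : (G.submatrix e e).charpoly = G.charpoly := Matrix.charpoly_reindex e.symm G
  rw [h]

/-- the chain over the directions, for positive definite matrices -/
lemma echain {Y : Type*} [Fintype Y] [DecidableEq Y]
    {K : Matrix Y Y ℂ} (hK : K.IsHermitian) {κ : ℝ} (hκ0 : 0 < κ)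
    (hκ : ∀ y, NormedSpace.exp (-K) y y = (κ : ℂ)) {d : ℕ} :
    ∀ {G : Matrix (Fin d → Y) (Fin d → Y) ℂ}, G.PosDef →
    -(d : ℝ) * Real.log κ * (trace G).re
      + 1 / (2 * κ) * ∑ j : Fin d, ∑ z, ∑ y, ‖NormedSpace.exp (-((1 / 2 : ℂ) • K)) (z j) y‖ ^ 2 *
        (√((G z z).re) - √((G (Function.update z j y) (Function.update z j y)).re)) ^ 2
    ≤ ent G + ∑ j : Fin d, (∑ z, ∑ y, K (z j) y * G (Function.update z j y) z).re
      - ∑ z, (G z z).re * Real.log (G z z).re := by
  induction d with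
  | zero =>
    intro G hG
    have h1 : ent G = (G default default).re * Real.log (G default default).re := by
      have h2 := hG.1.trace_eq_sum_eigenvalues
      rw [trace, Fintype.sum_unique, Fintype.sum_unique] at h2
      rw [ent, dif_pos hG.1, Fintype.sum_unique]
      have h3 : (G default default).re = hG.1.eigenvalues default := by
        have h4 := congrArg Complex.re h2
        simpa using h4
      rw [h3]
    rw [h1]
    simp only [Finset.univ_eq_empty, Finset.sum_empty, Fintype.sum_unique]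
    simp
  | succ d ih =>
    intro G hG
    set e : Y × (Fin d → Y) ≃ (Fin (d + 1) → Y) := Fin.consEquiv (fun _ => Y) with he
    have he1 : ∀ y v, e (y, v) = Fin.cons y v := fun _ _ => rfl
    have hG' : (G.submatrix e e).PosDef := hG.submatrix e.injective
    have hR : ∀ y, ((G.submatrix e e).submatrix (fun v => (y, v)) (fun v => (y, v))).PosDef :=
      fun y => hG'.submatrix fun v v' h => (Prod.ext_iff.1 h).2
    have h1 := estep hK hκ0 hκ hG'
    have h2 := Finset.sum_le_sum fun y (_ : y ∈ Finset.univ) => ih (hR y)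
    rw [ent_submatrix e hG.1] at h1
    have hsum : ∀ f : (Fin (d + 1) → Y) → ℝ, ∑ z, f z = ∑ y, ∑ v, f (Fin.cons y v) := by
      intro f
      rw [← e.sum_comp, Fintype.sum_prod_type]
      rfl
    have hsumC : ∀ f : (Fin (d + 1) → Y) → ℂ, ∑ z, f z = ∑ y, ∑ v, f (Fin.cons y v) := by
      intro f
      rw [← e.sum_comp, Fintype.sum_prod_type]
      rfl
    simp only [Finset.sum_add_distrib, Finset.sum_sub_distrib, ← Finset.mul_sum] at h2
    -- the traces
    have t0 : (trace G).re = ∑ y, ∑ v : Fin d → Y, (G (Fin.cons y v) (Fin.cons y v)).re := by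
      rw [trace, Complex.re_sum, hsum]
      rfl
    have t1 : (trace (G.submatrix e e)).re =
        ∑ y, ∑ v : Fin d → Y, (G (Fin.cons y v) (Fin.cons y v)).re := by
      rw [trace, Complex.re_sum, Fintype.sum_prod_type]
      rfl
    have t2 : ∑ y, (trace ((G.submatrix e e).submatrix (fun v => (y, v)) (fun v => (y, v)))).re =
        ∑ y, ∑ v : Fin d → Y, (G (Fin.cons y v) (Fin.cons y v)).re := by
      refine Finset.sum_congr rfl fun y _ => ?_
      rw [trace, Complex.re_sum]
      rfl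
    -- the gains
    have g0 : ∑ z : Fin (d + 1) → Y, ∑ y', ‖NormedSpace.exp (-((1 / 2 : ℂ) • K)) (z 0) y'‖ ^ 2 *
        (√((G z z).re) - √((G (Function.update z 0 y') (Function.update z 0 y')).re)) ^ 2 =
        ∑ y, ∑ y', ‖NormedSpace.exp (-((1 / 2 : ℂ) • K)) y y'‖ ^ 2 *
        ∑ v, (√(((G.submatrix e e) (y, v) (y, v)).re) -
          √(((G.submatrix e e) (y', v) (y', v)).re)) ^ 2 := by
      rw [hsum]
      refine Finset.sum_congr rfl fun y _ => ?_
      rw [Finset.sum_comm]
      refine Finset.sum_congr rfl fun y' _ => ?_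
      rw [Finset.mul_sum]
      refine Finset.sum_congr rfl fun v _ => ?_
      rw [Fin.update_cons_zero, Fin.cons_zero]
      rfl
    have gs : ∑ j : Fin d, ∑ z : Fin (d + 1) → Y, ∑ y',
        ‖NormedSpace.exp (-((1 / 2 : ℂ) • K)) (z j.succ) y'‖ ^ 2 *
        (√((G z z).re) -
          √((G (Function.update z j.succ y') (Function.update z j.succ y')).re)) ^ 2 =
        ∑ y, ∑ j : Fin d, ∑ v : Fin d → Y, ∑ y',
          ‖NormedSpace.exp (-((1 / 2 : ℂ) • K)) (v j) y'‖ ^ 2 *
        (√((((G.submatrix e e).submatrix (fun v => (y, v)) (fun v => (y, v))) v v).re) -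
          √((((G.submatrix e e).submatrix (fun v => (y, v)) (fun v => (y, v)))
            (Function.update v j y') (Function.update v j y')).re)) ^ 2 := by
      rw [Finset.sum_comm (s := (Finset.univ : Finset Y))]
      refine Finset.sum_congr rfl fun j _ => ?_
      rw [hsum]
      refine Finset.sum_congr rfl fun y _ => Finset.sum_congr rfl fun v _ =>
        Finset.sum_congr rfl fun y' _ => ?_
      rw [← Fin.cons_update, Fin.cons_succ]
      rfl
    -- the kinetic terms
    have k0 : (∑ z : Fin (d + 1) → Y, ∑ y', K (z 0) y' * G (Function.update z 0 y') z).re =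
        (∑ y, ∑ y', ∑ v, K y y' * (G.submatrix e e) (y', v) (y, v)).re := by
      congr 1
      rw [hsumC]
      refine Finset.sum_congr rfl fun y _ => ?_
      rw [Finset.sum_comm]
      refine Finset.sum_congr rfl fun y' _ => Finset.sum_congr rfl fun v _ => ?_
      rw [Fin.update_cons_zero, Fin.cons_zero]
      rfl
    have ks : ∑ j : Fin d, (∑ z : Fin (d + 1) → Y, ∑ y',
        K (z j.succ) y' * G (Function.update z j.succ y') z).re =
        ∑ y, ∑ j : Fin d, (∑ v : Fin d → Y, ∑ y', K (v j) y' *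
          ((G.submatrix e e).submatrix (fun v => (y, v)) (fun v => (y, v)))
            (Function.update v j y') v).re := by
      rw [Finset.sum_comm (s := (Finset.univ : Finset Y))]
      refine Finset.sum_congr rfl fun j _ => ?_
      rw [hsumC, Complex.re_sum]
      refine Finset.sum_congr rfl fun y _ => ?_
      congr 1
      refine Finset.sum_congr rfl fun v _ => Finset.sum_congr rfl fun y' _ => ?_
      rw [← Fin.cons_update, Fin.cons_succ]
      rfl
    -- the diagonal
    have d0 : ∑ z, (G z z).re * Real.log (G z z).re = ∑ y, ∑ v : Fin d → Y,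
        ((((G.submatrix e e).submatrix (fun v => (y, v)) (fun v => (y, v))) v v).re) *
        Real.log ((((G.submatrix e e).submatrix (fun v => (y, v)) (fun v => (y, v))) v v).re) := by
      rw [hsum]
      rfl
    rw [Fin.sum_univ_succ, Fin.sum_univ_succ, g0, gs, k0, ks, d0, t0]
    rw [t1] at h1
    rw [t2] at h2
    push_cast
    rw [mul_add]
    linarith [h1, h2]

lemma mul_log_le {μ ε : ℝ} (hε : 0 < ε) (h0 : 0 < μ) (h1 : μ ≤ 1 + ε) :
    μ * Real.log μ ≤ (1 + ε) * Real.log (1 + ε) := by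
  have h2 : 0 ≤ (1 + ε) * Real.log (1 + ε) :=
    mul_nonneg (by linarith) (Real.log_nonneg (by linarith))
  rcases le_or_gt μ 1 with h | h
  · exact (mul_nonpos_of_nonneg_of_nonpos h0.le (Real.log_nonpos h0.le h)).trans h2
  · exact mul_le_mul h1 (Real.log_le_log h0 h1) (Real.log_nonneg h.le) (by linarith)

/-- entropy of a perturbation of a positive semidefinite matrix with eigenvalues at most one -/
lemma ent_le {ι : Type*} [Fintype ι] [DecidableEq ι] {G : Matrix ι ι ℂ}
    (hle : ∀ f : ι → ℂ, (star f ⬝ᵥ G.mulVec f).re ≤ ∑ i, ‖f i‖ ^ 2) {ε : ℝ} (hε : 0 < ε)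
    (hM : (G + ((ε : ℝ) : ℂ) • (1 : Matrix ι ι ℂ)).PosDef) :
    ent (G + ((ε : ℝ) : ℂ) • (1 : Matrix ι ι ℂ)) ≤
      Fintype.card ι * ((1 + ε) * Real.log (1 + ε)) := by
  rw [ent, dif_pos hM.1]
  have h1 : ∀ i, hM.1.eigenvalues i * Real.log (hM.1.eigenvalues i) ≤
      (1 + ε) * Real.log (1 + ε) := by
    intro i
    refine mul_log_le hε (hM.eigenvalues_pos i) ?_
    rw [hM.1.eigenvalues_eq i]
    set f : ι → ℂ := ⇑(hM.1.eigenvectorBasis i) with hf
    have hn : ∑ j, ‖f j‖ ^ 2 = 1 := by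
      have h2 := hM.1.eigenvectorBasis.orthonormal.1 i
      have h3 := EuclideanSpace.norm_sq_eq (hM.1.eigenvectorBasis i)
      rw [h2, one_pow] at h3
      exact h3.symm
    have hff : (star f ⬝ᵥ f) = ((∑ j, ‖f j‖ ^ 2 : ℝ) : ℂ) := by
      rw [dotProduct, Complex.ofReal_sum]
      refine Finset.sum_congr rfl fun j _ => ?_
      rw [Pi.star_apply, RCLike.star_def, Complex.conj_mul']
      push_cast
      rfl
    rw [Matrix.add_mulVec, dotProduct_add, Matrix.smul_mulVec, Matrix.one_mulVec,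
      dotProduct_smul, hff, hn]
    have h4 := hle f
    rw [hn] at h4
    simp only [RCLike.re_eq_complex_re, Complex.add_re]
    have h5 : (((ε : ℝ) : ℂ) • ((1 : ℝ) : ℂ)).re = ε := by simp
    rw [h5]
    linarith
  calc ∑ i, hM.1.eigenvalues i * Real.log (hM.1.eigenvalues i)
      ≤ ∑ _i : ι, (1 + ε) * Real.log (1 + ε) := Finset.sum_le_sum fun i _ => h1 i
    _ = Fintype.card ι * ((1 + ε) * Real.log (1 + ε)) := by
        rw [Finset.sum_const, Finset.card_univ, nsmul_eq_mul]

/-- the quadratic form bound by duality -/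
lemma gram_dual {ι : Type*} [Fintype ι] {N : ℕ} (a : Fin N → ι → ℂ)
    (ha : ∀ c : Fin N → ℂ, ∑ z, ‖∑ n, c n * a n z‖ ^ 2 ≤ ∑ n, ‖c n‖ ^ 2) (f : ι → ℂ) :
    (star f ⬝ᵥ (Matrix.of (fun z z' => ∑ n, a n z * star (a n z')) : Matrix ι ι ℂ).mulVec f).re ≤
      ∑ i, ‖f i‖ ^ 2 := by
  set c : Fin N → ℂ := fun n => ∑ z, star (a n z) * f z with hc
  set w : ι → ℂ := fun z => ∑ n, c n * a n z with hw
  have e1 : (Matrix.of (fun z z' => ∑ n, a n z * star (a n z')) : Matrix ι ι ℂ).mulVec f = w := by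
    funext z
    simp only [Matrix.mulVec, dotProduct, Matrix.of_apply, hw, hc, Finset.sum_mul]
    rw [Finset.sum_comm]
    refine Finset.sum_congr rfl fun n _ => Finset.sum_congr rfl fun z' _ => ?_
    ring
  have e2 : star f ⬝ᵥ w = ((∑ n, ‖c n‖ ^ 2 : ℝ) : ℂ) := by
    simp only [dotProduct, hw, Finset.mul_sum]
    rw [Finset.sum_comm, Complex.ofReal_sum]
    refine Finset.sum_congr rfl fun n _ => ?_
    have h1 : star (c n) = ∑ z, star (f z) * a n z := by
      simp only [hc, star_sum, star_mul', star_star]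
      refine Finset.sum_congr rfl fun z _ => ?_
      ring
    have h2 : ((‖c n‖ ^ 2 : ℝ) : ℂ) = c n * star (c n) := by
      rw [RCLike.star_def, Complex.mul_conj']
      push_cast
      rfl
    rw [h2, h1, Finset.mul_sum]
    refine Finset.sum_congr rfl fun z _ => ?_
    rw [Pi.star_apply]
    ring
  rw [e1, e2, Complex.ofReal_re]
  set S : ℝ := ∑ n, ‖c n‖ ^ 2 with hS
  set T : ℝ := ∑ i, ‖f i‖ ^ 2 with hT
  have hS0 : 0 ≤ S := Finset.sum_nonneg fun n _ => by positivity
  have hT0 : 0 ≤ T := Finset.sum_nonneg fun n _ => by positivity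
  have h3 : S ≤ ∑ z, ‖f z‖ * ‖w z‖ := by
    have h4 : S = (star f ⬝ᵥ w).re := by rw [e2, Complex.ofReal_re]
    rw [h4, dotProduct, Complex.re_sum]
    refine Finset.sum_le_sum fun z _ => ?_
    refine (Complex.re_le_norm _).trans ?_
    rw [norm_mul, Pi.star_apply, norm_star]
  have h5 : S ^ 2 ≤ T * S := by
    calc S ^ 2 ≤ (∑ z, ‖f z‖ * ‖w z‖) ^ 2 := pow_le_pow_left₀ hS0 h3 2
      _ ≤ (∑ z, ‖f z‖ ^ 2) * ∑ z, ‖w z‖ ^ 2 := Finset.sum_mul_sq_le_sq_mul_sq _ _ _
      _ ≤ T * S := mul_le_mul_of_nonneg_left (ha c) hT0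
  rcases hS0.eq_or_lt with h | h
  · rw [← h]; exact hT0
  · nlinarith

theorem disc {Y : Type*} [Fintype Y] [DecidableEq Y]
    {K : Matrix Y Y ℂ} (hK : K.IsHermitian) {κ : ℝ} (hκ0 : 0 < κ)
    (hκ : ∀ y, NormedSpace.exp (-K) y y = (κ : ℂ)) {d N : ℕ} (a : Fin N → (Fin d → Y) → ℂ)
    (ha : ∀ c : Fin N → ℂ, ∑ z, ‖∑ n, c n * a n z‖ ^ 2 ≤ ∑ n, ‖c n‖ ^ 2) :
    -(d : ℝ) * Real.log κ * ∑ z, ∑ n, ‖a n z‖ ^ 2
      + 1 / (2 * κ) * ∑ j : Fin d, ∑ z, ∑ y, ‖NormedSpace.exp (-((1 / 2 : ℂ) • K)) (z j) y‖ ^ 2 *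
        (√(∑ n, ‖a n z‖ ^ 2) - √(∑ n, ‖a n (Function.update z j y)‖ ^ 2)) ^ 2
    ≤ ∑ j : Fin d, (∑ n, ∑ z, ∑ y, K (z j) y * a n (Function.update z j y) * star (a n z)).re
      - ∑ z, (∑ n, ‖a n z‖ ^ 2) * Real.log (∑ n, ‖a n z‖ ^ 2) := by
  set G : Matrix (Fin d → Y) (Fin d → Y) ℂ :=
    Matrix.of (fun z z' => ∑ n, a n z * star (a n z')) with hGdef
  have hG : G.PosSemidef := by
    have h1 : G = (Matrix.of fun z n => a n z : Matrix (Fin d → Y) (Fin N) ℂ) *
        (Matrix.of fun z n => a n z : Matrix (Fin d → Y) (Fin N) ℂ)ᴴ := by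
      ext z z'
      simp [hGdef, Matrix.mul_apply]
    rw [h1]
    exact posSemidef_self_mul_conjTranspose _
  have hle := gram_dual a ha
  rw [← hGdef] at hle
  set r : (Fin d → Y) → ℝ := fun z => ∑ n, ‖a n z‖ ^ 2 with hr
  have hGr : ∀ z, (G z z).re = r z := by
    intro z
    simp only [hGdef, Matrix.of_apply, hr, Complex.re_sum]
    refine Finset.sum_congr rfl fun n _ => ?_
    rw [RCLike.star_def, Complex.mul_conj']
    norm_cast
  set k : Y → Y → ℝ := fun y y' => ‖NormedSpace.exp (-((1 / 2 : ℂ) • K)) y y'‖ ^ 2 with hk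
  set F : ℝ → ℝ := fun ε => Fintype.card (Fin d → Y) * ((1 + ε) * Real.log (1 + ε))
    + ∑ j : Fin d, (∑ z : Fin d → Y, ∑ y, K (z j) y * (G (Function.update z j y) z +
        (ε : ℂ) * (1 : Matrix (Fin d → Y) (Fin d → Y) ℂ) (Function.update z j y) z)).re
    - ∑ z, (r z + ε) * Real.log (r z + ε)
    - (-(d : ℝ) * Real.log κ * ∑ z, (r z + ε)
      + 1 / (2 * κ) * ∑ j : Fin d, ∑ z : Fin d → Y, ∑ y, k (z j) y *
        (√(r z + ε) - √(r (Function.update z j y) + ε)) ^ 2) with hF
  have hFpos : ∀ ε : ℝ, 0 < ε → 0 ≤ F ε := by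
    intro ε hε
    have hM : (G + ((ε : ℝ) : ℂ) • (1 : Matrix (Fin d → Y) (Fin d → Y) ℂ)).PosDef := by
      refine Matrix.PosDef.posSemidef_add hG ?_
      exact Matrix.PosDef.smul Matrix.PosDef.one (by exact_mod_cast hε)
    have h1 := echain hK hκ0 hκ hM
    have h2 := ent_le hle hε hM
    have h3 : ∀ z, ((G + ((ε : ℝ) : ℂ) • (1 : Matrix (Fin d → Y) (Fin d → Y) ℂ)) z z).re =
        r z + ε := by
      intro z
      rw [Matrix.add_apply, Matrix.smul_apply, Matrix.one_apply_eq, Complex.add_re, hGr]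
      simp
    have h4 : (trace (G + ((ε : ℝ) : ℂ) • (1 : Matrix (Fin d → Y) (Fin d → Y) ℂ))).re =
        ∑ z, (r z + ε) := by
      rw [trace, Complex.re_sum]
      exact Finset.sum_congr rfl fun z _ => h3 z
    simp only [h3, h4] at h1
    simp only [Matrix.add_apply, Matrix.smul_apply, smul_eq_mul] at h1
    simp only [hF, hk]
    linarith
  have hcont : ContinuousAt F 0 := by
    simp only [hF]
    have c1 : ContinuousAt (fun ε : ℝ => (1 + ε) * Real.log (1 + ε)) 0 := by
      refine ContinuousAt.mul (by fun_prop) ?_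
      exact ContinuousAt.log (by fun_prop) (by norm_num)
    have c2 : ∀ z, Continuous (fun ε : ℝ => (r z + ε) * Real.log (r z + ε)) := fun z =>
      Real.continuous_mul_log.comp (continuous_const.add continuous_id)
    have c3 : Continuous (fun ε : ℝ => ∑ z, (r z + ε) * Real.log (r z + ε)) :=
      continuous_finsetSum _ fun z _ => c2 z
    have c4 : Continuous (fun ε : ℝ => ∑ j : Fin d, (∑ z : Fin d → Y, ∑ y, K (z j) y *
        (G (Function.update z j y) z +
        (ε : ℂ) * (1 : Matrix (Fin d → Y) (Fin d → Y) ℂ) (Function.update z j y) z)).re) := by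
      fun_prop
    have c5 : Continuous (fun ε : ℝ => (-(d : ℝ) * Real.log κ * ∑ z, (r z + ε)
      + 1 / (2 * κ) * ∑ j : Fin d, ∑ z : Fin d → Y, ∑ y, k (z j) y *
        (√(r z + ε) - √(r (Function.update z j y) + ε)) ^ 2)) := by
      fun_prop
    exact (((continuousAt_const.mul c1).add c4.continuousAt).sub c3.continuousAt).sub
      c5.continuousAt
  have h0 : 0 ≤ F 0 := by
    have h1 : Filter.Tendsto F (nhdsWithin 0 (Set.Ioi 0)) (nhds (F 0)) :=
      hcont.tendsto.mono_left nhdsWithin_le_nhds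
    refine ge_of_tendsto h1 ?_
    filter_upwards [self_mem_nhdsWithin] with ε hε
    exact hFpos ε hε
  have hkin : ∀ j : Fin d, (∑ n, ∑ z, ∑ y, K (z j) y * a n (Function.update z j y) *
      star (a n z)) = ∑ z : Fin d → Y, ∑ y, K (z j) y * G (Function.update z j y) z := by
    intro j
    rw [Finset.sum_comm]
    refine Finset.sum_congr rfl fun z _ => ?_
    rw [Finset.sum_comm]
    refine Finset.sum_congr rfl fun y _ => ?_
    simp only [hGdef, Matrix.of_apply, Finset.mul_sum]
    refine Finset.sum_congr rfl fun n _ => ?_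
    ring
  simp only [hkin]
  simp only [hF, add_zero, Real.log_one, mul_zero, zero_add, Complex.ofReal_zero, zero_mul] at h0
  simp only [hr, hk] at h0
  linarith

end Pool.Agent.LTHD
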