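import Mathlib
import Pool.Agent.LTHD.Defs

/-!
# Riemann sums on the lattice `(2R/L) ℤ^d` in the box `[-R, R)^d`
-/

open Real Finset MeasureTheory Matrix ComplexOrder
open Pool.Agent.LiebT2

set_option autoImplicit false

namespace Pool.Agent.LTHD

variable {d k N : ℕ}

namespace RiemAux

/-- the cell with corner `XX R L z` -/
def cell (R : ℝ) (L : ℕ) (z : Fin d → ZMod L) : Set (Fin d → ℝ) :=
  Set.univ.pi fun i => Set.Ico (-R + 2 * R / L * ((z i).val : ℝ))
    (-R + 2 * R / L * ((z i).val : ℝ) + 2 * R / L)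

theorem ico_union {L : ℕ} [NeZero L] {R : ℝ} (hR : 0 < R) :
    (⋃ a : ZMod L, Set.Ico (-R + 2 * R / L * (a.val : ℝ))
      (-R + 2 * R / L * (a.val : ℝ) + 2 * R / L)) = Set.Ico (-R) R := by
  have hL : (0 : ℝ) < L := by exact_mod_cast Nat.pos_of_ne_zero (NeZero.ne L)
  have hh : (0 : ℝ) < 2 * R / L := by positivity
  ext x
  simp only [Set.mem_iUnion, Set.mem_Ico]
  constructor
  · rintro ⟨a, h1, h2⟩
    have ha : ((a.val : ℝ)) + 1 ≤ L := by exact_mod_cast ZMod.val_lt a
    have ha0 : (0 : ℝ) ≤ a.val := Nat.cast_nonneg _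
    constructor
    · nlinarith [mul_nonneg hh.le ha0]
    · have : 2 * R / L * (a.val : ℝ) + 2 * R / L ≤ 2 * R := by
        have := mul_le_mul_of_nonneg_left ha hh.le
        have e : 2 * R / L * L = 2 * R := by field_simp
        nlinarith
      linarith
  · rintro ⟨h1, h2⟩
    have hy : 0 ≤ (x + R) / (2 * R / L) := by
      apply div_nonneg _ hh.le
      linarith
    have hy2 : (x + R) / (2 * R / L) < L := by
      rw [div_lt_iff₀ hh]
      have e : (L : ℝ) * (2 * R / L) = 2 * R := by field_simp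
      rw [e]; linarith
    have hfl : ⌊(x + R) / (2 * R / L)⌋₊ < L := by
      rw [Nat.floor_lt hy]; exact hy2
    refine ⟨((⌊(x + R) / (2 * R / L)⌋₊ : ℕ) : ZMod L), ?_⟩
    rw [ZMod.val_natCast_of_lt hfl]
    have f1 := Nat.floor_le hy
    have f2 := Nat.lt_floor_add_one ((x + R) / (2 * R / L))
    rw [le_div_iff₀ hh] at f1
    rw [div_lt_iff₀ hh] at f2
    constructor <;> nlinarith

theorem cell_union {L : ℕ} [NeZero L] {R : ℝ} (hR : 0 < R) :
    (⋃ z : Fin d → ZMod L, cell R L z) = Set.univ.pi fun _ : Fin d => Set.Ico (-R) R := by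
  unfold cell
  rw [Set.iUnion_univ_pi (t := fun (_ : Fin d) (a : ZMod L) =>
    Set.Ico (-R + 2 * R / L * (a.val : ℝ)) (-R + 2 * R / L * (a.val : ℝ) + 2 * R / L))]
  congr 1
  funext i
  exact ico_union hR

theorem cell_disj {L : ℕ} [NeZero L] {R : ℝ} (hR : 0 < R) :
    Pairwise (Function.onFun Disjoint (cell (d := d) R L)) := by
  intro z z' hne
  have hL : (0 : ℝ) < L := by exact_mod_cast Nat.pos_of_ne_zero (NeZero.ne L)
  have hh : (0 : ℝ) < 2 * R / L := by positivity
  rw [Function.onFun, Set.disjoint_left]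
  intro x hx hx'
  apply hne
  funext i
  have h1 := hx i (Set.mem_univ i)
  have h2 := hx' i (Set.mem_univ i)
  apply ZMod.val_injective L
  by_contra hv
  rcases lt_or_gt_of_ne hv with hlt | hlt
  · have : (((z i).val : ℝ)) + 1 ≤ (z' i).val := by exact_mod_cast hlt
    have := mul_le_mul_of_nonneg_left this hh.le
    nlinarith [h1.2, h2.1]
  · have : (((z' i).val : ℝ)) + 1 ≤ (z i).val := by exact_mod_cast hlt
    have := mul_le_mul_of_nonneg_left this hh.le
    nlinarith [h1.1, h2.2]

theorem cell_meas {L : ℕ} {R : ℝ} (z : Fin d → ZMod L) : MeasurableSet (cell R L z) :=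
  MeasurableSet.univ_pi fun _ => measurableSet_Ico

theorem cell_vol {L : ℕ} [NeZero L] {R : ℝ} (hR : 0 < R) (z : Fin d → ZMod L) :
    (volume : Measure (Fin d → ℝ)).real (cell R L z) = (2 * R / L) ^ d := by
  have hL : (0 : ℝ) < L := by exact_mod_cast Nat.pos_of_ne_zero (NeZero.ne L)
  have hh : (0 : ℝ) < 2 * R / L := by positivity
  unfold cell Measure.real
  rw [Real.volume_pi_Ico_toReal (by intro i; simp only; linarith)]
  simp only [add_sub_cancel_left, Finset.prod_const, Finset.card_univ, Fintype.card_fin]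

theorem cell_fin {L : ℕ} {R : ℝ} (z : Fin d → ZMod L) :
    (volume : Measure (Fin d → ℝ)) (cell R L z) < ⊤ := by
  unfold cell
  rw [Real.volume_pi_Ico]
  exact ENNReal.prod_lt_top fun i _ => ENNReal.ofReal_lt_top

theorem hcs {R : ℝ} {F : (Fin d → ℝ) → ℝ}
    (hs : ∀ x, (∃ i, R ≤ |x i|) → F x = 0) : HasCompactSupport F := by
  apply HasCompactSupport.of_support_subset_isCompact
    (K := Set.univ.pi fun _ : Fin d => Set.Icc (-R) R) (isCompact_univ_pi fun _ => isCompact_Icc)
  intro x hx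
  rw [Function.mem_support] at hx
  rw [Set.mem_univ_pi]
  intro i
  by_contra hcon
  apply hx
  apply hs x ⟨i, ?_⟩
  rw [Set.mem_Icc, not_and_or, not_le, not_le] at hcon
  rcases hcon with h | h
  · rw [le_abs]; right; linarith
  · rw [le_abs]; left; linarith

end RiemAux

open RiemAux

theorem riem {d L : ℕ} [NeZero L] {R : ℝ} (hR : 0 < R) {F : (Fin d → ℝ) → ℝ} (hF : Continuous F)
    (hs : ∀ x, (∃ i, R ≤ |x i|) → F x = 0) {ω : ℝ}
    (hω : ∀ x y, (∀ i, |x i - y i| ≤ 2 * R / L) → |F x - F y| ≤ ω) :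
    |(2 * R / L) ^ d * ∑ z : Fin d → ZMod L, F (XX R L z) - ∫ x, F x| ≤ ω * (2 * R) ^ d := by
  have hL : (0 : ℝ) < L := by exact_mod_cast Nat.pos_of_ne_zero (NeZero.ne L)
  have hh : (0 : ℝ) < 2 * R / L := by positivity
  have hint : Integrable F := hF.integrable_of_hasCompactSupport (hcs hs)
  have hI : ∫ x, F x = ∑ z : Fin d → ZMod L, ∫ x in cell R L z, F x := by
    rw [← integral_iUnion_fintype (fun z => cell_meas z) (cell_disj hR)
      (fun z => hint.integrableOn), cell_union hR, setIntegral_eq_integral_of_forall_compl_eq_zero]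
    intro x hx
    rw [Set.mem_univ_pi] at hx
    push Not at hx
    obtain ⟨i, hi⟩ := hx
    apply hs x ⟨i, ?_⟩
    rw [Set.mem_Ico, not_and_or, not_le, not_lt] at hi
    rcases hi with h | h
    · rw [le_abs]; right; linarith
    · rw [le_abs]; left; linarith
  have hone : ∀ z : Fin d → ZMod L,
      |(2 * R / L) ^ d * F (XX R L z) - ∫ x in cell R L z, F x| ≤ ω * (2 * R / L) ^ d := by
    intro z
    have e : (2 * R / L) ^ d * F (XX R L z) - ∫ x in cell R L z, F x
        = ∫ x in cell R L z, (F (XX R L z) - F x) := by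
      have h1 : IntegrableOn (fun _ : Fin d → ℝ => F (XX R L z)) (cell R L z) volume :=
        integrableOn_const (cell_fin z).ne (by simp)
      rw [integral_sub h1 hint.integrableOn, setIntegral_const, cell_vol hR, smul_eq_mul]
    rw [e, ← Real.norm_eq_abs]
    have := norm_setIntegral_le_of_norm_le_const (μ := volume) (s := cell R L z) (C := ω)
      (f := fun x => F (XX R L z) - F x) (cell_fin z) (by
        intro x hx
        rw [Real.norm_eq_abs]
        apply hω
        intro i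
        have hi := hx i (Set.mem_univ i)
        simp only [XX]
        rw [abs_le]
        constructor <;> linarith [hi.1, hi.2])
    rw [cell_vol hR] at this
    exact this
  rw [hI, Finset.mul_sum, ← Finset.sum_sub_distrib]
  calc |∑ z : Fin d → ZMod L, ((2 * R / L) ^ d * F (XX R L z) - ∫ x in cell R L z, F x)|
      ≤ ∑ z : Fin d → ZMod L, |(2 * R / L) ^ d * F (XX R L z) - ∫ x in cell R L z, F x| :=
        Finset.abs_sum_le_sum_abs _ _
    _ ≤ ∑ z : Fin d → ZMod L, ω * (2 * R / L) ^ d := Finset.sum_le_sum fun z _ => hone z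
    _ = ω * (2 * R) ^ d := by
        rw [Finset.sum_const, Finset.card_univ, Fintype.card_fun, ZMod.card, Fintype.card_fin,
          nsmul_eq_mul, Nat.cast_pow, div_pow]
        field_simp

theorem riem_tendsto {d : ℕ} {R : ℝ} (hR : 0 < R) {F : (Fin d → ℝ) → ℝ} (hF : Continuous F)
    (hs : ∀ x, (∃ i, R ≤ |x i|) → F x = 0) {ε : ℝ} (hε : 0 < ε) :
    ∃ L₀ : ℕ, ∀ L : ℕ, L₀ ≤ L → ∀ [NeZero L],
      |(2 * R / L) ^ d * ∑ z : Fin d → ZMod L, F (XX R L z) - ∫ x, F x| ≤ ε := by
  have huc : UniformContinuous F := (hcs hs).uniformContinuous_of_continuous hF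
  have h2 : 0 < ε / (2 * R) ^ d := by positivity
  obtain ⟨δ, hδ, hd⟩ := Metric.uniformContinuous_iff.mp huc _ h2
  obtain ⟨L₀, hL₀⟩ := exists_nat_gt (2 * R / δ)
  refine ⟨L₀, fun L hLL _ => ?_⟩
  have hL : (0 : ℝ) < L := by exact_mod_cast Nat.pos_of_ne_zero (NeZero.ne L)
  have hlt : 2 * R / L < δ := by
    rw [div_lt_iff₀ hL]
    have : (L₀ : ℝ) ≤ L := by exact_mod_cast hLL
    rw [div_lt_iff₀ hδ] at hL₀
    nlinarith
  have hh : (0 : ℝ) < 2 * R / L := by positivity
  have := riem (L := L) hR hF hs (ω := ε / (2 * R) ^ d) (by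
    intro x y hxy
    have : dist x y < δ := by
      refine lt_of_le_of_lt ?_ hlt
      rw [dist_pi_le_iff hh.le]
      intro i
      rw [Real.dist_eq]
      exact hxy i
    have := hd this
    rw [Real.dist_eq] at this
    exact this.le)
  refine this.trans (le_of_eq ?_)
  field_simp

end Pool.Agent.LTHD
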