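import Mathlib
import Pool.Agent.LTHD.Defs
import Pool.Agent.LTHD.Riem

/-!
# Ent-a: the lattice Gram matrix is asymptotically at most one
-/

open Real Finset MeasureTheory Matrix ComplexOrder
open Pool.Agent.LiebT2

set_option autoImplicit false

namespace Pool.Agent.LTHD

variable {d k N : ℕ}

/-- expansion of the square of a linear combination -/
theorem enta_expand (c w : Fin N → ℂ) :
    ‖∑ n, c n * w n‖ ^ 2 = ∑ n, ∑ m, ((c n * star (c m)).re * (w n * star (w m)).re
      - (c n * star (c m)).im * (w n * star (w m)).im) := by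
  have h1 : ((‖∑ n, c n * w n‖ ^ 2 : ℝ) : ℂ) = (∑ n, c n * w n) * star (∑ n, c n * w n) := by
    rw [Complex.star_def, Complex.mul_conj, Complex.normSq_eq_norm_sq]
  have h2 : (∑ n, c n * w n) * star (∑ n, c n * w n)
      = ∑ n, ∑ m, (c n * star (c m)) * (w n * star (w m)) := by
    rw [star_sum, Finset.sum_mul_sum]
    refine Finset.sum_congr rfl fun n _ => Finset.sum_congr rfl fun m _ => ?_
    rw [star_mul']
    ring
  have h3 := congrArg Complex.re (h1.trans h2)
  rw [Complex.ofReal_re] at h3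
  rw [h3, Complex.re_sum]
  refine Finset.sum_congr rfl fun n _ => ?_
  rw [Complex.re_sum]
  exact Finset.sum_congr rfl fun m _ => Complex.mul_re _ _

/-- uniform version of `riem_tendsto` over a finite family -/
theorem enta_fin {ι : Type*} [Fintype ι] {R : ℝ} (hR : 0 < R) {F : ι → (Fin d → ℝ) → ℝ}
    (hF : ∀ i, Continuous (F i))
    (hs : ∀ i x, (∃ j, R ≤ |x j|) → F i x = 0) {ε : ℝ} (hε : 0 < ε) :
    ∃ L₀ : ℕ, ∀ L : ℕ, L₀ ≤ L → ∀ [NeZero L], ∀ i,
      |(2 * R / L) ^ d * ∑ z : Fin d → ZMod L, F i (XX R L z) - ∫ x, F i x| ≤ ε := by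
  choose L₀ hL₀ using fun i => riem_tendsto hR (hF i) (hs i) hε
  refine ⟨Finset.univ.sup L₀, fun L hL _ i => ?_⟩
  exact hL₀ i L ((Finset.le_sup (Finset.mem_univ i)).trans hL)

/-- Ent-a -/
theorem gram_lim {v : Fin N → (Fin d → ℝ) → ℂ} (hv : Fam v) (hb : Bes v) {R : ℝ} (hR : 0 < R)
    (hs : ∀ n x, (∃ i, R ≤ |x i|) → v n x = 0) {δ : ℝ} (hδ : 0 < δ) :
    ∃ L₀ : ℕ, ∀ L : ℕ, L₀ ≤ L → ∀ [NeZero L], ∀ c : Fin N → ℂ,
      (2 * R / L) ^ d * ∑ z : Fin d → ZMod L, ‖∑ n, c n * v n (XX R L z)‖ ^ 2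
        ≤ (1 + δ) * ∑ n, ‖c n‖ ^ 2 := by
  have hc : ∀ n, Continuous (v n) := fun n => (hv.smooth n).continuous
  set ε : ℝ := δ / (2 * (N + 1)) with hεd
  have hε : 0 < ε := by positivity
  have hεN : 2 * ε * N ≤ δ := by
    rw [hεd]
    rw [mul_comm 2, mul_assoc, div_mul_eq_mul_div, div_le_iff₀ (by positivity)]
    nlinarith
  obtain ⟨L₁, hL₁⟩ := enta_fin (ι := Fin N × Fin N) hR
    (F := fun p x => (v p.1 x * star (v p.2 x)).re)
    (fun p => Complex.continuous_re.comp ((hc p.1).mul (hc p.2).star))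
    (fun p x hx => by simp only [hs p.1 x hx, zero_mul, Complex.zero_re]) hε
  obtain ⟨L₂, hL₂⟩ := enta_fin (ι := Fin N × Fin N) hR
    (F := fun p x => (v p.1 x * star (v p.2 x)).im)
    (fun p => Complex.continuous_im.comp ((hc p.1).mul (hc p.2).star))
    (fun p x hx => by simp only [hs p.1 x hx, zero_mul, Complex.zero_im]) hε
  refine ⟨max L₁ L₂, fun L hL _ c => ?_⟩
  have h1 := fun p : Fin N × Fin N => hL₁ L ((le_max_left _ _).trans hL) p
  have h2 := fun p : Fin N × Fin N => hL₂ L ((le_max_right _ _).trans hL) p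
  have hint : ∀ n m, Integrable (fun x => v n x * star (v m x)) := by
    intro n m
    refine ((hc n).mul (hc m).star).integrable_of_hasCompactSupport ?_
    exact (hv.supp n).mul_right
  have hre : ∀ n m, Integrable (fun x => (v n x * star (v m x)).re) := fun n m => (hint n m).re
  have him : ∀ n m, Integrable (fun x => (v n x * star (v m x)).im) := fun n m => (hint n m).im
  -- the lattice sum
  have hS : (2 * R / L) ^ d * ∑ z : Fin d → ZMod L, ‖∑ n, c n * v n (XX R L z)‖ ^ 2
      = ∑ n, ∑ m, ((c n * star (c m)).re *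
          ((2 * R / L) ^ d * ∑ z : Fin d → ZMod L, (v n (XX R L z) * star (v m (XX R L z))).re)
        - (c n * star (c m)).im *
          ((2 * R / L) ^ d * ∑ z : Fin d → ZMod L, (v n (XX R L z) * star (v m (XX R L z))).im)) := by
    simp_rw [enta_expand c]
    rw [Finset.sum_comm, Finset.mul_sum]
    refine Finset.sum_congr rfl fun n _ => ?_
    rw [Finset.sum_comm, Finset.mul_sum]
    refine Finset.sum_congr rfl fun m _ => ?_
    rw [Finset.sum_sub_distrib, ← Finset.mul_sum, ← Finset.mul_sum]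
    ring
  -- the integral
  have hI : (∫ y, ‖∑ n, c n * v n y‖ ^ 2)
      = ∑ n, ∑ m, ((c n * star (c m)).re * (∫ y, (v n y * star (v m y)).re)
        - (c n * star (c m)).im * (∫ y, (v n y * star (v m y)).im)) := by
    simp_rw [enta_expand c]
    rw [integral_finset_sum]
    · refine Finset.sum_congr rfl fun n _ => ?_
      rw [integral_finset_sum]
      · refine Finset.sum_congr rfl fun m _ => ?_
        rw [integral_sub ((hre n m).const_mul _) ((him n m).const_mul _), integral_const_mul,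
          integral_const_mul]
      · intro m _
        exact ((hre n m).const_mul _).sub ((him n m).const_mul _)
    · intro n _
      exact integrable_finset_sum _ fun m _ => ((hre n m).const_mul _).sub ((him n m).const_mul _)
  have hdiff : (2 * R / L) ^ d * ∑ z : Fin d → ZMod L, ‖∑ n, c n * v n (XX R L z)‖ ^ 2
      - (∫ y, ‖∑ n, c n * v n y‖ ^ 2) ≤ ∑ n, ∑ m, 2 * ε * (‖c n‖ * ‖c m‖) := by
    rw [hS, hI, ← Finset.sum_sub_distrib]
    refine Finset.sum_le_sum fun n _ => ?_
    rw [← Finset.sum_sub_distrib]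
    refine Finset.sum_le_sum fun m _ => ?_
    have ha := h1 (n, m)
    have hb' := h2 (n, m)
    simp only at ha hb'
    set A := (2 * R / L) ^ d * ∑ z : Fin d → ZMod L, (v n (XX R L z) * star (v m (XX R L z))).re
      with hA
    set B := (2 * R / L) ^ d * ∑ z : Fin d → ZMod L, (v n (XX R L z) * star (v m (XX R L z))).im
      with hB
    set A' := ∫ y, (v n y * star (v m y)).re with hA'
    set B' := ∫ y, (v n y * star (v m y)).im with hB'
    have hre' : |(c n * star (c m)).re| ≤ ‖c n‖ * ‖c m‖ := by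
      refine (Complex.abs_re_le_norm _).trans (le_of_eq ?_)
      rw [norm_mul, norm_star]
    have him' : |(c n * star (c m)).im| ≤ ‖c n‖ * ‖c m‖ := by
      refine (Complex.abs_im_le_norm _).trans (le_of_eq ?_)
      rw [norm_mul, norm_star]
    have hn : 0 ≤ ‖c n‖ * ‖c m‖ := by positivity
    calc (c n * star (c m)).re * A - (c n * star (c m)).im * B
          - ((c n * star (c m)).re * A' - (c n * star (c m)).im * B')
        = (c n * star (c m)).re * (A - A') - (c n * star (c m)).im * (B - B') := by ring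
      _ ≤ |(c n * star (c m)).re * (A - A')| + |(c n * star (c m)).im * (B - B')| := by
          have e1 := le_abs_self ((c n * star (c m)).re * (A - A'))
          have e2 := neg_abs_le ((c n * star (c m)).im * (B - B'))
          linarith
      _ ≤ (‖c n‖ * ‖c m‖) * ε + (‖c n‖ * ‖c m‖) * ε := by
          rw [abs_mul, abs_mul]
          exact add_le_add (mul_le_mul hre' ha (abs_nonneg _) hn)
            (mul_le_mul him' hb' (abs_nonneg _) hn)
      _ = 2 * ε * (‖c n‖ * ‖c m‖) := by ring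
  have hsq : ∑ n, ∑ m, 2 * ε * (‖c n‖ * ‖c m‖) ≤ δ * ∑ n, ‖c n‖ ^ 2 := by
    have e1 : ∑ n, ∑ m, 2 * ε * (‖c n‖ * ‖c m‖) = 2 * ε * (∑ n, ‖c n‖) ^ 2 := by
      rw [sq, Finset.sum_mul_sum, Finset.mul_sum]
      refine Finset.sum_congr rfl fun n _ => ?_
      rw [Finset.mul_sum]
    have e2 : (∑ n, ‖c n‖) ^ 2 ≤ N * ∑ n, ‖c n‖ ^ 2 := by
      have := sq_sum_le_card_mul_sum_sq (s := (Finset.univ : Finset (Fin N)))
        (f := fun n => ‖c n‖)
      rwa [Finset.card_univ, Fintype.card_fin] at this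
    have e3 : 0 ≤ ∑ n, ‖c n‖ ^ 2 := Finset.sum_nonneg fun n _ => by positivity
    rw [e1]
    calc 2 * ε * (∑ n, ‖c n‖) ^ 2 ≤ 2 * ε * (N * ∑ n, ‖c n‖ ^ 2) :=
          mul_le_mul_of_nonneg_left e2 (by positivity)
      _ = (2 * ε * N) * ∑ n, ‖c n‖ ^ 2 := by ring
      _ ≤ δ * ∑ n, ‖c n‖ ^ 2 := mul_le_mul_of_nonneg_right hεN e3
  have hbc := hb c
  linarith

end Pool.Agent.LTHD
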