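import Mathlib
import Pool.Agent.LTHD.Defs
import Pool.Agent.LTHD.Riem

/-!
# Ent-b: the lattice kinetic energy is asymptotically at most the kinetic energy
-/

set_option autoImplicit false

open Real Finset MeasureTheory Matrix ComplexOrder
open Pool.Agent.LiebT2

namespace Pool.Agent.LTHD

variable {d k N : ℕ}

/-- uniform differentiability of a compactly supported `C¹` function -/
theorem entb_unif {f : (Fin d → ℝ) → ℂ} (hf : ContDiff ℝ 1 f) (hc : HasCompactSupport f)
    {ε : ℝ} (hε : 0 < ε) :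
    ∃ δ > 0, ∀ (x y : Fin d → ℝ), ‖y‖ < δ → ‖f (x + y) - f x - fderiv ℝ f x y‖ ≤ ε * ‖y‖ := by
  have hcont : Continuous (fderiv ℝ f) := hf.continuous_fderiv one_ne_zero
  have huc : UniformContinuous (fderiv ℝ f) := (hc.fderiv ℝ).uniformContinuous_of_continuous hcont
  obtain ⟨δ, hδ, h⟩ := Metric.uniformContinuous_iff.1 huc ε hε
  refine ⟨δ, hδ, fun x y hy => ?_⟩
  have h1 := (convex_ball x δ).norm_image_sub_le_of_norm_fderiv_le' (𝕜 := ℝ) (f := f)
    (φ := fderiv ℝ f x) (C := ε) (x := x) (y := x + y)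
    (fun z _ => (hf.differentiable one_ne_zero) z)
    (fun z hz => by
      have h2 := h (a := z) (b := x) (by simpa using hz)
      rw [dist_eq_norm] at h2
      exact h2.le)
    (Metric.mem_ball_self hδ)
    (by rw [Metric.mem_ball, dist_eq_norm]; simpa using hy)
  simpa using h1

/-- the squared difference quotient -/
theorem entb_quot {f : (Fin d → ℝ) → ℂ} (hf : ContDiff ℝ 1 f) (hc : HasCompactSupport f)
    {ω : ℝ} (hω : 0 < ω) :
    ∃ δ > 0, ∀ h : ℝ, 0 < h → h < δ → ∀ (x : Fin d → ℝ) (j : Fin d),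
      ‖f (x + Pi.single j h) - f x‖ ^ 2 / h ^ 2 ≤ ‖fderiv ℝ f x (Pi.single j 1)‖ ^ 2 + ω := by
  have hcont : Continuous (fderiv ℝ f) := hf.continuous_fderiv one_ne_zero
  obtain ⟨B, hB⟩ := (hc.fderiv ℝ).exists_bound_of_continuous hcont
  have hB0 : 0 ≤ B := (norm_nonneg _).trans (hB 0)
  set ε : ℝ := min 1 (ω / (2 * B + 1)) with hεd
  have hε : 0 < ε := lt_min one_pos (by positivity)
  have hε1 : ε ≤ 1 := min_le_left _ _
  have hε2 : ε * (2 * B + 1) ≤ ω := by
    have : ε ≤ ω / (2 * B + 1) := min_le_right _ _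
    rwa [le_div_iff₀ (by positivity)] at this
  obtain ⟨δ, hδ, h⟩ := entb_unif hf hc hε
  refine ⟨δ, hδ, fun h0 hh0 hhδ x j => ?_⟩
  have hn1 : ‖(Pi.single j h0 : Fin d → ℝ)‖ = h0 := by
    rw [Pi.norm_single, Real.norm_eq_abs, abs_of_pos hh0]
  have hn2 : ‖(Pi.single j (1:ℝ) : Fin d → ℝ)‖ = 1 := by
    rw [Pi.norm_single, norm_one]
  have hsm : (Pi.single j h0 : Fin d → ℝ) = h0 • (Pi.single j (1:ℝ) : Fin d → ℝ) := by
    rw [← Pi.single_smul, smul_eq_mul, mul_one]
  have h1 := h x (Pi.single j h0) (by rw [hn1]; exact hhδ)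
  set g : ℂ := fderiv ℝ f x (Pi.single j 1) with hg
  have hgB : ‖g‖ ≤ B := by
    have := (fderiv ℝ f x).le_opNorm (Pi.single j (1:ℝ))
    rw [hn2, mul_one] at this
    exact this.trans (hB x)
  rw [hn1, hsm, map_smul, ← hsm, ← hg] at h1
  have h2 : ‖f (x + Pi.single j h0) - f x‖ ≤ h0 * (‖g‖ + ε) := by
    calc ‖f (x + Pi.single j h0) - f x‖
        = ‖(f (x + Pi.single j h0) - f x - h0 • g) + h0 • g‖ := by rw [sub_add_cancel]
      _ ≤ ‖f (x + Pi.single j h0) - f x - h0 • g‖ + ‖h0 • g‖ := norm_add_le _ _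
      _ ≤ ε * h0 + h0 * ‖g‖ := by
          rw [norm_smul, Real.norm_eq_abs, abs_of_pos hh0]
          linarith
      _ = h0 * (‖g‖ + ε) := by ring
  rw [div_le_iff₀ (by positivity)]
  have h3 : ‖f (x + Pi.single j h0) - f x‖ ^ 2 ≤ (h0 * (‖g‖ + ε)) ^ 2 :=
    pow_le_pow_left₀ (norm_nonneg _) h2 2
  refine h3.trans ?_
  rw [mul_pow, mul_comm]
  refine mul_le_mul_of_nonneg_right ?_ (by positivity)
  have hg0 := norm_nonneg g
  nlinarith

/-- on the lattice the shift by one agrees with the shift by the mesh size where it matters -/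
theorem entb_shift {f : (Fin d → ℝ) → ℂ} {R : ℝ} (hR : 1 < R)
    (hs : ∀ x, (∃ i, R - 1 ≤ |x i|) → f x = 0) {L : ℕ} [NeZero L] (z : Fin d → ZMod L) (j : Fin d) :
    f (XX R L (z + Pi.single j 1)) = f (XX R L z + Pi.single j (2 * R / L)) := by
  have hL : (0:ℝ) < L := by exact_mod_cast Nat.pos_of_ne_zero (NeZero.ne L)
  by_cases hz : (z j).val + 1 < L
  · congr 1
    funext i
    unfold XX
    rw [Pi.add_apply, Pi.add_apply]
    by_cases hij : i = j
    · subst hij
      rw [Pi.single_eq_same, Pi.single_eq_same]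
      have h1 : (z i + 1).val = (z i).val + 1 := by
        have hL1 : 1 < L := by omega
        have : Fact (1 < L) := ⟨hL1⟩
        rw [ZMod.val_add_of_lt, ZMod.val_one]
        rw [ZMod.val_one]
        exact hz
      rw [h1]
      push_cast
      ring
    · rw [Pi.single_eq_of_ne hij, Pi.single_eq_of_ne hij, add_zero, add_zero]
  · have hlt := ZMod.val_lt (z j)
    have hz' : (z j).val + 1 = L := by omega
    have h1 : (z j + 1).val = 0 := by
      rw [ZMod.val_eq_zero]
      have h2 : z j + 1 = (((z j).val + 1 : ℕ) : ZMod L) := by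
        push_cast
        rw [ZMod.natCast_zmod_val]
      rw [h2, hz', ZMod.natCast_self]
    rw [hs _ ⟨j, ?_⟩, hs _ ⟨j, ?_⟩]
    · unfold XX
      rw [Pi.add_apply, Pi.single_eq_same]
      have h3 : ((z j).val : ℝ) = L - 1 := by
        have : (((z j).val + 1 : ℕ) : ℝ) = L := by rw [hz']
        push_cast at this
        linarith
      rw [h3]
      have h4 : -R + 2 * R / L * ((L:ℝ) - 1) + 2 * R / L = R := by
        field_simp
        ring
      rw [h4, abs_of_pos (by linarith)]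
      linarith
    · unfold XX
      rw [Pi.add_apply, Pi.single_eq_same, h1]
      push_cast
      rw [mul_zero, add_zero, abs_neg, abs_of_pos (by linarith)]
      linarith

/-- Ent-b -/
theorem kin_lim {v : Fin N → (Fin d → ℝ) → ℂ} (hv : Fam v) {R : ℝ} (hR : 1 < R)
    (hs : ∀ n x, (∃ i, R - 1 ≤ |x i|) → v n x = 0) {ε : ℝ} (hε : 0 < ε) :
    ∃ L₀ : ℕ, ∀ L : ℕ, L₀ ≤ L → ∀ [NeZero L],
      ∑ j : Fin d, ∑ n, (2 * R / L) ^ d * ∑ z : Fin d → ZMod L,
        ‖v n (XX R L (z + Pi.single j 1)) - v n (XX R L z)‖ ^ 2 / (2 * R / L) ^ 2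
        ≤ kin v + ε := by
  have hR0 : 0 < R := by linarith
  -- the density of the kinetic energy vanishes outside the box
  have hdens : ∀ x, (∃ i, R ≤ |x i|) → LiebT2.dens v x = 0 := by
    rintro x ⟨i, hi⟩
    unfold LiebT2.dens
    refine Finset.sum_eq_zero fun n _ => Finset.sum_eq_zero fun l _ => ?_
    have hU : {y : Fin d → ℝ | R - 1 < |y i|} ∈ nhds x := by
      apply IsOpen.mem_nhds
      · exact isOpen_lt continuous_const ((continuous_apply i).abs)
      · show R - 1 < |x i|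
        linarith
    have he : v n =ᶠ[nhds x] fun _ => (0:ℂ) := by
      filter_upwards [hU] with y hy
      exact hs n y ⟨i, (le_of_lt hy)⟩
    rw [he.fderiv_eq]
    simp
  obtain ⟨L₁, hL₁⟩ := riem_tendsto hR0 (continuous_dens hv) hdens (half_pos hε)
  -- the error
  set ω : ℝ := ε / (2 * ((d : ℝ) * N + 1) * (2 * R) ^ d) with hω
  have hωpos : 0 < ω := by positivity
  choose δ hδ hq using fun n => entb_quot (hv.smooth n) (hv.supp n) hωpos
  obtain ⟨δ₀, hδ₀, hδle⟩ : ∃ δ₀ > 0, ∀ n, δ₀ ≤ δ n := by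
    rcases isEmpty_or_nonempty (Fin N) with hN | hN
    · exact ⟨1, one_pos, fun n => (hN.false n).elim⟩
    · refine ⟨Finset.univ.inf' Finset.univ_nonempty δ, ?_, fun n => ?_⟩
      · rw [gt_iff_lt, Finset.lt_inf'_iff]
        exact fun n _ => hδ n
      · exact Finset.inf'_le _ (Finset.mem_univ n)
  obtain ⟨L₂, hL₂⟩ := exists_nat_gt (2 * R / δ₀)
  refine ⟨max L₁ L₂, fun L hL _ => ?_⟩
  have hLpos : (0:ℝ) < L := by exact_mod_cast Nat.pos_of_ne_zero (NeZero.ne L)
  set h : ℝ := 2 * R / L with hh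
  have hhpos : 0 < h := by positivity
  have hhδ : h < δ₀ := by
    have h1 : (L₂:ℝ) ≤ L := by exact_mod_cast (le_max_right _ _).trans hL
    rw [hh, div_lt_iff₀ hLpos]
    rw [div_lt_iff₀ hδ₀] at hL₂
    nlinarith
  have h1 := hL₁ L ((le_max_left _ _).trans hL)
  rw [← hh, abs_le] at h1
  have h2 : ∀ (j : Fin d) (n : Fin N), h ^ d * ∑ z : Fin d → ZMod L,
      ‖v n (XX R L (z + Pi.single j 1)) - v n (XX R L z)‖ ^ 2 / h ^ 2 ≤
      h ^ d * ∑ z : Fin d → ZMod L,
        (‖fderiv ℝ (v n) (XX R L z) (Pi.single j 1)‖ ^ 2 + ω) := by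
    intro j n
    refine mul_le_mul_of_nonneg_left (Finset.sum_le_sum fun z _ => ?_) (by positivity)
    rw [entb_shift hR (hs n) z j, ← hh]
    exact hq n h hhpos (hhδ.trans_le (hδle n)) _ j
  have hcard : h ^ d * ∑ _z : Fin d → ZMod L, ω = (2 * R) ^ d * ω := by
    rw [Finset.sum_const, Finset.card_univ, Fintype.card_fun, ZMod.card, Fintype.card_fin,
      nsmul_eq_mul]
    push_cast
    rw [← mul_assoc, ← mul_pow, hh, div_mul_cancel₀ _ hLpos.ne']
  calc ∑ j : Fin d, ∑ n, h ^ d * ∑ z : Fin d → ZMod L,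
        ‖v n (XX R L (z + Pi.single j 1)) - v n (XX R L z)‖ ^ 2 / h ^ 2
      ≤ ∑ j : Fin d, ∑ n : Fin N, h ^ d * ∑ z : Fin d → ZMod L,
        (‖fderiv ℝ (v n) (XX R L z) (Pi.single j 1)‖ ^ 2 + ω) :=
        Finset.sum_le_sum fun j _ => Finset.sum_le_sum fun n _ => h2 j n
    _ = ∑ j : Fin d, ∑ n : Fin N, (h ^ d * ∑ z : Fin d → ZMod L,
          ‖fderiv ℝ (v n) (XX R L z) (Pi.single j 1)‖ ^ 2 + (2 * R) ^ d * ω) := by
        refine Finset.sum_congr rfl fun j _ => Finset.sum_congr rfl fun n _ => ?_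
        rw [Finset.sum_add_distrib, mul_add, hcard]
    _ = h ^ d * ∑ z : Fin d → ZMod L, LiebT2.dens v (XX R L z) +
          (d * N) * ((2 * R) ^ d * ω) := by
        simp only [Finset.sum_add_distrib, Finset.sum_const, Finset.card_univ,
          Fintype.card_fin, nsmul_eq_mul]
        congr 1
        · simp only [← Finset.mul_sum]
          congr 1
          unfold LiebT2.dens
          have e1 : ∀ j : Fin d, ∑ n : Fin N, ∑ z : Fin d → ZMod L,
              ‖fderiv ℝ (v n) (XX R L z) (Pi.single j 1)‖ ^ 2 =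
              ∑ z : Fin d → ZMod L, ∑ n : Fin N,
              ‖fderiv ℝ (v n) (XX R L z) (Pi.single j 1)‖ ^ 2 := fun j => Finset.sum_comm
          simp only [e1]
          rw [Finset.sum_comm]
          refine Finset.sum_congr rfl fun z _ => ?_
          rw [Finset.sum_comm]
        · ring
    _ ≤ kin v + ε := by
        have h3 : (d * N : ℝ) * ((2 * R) ^ d * ω) ≤ ε / 2 := by
          have hRd : 0 < (2 * R) ^ d := by positivity
          have h4 : (2 * R) ^ d * ω = ε / (2 * ((d : ℝ) * N + 1)) := by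
            rw [hω]
            field_simp
          rw [h4, mul_div_assoc', div_le_div_iff₀ (by positivity) (by norm_num)]
          nlinarith [hε]
        have h5 : h ^ d * ∑ z : Fin d → ZMod L, LiebT2.dens v (XX R L z) ≤ kin v + ε / 2 := by
          unfold kin
          linarith [h1.2]
        linarith

end Pool.Agent.LTHD
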