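import Mathlib

open Real Finset MeasureTheory Matrix ComplexOrder

set_option autoImplicit false

namespace Pool.Agent.LTHD

/-- Riemann sums on the line, lower bound -/
theorem ec_riem_line {H : ℝ → ℝ} (hH : Continuous H) (hH0 : ∀ s, 0 ≤ H s) {b : ℝ} (hb : 0 < b)
    {ε : ℝ} (hε : 0 < ε) :
    ∃ h₀ : ℝ, 0 < h₀ ∧ ∀ h : ℝ, 0 < h → h ≤ h₀ →
      (∫ s in (-b)..b, H s) - ε ≤ ∑ m ∈ Finset.Icc (-(⌊b / h⌋)) ⌊b / h⌋, h * H (m * h) := by
  -- bound and modulus
  have hcomp : IsCompact (Set.Icc (-(b + 1)) (b + 1)) := isCompact_Icc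
  obtain ⟨B, hB⟩ := hcomp.exists_bound_of_continuousOn hH.continuousOn
  have hB' : ∀ s, |s| ≤ b + 1 → H s ≤ B := fun s hs => by
    have := hB s (abs_le.mp hs)
    exact le_trans (le_abs_self _) this
  have hB0 : 0 ≤ B := le_trans (hH0 0) (hB' 0 (by rw [abs_zero]; linarith))
  have huc := hcomp.uniformContinuousOn_of_continuous hH.continuousOn
  rw [Metric.uniformContinuousOn_iff_le] at huc
  obtain ⟨δ, hδ, hδ'⟩ := huc (ε / (4 * b + 4)) (by positivity)
  refine ⟨min (min δ 1) (ε / (4 * B + 4)), by positivity, fun h hh hle => ?_⟩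
  have h1 : h ≤ δ := le_trans hle (le_trans (min_le_left _ _) (min_le_left _ _))
  have h2 : h ≤ 1 := le_trans hle (le_trans (min_le_left _ _) (min_le_right _ _))
  have h3 : h ≤ ε / (4 * B + 4) := le_trans hle (min_le_right _ _)
  have hMnn : 0 ≤ ⌊b / h⌋ := Int.floor_nonneg.mpr (by positivity)
  obtain ⟨M, hM⟩ := Int.eq_ofNat_of_zero_le hMnn
  rw [hM]
  have hM1 : (M : ℝ) * h ≤ b := by
    have := Int.floor_le (b / h)
    rw [hM] at this
    rw [Int.cast_natCast] at this
    rwa [le_div_iff₀ hh] at this
  have hM2 : b < ((M : ℝ) + 1) * h := by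
    have := Int.lt_floor_add_one (b / h)
    rw [hM] at this
    rw [Int.cast_natCast] at this
    rwa [div_lt_iff₀ hh] at this
  have hint : ∀ x y, IntervalIntegrable H volume x y := fun x y => hH.intervalIntegrable x y
  -- splitting
  have hsplit : ∫ s in (-b)..b, H s = (∫ s in (-b)..(-(M * h)), H s) +
      (∫ s in (-(M * h))..(M * h), H s) + ∫ s in (M * h)..b, H s := by
    rw [intervalIntegral.integral_add_adjacent_intervals (hint _ _) (hint _ _),
      intervalIntegral.integral_add_adjacent_intervals (hint _ _) (hint _ _)]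
  have hle1 : ∫ s in (-b)..(-(M * h)), H s ≤ h * B := by
    calc ∫ s in (-b)..(-(M * h)), H s ≤ ∫ s in (-b)..(-(M * h)), B := by
          apply intervalIntegral.integral_mono_on (by linarith) (hint _ _) (by simp)
          intro x hx
          apply hB'
          rw [abs_le]
          constructor
          · linarith [hx.1]
          · have : 0 ≤ (M : ℝ) * h := by positivity
            linarith [hx.2]
      _ = (-(M * h) - -b) * B := by rw [intervalIntegral.integral_const, smul_eq_mul]
      _ ≤ h * B := by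
          apply mul_le_mul_of_nonneg_right _ hB0
          linarith
  have hle2 : ∫ s in (M * h)..b, H s ≤ h * B := by
    calc ∫ s in (M * h)..b, H s ≤ ∫ s in (M * h)..b, B := by
          apply intervalIntegral.integral_mono_on (by linarith) (hint _ _) (by simp)
          intro x hx
          apply hB'
          rw [abs_le]
          constructor
          · have : 0 ≤ (M : ℝ) * h := by positivity
            linarith [hx.1]
          · linarith [hx.2]
      _ = (b - M * h) * B := by rw [intervalIntegral.integral_const, smul_eq_mul]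
      _ ≤ h * B := by
          apply mul_le_mul_of_nonneg_right _ hB0
          linarith
  -- middle
  have hmid : ∫ s in (-(M * h))..(M * h), H s =
      ∑ k ∈ range (2 * M), ∫ s in (((k : ℕ) : ℝ) * h - M * h)..(((k + 1 : ℕ) : ℝ) * h - M * h), H s := by
    rw [intervalIntegral.sum_integral_adjacent_intervals
      (a := fun k : ℕ => (k : ℝ) * h - M * h) (fun k _ => hint _ _)]
    congr 1
    · simp
    · push_cast; ring
  have hterm : ∀ k ∈ range (2 * M),
      ∫ s in (((k : ℕ) : ℝ) * h - M * h)..(((k + 1 : ℕ) : ℝ) * h - M * h), H s ≤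
        h * H (((k : ℕ) : ℝ) * h - M * h) + h * (ε / (4 * b + 4)) := by
    intro k hk
    have hk' : (k : ℝ) + 1 ≤ 2 * M := by exact_mod_cast Nat.succ_le_of_lt (mem_range.mp hk)
    have hkl : (((k : ℕ) : ℝ) + 1) * h ≤ 2 * M * h := mul_le_mul_of_nonneg_right hk' hh.le
    have hk0 : 0 ≤ (k : ℝ) * h := by positivity
    calc ∫ s in (((k : ℕ) : ℝ) * h - M * h)..(((k + 1 : ℕ) : ℝ) * h - M * h), H s
        ≤ ∫ s in (((k : ℕ) : ℝ) * h - M * h)..(((k + 1 : ℕ) : ℝ) * h - M * h),
            (H (((k : ℕ) : ℝ) * h - M * h) + ε / (4 * b + 4)) := by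
          apply intervalIntegral.integral_mono_on (by push_cast; linarith) (hint _ _) (by simp)
          intro x hx
          push_cast at hx
          have hd := hδ' x ⟨by linarith [hx.1], by linarith [hx.2]⟩ (((k : ℕ) : ℝ) * h - M * h)
            ⟨by linarith, by linarith⟩ (by
              rw [Real.dist_eq, abs_le]
              constructor
              · linarith [hx.1]
              · linarith [hx.2])
          rw [Real.dist_eq] at hd
          linarith [le_abs_self (H x - H (((k : ℕ) : ℝ) * h - M * h))]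
      _ = h * H (((k : ℕ) : ℝ) * h - M * h) + h * (ε / (4 * b + 4)) := by
          rw [intervalIntegral.integral_const, smul_eq_mul]
          push_cast
          ring
  have hsum1 : ∑ k ∈ range (2 * M), h * H (((k : ℕ) : ℝ) * h - M * h) ≤
      ∑ m ∈ Finset.Icc (-(M : ℤ)) M, h * H (m * h) := by
    have himg : ∑ k ∈ range (2 * M), h * H (((k : ℕ) : ℝ) * h - M * h) =
        ∑ m ∈ (range (2 * M)).image (fun k : ℕ => (k : ℤ) - M), h * H (m * h) := by
      rw [sum_image]
      · apply sum_congr rfl
        intro k _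
        push_cast
        rw [sub_mul]
      · intro x _ y _ hxy
        have : (x : ℤ) - M = y - M := hxy
        omega
    rw [himg]
    apply sum_le_sum_of_subset_of_nonneg
    · intro m hm
      rw [mem_image] at hm
      obtain ⟨k, hk, rfl⟩ := hm
      rw [mem_range] at hk
      rw [Finset.mem_Icc]
      constructor <;> omega
    · intro m _ _
      exact mul_nonneg hh.le (hH0 _)
  have hsum2 : ∫ s in (-(M * h))..(M * h), H s ≤
      ∑ m ∈ Finset.Icc (-(M : ℤ)) M, h * H (m * h) + 2 * M * (h * (ε / (4 * b + 4))) := by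
    rw [hmid]
    refine le_trans (sum_le_sum hterm) ?_
    rw [sum_add_distrib, sum_const, card_range, nsmul_eq_mul]
    push_cast
    linarith
  have he1 : 2 * M * (h * (ε / (4 * b + 4))) ≤ ε / 2 := by
    have : 2 * (M * h) * (ε / (4 * b + 4)) ≤ 2 * b * (ε / (4 * b + 4)) := by
      apply mul_le_mul_of_nonneg_right (by linarith) (by positivity)
    have h5 : 2 * b * (ε / (4 * b + 4)) ≤ ε / 2 := by
      rw [mul_div_assoc', div_le_div_iff₀ (by positivity) (by norm_num)]
      nlinarith
    calc 2 * M * (h * (ε / (4 * b + 4))) = 2 * (M * h) * (ε / (4 * b + 4)) := by ring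
      _ ≤ _ := this.trans h5
  have he2 : 2 * (h * B) ≤ ε / 2 := by
    have : h * B ≤ ε / (4 * B + 4) * B := mul_le_mul_of_nonneg_right h3 hB0
    have h5 : 2 * (ε / (4 * B + 4) * B) ≤ ε / 2 := by
      have : 2 * (ε / (4 * B + 4) * B) = 2 * B * ε / (4 * B + 4) := by ring
      rw [this, div_le_div_iff₀ (by positivity) (by norm_num)]
      nlinarith
    linarith
  rw [hsplit]
  linarith

end Pool.Agent.LTHD
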