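import Mathlib
import Pool.Agent.LTHD.Defs
import Pool.Agent.LTHD.Riem
import Pool.Agent.LTHD.EntCa

open Real Finset MeasureTheory Matrix ComplexOrder
open Pool.Agent.LiebT2

set_option autoImplicit false

namespace Pool.Agent.LTHD

variable {d k N : ℕ}

/-- squared difference of `g` and its shift -/
noncomputable def ecFF (g : (Fin d → ℝ) → ℝ) (j : Fin d) (s : ℝ) (x : Fin d → ℝ) : ℝ :=
  (g x - g (x + Pi.single j s)) ^ 2

/-- shift on the lattice -/
theorem ec_XX_shift {L : ℕ} [NeZero L] {b R : ℝ} (hb : 0 < b) (hR : b + 1 < R)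
    {g : (Fin d → ℝ) → ℝ} (hg : ∀ x, (∃ i, R - b - 1 ≤ |x i|) → g x = 0) (j : Fin d)
    (z : Fin d → ZMod L) {m : ℤ} (hm : |(m : ℝ)| * (2 * R / L) ≤ b) :
    g (XX R L (z + Pi.single j (m : ZMod L))) = g (XX R L z + Pi.single j ((m : ℝ) * (2 * R / L))) := by
  have hL : (0 : ℝ) < L := by exact_mod_cast Nat.pos_of_ne_zero (NeZero.ne L)
  have hR0 : 0 < R := by linarith
  set h : ℝ := 2 * R / L with hh
  have hh0 : 0 < h := by positivity
  have hLh : (L : ℝ) * h = 2 * R := by rw [hh]; field_simp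
  -- the value
  have hv : (((z j + (m : ZMod L)).val : ℕ) : ℤ) = (((z j).val : ℤ) + m) % L := by
    have h1 : (z j + (m : ZMod L)) = (((((z j).val : ℤ) + m : ℤ)) : ZMod L) := by
      push_cast
      rw [ZMod.natCast_val, ZMod.cast_id', id]
    rw [h1, ZMod.val_intCast]
  obtain ⟨y, hy⟩ : ∃ y : Fin d → ℝ, y = XX R L (z + Pi.single j (m : ZMod L)) := ⟨_, rfl⟩
  obtain ⟨w, hw⟩ : ∃ w : Fin d → ℝ, w = XX R L z + Pi.single j ((m : ℝ) * h) := ⟨_, rfl⟩
  rw [← hy, ← hw]
  have hcoordne : ∀ i, i ≠ j → y i = XX R L z i := by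
    intro i hi
    rw [hy]
    unfold XX
    rw [Pi.add_apply, Pi.single_eq_of_ne hi, add_zero]
  have hcoord2 : ∀ i, i ≠ j → w i = XX R L z i := by
    intro i hi
    rw [hw, Pi.add_apply, Pi.single_eq_of_ne hi, add_zero]
  have hj1 : y j = -R + h * ((((((z j).val : ℤ) + m) % L : ℤ)) : ℝ) := by
    rw [hy]
    unfold XX
    rw [Pi.add_apply, Pi.single_eq_same, ← hv, Int.cast_natCast]
  have hj2 : w j = -R + h * (((((z j).val : ℤ) + m : ℤ)) : ℝ) := by
    rw [hw, Pi.add_apply, Pi.single_eq_same]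
    unfold XX
    push_cast
    ring
  have hval : (z j).val < L := ZMod.val_lt _
  have hLZ : (0 : ℤ) < L := by exact_mod_cast Nat.pos_of_ne_zero (NeZero.ne L)
  have hmabs := abs_le.mp (show |(m : ℝ) * h| ≤ b by rwa [abs_mul, abs_of_pos hh0])
  have hv0 : (0 : ℝ) ≤ ((z j).val : ℝ) * h := by positivity
  have hvL : ((z j).val : ℝ) * h ≤ L * h - h := by
    have : ((z j).val : ℝ) + 1 ≤ L := by exact_mod_cast Nat.succ_le_of_lt hval
    nlinarith
  by_cases hlo : ((z j).val : ℤ) + m < 0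
  · -- below
    have hmL : -(L : ℤ) ≤ ((z j).val : ℤ) + m := by
      by_contra hcon
      push Not at hcon
      have h3 : (((z j).val : ℝ)) + m < -L := by exact_mod_cast hcon
      have h4 : ((((z j).val : ℝ)) + m) * h < -L * h := mul_lt_mul_of_pos_right h3 hh0
      nlinarith
    have hmod : (((z j).val : ℤ) + m) % L = ((z j).val : ℤ) + m + L := by
      rw [← Int.add_emod_right]
      exact Int.emod_eq_of_lt (by omega) (by omega)
    have e1 : g w = 0 := by
      apply hg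
      refine ⟨j, ?_⟩
      rw [hj2]
      have : (((((z j).val : ℤ) + m : ℤ)) : ℝ) < 0 := by exact_mod_cast hlo
      have h7 : h * (((((z j).val : ℤ) + m : ℤ)) : ℝ) < 0 := mul_neg_of_pos_of_neg hh0 this
      rw [abs_of_nonpos (by linarith)]
      linarith
    have e2 : g y = 0 := by
      apply hg
      refine ⟨j, ?_⟩
      rw [hj1, hmod]
      push_cast
      have h7 : -R + h * (((z j).val : ℝ) + m + L) = ((z j).val : ℝ) * h + m * h + L * h - R := by ring
      rw [h7, abs_of_nonneg (by linarith)]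
      linarith
    rw [e1, e2]
  · by_cases hhi : (L : ℤ) ≤ ((z j).val : ℤ) + m
    · have hmL : ((z j).val : ℤ) + m < 2 * L := by
        by_contra hcon
        push Not at hcon
        have h3 : 2 * (L : ℝ) ≤ (((z j).val : ℝ)) + m := by exact_mod_cast hcon
        have h4 : 2 * (L : ℝ) * h ≤ ((((z j).val : ℝ)) + m) * h := mul_le_mul_of_nonneg_right h3 hh0.le
        nlinarith
      have hmod : (((z j).val : ℤ) + m) % L = ((z j).val : ℤ) + m - L := by
        rw [← Int.sub_emod_right]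
        exact Int.emod_eq_of_lt (by omega) (by omega)
      have e1 : g w = 0 := by
        apply hg
        refine ⟨j, ?_⟩
        rw [hj2]
        have : (L : ℝ) ≤ (((((z j).val : ℤ) + m : ℤ)) : ℝ) := by exact_mod_cast hhi
        have h7 : h * (L : ℝ) ≤ h * (((((z j).val : ℤ) + m : ℤ)) : ℝ) :=
          mul_le_mul_of_nonneg_left this hh0.le
        rw [abs_of_nonneg (by linarith)]
        linarith
      have e2 : g y = 0 := by
        apply hg
        refine ⟨j, ?_⟩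
        rw [hj1, hmod]
        push_cast
        have h7 : -R + h * (((z j).val : ℝ) + m - L) = ((z j).val : ℝ) * h + m * h - L * h - R := by
          ring
        rw [h7, abs_of_nonpos (by linarith)]
        linarith
      rw [e1, e2]
    · have hmod : (((z j).val : ℤ) + m) % L = ((z j).val : ℤ) + m :=
        Int.emod_eq_of_lt (by omega) (by omega)
      congr 1
      funext i
      by_cases hi : i = j
      · subst hi
        rw [hj1, hj2, hmod]
      · rw [hcoordne i hi, hcoord2 i hi]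

theorem ec_continuous_FF {g : (Fin d → ℝ) → ℝ} (hgc : Continuous g) (j : Fin d) :
    Continuous (Function.uncurry (ecFF g j)) := by
  have hsing : Continuous (fun p : ℝ × (Fin d → ℝ) => (Pi.single j p.1 : Fin d → ℝ)) :=
    (continuous_single (A := fun _ : Fin d => ℝ) j).comp continuous_fst
  have : Continuous (fun p : ℝ × (Fin d → ℝ) =>
      (g p.2 - g (p.2 + (Pi.single j p.1 : Fin d → ℝ))) ^ 2) :=
    ((hgc.comp continuous_snd).sub (hgc.comp (continuous_snd.add hsing))).pow 2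
  exact this

theorem ec_FF_zero {g : (Fin d → ℝ) → ℝ} {b R : ℝ} (hb : 0 < b)
    (hgs : ∀ x, (∃ i, R - b - 1 ≤ |x i|) → g x = 0) (j : Fin d) {s : ℝ} (hsb : |s| ≤ b)
    (x : Fin d → ℝ) (hx : ∃ i, R ≤ |x i|) : ecFF g j s x = 0 := by
  obtain ⟨i, hi⟩ := hx
  have h1 : g x = 0 := hgs x ⟨i, by linarith⟩
  have h2 : g (x + Pi.single j s) = 0 := by
    apply hgs
    refine ⟨i, ?_⟩
    rw [Pi.add_apply]
    by_cases hij : i = j
    · subst hij
      rw [Pi.single_eq_same]
      have := abs_sub_abs_le_abs_sub (x i) (-s)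
      rw [abs_neg, sub_neg_eq_add] at this
      linarith
    · rw [Pi.single_eq_of_ne hij, add_zero]
      linarith
  unfold ecFF
  rw [h1, h2]
  norm_num

theorem ec_FF_mod {g : (Fin d → ℝ) → ℝ} (hg0 : ∀ x, 0 ≤ g x) {C : ℝ} (hC0 : 0 ≤ C)
    (hC' : ∀ x, g x ≤ C) {δ ω : ℝ} (hω0 : 0 < ω)
    (hδ' : ∀ x y : Fin d → ℝ, dist x y ≤ δ → |g x - g y| ≤ ω / (4 * C + 4)) (j : Fin d) (s : ℝ)
    (x y : Fin d → ℝ) (hd1 : dist x y ≤ δ) : |ecFF g j s x - ecFF g j s y| ≤ ω := by
  obtain ⟨x', hx'⟩ : ∃ x' : Fin d → ℝ, x' = x + Pi.single j s := ⟨_, rfl⟩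
  obtain ⟨y', hy'⟩ : ∃ y' : Fin d → ℝ, y' = y + Pi.single j s := ⟨_, rfl⟩
  have hd2 : dist x' y' ≤ δ := by
    rw [hx', hy', dist_add_right]; exact hd1
  have e1 := hδ' x y hd1
  have e2 := hδ' x' y' hd2
  unfold ecFF
  rw [← hx', ← hy']
  have key : (g x - g x') ^ 2 - (g y - g y') ^ 2 = ((g x - g y) - (g x' - g y')) *
      ((g x - g x') + (g y - g y')) := by
    ring
  have b1 : |(g x - g y) - (g x' - g y')| ≤ 2 * (ω / (4 * C + 4)) := by
    have := abs_sub (g x - g y) (g x' - g y')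
    linarith
  have b2 : |(g x - g x') + (g y - g y')| ≤ 2 * C := by
    rw [abs_le]
    have q1 := hg0 x; have q2 := hC' x
    have q3 := hg0 y; have q4 := hC' y
    have q5 := hg0 x'; have q6 := hC' x'
    have q7 := hg0 y'; have q8 := hC' y'
    constructor <;> linarith
  rw [key, abs_mul]
  calc _ ≤ 2 * (ω / (4 * C + 4)) * (2 * C) :=
        mul_le_mul b1 b2 (abs_nonneg _) (by positivity)
    _ = ω * ((4 * C) / (4 * C + 4)) := by ring
    _ ≤ ω * 1 := by
        apply mul_le_mul_of_nonneg_left _ hω0.le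
        rw [div_le_one (by positivity)]
        linarith
    _ = ω := mul_one _

/-- the version for one function -/
theorem ec_gain_g {g : (Fin d → ℝ) → ℝ} (hgc : Continuous g) (hg0 : ∀ x, 0 ≤ g x) {b R : ℝ}
    (hb : 0 < b) (hR : b + 1 < R) (hgs : ∀ x, (∃ i, R - b - 1 ≤ |x i|) → g x = 0) (j : Fin d)
    {ε : ℝ} (hε : 0 < ε) :
    ∃ L₀ : ℕ, ∀ L : ℕ, L₀ ≤ L → ∀ [NeZero L],
      (∫ s in (-b)..b, ∫ x, ecFF g j s x) - ε ≤
        ∑ m ∈ Finset.Icc (-(⌊b / (2 * R / L)⌋)) ⌊b / (2 * R / L)⌋, (2 * R / L) * ((2 * R / L) ^ d *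
          ∑ z : Fin d → ZMod L, (g (XX R L z) - g (XX R L (z + Pi.single j (m : ZMod L)))) ^ 2) := by
  have hR0 : 0 < R := by linarith
  have hgcs : HasCompactSupport g := by
    apply HasCompactSupport.intro' (K := Set.Icc (fun _ : Fin d => -R) (fun _ => R)) isCompact_Icc
      isClosed_Icc
    intro x hx
    by_contra hne
    apply hx
    have hall : ∀ i, |x i| ≤ R := by
      intro i
      by_contra hcon
      push Not at hcon
      exact hne (hgs x ⟨i, by linarith⟩)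
    exact ⟨fun i => (abs_le.mp (hall i)).1, fun i => (abs_le.mp (hall i)).2⟩
  obtain ⟨C, hC⟩ := hgcs.exists_bound_of_continuous hgc
  have hC' : ∀ x, g x ≤ C := fun x => le_trans (le_abs_self _) (hC x)
  have hC0 : 0 ≤ C := le_trans (hg0 0) (hC' 0)
  have huc : UniformContinuous g := hgcs.uniformContinuous_of_continuous hgc
  have hFc2 := ec_continuous_FF hgc j
  have hFc : ∀ s, Continuous (ecFF g j s) := fun s =>
    hFc2.comp (Continuous.prodMk continuous_const continuous_id)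
  have hFs : ∀ s, |s| ≤ b → ∀ x, (∃ i, R ≤ |x i|) → ecFF g j s x = 0 :=
    fun s hsb x hx => ec_FF_zero hb hgs j hsb x hx
  -- the function Hs on the box
  obtain ⟨H, hH⟩ : ∃ H : ℝ → ℝ, H = fun s => ∫ x in Set.Icc (fun _ : Fin d => -R) (fun _ => R),
      ecFF g j s x := ⟨_, rfl⟩
  have hHc : Continuous H := by
    rw [hH]
    exact continuous_parametric_integral_of_continuous (μ := (volume : Measure (Fin d → ℝ)))
      hFc2 (s := Set.Icc (fun _ : Fin d => -R) (fun _ => R)) isCompact_Icc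
  have hH0 : ∀ s, 0 ≤ H s := fun s => by
    rw [hH]
    exact integral_nonneg fun x => sq_nonneg _
  have hHI : ∀ s, |s| ≤ b → H s = ∫ x, ecFF g j s x := by
    intro s hsb
    rw [hH]
    apply setIntegral_eq_integral_of_forall_compl_eq_zero
    intro x hx
    by_contra hcon
    apply hx
    have hall : ∀ i, |x i| ≤ R := by
      intro i
      by_contra hcon2
      push Not at hcon2
      exact hcon (hFs s hsb x ⟨i, hcon2.le⟩)
    exact ⟨fun i => (abs_le.mp (hall i)).1, fun i => (abs_le.mp (hall i)).2⟩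
  have hIeq : ∫ s in (-b)..b, ∫ x, ecFF g j s x = ∫ s in (-b)..b, H s := by
    apply intervalIntegral.integral_congr
    intro s hs1
    rw [Set.uIcc_of_le (by linarith)] at hs1
    exact (hHI s (abs_le.mpr hs1)).symm
  obtain ⟨h₀, hh₀, hriem⟩ := ec_riem_line hHc hH0 hb (show 0 < ε / 2 by linarith)
  -- modulus
  obtain ⟨ω, hω⟩ : ∃ ω : ℝ, ω = ε / 2 / ((2 * b + 1) * (2 * R) ^ d) := ⟨_, rfl⟩
  have hω0 : 0 < ω := by rw [hω]; positivity
  rw [Metric.uniformContinuous_iff_le] at huc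
  obtain ⟨δ, hδ, hδ'⟩ := huc (ω / (4 * C + 4)) (by positivity)
  have hmod : ∀ s, ∀ x y : Fin d → ℝ, (∀ i, |x i - y i| ≤ δ) → |ecFF g j s x - ecFF g j s y| ≤ ω := by
    intro s x y hxy
    have hd1 : dist x y ≤ δ := (dist_pi_le_iff hδ.le).mpr fun i => by
      rw [Real.dist_eq]; exact hxy i
    exact ec_FF_mod hg0 hC0 hC' hω0 (fun x y hh => by
      have := hδ' hh
      rwa [Real.dist_eq] at this) j s x y hd1
  -- choice of L₀
  obtain ⟨L₁, hL₁⟩ := exists_nat_gt (2 * R / min (min h₀ δ) 1)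
  refine ⟨L₁, fun L hL hLne => ?_⟩
  have hLp : (0 : ℝ) < L := by exact_mod_cast Nat.pos_of_ne_zero (NeZero.ne L)
  have hmin : 0 < min (min h₀ δ) 1 := by positivity
  have hhle : 2 * R / L ≤ min (min h₀ δ) 1 := by
    rw [div_le_iff₀ hLp]
    have : 2 * R < L₁ * min (min h₀ δ) 1 := by rwa [div_lt_iff₀ hmin] at hL₁
    have h2 : (L₁ : ℝ) * min (min h₀ δ) 1 ≤ L * min (min h₀ δ) 1 :=
      mul_le_mul_of_nonneg_right (by exact_mod_cast hL) hmin.le
    linarith
  have hha : 2 * R / L ≤ h₀ := hhle.trans ((min_le_left _ _).trans (min_le_left _ _))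
  have hhb : 2 * R / L ≤ δ := hhle.trans ((min_le_left _ _).trans (min_le_right _ _))
  have hhc : 2 * R / L ≤ 1 := hhle.trans (min_le_right _ _)
  have hh0 : 0 < 2 * R / (L : ℝ) := by positivity
  have hmain := hriem (2 * R / L) hh0 hha
  have hMnn : 0 ≤ ⌊b / (2 * R / (L : ℝ))⌋ := Int.floor_nonneg.mpr (by positivity)
  have hM1 : (⌊b / (2 * R / (L : ℝ))⌋ : ℝ) * (2 * R / L) ≤ b := by
    have := Int.floor_le (b / (2 * R / (L : ℝ)))
    rwa [le_div_iff₀ hh0] at this
  rw [hIeq]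
  -- termwise comparison
  have hterm : ∀ m ∈ Finset.Icc (-(⌊b / (2 * R / (L : ℝ))⌋)) ⌊b / (2 * R / (L : ℝ))⌋,
      (2 * R / L) * H (m * (2 * R / L)) - (2 * R / L) * (ω * (2 * R) ^ d) ≤
        (2 * R / L) * ((2 * R / L) ^ d *
          ∑ z : Fin d → ZMod L, (g (XX R L z) - g (XX R L (z + Pi.single j (m : ZMod L)))) ^ 2) := by
    intro m hm
    rw [Finset.mem_Icc] at hm
    have hmabs : |(m : ℝ)| * (2 * R / L) ≤ b := by
      have h1 : |(m : ℝ)| ≤ (⌊b / (2 * R / (L : ℝ))⌋ : ℝ) := by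
        rw [abs_le]
        constructor
        · exact_mod_cast hm.1
        · exact_mod_cast hm.2
      exact le_trans (mul_le_mul_of_nonneg_right h1 hh0.le) hM1
    have hmabs' : |(m : ℝ) * (2 * R / L)| ≤ b := by rwa [abs_mul, abs_of_pos hh0]
    have hsum : ∑ z : Fin d → ZMod L, (g (XX R L z) - g (XX R L (z + Pi.single j (m : ZMod L)))) ^ 2 =
        ∑ z : Fin d → ZMod L, ecFF g j (m * (2 * R / L)) (XX R L z) := by
      apply Finset.sum_congr rfl
      intro z _
      rw [ec_XX_shift (L := L) hb hR hgs j z (m := m) hmabs]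
      rfl
    rw [hsum, ← mul_sub]
    apply mul_le_mul_of_nonneg_left _ hh0.le
    have hr := riem (L := L) hR0 (hFc (m * (2 * R / L))) (hFs (m * (2 * R / L)) hmabs') (ω := ω)
      (fun x y hxy => hmod (m * (2 * R / L)) x y fun i => (hxy i).trans hhb)
    rw [← hHI _ hmabs'] at hr
    linarith [(abs_le.mp hr).1]
  have hsumle := Finset.sum_le_sum hterm
  rw [Finset.sum_sub_distrib, Finset.sum_const, nsmul_eq_mul, Int.card_Icc] at hsumle
  have hcard : (((⌊b / (2 * R / (L : ℝ))⌋ + 1 - -⌊b / (2 * R / (L : ℝ))⌋).toNat : ℕ) : ℝ) =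
      2 * (⌊b / (2 * R / (L : ℝ))⌋ : ℝ) + 1 := by
    have h1 : (((⌊b / (2 * R / (L : ℝ))⌋ + 1 - -⌊b / (2 * R / (L : ℝ))⌋).toNat : ℕ) : ℤ) =
        2 * ⌊b / (2 * R / (L : ℝ))⌋ + 1 := by
      rw [Int.toNat_of_nonneg (by linarith)]
      ring
    exact_mod_cast h1
  rw [hcard] at hsumle
  have herr : (2 * (⌊b / (2 * R / (L : ℝ))⌋ : ℝ) + 1) * ((2 * R / L) * (ω * (2 * R) ^ d)) ≤ ε / 2 := by
    have h1 : (2 * (⌊b / (2 * R / (L : ℝ))⌋ : ℝ) + 1) * (2 * R / L) ≤ 2 * b + 1 := by linarith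
    have h2 : (2 * (⌊b / (2 * R / (L : ℝ))⌋ : ℝ) + 1) * ((2 * R / L) * (ω * (2 * R) ^ d)) =
        ((2 * (⌊b / (2 * R / (L : ℝ))⌋ : ℝ) + 1) * (2 * R / L)) * (ω * (2 * R) ^ d) := by ring
    rw [h2]
    calc _ ≤ (2 * b + 1) * (ω * (2 * R) ^ d) :=
          mul_le_mul_of_nonneg_right h1 (by positivity)
      _ = ε / 2 := by
          rw [hω]
          field_simp
  linarith

/-- Ent-c -/
theorem gain_lim {v : Fin N → (Fin d → ℝ) → ℂ} (hv : Fam v) {b R : ℝ} (hb : 0 < b) (hR : b + 1 < R)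
    (hs : ∀ n x, (∃ i, R - b - 1 ≤ |x i|) → v n x = 0) (j : Fin d) {ε : ℝ} (hε : 0 < ε) :
    ∃ L₀ : ℕ, ∀ L : ℕ, L₀ ≤ L → ∀ [NeZero L],
      (∫ s in (-b)..b, Hs v j s) - ε ≤
        ∑ m ∈ Finset.Icc (-(⌊b / (2 * R / L)⌋)) ⌊b / (2 * R / L)⌋, (2 * R / L) * ((2 * R / L) ^ d *
          ∑ z : Fin d → ZMod L, (√(rho v (XX R L z)) -
            √(rho v (XX R L (z + Pi.single j (m : ZMod L))))) ^ 2) := by
  have hgs : ∀ x, (∃ i, R - b - 1 ≤ |x i|) → (fun x => √(rho v x)) x = 0 := by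
    intro x hx
    have : rho v x = 0 := by
      unfold rho
      exact Finset.sum_eq_zero fun n _ => by rw [hs n x hx]; simp
    show √(rho v x) = 0
    rw [this, Real.sqrt_zero]
  exact ec_gain_g (g := fun x => √(rho v x)) (continuous_rho hv).sqrt (fun x => Real.sqrt_nonneg _)
    hb hR hgs j hε

end Pool.Agent.LTHD
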