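import Mathlib
import Pool.Agent.LTHD.Defs

open Real Finset MeasureTheory Matrix ComplexOrder
open Pool.Agent.LiebT2

set_option autoImplicit false

namespace Pool.Agent.LTHD

variable {d k N : ℕ}

theorem Kl_herm (L : ℕ) (c : ℝ) : (Kl L c).IsHermitian := by
  classical
  ext i j
  simp only [Matrix.conjTranspose_apply, Kl]
  rw [star_mul']
  have h1 : ∀ p : Prop, ∀ [Decidable p], ∀ z : ℂ, star (if p then z else 0) = if p then star z else 0 := by
    intro p _ z
    split_ifs <;> simp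
  simp only [star_sub, h1, star_one, RCLike.star_def, Complex.conj_ofReal]
  have h2 : (starRingEnd ℂ) 2 = 2 := by
    exact Complex.conj_ofNat 2
  rw [h2]
  have h3 : (if j = i then (2:ℂ) else 0) = if i = j then 2 else 0 := by
    by_cases h : i = j
    · simp [h]
    · have : ¬ j = i := fun h' => h h'.symm
      simp [h, this]
  rw [h3]
  ring

private lemma lat_row {L : ℕ} [NeZero L] (c : ℝ) (a : ZMod L → ℂ) (z : ZMod L) :
    ∑ y, Kl L c z y * a y = (c:ℂ) * (2 * a z - a (z + 1) - a (z - 1)) := by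
  classical
  unfold Kl
  have h1 : ∀ y : ZMod L, (c:ℂ) * ((if z = y then 2 else 0) - (if y = z + 1 then 1 else 0) -
      (if z = y + 1 then 1 else 0)) * a y =
      (c:ℂ) * ((if z = y then 2 * a y else 0) - (if y = z + 1 then a y else 0) -
      (if z - 1 = y then a y else 0)) := by
    intro y
    have e1 : (z = y + 1) ↔ (z - 1 = y) := by
      constructor
      · intro h; rw [h]; ring
      · intro h; rw [← h]; ring
    simp only [e1]
    split_ifs <;> ring
  rw [Finset.sum_congr rfl (fun y _ => h1 y), ← Finset.mul_sum, Finset.sum_sub_distrib,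
    Finset.sum_sub_distrib]
  simp

theorem Kl_kin {L : ℕ} [NeZero L] (c : ℝ) (a : ZMod L → ℂ) :
    (∑ z, ∑ y, Kl L c z y * a y * star (a z)).re = c * ∑ z, ‖a (z + 1) - a z‖ ^ 2 := by
  have h1 : ∀ z, ∑ y, Kl L c z y * a y * star (a z) =
      (c:ℂ) * (2 * a z - a (z + 1) - a (z - 1)) * star (a z) := by
    intro z
    rw [← Finset.sum_mul, lat_row]
  rw [Finset.sum_congr rfl (fun z _ => h1 z)]
  have hn : ∀ z, ‖a (z + 1) - a z‖ ^ 2 = ‖a (z+1)‖ ^ 2 + ‖a z‖ ^ 2 -
      2 * (a (z+1) * star (a z)).re := by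
    intro z
    have := Complex.sq_norm (a (z+1) - a z)
    rw [this, Complex.sq_norm, Complex.sq_norm, Complex.normSq_sub]
    simp
  have hs1 : ∑ z, ‖a (z+1)‖ ^ 2 = ∑ z, ‖a z‖ ^ 2 :=
    Fintype.sum_equiv (Equiv.addRight (1 : ZMod L)) _ _ (fun z => rfl)
  have hs2 : ∑ z, (a (z - 1) * star (a z)).re = ∑ z, (a z * star (a (z + 1))).re := by
    refine (Fintype.sum_equiv (Equiv.addRight (1 : ZMod L)) _ _ (fun z => ?_)).symm
    simp
  have hs3 : ∑ z, (a z * star (a (z + 1))).re = ∑ z, (a (z+1) * star (a z)).re := by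
    refine Finset.sum_congr rfl fun z _ => ?_
    simp [Complex.mul_re]
    ring
  have hsq : ∀ z, (a z * star (a z)).re = ‖a z‖ ^ 2 := by
    intro z
    rw [Complex.sq_norm, Complex.normSq_apply]
    simp [Complex.mul_re]
  rw [Complex.re_sum]
  have hl : ∀ z, ((c:ℂ) * (2 * a z - a (z + 1) - a (z - 1)) * star (a z)).re =
      c * (2 * ‖a z‖ ^ 2 - (a (z+1) * star (a z)).re - (a (z-1) * star (a z)).re) := by
    intro z
    rw [← hsq z]
    have : (c:ℂ) * (2 * a z - a (z + 1) - a (z - 1)) * star (a z) =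
      (c:ℂ) * (2 * (a z * star (a z)) - (a (z+1) * star (a z)) - (a (z-1) * star (a z))) := by ring
    rw [this, Complex.re_ofReal_mul, Complex.sub_re, Complex.sub_re]
    congr 3
    simp
  rw [Finset.sum_congr rfl (fun z _ => hl z), ← Finset.mul_sum, Finset.sum_sub_distrib,
    Finset.sum_sub_distrib, ← Finset.mul_sum, hs2, hs3]
  rw [Finset.sum_congr rfl (fun z _ => hn z), Finset.sum_sub_distrib, Finset.sum_add_distrib, hs1,
    ← Finset.mul_sum]
  ring

private noncomputable def latF (L : ℕ) [NeZero L] : Matrix (ZMod L) (ZMod L) ℂ :=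
  fun i q => ZMod.stdAddChar (N := L) (i * q)

private noncomputable def latG (L : ℕ) [NeZero L] : Matrix (ZMod L) (ZMod L) ℂ :=
  fun q j => (1 / (L:ℂ)) * ZMod.stdAddChar (N := L) (-(q * j))

private lemma lat_orth {L : ℕ} [NeZero L] (t : ZMod L) :
    ∑ q : ZMod L, ZMod.stdAddChar (N := L) (t * q) = if t = 0 then (L:ℂ) else 0 := by
  have := AddChar.sum_mulShift t (ZMod.isPrimitive_stdAddChar L)
  simp only [ZMod.card] at this
  have h2 : (if t = 0 then (L:ℂ) else 0) = ((if t = 0 then L else 0 : ℕ) : ℂ) := by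
    split_ifs <;> simp
  rw [h2, ← this]
  refine Finset.sum_congr rfl fun q _ => ?_
  rw [mul_comm]

private lemma lat_FG {L : ℕ} [NeZero L] : latF L * latG L = 1 := by
  classical
  have hL : (L:ℂ) ≠ 0 := by exact_mod_cast NeZero.ne L
  ext i j
  rw [Matrix.mul_apply]
  simp only [latF, latG]
  have h1 : ∀ q : ZMod L, ZMod.stdAddChar (N := L) (i * q) * (1 / (L:ℂ) *
      ZMod.stdAddChar (N := L) (-(q * j))) = 1 / (L:ℂ) * ZMod.stdAddChar (N := L) ((i - j) * q) := by
    intro q
    have : (i - j) * q = i * q + (-(q * j)) := by ring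
    rw [this, AddChar.map_add_eq_mul]
    ring
  rw [Finset.sum_congr rfl (fun q _ => h1 q), ← Finset.mul_sum, lat_orth, Matrix.one_apply]
  by_cases h : i = j
  · simp [h, hL]
  · have : i - j ≠ 0 := sub_ne_zero.mpr h
    simp [h, this]

private noncomputable def latl (L : ℕ) [NeZero L] (c : ℝ) (q : ZMod L) : ℂ :=
  (c:ℂ) * (2 - ZMod.stdAddChar (N := L) q - ZMod.stdAddChar (N := L) (-q))

private lemma lat_KF {L : ℕ} [NeZero L] (c : ℝ) :
    Kl L c * latF L = latF L * Matrix.diagonal (latl L c) := by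
  classical
  ext i q
  rw [Matrix.mul_apply, lat_row c (fun y => latF L y q) i, Matrix.mul_diagonal]
  simp only [latF, latl]
  have e1 : (i + 1) * q = i * q + q := by ring
  have e2 : (i - 1) * q = i * q + (-q) := by ring
  rw [e1, e2, AddChar.map_add_eq_mul, AddChar.map_add_eq_mul]
  ring

private lemma lat_exp {L : ℕ} [NeZero L] (c : ℝ) :
    NormedSpace.exp (-(Kl L c)) =
      latF L * Matrix.diagonal (fun q => Complex.exp (-(latl L c q))) * latG L := by
  classical
  have hFG := lat_FG (L := L)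
  have hGF : latG L * latF L = 1 := mul_eq_one_comm.mp hFG
  have hu : IsUnit (latF L) := ⟨⟨latF L, latG L, hFG, hGF⟩, rfl⟩
  have hinv : (latF L)⁻¹ = latG L := Matrix.inv_eq_right_inv hFG
  have hK : -(Kl L c) = latF L * Matrix.diagonal (fun q => -(latl L c q)) * (latF L)⁻¹ := by
    rw [hinv]
    have h1 : Kl L c = latF L * Matrix.diagonal (latl L c) * latG L := by
      rw [← lat_KF, Matrix.mul_assoc, hFG, Matrix.mul_one]
    have h2 : Matrix.diagonal (fun q => -(latl L c q)) = -Matrix.diagonal (latl L c) := by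
      rw [Matrix.diagonal_neg]
    rw [h2, Matrix.mul_neg, Matrix.neg_mul, ← h1]
  rw [hK, Matrix.exp_conj _ _ hu, Matrix.exp_diagonal, hinv]
  congr 3
  funext q
  rw [Pi.coe_exp, ← Complex.exp_eq_exp_ℂ]

private lemma lat_psi {L : ℕ} [NeZero L] (q : ZMod L) (m : ℤ) :
    ZMod.stdAddChar (N := L) (q * (m : ZMod L)) =
      Complex.exp (((2 * π * q.val * m / L : ℝ) : ℂ) * Complex.I) := by
  have h1 : q * (m : ZMod L) = (((q.val : ℤ) * m : ℤ) : ZMod L) := by
    push_cast
    simp
  rw [h1, ZMod.stdAddChar_coe]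
  congr 1
  push_cast
  ring

private lemma lat_cos {L : ℕ} [NeZero L] (q : ZMod L) (m : ℤ) :
    ZMod.stdAddChar (N := L) (q * (m : ZMod L)) + ZMod.stdAddChar (N := L) (-(q * (m : ZMod L))) =
      ((2 * Real.cos (2 * π * q.val * m / L) : ℝ) : ℂ) := by
  have h2 : -(q * (m : ZMod L)) = q * ((-m : ℤ) : ZMod L) := by push_cast; ring
  rw [h2, lat_psi, lat_psi]
  push_cast
  rw [Complex.two_cos]
  congr 2
  ring

private lemma lat_l {L : ℕ} [NeZero L] (c : ℝ) (q : ZMod L) :
    latl L c q = ((2 * c * (1 - Real.cos (2 * π * q.val / L)) : ℝ) : ℂ) := by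
  have h := lat_cos q 1
  simp only [Int.cast_one, mul_one] at h
  have : latl L c q = (c:ℂ) * (2 - (ZMod.stdAddChar (N := L) q + ZMod.stdAddChar (N := L) (-q))) := by
    unfold latl; ring
  rw [this, h]
  push_cast
  ring

private lemma lat_even {L : ℕ} [NeZero L] (c : ℝ) (q : ZMod L) : latl L c (-q) = latl L c q := by
  unfold latl
  rw [neg_neg]
  ring

theorem exp_Kl {L : ℕ} [NeZero L] (c : ℝ) (i : ZMod L) (m : ℤ) :
    NormedSpace.exp (-(Kl L c)) i (i + (m : ZMod L)) = (kk L c m : ℂ) := by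
  classical
  have hL : (L:ℂ) ≠ 0 := by exact_mod_cast NeZero.ne L
  rw [lat_exp, Matrix.mul_apply]
  have h1 : ∀ q : ZMod L, (latF L * Matrix.diagonal (fun q => Complex.exp (-(latl L c q)))) i q *
      latG L q (i + (m : ZMod L)) =
      (1 / (L:ℂ)) * (Complex.exp (-(latl L c q)) * ZMod.stdAddChar (N := L) (-(q * (m : ZMod L)))) := by
    intro q
    rw [Matrix.mul_diagonal]
    simp only [latF, latG]
    have e : -(q * (i + (m : ZMod L))) = -(i * q) + (-(q * (m : ZMod L))) := by ring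
    rw [e, AddChar.map_add_eq_mul]
    have e2 : ZMod.stdAddChar (N := L) (i * q) * ZMod.stdAddChar (N := L) (-(i * q)) = 1 := by
      rw [← AddChar.map_add_eq_mul]; simp
    linear_combination ((1 / (L:ℂ)) * Complex.exp (-(latl L c q)) *
      ZMod.stdAddChar (N := L) (-(q * (m : ZMod L)))) * e2
  rw [Finset.sum_congr rfl (fun q _ => h1 q), ← Finset.mul_sum]
  set S := ∑ q : ZMod L, Complex.exp (-(latl L c q)) *
    ZMod.stdAddChar (N := L) (-(q * (m : ZMod L))) with hS
  have hS2 : S = ∑ q : ZMod L, Complex.exp (-(latl L c q)) *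
      ZMod.stdAddChar (N := L) (q * (m : ZMod L)) := by
    rw [hS]
    refine Fintype.sum_equiv (Equiv.neg (ZMod L)) _ _ (fun q => ?_)
    rw [Equiv.neg_apply, lat_even, neg_mul]
  have hS3 : S = ∑ q : ZMod L, ((Real.exp (-(2 * c * (1 - Real.cos (2 * π * q.val / L)))) *
      Real.cos (2 * π * q.val * m / L) : ℝ) : ℂ) := by
    have h2 : (2:ℂ) * S = 2 * ∑ q : ZMod L, ((Real.exp (-(2 * c * (1 - Real.cos (2 * π * q.val / L)))) *
      Real.cos (2 * π * q.val * m / L) : ℝ) : ℂ) := by
      rw [two_mul]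
      nth_rewrite 1 [hS2]
      rw [hS, ← Finset.sum_add_distrib, Finset.mul_sum]
      refine Finset.sum_congr rfl fun q _ => ?_
      rw [← mul_add, lat_cos, lat_l]
      push_cast
      ring
    exact mul_left_cancel₀ two_ne_zero h2
  rw [hS3]
  unfold kk
  push_cast
  congr 1
  refine Finset.sum_bij (fun (q : ZMod L) _ => q.val) ?_ ?_ ?_ ?_
  · intro q _
    exact Finset.mem_range.mpr (ZMod.val_lt q)
  · intro q _ r _ h
    exact ZMod.val_injective L h
  · intro n hn
    refine ⟨(n : ZMod L), Finset.mem_univ _, ?_⟩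
    exact ZMod.val_natCast_of_lt (Finset.mem_range.mp hn)
  · intro q _
    rfl

end Pool.Agent.LTHD
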