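import Mathlib
import Pool.Agent.LTHD.Defs

open Real Finset MeasureTheory Matrix ComplexOrder
open Pool.Agent.LiebT2

set_option autoImplicit false

namespace Pool.Agent.LTHD

variable {d k N : ℕ}

/-- Gaussian sums over the integers converge -/
theorem latC_sum_gauss {c : ℝ} (hc : 0 < c) :
    Summable fun n : ℤ => Real.exp (-(c * (n : ℝ) ^ 2)) := by
  have h := summable_pow_mul_jacobiTheta₂_term_bound 0 (T := c / π) (by positivity) 0
  refine h.congr fun n => ?_
  have : -π * (c / π * (n : ℝ) ^ 2 - 2 * 0 * |(n : ℝ)|) = -(c * (n : ℝ) ^ 2) := by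
    field_simp
    ring
  rw [pow_zero, one_mul]
  push_cast
  rw [this]

/-- lower bound for a Gaussian cosine sum, from Poisson summation -/
theorem latC_poisson {a : ℝ} (ha : 0 < a) (y : ℝ) :
    Real.exp (-(π / a * y ^ 2)) / √a ≤
      ∑' n : ℤ, Real.exp (-(π * a * (n : ℝ) ^ 2)) * Real.cos (2 * π * y * n) := by
  have h := Complex.tsum_exp_neg_quadratic (a := (a : ℂ)) (by simpa using ha) (Complex.I * y)
  have e1 : ∀ n : ℤ, Complex.exp (-π * a * n ^ 2 + 2 * π * (Complex.I * y) * n)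
      = Complex.exp (((-(π * a * (n : ℝ) ^ 2) : ℝ) : ℂ) + ((2 * π * y * n : ℝ) : ℂ) * Complex.I) := by
    intro n
    congr 1
    push_cast
    ring
  have e2 : ∀ n : ℤ, Complex.exp (-π / a * (n + Complex.I * (Complex.I * y)) ^ 2)
      = ((Real.exp (-(π / a * ((n : ℝ) - y) ^ 2)) : ℝ) : ℂ) := by
    intro n
    rw [Complex.ofReal_exp]
    congr 1
    push_cast
    have : Complex.I * (Complex.I * (y : ℂ)) = -y := by
      rw [← mul_assoc, Complex.I_mul_I]
      ring
    rw [this]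
    ring
  have e3 : (a : ℂ) ^ (1 / 2 : ℂ) = ((√a : ℝ) : ℂ) := by
    rw [Real.sqrt_eq_rpow, Complex.ofReal_cpow ha.le]
    push_cast
    rfl
  simp_rw [e1, e2, e3] at h
  rw [← Complex.ofReal_tsum] at h
  have hs : Summable fun n : ℤ => Complex.exp (((-(π * a * (n : ℝ) ^ 2) : ℝ) : ℂ) +
      ((2 * π * y * n : ℝ) : ℂ) * Complex.I) := by
    have hn : ∀ x y : ℝ, ‖Complex.exp ((x : ℂ) + (y : ℂ) * Complex.I)‖ = Real.exp x := by
      intro x y
      rw [Complex.norm_exp]
      simp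
    apply Summable.of_norm
    refine (latC_sum_gauss (c := π * a) (by positivity)).congr fun n => ?_
    rw [hn]
  have h2 := congrArg Complex.re h
  rw [Complex.re_tsum hs] at h2
  have e4 : ∀ n : ℤ, (Complex.exp (((-(π * a * (n : ℝ) ^ 2) : ℝ) : ℂ) +
      ((2 * π * y * n : ℝ) : ℂ) * Complex.I)).re =
      Real.exp (-(π * a * (n : ℝ) ^ 2)) * Real.cos (2 * π * y * n) := by
    have hn : ∀ x y : ℝ, (Complex.exp ((x : ℂ) + (y : ℂ) * Complex.I)).re =
        Real.exp x * Real.cos y := by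
      intro x y
      rw [Complex.exp_re]
      simp
    intro n
    rw [hn]
  simp_rw [e4] at h2
  rw [h2]
  have e5 : ((1 : ℂ) / ((√a : ℝ) : ℂ) * ((∑' n : ℤ, Real.exp (-(π / a * ((n : ℝ) - y) ^ 2)) : ℝ) : ℂ)).re
      = (1 / √a) * ∑' n : ℤ, Real.exp (-(π / a * ((n : ℝ) - y) ^ 2)) := by
    rw [← Complex.ofReal_one, ← Complex.ofReal_div, ← Complex.ofReal_mul, Complex.ofReal_re]
  rw [e5, div_eq_mul_one_div, mul_comm]
  apply mul_le_mul_of_nonneg_left _ (by positivity)
  have hsum : Summable fun n : ℤ => Real.exp (-(π / a * ((n : ℝ) - y) ^ 2)) := by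
    -- the general term is at most a constant times a Gaussian
    have hg := (latC_sum_gauss (c := π / a / 2) (by positivity)).mul_left
      (Real.exp (π / a * y ^ 2))
    refine Summable.of_nonneg_of_le (fun n => (Real.exp_pos _).le) (fun n => ?_) hg
    rw [← Real.exp_add]
    apply Real.exp_le_exp.2
    have hp : 0 < π / a := by positivity
    have : 0 ≤ π / a * (((n : ℝ) - 2 * y) ^ 2) := by positivity
    nlinarith
  have := hsum.le_tsum (0 : ℤ) (fun n _ => (Real.exp_pos _).le)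
  simpa using this

/-- the lattice symbols converge to the Gaussian in `ℓ¹` -/
theorem latC_tend {s : ℝ} (hs : 0 < s) :
    Filter.Tendsto (fun L : ℕ => ∑' q : ℤ,
      |(if -((L / 2 : ℕ) : ℤ) ≤ q ∧ q < (L : ℤ) - ((L / 2 : ℕ) : ℤ) then
        Real.exp (-((s * L) ^ 2 / 2 * Real.sin (π * q / L) ^ 2)) else 0) -
        Real.exp (-(π * (s ^ 2 * π / 2) * (q : ℝ) ^ 2))|) Filter.atTop (nhds 0) := by
  have key := tendsto_tsum_of_dominated_convergence (𝓕 := (Filter.atTop : Filter ℕ))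
    (f := fun (L : ℕ) (q : ℤ) =>
      |(if -((L / 2 : ℕ) : ℤ) ≤ q ∧ q < (L : ℤ) - ((L / 2 : ℕ) : ℤ) then
        Real.exp (-((s * L) ^ 2 / 2 * Real.sin (π * q / L) ^ 2)) else 0) -
        Real.exp (-(π * (s ^ 2 * π / 2) * (q : ℝ) ^ 2))|)
    (g := fun _ : ℤ => (0 : ℝ))
    (bound := fun q : ℤ => 2 * Real.exp (-(2 * s ^ 2 * (q : ℝ) ^ 2)))
    ((latC_sum_gauss (c := 2 * s ^ 2) (by positivity)).mul_left 2) ?_ ?_
  · simpa using key
  · intro q
    -- pointwise convergence
    have h1 : Filter.Tendsto (fun L : ℕ => π * (q : ℝ) / L) Filter.atTop (nhds 0) :=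
      tendsto_const_div_atTop_nhds_zero_nat _
    have h2 : Filter.Tendsto (fun L : ℕ => Real.sinc (π * (q : ℝ) / L)) Filter.atTop (nhds 1) := by
      have := (Real.continuous_sinc.tendsto 0).comp h1
      rw [Real.sinc_zero] at this
      exact this
    have h3 : Filter.Tendsto (fun L : ℕ => Real.exp (-(s ^ 2 / 2 * (π * (q : ℝ) *
        Real.sinc (π * (q : ℝ) / L)) ^ 2))) Filter.atTop
        (nhds (Real.exp (-(s ^ 2 / 2 * (π * (q : ℝ) * 1) ^ 2)))) := by
      refine (Real.continuous_exp.tendsto _).comp ?_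
      exact (((h2.const_mul (π * (q : ℝ))).pow 2).const_mul (s ^ 2 / 2)).neg
    have e0 : Real.exp (-(s ^ 2 / 2 * (π * (q : ℝ) * 1) ^ 2)) =
        Real.exp (-(π * (s ^ 2 * π / 2) * (q : ℝ) ^ 2)) := by
      congr 1
      ring
    rw [e0] at h3
    have h4 : Filter.Tendsto (fun L : ℕ =>
      |(if -((L / 2 : ℕ) : ℤ) ≤ q ∧ q < (L : ℤ) - ((L / 2 : ℕ) : ℤ) then
        Real.exp (-((s * L) ^ 2 / 2 * Real.sin (π * q / L) ^ 2)) else 0) -
        Real.exp (-(π * (s ^ 2 * π / 2) * (q : ℝ) ^ 2))|) Filter.atTop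
        (nhds |Real.exp (-(π * (s ^ 2 * π / 2) * (q : ℝ) ^ 2)) -
          Real.exp (-(π * (s ^ 2 * π / 2) * (q : ℝ) ^ 2))|) := by
      apply Filter.Tendsto.abs
      apply Filter.Tendsto.sub_const
      refine h3.congr' ?_
      filter_upwards [Filter.eventually_ge_atTop (2 * q.natAbs + 2)] with L hL
      have hw : -((L / 2 : ℕ) : ℤ) ≤ q ∧ q < (L : ℤ) - ((L / 2 : ℕ) : ℤ) := by omega
      rw [if_pos hw]
      have hL0 : (L : ℝ) ≠ 0 := by
        have : 0 < L := by omega
        positivity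
      have hsin : Real.sin (π * q / L) = π * q / L * Real.sinc (π * (q : ℝ) / L) := by
        by_cases hq : (q : ℝ) = 0
        · simp [hq]
        · rw [Real.sinc_of_ne_zero (by positivity)]
          field_simp
      rw [hsin]
      congr 1
      field_simp
    simpa using h4
  · filter_upwards [Filter.eventually_ge_atTop 1] with L hL q
    have hL0 : (0 : ℝ) < L := by exact_mod_cast hL
    rw [Real.norm_eq_abs, abs_abs]
    have hA : |Real.exp (-(π * (s ^ 2 * π / 2) * (q : ℝ) ^ 2))| ≤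
        Real.exp (-(2 * s ^ 2 * (q : ℝ) ^ 2)) := by
      rw [abs_of_pos (Real.exp_pos _)]
      apply Real.exp_le_exp.2
      have hpi : (2 : ℝ) ≤ π := by linarith [Real.pi_gt_three]
      have h4 : (4 : ℝ) ≤ π * π := by nlinarith
      have : 0 ≤ s ^ 2 * (q : ℝ) ^ 2 := by positivity
      nlinarith
    have hB : |(if -((L / 2 : ℕ) : ℤ) ≤ q ∧ q < (L : ℤ) - ((L / 2 : ℕ) : ℤ) then
        Real.exp (-((s * L) ^ 2 / 2 * Real.sin (π * q / L) ^ 2)) else 0)| ≤
        Real.exp (-(2 * s ^ 2 * (q : ℝ) ^ 2)) := by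
      split_ifs with hw
      · rw [abs_of_pos (Real.exp_pos _)]
        apply Real.exp_le_exp.2
        have hq : 2 * |(q : ℝ)| ≤ L := by
          have : 2 * |q| ≤ (L : ℤ) := by
            rcases abs_cases q with h | h <;> omega
          exact_mod_cast this
        have h1 : |π * (q : ℝ) / L| ≤ π / 2 := by
          rw [abs_div, abs_mul, abs_of_pos Real.pi_pos, abs_of_pos hL0, div_le_div_iff₀ hL0 two_pos]
          nlinarith [Real.pi_pos]
        have h2 := Real.mul_abs_le_abs_sin h1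
        have h3 : 2 * |(q : ℝ)| / L ≤ |Real.sin (π * q / L)| := by
          refine le_trans (le_of_eq ?_) h2
          rw [abs_div, abs_mul, abs_of_pos Real.pi_pos, abs_of_pos hL0]
          field_simp
        have h4 : (2 * |(q : ℝ)| / L) ^ 2 ≤ Real.sin (π * q / L) ^ 2 := by
          rw [← sq_abs (Real.sin (π * q / L))]
          exact pow_le_pow_left₀ (by positivity) h3 2
        have h5 : (2 * |(q : ℝ)| / L) ^ 2 = 4 * (q : ℝ) ^ 2 / L ^ 2 := by
          rw [div_pow, mul_pow, sq_abs]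
          ring
        rw [h5] at h4
        have h6 : (s * L) ^ 2 / 2 * (4 * (q : ℝ) ^ 2 / L ^ 2) = 2 * s ^ 2 * (q : ℝ) ^ 2 := by
          field_simp
          ring
        have h7 : (s * L) ^ 2 / 2 * (4 * (q : ℝ) ^ 2 / L ^ 2) ≤
            (s * L) ^ 2 / 2 * Real.sin (π * q / L) ^ 2 :=
          mul_le_mul_of_nonneg_left h4 (by positivity)
        linarith
      · rw [abs_zero]
        exact (Real.exp_pos _).le
    calc _ ≤ _ := abs_sub _ _
      _ ≤ _ := add_le_add hB hA
      _ = _ := by ring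

/-- sums over a period of a periodic function do not depend on the window -/
theorem latC_window {f : ℤ → ℝ} {L : ℕ} (hf : ∀ q, f (q + L) = f q) (h : ℕ) :
    ∑ q ∈ range L, f q = ∑ q ∈ range L, f ((q : ℤ) - h) := by
  induction h with
  | zero => simp
  | succ h ih =>
    rw [ih]
    have e1 := Finset.sum_range_succ (fun q : ℕ => f ((q : ℤ) - (h + 1 : ℕ))) L
    have e2 := Finset.sum_range_succ' (fun q : ℕ => f ((q : ℤ) - (h + 1 : ℕ))) L
    have e3 : f ((L : ℤ) - (h + 1 : ℕ)) = f (((0 : ℕ) : ℤ) - (h + 1 : ℕ)) := by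
      rw [← hf (((0 : ℕ) : ℤ) - (h + 1 : ℕ))]
      congr 1
    have e4 : ∑ q ∈ range L, f (((q + 1 : ℕ) : ℤ) - (h + 1 : ℕ)) = ∑ q ∈ range L, f ((q : ℤ) - h) := by
      apply Finset.sum_congr rfl
      intro q _
      congr 1
      push_cast
      ring
    rw [e4] at e2
    linarith

/-- Lat3 -/
theorem kk_half {b : ℝ} (hb : 0 < b) {R : ℝ} (hR : 0 < R) {ε : ℝ} (hε : 0 < ε) :
    ∃ L₀ : ℕ, ∀ L : ℕ, L₀ ≤ L → ∀ m : ℤ, |(m : ℝ)| * (2 * R / L) ≤ b →
      2 * R / L * (Real.exp (-(1 / 2)) / (√(2 * π) * b) - ε)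
        ≤ kk L ((b * L / (2 * R)) ^ 2 / 2) m := by
  set s : ℝ := b / R with hsdef
  have hs : 0 < s := by positivity
  set a : ℝ := s ^ 2 * π / 2 with hadef
  have ha : 0 < a := by positivity
  have ht := latC_tend hs
  have hev := (ht.eventually (gt_mem_nhds (show (0 : ℝ) < 2 * R * ε by positivity))).and
    (Filter.eventually_ge_atTop 1)
  obtain ⟨L₀, hL₀⟩ := Filter.eventually_atTop.1 hev
  refine ⟨L₀, fun L hL m hm => ?_⟩
  obtain ⟨hlt, hL1⟩ := hL₀ L hL
  have hL0 : (0 : ℝ) < L := by exact_mod_cast hL1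
  -- the periodic function
  set f : ℤ → ℝ := fun q => Real.exp (-((s * L) ^ 2 / 2 * Real.sin (π * q / L) ^ 2)) *
    Real.cos (2 * π * (m / L) * q) with hfdef
  have hper : ∀ q, f (q + L) = f q := by
    intro q
    rw [hfdef]
    simp only
    have e1 : π * ((q + (L : ℤ) : ℤ) : ℝ) / L = π * q / L + π := by
      push_cast
      field_simp
    have e2 : 2 * π * ((m : ℝ) / L) * ((q + (L : ℤ) : ℤ) : ℝ) = 2 * π * (m / L) * q + m * (2 * π) := by
      push_cast
      field_simp
    rw [e1, e2, Real.sin_add_pi, neg_sq, Real.cos_add_int_mul_two_pi]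
  have hkk : kk L ((b * L / (2 * R)) ^ 2 / 2) m = 1 / (L : ℝ) * ∑ q ∈ range L, f q := by
    rw [kk]
    congr 1
    apply Finset.sum_congr rfl
    intro q _
    rw [hfdef]
    simp only
    congr 2
    · have : Real.cos (2 * π * q / L) = 1 - 2 * Real.sin (π * q / L) ^ 2 := by
        have e : 2 * π * (q : ℝ) / L = 2 * (π * q / L) := by ring
        rw [e, Real.cos_two_mul, Real.cos_sq']
        ring
      rw [this, hsdef]
      push_cast
      field_simp
      ring
    · push_cast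
      ring
  set A : ℤ → ℝ := fun q => (if -((L / 2 : ℕ) : ℤ) ≤ q ∧ q < (L : ℤ) - ((L / 2 : ℕ) : ℤ) then
        Real.exp (-((s * L) ^ 2 / 2 * Real.sin (π * q / L) ^ 2)) else 0) with hAdef
  set B : ℤ → ℝ := fun q => Real.exp (-(π * a * (q : ℝ) ^ 2)) with hBdef
  have hBs : Summable B := latC_sum_gauss (c := π * a) (by positivity)
  have hsupp : ∀ q ∉ Finset.Ico (-((L / 2 : ℕ) : ℤ)) ((L : ℤ) - ((L / 2 : ℕ) : ℤ)), A q = 0 := by
    intro q hq
    rw [Finset.mem_Ico] at hq
    rw [hAdef]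
    simp only
    rw [if_neg hq]
  have hAs : Summable A := summable_of_ne_finset_zero hsupp
  have hwin : ∑ q ∈ range L, f q = ∑' q : ℤ, A q * Real.cos (2 * π * (m / L) * q) := by
    rw [latC_window hper (L / 2)]
    rw [tsum_eq_sum (s := Finset.Ico (-((L / 2 : ℕ) : ℤ)) ((L : ℤ) - ((L / 2 : ℕ) : ℤ)))
      (fun q hq => by rw [hsupp q hq, zero_mul])]
    refine Finset.sum_bij' (fun (q : ℕ) _ => (q : ℤ) - ((L / 2 : ℕ) : ℤ))
      (fun (q : ℤ) _ => (q + ((L / 2 : ℕ) : ℤ)).toNat) ?_ ?_ ?_ ?_ ?_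
    · intro q hq
      rw [Finset.mem_range] at hq
      rw [Finset.mem_Ico]
      omega
    · intro q hq
      rw [Finset.mem_Ico] at hq
      rw [Finset.mem_range]
      omega
    · intro q hq
      rw [Finset.mem_range] at hq
      omega
    · intro q hq
      rw [Finset.mem_Ico] at hq
      omega
    · intro q hq
      rw [Finset.mem_range] at hq
      rw [hfdef, hAdef]
      simp only
      rw [if_pos (by omega)]
  have hABs : Summable fun q => |A q - B q| := (hAs.sub hBs).abs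
  have hAc : Summable fun q : ℤ => A q * Real.cos (2 * π * (m / L) * q) := by
    refine Summable.of_norm_bounded hAs.abs fun q => ?_
    rw [norm_mul, Real.norm_eq_abs, Real.norm_eq_abs]
    exact mul_le_of_le_one_right (abs_nonneg _) (Real.abs_cos_le_one _)
  have hBc : Summable fun q : ℤ => B q * Real.cos (2 * π * (m / L) * q) := by
    refine Summable.of_norm_bounded hBs.abs fun q => ?_
    rw [norm_mul, Real.norm_eq_abs, Real.norm_eq_abs]
    exact mul_le_of_le_one_right (abs_nonneg _) (Real.abs_cos_le_one _)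
  have hdiff : ∑' q : ℤ, B q * Real.cos (2 * π * (m / L) * q) - ∑' q : ℤ, |A q - B q| ≤
      ∑' q : ℤ, A q * Real.cos (2 * π * (m / L) * q) := by
    rw [← hBc.tsum_sub hABs]
    refine (hBc.sub hABs).tsum_le_tsum (fun q => ?_) hAc
    have h1 : |(B q - A q) * Real.cos (2 * π * (m / L) * q)| ≤ |A q - B q| := by
      rw [abs_mul, abs_sub_comm]
      exact mul_le_of_le_one_right (abs_nonneg _) (Real.abs_cos_le_one _)
    have h2 := le_abs_self ((B q - A q) * Real.cos (2 * π * (m / L) * q))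
    linarith
  have hpo := latC_poisson ha ((m : ℝ) / L)
  have hpo2 : Real.exp (-(1 / 2)) / √a ≤ ∑' q : ℤ, B q * Real.cos (2 * π * (m / L) * q) := by
    refine le_trans ?_ hpo
    apply div_le_div_of_nonneg_right _ (Real.sqrt_nonneg a)
    apply Real.exp_le_exp.2
    have h1 : π / a * ((m : ℝ) / L) ^ 2 = (|(m : ℝ)| * (2 * R / L) / b) ^ 2 / 2 := by
      have h0 : (|(m : ℝ)| * (2 * R / L) / b) ^ 2 = (m : ℝ) ^ 2 * (2 * R / L) ^ 2 / b ^ 2 := by
        rw [div_pow, mul_pow, sq_abs]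
      rw [h0, hadef, hsdef]
      field_simp
    have h2 : |(m : ℝ)| * (2 * R / L) / b ≤ 1 := by
      rw [div_le_one hb]
      exact hm
    have h3 : (|(m : ℝ)| * (2 * R / L) / b) ^ 2 ≤ 1 := by
      have h0 : 0 ≤ |(m : ℝ)| * (2 * R / L) / b := by positivity
      nlinarith
    rw [h1]
    linarith
  have hsqa : √a = √(2 * π) * b / (2 * R) := by
    have h1 : a = (√(2 * π) * b / (2 * R)) ^ 2 := by
      rw [div_pow, mul_pow, Real.sq_sqrt (by positivity), hadef, hsdef]
      field_simp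
    rw [h1, Real.sqrt_sq (by positivity)]
  rw [hkk, hwin]
  have hfin : Real.exp (-(1 / 2)) / √a - 2 * R * ε ≤
      ∑' q : ℤ, A q * Real.cos (2 * π * (m / L) * q) := by
    have : ∑' q : ℤ, |A q - B q| < 2 * R * ε := hlt
    linarith
  have hcalc : 2 * R / L * (Real.exp (-(1 / 2)) / (√(2 * π) * b) - ε) =
      1 / (L : ℝ) * (Real.exp (-(1 / 2)) / √a - 2 * R * ε) := by
    rw [hsqa]
    have : √(2 * π) ≠ 0 := by positivity
    field_simp
  rw [hcalc]
  exact mul_le_mul_of_nonneg_left hfin (by positivity)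

end Pool.Agent.LTHD
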