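import Mathlib
import Pool.Agent.LTHD.Defs
import Pool.Agent.LTHD.LatC

open Real Finset MeasureTheory Matrix ComplexOrder
open Pool.Agent.LiebT2

set_option autoImplicit false

namespace Pool.Agent.LTHD

variable {d k N : ℕ}

/-- half of a Gaussian sum is at most the Gaussian integral over the half line -/
theorem latB_half {c : ℝ} (hc : 0 < c) :
    ∑' n : ℕ, Real.exp (-(c * ((n : ℝ) + 1) ^ 2)) ≤ √(π / c) / 2 := by
  refine Real.tsum_le_of_sum_range_le (fun n => (Real.exp_pos _).le) fun n => ?_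
  have hanti : AntitoneOn (fun x : ℝ => Real.exp (-c * x ^ 2)) (Set.Icc (0 : ℝ) (0 + (n : ℝ))) := by
    intro x hx y hy hxy
    simp only
    apply Real.exp_le_exp.2
    have h0 : 0 ≤ x := hx.1
    have h1 : x ^ 2 ≤ y ^ 2 := by nlinarith
    nlinarith
  have h1 := AntitoneOn.sum_le_integral hanti
  have h2 : ∑ i ∈ range n, Real.exp (-(c * ((i : ℝ) + 1) ^ 2)) =
      ∑ i ∈ range n, (fun x : ℝ => Real.exp (-c * x ^ 2)) (0 + ((i + 1 : ℕ) : ℝ)) := by
    apply Finset.sum_congr rfl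
    intro i _
    simp only
    congr 1
    push_cast
    ring
  rw [h2]
  refine le_trans h1 ?_
  rw [← integral_gaussian_Ioi c, intervalIntegral.integral_of_le (by positivity)]
  refine setIntegral_mono_set (integrable_exp_neg_mul_sq hc).integrableOn ?_ ?_
  · exact Filter.Eventually.of_forall fun x => (Real.exp_pos _).le
  · exact Filter.Eventually.of_forall fun x hx => hx.1

/-- a Gaussian sum over the integers is at most one plus the Gaussian integral -/
theorem latB_gauss {c : ℝ} (hc : 0 < c) :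
    ∑' n : ℤ, Real.exp (-(c * (n : ℝ) ^ 2)) ≤ 1 + √(π / c) := by
  have hs := latC_sum_gauss hc
  have h1 : Summable fun n : ℕ => Real.exp (-(c * (((n : ℤ) : ℤ) : ℝ) ^ 2)) :=
    hs.comp_injective Nat.cast_injective
  have h2 : Summable fun n : ℕ => Real.exp (-(c * (((-((n : ℤ) + 1) : ℤ)) : ℝ) ^ 2)) := by
    refine hs.comp_injective (i := fun n : ℕ => (-((n : ℤ) + 1) : ℤ)) fun x y hxy => ?_
    simp only at hxy
    omega
  have h3 := tsum_of_nat_of_neg_add_one (f := fun n : ℤ => Real.exp (-(c * (n : ℝ) ^ 2))) h1 h2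
  rw [h3, h1.tsum_eq_zero_add]
  have e1 : ∑' n : ℕ, Real.exp (-(c * ((((n + 1 : ℕ) : ℤ) : ℤ) : ℝ) ^ 2)) =
      ∑' n : ℕ, Real.exp (-(c * ((n : ℝ) + 1) ^ 2)) := by
    apply tsum_congr
    intro n
    push_cast
    rfl
  have e2 : ∑' n : ℕ, Real.exp (-(c * (((-((n : ℤ) + 1) : ℤ)) : ℝ) ^ 2)) =
      ∑' n : ℕ, Real.exp (-(c * ((n : ℝ) + 1) ^ 2)) := by
    apply tsum_congr
    intro n
    congr 2
    push_cast
    ring
  rw [e1, e2]
  have h4 := latB_half hc
  have e3 : Real.exp (-(c * (((0 : ℕ) : ℤ) : ℝ) ^ 2)) = 1 := by simp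
  rw [e3]
  linarith

/-- Lat2 -/
theorem kk0 {b : ℝ} (hb : 0 < b) {ε : ℝ} (hε : 0 < ε) : ∃ R₀ : ℝ, 0 < R₀ ∧ ∀ R : ℝ, R₀ ≤ R →
    ∃ L₀ : ℕ, ∀ L : ℕ, L₀ ≤ L → 0 < kk L ((b * L / (2 * R)) ^ 2) 0 ∧
      kk L ((b * L / (2 * R)) ^ 2) 0 ≤ 2 * R / L / (√(4 * π) * b) * (1 + ε) := by
  have h4p : 0 < √(4 * π) := by positivity
  refine ⟨√(4 * π) * b / ε, by positivity, fun R hR => ?_⟩
  have hR0 : 0 < R := lt_of_lt_of_le (by positivity) hR
  set s : ℝ := √2 * b / R with hsdef
  have hs : 0 < s := by positivity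
  have hs2 : s ^ 2 = 2 * (b / R) ^ 2 := by
    rw [hsdef, div_pow, mul_pow, Real.sq_sqrt (by norm_num)]
    ring
  set a : ℝ := s ^ 2 * π / 2 with hadef
  have ha : 0 < a := by positivity
  have ht := latC_tend hs
  have hev := (ht.eventually (gt_mem_nhds (show (0 : ℝ) < 1 by norm_num))).and
    (Filter.eventually_ge_atTop 1)
  obtain ⟨L₀, hL₀⟩ := Filter.eventually_atTop.1 hev
  refine ⟨L₀, fun L hL => ?_⟩
  obtain ⟨hlt, hL1⟩ := hL₀ L hL
  have hL0 : (0 : ℝ) < L := by exact_mod_cast hL1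
  set f : ℤ → ℝ := fun q => Real.exp (-((s * L) ^ 2 / 2 * Real.sin (π * q / L) ^ 2)) with hfdef
  have hper : ∀ q, f (q + L) = f q := by
    intro q
    rw [hfdef]
    simp only
    have e1 : π * ((q + (L : ℤ) : ℤ) : ℝ) / L = π * q / L + π := by
      push_cast
      field_simp
    rw [e1, Real.sin_add_pi, neg_sq]
  have hkk : kk L ((b * L / (2 * R)) ^ 2) 0 = 1 / (L : ℝ) * ∑ q ∈ range L, f q := by
    rw [kk]
    congr 1
    apply Finset.sum_congr rfl
    intro q _
    rw [hfdef]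
    simp only
    have e0 : Real.cos (2 * π * (q : ℝ) * ((0 : ℤ) : ℝ) / L) = 1 := by simp
    rw [e0, mul_one]
    congr 1
    have : Real.cos (2 * π * q / L) = 1 - 2 * Real.sin (π * q / L) ^ 2 := by
      have e : 2 * π * (q : ℝ) / L = 2 * (π * q / L) := by ring
      rw [e, Real.cos_two_mul, Real.cos_sq']
      ring
    rw [this, mul_pow, hs2]
    push_cast
    field_simp
    ring
  set A : ℤ → ℝ := fun q => (if -((L / 2 : ℕ) : ℤ) ≤ q ∧ q < (L : ℤ) - ((L / 2 : ℕ) : ℤ) then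
        Real.exp (-((s * L) ^ 2 / 2 * Real.sin (π * q / L) ^ 2)) else 0) with hAdef
  set B : ℤ → ℝ := fun q => Real.exp (-(π * a * (q : ℝ) ^ 2)) with hBdef
  have hBs : Summable B := latC_sum_gauss (c := π * a) (by positivity)
  have hsupp : ∀ q ∉ Finset.Ico (-((L / 2 : ℕ) : ℤ)) ((L : ℤ) - ((L / 2 : ℕ) : ℤ)), A q = 0 := by
    intro q hq
    rw [Finset.mem_Ico] at hq
    rw [hAdef]
    simp only
    rw [if_neg hq]
  have hAs : Summable A := summable_of_ne_finset_zero hsupp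
  have hwin : ∑ q ∈ range L, f q = ∑' q : ℤ, A q := by
    rw [latC_window hper (L / 2)]
    rw [tsum_eq_sum (s := Finset.Ico (-((L / 2 : ℕ) : ℤ)) ((L : ℤ) - ((L / 2 : ℕ) : ℤ))) hsupp]
    refine Finset.sum_bij' (fun (q : ℕ) _ => (q : ℤ) - ((L / 2 : ℕ) : ℤ))
      (fun (q : ℤ) _ => (q + ((L / 2 : ℕ) : ℤ)).toNat) ?_ ?_ ?_ ?_ ?_
    · intro q hq
      rw [Finset.mem_range] at hq
      rw [Finset.mem_Ico]
      omega
    · intro q hq
      rw [Finset.mem_Ico] at hq
      rw [Finset.mem_range]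
      omega
    · intro q hq
      rw [Finset.mem_range] at hq
      omega
    · intro q hq
      rw [Finset.mem_Ico] at hq
      omega
    · intro q hq
      rw [Finset.mem_range] at hq
      rw [hfdef, hAdef]
      simp only
      rw [if_pos (by omega)]
  have hABs : Summable fun q => |A q - B q| := (hAs.sub hBs).abs
  have hle : ∑' q : ℤ, A q ≤ ∑' q : ℤ, B q + ∑' q : ℤ, |A q - B q| := by
    rw [← hBs.tsum_add hABs]
    refine hAs.tsum_le_tsum (fun q => ?_) (hBs.add hABs)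
    have := le_abs_self (A q - B q)
    linarith
  have hB : ∑' q : ℤ, B q ≤ 1 + √(π / (π * a)) := latB_gauss (c := π * a) (by positivity)
  have hsqa : √(π / (π * a)) = 2 * R / (√(4 * π) * b) := by
    have h1 : π / (π * a) = (2 * R / (√(4 * π) * b)) ^ 2 := by
      rw [div_pow, mul_pow, mul_pow, Real.sq_sqrt (by positivity), hadef, hs2]
      field_simp
      ring
    rw [h1, Real.sqrt_sq (by positivity)]
  have hlt' : ∑' q : ℤ, |A q - B q| < 1 := hlt
  constructor
  · rw [hkk]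
    apply mul_pos (by positivity)
    apply Finset.sum_pos
    · intro q _
      exact Real.exp_pos _
    · exact Finset.nonempty_range_iff.2 (by omega)
  · rw [hkk, hwin]
    rw [hsqa] at hB
    have h1 : ∑' q : ℤ, A q ≤ 2 + 2 * R / (√(4 * π) * b) := by linarith
    have h2 : √(4 * π) * b ≤ R * ε := (div_le_iff₀ hε).1 hR
    have h3 : 2 ≤ 2 * R / (√(4 * π) * b) * ε := by
      rw [div_mul_eq_mul_div, le_div_iff₀ (by positivity)]
      nlinarith
    calc 1 / (L : ℝ) * ∑' q : ℤ, A q ≤ 1 / (L : ℝ) * (2 * R / (√(4 * π) * b) * (1 + ε)) := by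
          apply mul_le_mul_of_nonneg_left _ (by positivity)
          nlinarith
      _ = 2 * R / L / (√(4 * π) * b) * (1 + ε) := by
          field_simp

end Pool.Agent.LTHD
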