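import Mathlib
import Pool.Agent.LTHD.Defs
import Pool.Agent.LTHD.LatA
import Pool.Agent.LTHD.LatB
import Pool.Agent.LTHD.LatC

open Real Finset MeasureTheory Matrix ComplexOrder
open Pool.Agent.LiebT2

set_option autoImplicit false

namespace Pool.Agent.LTHD

variable {d k N : ℕ}

private lemma lat_half (L : ℕ) (c : ℝ) : (1 / 2 : ℂ) • Kl L c = Kl L (c / 2) := by
  ext i j
  simp only [Matrix.smul_apply, smul_eq_mul, Kl]
  push_cast
  ring

private lemma lat_num1 : (6 / 25 : ℝ) ≤ Real.exp (-(1 / 2)) / √(2 * π) := by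
  have h1 : Real.exp (1 / 2) < 33 / 20 := by
    have h2 : Real.exp (1 / 2) ^ 2 = Real.exp 1 := by
      rw [← Real.exp_nat_mul]
      norm_num
    have h3 := Real.exp_one_lt_d9
    have h4 := Real.exp_pos (1 / 2 : ℝ)
    nlinarith
  have h2 : √(2 * π) < 251 / 100 := by
    rw [Real.sqrt_lt' (by norm_num)]
    have := Real.pi_lt_d4
    norm_num
    linarith
  have h3 : (0:ℝ) < √(2 * π) := by positivity
  rw [Real.exp_neg, le_div_iff₀ h3, le_inv_comm₀ (by positivity) (Real.exp_pos _)]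
  rw [le_inv_comm₀ (Real.exp_pos _) (by positivity)]
  have h5 : 6 / 25 * √(2 * π) < 20 / 33 := by linarith
  calc 6 / 25 * √(2 * π) ≤ 20 / 33 := h5.le
    _ = (33 / 20 : ℝ)⁻¹ := by norm_num
    _ ≤ (Real.exp (1 / 2))⁻¹ := by
      apply inv_anti₀ (Real.exp_pos _) h1.le

private lemma lat_num2 : (7 / 2 : ℝ) ≤ √(4 * π) := by
  apply Real.le_sqrt_of_sq_le
  have := Real.pi_gt_d4
  norm_num
  linarith

/-- Lat4 (from Lat1-3) -/
theorem lat {b : ℝ} (hb : 0 < b) {ε : ℝ} (hε : 0 < ε) : ∃ R₀ : ℝ, 0 < R₀ ∧ ∀ R : ℝ, R₀ ≤ R →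
    ∃ L₀ : ℕ, ∀ L : ℕ, L₀ ≤ L → ∀ [NeZero L], ∃ κ : ℝ, 0 < κ ∧
      (∀ y, NormedSpace.exp (-(Kl L ((b * L / (2 * R)) ^ 2))) y y = (κ : ℂ)) ∧
      κ ≤ 2 * R / L / (√(4 * π) * b) * (1 + ε) ∧
      ∀ (i : ZMod L) (m : ℤ), |(m : ℝ)| * (2 * R / L) ≤ b →
        1 / 20 * (2 * R / L) / b ≤
          1 / (2 * κ) * ‖NormedSpace.exp (-((1 / 2 : ℂ) • Kl L ((b * L / (2 * R)) ^ 2))) i (i + (m : ZMod L))‖ ^ 2 := by
  have hε' : 0 < min ε (1 / 2) := lt_min hε (by norm_num)
  obtain ⟨R₀, hR₀, h0⟩ := kk0 hb hε'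
  refine ⟨R₀, hR₀, fun R hR => ?_⟩
  have hRpos : 0 < R := lt_of_lt_of_le hR₀ hR
  obtain ⟨L1, h1⟩ := h0 R hR
  obtain ⟨L2, h2⟩ := kk_half hb hRpos (show 0 < 1 / 50 / b by positivity)
  refine ⟨max L1 L2, fun L hL hne => ?_⟩
  have hLp : (0 : ℝ) < L := by exact_mod_cast Nat.pos_of_ne_zero (NeZero.ne L)
  obtain ⟨ha, hb'⟩ := h1 L (le_trans (le_max_left _ _) hL)
  have hc := h2 L (le_trans (le_max_right _ _) hL)
  have h4 : 0 < √(4 * π) := by positivity
  set h : ℝ := 2 * R / L with hh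
  have hh0 : 0 < h := by positivity
  set κ := kk L ((b * L / (2 * R)) ^ 2) 0 with hκ
  refine ⟨κ, ha, ?_, ?_, ?_⟩
  · intro y
    have := exp_Kl (L := L) ((b * L / (2 * R)) ^ 2) y 0
    rw [Int.cast_zero, add_zero] at this
    exact this
  · refine hb'.trans ?_
    apply mul_le_mul_of_nonneg_left _ (by positivity)
    linarith [min_le_left ε (1 / 2)]
  · intro i m hm
    rw [lat_half, exp_Kl, Complex.norm_real, Real.norm_eq_abs, sq_abs]
    have h5 := hc m hm
    set K := kk L ((b * L / (2 * R)) ^ 2 / 2) m with hK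
    have h6 : 11 / 50 * (h / b) ≤ K := by
      refine le_trans ?_ h5
      have e1 : h * (Real.exp (-(1 / 2)) / (√(2 * π) * b) - 1 / 50 / b)
        = (Real.exp (-(1 / 2)) / √(2 * π) - 1 / 50) * (h / b) := by
        field_simp
      rw [e1]
      apply mul_le_mul_of_nonneg_right _ (by positivity)
      linarith [lat_num1]
    have h7 : κ ≤ 3 / 7 * (h / b) := by
      refine hb'.trans ?_
      have e1 : h / (√(4 * π) * b) * (1 + min ε (1 / 2)) = (h / b) * ((1 + min ε (1 / 2)) / √(4 * π)) := by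
        field_simp
      rw [e1, mul_comm (3 / 7 : ℝ)]
      apply mul_le_mul_of_nonneg_left _ (by positivity)
      rw [div_le_iff₀ h4]
      linarith [min_le_right ε (1 / 2), lat_num2]
    have h8 : (11 / 50 * (h / b)) ^ 2 ≤ K ^ 2 := pow_le_pow_left₀ (by positivity) h6 2
    have h9 : 1 / (2 * (3 / 7 * (h / b))) ≤ 1 / (2 * κ) := by
      apply one_div_le_one_div_of_le (by positivity)
      linarith
    calc 1 / 20 * h / b ≤ 1 / (2 * (3 / 7 * (h / b))) * (11 / 50 * (h / b)) ^ 2 := by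
          have e2 : 1 / (2 * (3 / 7 * (h / b))) * (11 / 50 * (h / b)) ^ 2 = 847 / 15000 * (h / b) := by
            field_simp
            norm_num
          rw [e2, mul_div_assoc]
          apply mul_le_mul_of_nonneg_right _ (by positivity)
          norm_num
      _ ≤ 1 / (2 * κ) * K ^ 2 := mul_le_mul h9 h8 (by positivity) (by positivity)

end Pool.Agent.LTHD
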