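import Mathlib
import Pool.Agent.LTHD.Defs
import Pool.Agent.LTHD.Base
import Pool.Agent.LTHD.EChain
import Pool.Agent.LTHD.LatA
import Pool.Agent.LTHD.Lat
import Pool.Agent.LTHD.Riem
import Pool.Agent.LTHD.EntA
import Pool.Agent.LTHD.EntB
import Pool.Agent.LTHD.EntC

open Real Finset MeasureTheory Matrix ComplexOrder
open Pool.Agent.LiebT2

set_option autoImplicit false

namespace Pool.Agent.LTHD

variable {d k N : ℕ}

theorem end_upd {L : ℕ} (z : Fin d → ZMod L) (j : Fin d) (t : ZMod L) :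
    Function.update z j (z j + t) = z + Pi.single j t := by
  classical
  funext i
  by_cases h : i = j
  · subst h
    simp
  · simp [Function.update_of_ne h, Pi.single_eq_of_ne h]

theorem end_kin {L : ℕ} [NeZero L] (c : ℝ) (j : Fin d) (a : (Fin d → ZMod L) → ℂ) :
    (∑ z, ∑ y, Kl L c (z j) y * a (Function.update z j y) * star (a z)).re
      = c * ∑ z, ‖a (z + Pi.single j 1) - a z‖ ^ 2 := by
  classical
  have h1 : ∀ z : Fin d → ZMod L, ∑ y, Kl L c (z j) y * a (Function.update z j y) * star (a z) =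
      (c:ℂ) * (2 * a z - a (z + Pi.single j 1) - a (z - Pi.single j 1)) * star (a z) := by
    intro z
    rw [← Finset.sum_mul]
    congr 1
    unfold Kl
    have h1 : ∀ y : ZMod L, (c:ℂ) * ((if z j = y then 2 else 0) - (if y = z j + 1 then 1 else 0) -
        (if z j = y + 1 then 1 else 0)) * a (Function.update z j y) =
        (c:ℂ) * ((if z j = y then 2 * a (Function.update z j y) else 0)
          - (if y = z j + 1 then a (Function.update z j y) else 0) -
        (if z j - 1 = y then a (Function.update z j y) else 0)) := by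
      intro y
      have e1 : (z j = y + 1) ↔ (z j - 1 = y) := by
        constructor
        · intro h; rw [h]; ring
        · intro h; rw [← h]; ring
      simp only [e1]
      split_ifs <;> ring
    rw [Finset.sum_congr rfl (fun y _ => h1 y), ← Finset.mul_sum, Finset.sum_sub_distrib,
      Finset.sum_sub_distrib]
    have e2 : Function.update z j (z j - 1) = z - Pi.single j 1 := by
      have := end_upd z j (-1)
      rw [← sub_eq_add_neg] at this
      rw [this, Pi.single_neg, ← sub_eq_add_neg]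
    simp only [Finset.sum_ite_eq, Finset.sum_ite_eq', Finset.mem_univ, if_true,
      Function.update_eq_self, end_upd, e2]
  rw [Finset.sum_congr rfl (fun z _ => h1 z)]
  have hn : ∀ z, ‖a (z + Pi.single j 1) - a z‖ ^ 2 = ‖a (z + Pi.single j 1)‖ ^ 2 + ‖a z‖ ^ 2 -
      2 * (a (z + Pi.single j 1) * star (a z)).re := by
    intro z
    have := Complex.sq_norm (a (z + Pi.single j 1) - a z)
    rw [this, Complex.sq_norm, Complex.sq_norm, Complex.normSq_sub]
    simp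
  have hs1 : ∑ z, ‖a (z + Pi.single j 1)‖ ^ 2 = ∑ z, ‖a z‖ ^ 2 :=
    Fintype.sum_equiv (Equiv.addRight (Pi.single j 1 : Fin d → ZMod L)) _ _ (fun z => rfl)
  have hs2 : ∑ z, (a (z - Pi.single j 1) * star (a z)).re
      = ∑ z, (a z * star (a (z + Pi.single j 1))).re := by
    refine (Fintype.sum_equiv (Equiv.addRight (Pi.single j 1 : Fin d → ZMod L)) _ _
      (fun z => ?_)).symm
    simp
  have hs3 : ∑ z, (a z * star (a (z + Pi.single j 1))).re
      = ∑ z, (a (z + Pi.single j 1) * star (a z)).re := by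
    refine Finset.sum_congr rfl fun z _ => ?_
    simp [Complex.mul_re]
    ring
  have hsq : ∀ z, (a z * star (a z)).re = ‖a z‖ ^ 2 := by
    intro z
    rw [Complex.sq_norm, Complex.normSq_apply]
    simp [Complex.mul_re]
  rw [Complex.re_sum]
  have hl : ∀ z, ((c:ℂ) * (2 * a z - a (z + Pi.single j 1) - a (z - Pi.single j 1))
      * star (a z)).re =
      c * (2 * ‖a z‖ ^ 2 - (a (z + Pi.single j 1) * star (a z)).re
        - (a (z - Pi.single j 1) * star (a z)).re) := by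
    intro z
    rw [← hsq z]
    have : (c:ℂ) * (2 * a z - a (z + Pi.single j 1) - a (z - Pi.single j 1)) * star (a z) =
      (c:ℂ) * (2 * (a z * star (a z)) - (a (z + Pi.single j 1) * star (a z))
        - (a (z - Pi.single j 1) * star (a z))) := by ring
    rw [this, Complex.re_ofReal_mul, Complex.sub_re, Complex.sub_re]
    congr 3
    simp
  rw [Finset.sum_congr rfl (fun z _ => hl z), ← Finset.mul_sum, Finset.sum_sub_distrib,
    Finset.sum_sub_distrib, ← Finset.mul_sum, hs2, hs3]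
  rw [Finset.sum_congr rfl (fun z _ => hn z), Finset.sum_sub_distrib, Finset.sum_add_distrib, hs1,
    ← Finset.mul_sum]
  ring

theorem end_gain {L : ℕ} [NeZero L] {M : ℤ} (hM : 2 * M < L) {w : ZMod L → ZMod L → ℝ}
    (hw : ∀ i y, 0 ≤ w i y) {c : ℝ} (hc : ∀ (i : ZMod L) (m : ℤ), |m| ≤ M → c ≤ w i (i + (m : ZMod L)))
    (j : Fin d) (g : (Fin d → ZMod L) → ℝ) (z : Fin d → ZMod L) :
    ∑ m ∈ Finset.Icc (-M) M, c * (g z - g (z + Pi.single j (m : ZMod L))) ^ 2
      ≤ ∑ y, w (z j) y * (g z - g (Function.update z j y)) ^ 2 := by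
  classical
  have hinj : Set.InjOn (fun m : ℤ => z j + (m : ZMod L)) (Finset.Icc (-M) M : Finset ℤ) := by
    intro m hm m' hm' h
    have h' : (m : ZMod L) = (m' : ZMod L) := by simpa using h
    rw [Finset.coe_Icc, Set.mem_Icc] at hm hm'
    rw [ZMod.intCast_eq_intCast_iff_dvd_sub] at h'
    have : m' - m = 0 := by
      apply Int.eq_zero_of_abs_lt_dvd h'
      rw [abs_lt]
      constructor <;> omega
    omega
  calc ∑ m ∈ Finset.Icc (-M) M, c * (g z - g (z + Pi.single j (m : ZMod L))) ^ 2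
      ≤ ∑ m ∈ Finset.Icc (-M) M, w (z j) (z j + (m : ZMod L)) *
          (g z - g (Function.update z j (z j + (m : ZMod L)))) ^ 2 := by
        refine Finset.sum_le_sum fun m hm => ?_
        rw [Finset.mem_Icc] at hm
        rw [end_upd]
        exact mul_le_mul_of_nonneg_right (hc _ _ (abs_le.mpr hm)) (sq_nonneg _)
    _ = ∑ y ∈ (Finset.Icc (-M) M).image (fun m : ℤ => z j + (m : ZMod L)),
          w (z j) y * (g z - g (Function.update z j y)) ^ 2 := by
        rw [Finset.sum_image hinj]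
    _ ≤ ∑ y, w (z j) y * (g z - g (Function.update z j y)) ^ 2 :=
        Finset.sum_le_sum_of_subset_of_nonneg (Finset.subset_univ _) fun y _ _ =>
          mul_nonneg (hw _ _) (sq_nonneg _)

theorem end_gain_sum {L : ℕ} [NeZero L] {κ : ℝ} (hκ : 0 < κ) {M : ℤ} (hM : 2 * M < L) {θ : ℝ}
    (hθ : 0 ≤ θ) {EK : Matrix (ZMod L) (ZMod L) ℂ} {c : ℝ}
    (hc : ∀ (i : ZMod L) (m : ℤ), |m| ≤ M → c ≤ 1 / (2 * κ) * ‖EK i (i + (m : ZMod L))‖ ^ 2)
    (ρ : (Fin d → ZMod L) → ℝ) :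
    θ * ∑ j : Fin d, ∑ m ∈ Finset.Icc (-M) M, c *
      ∑ z : Fin d → ZMod L, (√(ρ z) - √(ρ (z + Pi.single j (m : ZMod L)))) ^ 2
      ≤ 1 / (2 * κ) * ∑ j : Fin d, ∑ z, ∑ y, ‖EK (z j) y‖ ^ 2 *
        (√(θ * ρ z) - √(θ * ρ (Function.update z j y))) ^ 2 := by
  rw [Finset.mul_sum, Finset.mul_sum]
  refine Finset.sum_le_sum fun j _ => ?_
  have e1 : ∑ m ∈ Finset.Icc (-M) M, c *
    ∑ z : Fin d → ZMod L, (√(ρ z) - √(ρ (z + Pi.single j (m : ZMod L)))) ^ 2
    = ∑ z : Fin d → ZMod L, ∑ m ∈ Finset.Icc (-M) M, c *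
      (√(ρ z) - √(ρ (z + Pi.single j (m : ZMod L)))) ^ 2 := by
    rw [Finset.sum_comm]
    exact Finset.sum_congr rfl fun m _ => by rw [Finset.mul_sum]
  rw [e1, Finset.mul_sum, Finset.mul_sum]
  refine Finset.sum_le_sum fun z _ => ?_
  have e2 := end_gain (L := L) (M := M) hM
    (w := fun i y => 1 / (2 * κ) * ‖EK i y‖ ^ 2)
    (fun i y => by positivity) hc j (fun z => √(ρ z)) z
  calc θ * ∑ m ∈ Finset.Icc (-M) M, c *
      (√(ρ z) - √(ρ (z + Pi.single j (m : ZMod L)))) ^ 2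
      ≤ θ * ∑ y, 1 / (2 * κ) * ‖EK (z j) y‖ ^ 2 *
        (√(ρ z) - √(ρ (Function.update z j y))) ^ 2 := mul_le_mul_of_nonneg_left e2 hθ
    _ = 1 / (2 * κ) * ∑ y, ‖EK (z j) y‖ ^ 2 *
        (√(θ * ρ z) - √(θ * ρ (Function.update z j y))) ^ 2 := by
        rw [Finset.mul_sum, Finset.mul_sum]
        refine Finset.sum_congr rfl fun y _ => ?_
        rw [Real.sqrt_mul hθ, Real.sqrt_mul hθ, ← mul_sub, mul_pow, Real.sq_sqrt hθ]
        ring

/-- the inequality on the lattice -/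
theorem end_lattice {v : Fin N → (Fin d → ℝ) → ℂ} {b R ε : ℝ} (hb0 : 0 < b) (hR : b < R)
    (hε : 0 < ε) {L : ℕ} [NeZero L] {κ : ℝ} (hκ0 : 0 < κ)
    (hκ : ∀ y, NormedSpace.exp (-(Kl L ((b * L / (2 * R)) ^ 2))) y y = (κ : ℂ))
    (hκ1 : κ ≤ 2 * R / L / (√(4 * π) * b) * (1 + ε))
    (hκ2 : ∀ (i : ZMod L) (m : ℤ), |(m : ℝ)| * (2 * R / L) ≤ b →
        1 / 20 * (2 * R / L) / b ≤
          1 / (2 * κ) * ‖NormedSpace.exp (-((1 / 2 : ℂ) • Kl L ((b * L / (2 * R)) ^ 2))) i (i + (m : ZMod L))‖ ^ 2)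
    (hg : ∀ c : Fin N → ℂ,
      (2 * R / L) ^ d * ∑ z : Fin d → ZMod L, ‖∑ n, c n * v n (XX R L z)‖ ^ 2
        ≤ (1 + ε) * ∑ n, ‖c n‖ ^ 2) :
    (d : ℝ) / 2 * Real.log (4 * π * b ^ 2) * ((2 * R / L) ^ d * ∑ z : Fin d → ZMod L, rho v (XX R L z))
      + (2 * R / L) ^ d * ∑ z : Fin d → ZMod L, rho v (XX R L z) * Real.log (rho v (XX R L z))
      + 1 / 20 * ∑ j, b⁻¹ * ∑ m ∈ Finset.Icc (-(⌊b / (2 * R / L)⌋)) ⌊b / (2 * R / L)⌋,
        (2 * R / L) * ((2 * R / L) ^ d * ∑ z : Fin d → ZMod L, (√(rho v (XX R L z)) -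
            √(rho v (XX R L (z + Pi.single j (m : ZMod L))))) ^ 2)
      ≤ b ^ 2 * (∑ j : Fin d, ∑ n, (2 * R / L) ^ d * ∑ z : Fin d → ZMod L,
        ‖v n (XX R L (z + Pi.single j 1)) - v n (XX R L z)‖ ^ 2 / (2 * R / L) ^ 2)
        + (d + 1) * ε * ((2 * R / L) ^ d * ∑ z : Fin d → ZMod L, rho v (XX R L z)) := by
  classical
  have hLp : (0 : ℝ) < L := by exact_mod_cast Nat.pos_of_ne_zero (NeZero.ne L)
  have hR0 : 0 < R := by linarith
  have hcsq : ((b * L / (2 * R)) ^ 2 : ℝ) = (b / (2 * R / L)) ^ 2 := by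
    congr 1
    field_simp
  set h : ℝ := 2 * R / L with hh
  have hh0 : 0 < h := by positivity
  have hLh : (L : ℝ) * h = 2 * R := by rw [hh]; field_simp
  set K := Kl L ((b * L / (2 * R)) ^ 2) with hK
  set M : ℤ := ⌊b / h⌋ with hM
  have hM1 : (M : ℝ) * h ≤ b := by
    have := Int.floor_le (b / h)
    rwa [le_div_iff₀ hh0] at this
  have hM0 : 0 ≤ M := Int.floor_nonneg.mpr (by positivity)
  have h2M : 2 * M < L := by
    have h1 : 2 * (M : ℝ) * h < L * h := by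
      rw [hLh]
      linarith
    have h2 : 2 * (M : ℝ) < L := lt_of_mul_lt_mul_right h1 hh0.le
    exact_mod_cast h2
  set θ : ℝ := h ^ d / (1 + ε) with hθ
  have h1ε : 0 < 1 + ε := by linarith
  have hθ0 : 0 < θ := by positivity
  have hθε : (1 + ε) * θ = h ^ d := by rw [hθ]; field_simp
  set a : Fin N → (Fin d → ZMod L) → ℂ := fun n z => ((√θ : ℝ) : ℂ) * v n (XX R L z) with ha
  have hsq : ∀ x : ℂ, ‖((√θ : ℝ) : ℂ) * x‖ ^ 2 = θ * ‖x‖ ^ 2 := by
    intro x
    rw [norm_mul, mul_pow, Complex.norm_real, Real.norm_eq_abs, sq_abs, Real.sq_sqrt hθ0.le]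
  have haa : ∀ z, ∑ n, ‖a n z‖ ^ 2 = θ * rho v (XX R L z) := by
    intro z
    unfold rho
    rw [Finset.mul_sum]
    exact Finset.sum_congr rfl fun n _ => hsq _
  have hbes : ∀ c : Fin N → ℂ, ∑ z, ‖∑ n, c n * a n z‖ ^ 2 ≤ ∑ n, ‖c n‖ ^ 2 := by
    intro c
    have h1 : ∀ z, ‖∑ n, c n * a n z‖ ^ 2 = θ * ‖∑ n, c n * v n (XX R L z)‖ ^ 2 := by
      intro z
      rw [← hsq, Finset.mul_sum]
      congr 2
      refine Finset.sum_congr rfl fun n _ => ?_
      simp only [ha]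
      ring
    rw [Finset.sum_congr rfl fun z _ => h1 z, ← Finset.mul_sum]
    have h2 := hg c
    rw [← hθε, mul_assoc] at h2
    exact le_of_mul_le_mul_left h2 h1ε
  have hmain := disc (Kl_herm L ((b * L / (2 * R)) ^ 2)) hκ0 hκ a hbes
  rw [← hK] at hmain
  -- abbreviations
  set ρ : (Fin d → ZMod L) → ℝ := fun z => rho v (XX R L z) with hρ
  have hρ0 : ∀ z, 0 ≤ ρ z := by
    intro z
    simp only [hρ]
    unfold rho
    exact Finset.sum_nonneg fun n _ => by positivity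
  simp only [haa] at hmain
  -- the kinetic term
  have hkin : ∑ j : Fin d, (∑ n, ∑ z, ∑ y, K (z j) y * a n (Function.update z j y) * star (a n z)).re
      = θ * (b ^ 2 * ∑ j : Fin d, ∑ n, ∑ z : Fin d → ZMod L,
        ‖v n (XX R L (z + Pi.single j 1)) - v n (XX R L z)‖ ^ 2 / h ^ 2) := by
    rw [Finset.mul_sum, Finset.mul_sum]
    refine Finset.sum_congr rfl fun j _ => ?_
    rw [Complex.re_sum, Finset.mul_sum, Finset.mul_sum]
    refine Finset.sum_congr rfl fun n _ => ?_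
    rw [hK, end_kin, hcsq, Finset.mul_sum, Finset.mul_sum, Finset.mul_sum]
    refine Finset.sum_congr rfl fun z _ => ?_
    simp only [ha]
    rw [← mul_sub, hsq]
    field_simp
  rw [hkin] at hmain
  -- the entropy term
  have hent : ∑ z, θ * ρ z * Real.log (θ * ρ z)
      = θ * (Real.log θ * ∑ z, ρ z + ∑ z, ρ z * Real.log (ρ z)) := by
    rw [Finset.mul_sum, ← Finset.sum_add_distrib, Finset.mul_sum]
    refine Finset.sum_congr rfl fun z _ => ?_
    rcases eq_or_ne (ρ z) 0 with h0 | h0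
    · rw [h0]; simp
    · rw [Real.log_mul hθ0.ne' h0]
      ring
  -- the gain term
  set EK : Matrix (ZMod L) (ZMod L) ℂ := NormedSpace.exp (-((1 / 2 : ℂ) • K)) with hEK
  have hgain := end_gain_sum (d := d) hκ0 h2M hθ0.le (EK := EK) (c := 1 / 20 * h / b)
    (fun i m hm => hκ2 i m (by
        refine le_trans (mul_le_mul_of_nonneg_right ?_ hh0.le) hM1
        exact_mod_cast hm)) ρ
  -- the logarithms
  have hlogθ : Real.log θ = d * Real.log h - Real.log (1 + ε) := by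
    rw [hθ, Real.log_div (by positivity) h1ε.ne', Real.log_pow]
  have hlogκ : Real.log κ ≤ Real.log h - 1 / 2 * Real.log (4 * π * b ^ 2) + Real.log (1 + ε) := by
    have hπ : 0 < 4 * π := by positivity
    have hsq : √(4 * π) * b = √(4 * π * b ^ 2) := by
      rw [Real.sqrt_mul hπ.le, Real.sqrt_sq hb0.le]
    have h1 := Real.log_le_log hκ0 hκ1
    rw [hsq, Real.log_mul (by positivity) h1ε.ne', Real.log_div hh0.ne' (by positivity),
      Real.log_sqrt (by positivity)] at h1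
    linarith
  have hlogε : Real.log (1 + ε) ≤ ε := by
    have := Real.log_le_sub_one_of_pos h1ε
    linarith
  have hS0 : 0 ≤ ∑ z, ρ z := Finset.sum_nonneg fun z _ => hρ0 z
  have hsum : ∑ z, θ * ρ z = θ * ∑ z, ρ z := by rw [Finset.mul_sum]
  rw [hent, hsum] at hmain
  have hkey : θ * ((d : ℝ) / 2 * Real.log (4 * π * b ^ 2) * (∑ z, ρ z)
      + ∑ z, ρ z * Real.log (ρ z)
      + ∑ j : Fin d, ∑ m ∈ Finset.Icc (-M) M, (1 / 20 * h / b) *
      ∑ z : Fin d → ZMod L, (√(ρ z) - √(ρ (z + Pi.single j (m : ZMod L)))) ^ 2)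
      ≤ θ * ((b ^ 2 * ∑ j : Fin d, ∑ n, ∑ z : Fin d → ZMod L,
        ‖v n (XX R L (z + Pi.single j 1)) - v n (XX R L z)‖ ^ 2 / h ^ 2)
        + (d + 1) * ε * (∑ z, ρ z)) := by
    have h1 : -(d : ℝ) * Real.log κ * (θ * ∑ z, ρ z)
        ≥ -(d : ℝ) * (Real.log h - 1 / 2 * Real.log (4 * π * b ^ 2) + ε) * (θ * ∑ z, ρ z) := by
      apply mul_le_mul_of_nonneg_right _ (by positivity)
      have : (d : ℝ) * Real.log κ
          ≤ d * (Real.log h - 1 / 2 * Real.log (4 * π * b ^ 2) + ε) :=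
        mul_le_mul_of_nonneg_left (by linarith) (Nat.cast_nonneg d)
      linarith
    have h2 : θ * (Real.log θ * ∑ z, ρ z) ≥ θ * ((d * Real.log h - ε) * ∑ z, ρ z) := by
      apply mul_le_mul_of_nonneg_left _ hθ0.le
      apply mul_le_mul_of_nonneg_right _ hS0
      rw [hlogθ]
      linarith
    generalize (∑ z, ρ z) = S at h1 h2 hmain ⊢
    generalize (∑ z, ρ z * Real.log (ρ z)) = T at h1 h2 hmain ⊢
    linarith [h1, h2, hmain, hgain]
  have hkey2 := le_of_mul_le_mul_left hkey hθ0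
  have hkey3 := mul_le_mul_of_nonneg_left hkey2 (show 0 ≤ h ^ d by positivity)
  have e1 : h ^ d * ∑ j : Fin d, ∑ m ∈ Finset.Icc (-M) M, (1 / 20 * h / b) *
      ∑ z : Fin d → ZMod L, (√(ρ z) - √(ρ (z + Pi.single j (m : ZMod L)))) ^ 2
      = 1 / 20 * ∑ j, b⁻¹ * ∑ m ∈ Finset.Icc (-M) M,
        h * (h ^ d * ∑ z : Fin d → ZMod L, (√(ρ z) - √(ρ (z + Pi.single j (m : ZMod L)))) ^ 2) := by
    rw [Finset.mul_sum, Finset.mul_sum]
    refine Finset.sum_congr rfl fun j _ => ?_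
    rw [Finset.mul_sum, Finset.mul_sum, Finset.mul_sum]
    refine Finset.sum_congr rfl fun m _ => ?_
    field_simp
  have e2 : h ^ d * (b ^ 2 * ∑ j : Fin d, ∑ n, ∑ z : Fin d → ZMod L,
        ‖v n (XX R L (z + Pi.single j 1)) - v n (XX R L z)‖ ^ 2 / h ^ 2)
      = b ^ 2 * (∑ j : Fin d, ∑ n, h ^ d * ∑ z : Fin d → ZMod L,
        ‖v n (XX R L (z + Pi.single j 1)) - v n (XX R L z)‖ ^ 2 / h ^ 2) := by
    simp only [← Finset.mul_sum]
    ring
  rw [mul_add, mul_add, e1, mul_add, e2] at hkey3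
  linarith [hkey3]

theorem end_eps {v : Fin N → (Fin d → ℝ) → ℂ} (hv : Fam v) (hb : Bes v) {b : ℝ} (hb0 : 0 < b)
    {ε : ℝ} (hε : 0 < ε) (hε1 : ε ≤ 1) :
    (d : ℝ) / 2 * Real.log (4 * π * b ^ 2) * (∫ y, rho v y) + (∫ y, rho v y * Real.log (rho v y))
      + 1 / 20 * (∑ j, DD v j b) ≤ b ^ 2 * kin v
        + ε * (|(d : ℝ) / 2 * Real.log (4 * π * b ^ 2)| + 1 + 1 / 20 * (d * b⁻¹) + b ^ 2
          + (d + 1) * ((∫ y, rho v y) + 1)) := by
  obtain ⟨R₀, hR₀, hlat⟩ := lat hb0 hε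
  obtain ⟨R1, hR1, hvan⟩ := hv.van
  set R : ℝ := R₀ + R1 + b + 2 with hR
  have hRR : R₀ ≤ R := by linarith
  have hR0 : 0 < R := by linarith
  have hbR : b + 1 < R := by linarith
  have hvv : ∀ n x, (∃ i, R - b - 1 ≤ |x i|) → v n x = 0 := by
    rintro n x ⟨i, hi⟩
    apply (hvan n).1
    have := norm_le_pi_norm x i
    rw [Real.norm_eq_abs] at this
    linarith
  have hvR : ∀ n x, (∃ i, R ≤ |x i|) → v n x = 0 := by
    rintro n x ⟨i, hi⟩
    exact hvv n x ⟨i, by linarith⟩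
  have hvR1 : ∀ n x, (∃ i, R - 1 ≤ |x i|) → v n x = 0 := by
    rintro n x ⟨i, hi⟩
    exact hvv n x ⟨i, by linarith⟩
  have hrR : ∀ x, (∃ i, R ≤ |x i|) → rho v x = 0 := by
    intro x hx
    unfold rho
    exact Finset.sum_eq_zero fun n _ => by rw [hvR n x hx]; simp
  have hc := continuous_rho hv
  obtain ⟨L1, h1⟩ := hlat R hRR
  obtain ⟨L2, h2⟩ := gram_lim hv hb hR0 hvR hε
  obtain ⟨L3, h3⟩ := kin_lim hv (by linarith : 1 < R) hvR1 hε
  obtain ⟨L4, h4⟩ := riem_tendsto hR0 hc hrR hε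
  obtain ⟨L5, h5⟩ := riem_tendsto (F := fun x => rho v x * Real.log (rho v x)) hR0
    (Real.continuous_mul_log.comp hc) (fun x hx => by simp only [hrR x hx, zero_mul]) hε
  have h6 : ∀ j : Fin d, ∃ L₀ : ℕ, ∀ L : ℕ, L₀ ≤ L → ∀ [NeZero L],
      (∫ s in (-b)..b, Hs v j s) - ε ≤
        ∑ m ∈ Finset.Icc (-(⌊b / (2 * R / L)⌋)) ⌊b / (2 * R / L)⌋, (2 * R / L) * ((2 * R / L) ^ d *
          ∑ z : Fin d → ZMod L, (√(rho v (XX R L z)) -
            √(rho v (XX R L (z + Pi.single j (m : ZMod L))))) ^ 2) :=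
    fun j => gain_lim hv hb0 hbR hvv j hε
  choose L6 h6 using h6
  set L : ℕ := L1 + L2 + L3 + L4 + L5 + (∑ j, L6 j) + 1 with hL
  have hne : NeZero L := ⟨by omega⟩
  obtain ⟨κ, hκ0, hκ, hκ1, hκ2⟩ := h1 L (by omega)
  have g2 := h2 L (by omega)
  have g3 := h3 L (by omega)
  have g4 := abs_le.mp (h4 L (by omega))
  have g5 := abs_le.mp (h5 L (by omega))
  have g6 : ∀ j, _ := fun j => h6 j L (by
    have := Finset.single_le_sum (f := L6) (fun i _ => Nat.zero_le _) (Finset.mem_univ j)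
    omega)
  have hm := end_lattice (v := v) hb0 (by linarith : b < R) hε hκ0 hκ hκ1 hκ2 g2
  have g7 : (∑ j, DD v j b) - d * (b⁻¹ * ε) ≤
      ∑ j : Fin d, b⁻¹ * ∑ m ∈ Finset.Icc (-(⌊b / (2 * R / L)⌋)) ⌊b / (2 * R / L)⌋,
        (2 * R / L) * ((2 * R / L) ^ d * ∑ z : Fin d → ZMod L, (√(rho v (XX R L z)) -
            √(rho v (XX R L (z + Pi.single j (m : ZMod L))))) ^ 2) := by
    have e1 : (∑ j, DD v j b) - d * (b⁻¹ * ε) = ∑ j : Fin d, (b⁻¹ * ((∫ s in (-b)..b, Hs v j s) - ε)) := by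
      unfold DD
      simp only [mul_sub]
      rw [Finset.sum_sub_distrib, Finset.sum_const, Finset.card_univ, Fintype.card_fin,
        nsmul_eq_mul]
    rw [e1]
    exact Finset.sum_le_sum fun j _ => mul_le_mul_of_nonneg_left (g6 j) (by positivity)
  have hi0 : 0 ≤ ∫ y, rho v y := integral_nonneg fun y => by
    simp only [Pi.zero_apply]
    unfold rho
    exact Finset.sum_nonneg fun n _ => by positivity
  generalize (∑ j : Fin d, b⁻¹ * ∑ m ∈ Finset.Icc (-(⌊b / (2 * R / L)⌋)) ⌊b / (2 * R / L)⌋,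
        (2 * R / L) * ((2 * R / L) ^ d * ∑ z : Fin d → ZMod L, (√(rho v (XX R L z)) -
            √(rho v (XX R L (z + Pi.single j (m : ZMod L))))) ^ 2)) = G at hm g7
  generalize ((2 * R / (L : ℝ)) ^ d * ∑ z : Fin d → ZMod L, rho v (XX R L z)) = S at hm g4
  generalize ((2 * R / (L : ℝ)) ^ d * ∑ z : Fin d → ZMod L,
    rho v (XX R L z) * Real.log (rho v (XX R L z))) = T at hm g5
  generalize (∑ j : Fin d, ∑ n, (2 * R / (L : ℝ)) ^ d * ∑ z : Fin d → ZMod L,
        ‖v n (XX R L (z + Pi.single j 1)) - v n (XX R L z)‖ ^ 2 / (2 * R / L) ^ 2) = Q at hm g3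
  generalize (∑ j, DD v j b) = DDs at g7 ⊢
  generalize (∫ y, rho v y * Real.log (rho v y)) = J at g5 ⊢
  generalize (∫ y, rho v y) = I at g4 hi0 ⊢
  generalize kin v = E at g3 ⊢
  generalize (d : ℝ) / 2 * Real.log (4 * π * b ^ 2) = D at hm ⊢
  have a1 : D * (I - S) ≤ |D| * ε := by
    calc D * (I - S) ≤ |D * (I - S)| := le_abs_self _
      _ = |D| * |I - S| := abs_mul _ _
      _ ≤ |D| * ε := by
        apply mul_le_mul_of_nonneg_left _ (abs_nonneg _)
        rw [abs_le]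
        constructor <;> linarith [g4.1, g4.2]
  have a2 : b ^ 2 * Q ≤ b ^ 2 * (E + ε) := mul_le_mul_of_nonneg_left g3 (sq_nonneg _)
  have a3 : ((d : ℝ) + 1) * ε * S ≤ (d + 1) * ε * (I + 1) := by
    apply mul_le_mul_of_nonneg_left _ (by positivity)
    linarith [g4.2]
  linarith [g5.1, g7]

/-- Ent-d -/
theorem entropic {v : Fin N → (Fin d → ℝ) → ℂ} (hv : Fam v) (hb : Bes v) {b : ℝ} (hb0 : 0 < b) :
    (d : ℝ) / 2 * Real.log (4 * π * b ^ 2) * (∫ y, rho v y) + (∫ y, rho v y * Real.log (rho v y))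
      + 1 / 20 * (∑ j, DD v j b) ≤ b ^ 2 * kin v := by
  have hi0 : 0 ≤ ∫ y, rho v y := integral_nonneg fun y => by
    simp only [Pi.zero_apply]
    unfold rho
    exact Finset.sum_nonneg fun n _ => by positivity
  apply le_of_forall_pos_le_add
  intro t ht
  set C : ℝ := |(d : ℝ) / 2 * Real.log (4 * π * b ^ 2)| + 1 + 1 / 20 * (d * b⁻¹) + b ^ 2
          + (d + 1) * ((∫ y, rho v y) + 1) with hC
  have hC0 : 0 < C := by positivity
  have h1 := end_eps hv hb hb0 (ε := min (t / C) 1) (lt_min (by positivity) one_pos)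
    (min_le_right _ _)
  rw [← hC] at h1
  have h2 : min (t / C) 1 * C ≤ t := by
    calc min (t / C) 1 * C ≤ t / C * C := mul_le_mul_of_nonneg_right (min_le_left _ _) hC0.le
      _ = t := by field_simp
  linarith

end Pool.Agent.LTHD
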