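import Mathlib
import Pool.Agent.LTHD.Defs

open Real Finset MeasureTheory Matrix ComplexOrder
open Pool.Agent.LiebT2

set_option autoImplicit false

namespace Pool.Agent.LTHD

variable {d k N : ℕ}

theorem rho_win (a b : ℝ → ℝ) (w s t : ℝ) (u : Fin N → (Fin d → ℝ) → ℂ) (x : Fin d → ℝ) :
    rho (win a b w s t u) x = chi a b d w s t (rho u x) ^ 2 * rho u x := by
  have h : ∀ r : ℝ, ∑ n, ‖((r : ℝ) : ℂ) * u n x‖ ^ 2 = r ^ 2 * ∑ n, ‖u n x‖ ^ 2 := by
    intro r
    rw [mul_sum]
    refine sum_congr rfl fun n _ => ?_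
    rw [norm_mul, Complex.norm_real, mul_pow, Real.norm_eq_abs, sq_abs]
  exact h (chi a b d w s t (rho u x))

lemma win_chi_nonneg {a b : ℝ → ℝ} {D : ℝ} (hT : Trans a b D) (d : ℕ) (w s t r : ℝ) :
    0 ≤ chi a b d w s t r := by
  unfold chi
  split_ifs
  · exact le_rfl
  · exact mul_nonneg (hT.na _) (hT.nb _)

lemma win_chi_le_one {a b : ℝ → ℝ} {D : ℝ} (hT : Trans a b D) (d : ℕ) (w s t r : ℝ) :
    chi a b d w s t r ≤ 1 := by
  have ha : ∀ x, a x ≤ 1 := fun x => by
    have h1 := hT.sq x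
    have h2 := hT.na x
    nlinarith [sq_nonneg (b x)]
  have hb : ∀ x, b x ≤ 1 := fun x => by
    have h1 := hT.sq x
    have h2 := hT.nb x
    nlinarith [sq_nonneg (a x)]
  unfold chi
  split_ifs
  · exact zero_le_one
  · exact mul_le_one₀ (ha _) (hT.nb _) (hb _)

lemma win_chi_zero {a b : ℝ → ℝ} {D : ℝ} (hT : Trans a b D) {w s t : ℝ} (hw : 0 < w) {d : ℕ}
    (hd : 1 ≤ d) {r : ℝ} (hr : r < Real.exp (d * s / 2)) : chi a b d w s t r = 0 := by
  unfold chi
  split_ifs with h
  · rfl
  · push Not at h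
    have hd' : (0 : ℝ) < d := by exact_mod_cast (by omega : 0 < d)
    have h1 : Real.log r < d * s / 2 := by
      rw [Real.log_lt_iff_lt_exp h]; exact hr
    have h2 : 2 / (d : ℝ) * Real.log r < s := by
      calc 2 / (d : ℝ) * Real.log r < 2 / (d : ℝ) * (d * s / 2) := by
            apply mul_lt_mul_of_pos_left h1 (by positivity)
        _ = s := by field_simp
    rw [hT.a0 _ (div_nonpos_of_nonpos_of_nonneg (by linarith) hw.le), zero_mul]

lemma win_contDiff_chi {a b : ℝ → ℝ} {D : ℝ} (hT : Trans a b D) {w s t : ℝ} (hw : 0 < w) {d : ℕ}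
    (hd : 1 ≤ d) : ContDiff ℝ 1 (chi a b d w s t) := by
  rw [contDiff_iff_contDiffAt]
  intro r
  by_cases hr : 0 < r
  · have h1 : chi a b d w s t =ᶠ[nhds r] fun r => a ((2 / (d : ℝ) * Real.log r - s) / w) *
        b ((2 / (d : ℝ) * Real.log r - t) / w) := by
      filter_upwards [lt_mem_nhds hr] with r' hr'
      unfold chi
      rw [if_neg (not_le.2 hr')]
    refine ContDiffAt.congr_of_eventuallyEq ?_ h1
    have hlog : ContDiffAt ℝ 1 Real.log r := Real.contDiffAt_log.2 hr.ne'
    apply ContDiffAt.mul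
    · apply hT.ca.contDiffAt.comp
      exact ((contDiffAt_const.mul hlog).sub contDiffAt_const).div_const w
    · apply hT.cb.contDiffAt.comp
      exact ((contDiffAt_const.mul hlog).sub contDiffAt_const).div_const w
  · push Not at hr
    have h0 : r < Real.exp (d * s / 2) := lt_of_le_of_lt hr (Real.exp_pos _)
    have h1 : chi a b d w s t =ᶠ[nhds r] fun _ => 0 := by
      filter_upwards [gt_mem_nhds h0] with r' hr'
      exact win_chi_zero hT hw hd hr'
    exact contDiffAt_const.congr_of_eventuallyEq h1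

lemma win_contDiff_rho {u : Fin N → (Fin d → ℝ) → ℂ} (hu : Fam u) : ContDiff ℝ 1 (rho u) := by
  have : rho u = fun x => ∑ n, ‖u n x‖ ^ 2 := rfl
  rw [this]
  exact ContDiff.sum fun n _ => (hu.smooth n).norm_sq ℝ

theorem fam_win {a b : ℝ → ℝ} {D : ℝ} (hT : Trans a b D) {w s t : ℝ} (hw : 0 < w)
    {u : Fin N → (Fin d → ℝ) → ℂ} (hd : 1 ≤ d) (hu : Fam u) : Fam (win a b w s t u) := by
  refine ⟨fun n => ?_, fun n => ?_⟩
  · have h1 : ContDiff ℝ 1 (fun x => ((chi a b d w s t (rho u x) : ℝ) : ℂ)) :=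
      Complex.ofRealCLM.contDiff.comp ((win_contDiff_chi hT hw hd).comp (win_contDiff_rho hu))
    exact h1.mul (hu.smooth n)
  · exact (hu.supp n).mul_left

theorem bes_win {a b : ℝ → ℝ} {D : ℝ} (hT : Trans a b D) {w s t : ℝ} (hw : 0 < w)
    {u : Fin N → (Fin d → ℝ) → ℂ} (hd : 1 ≤ d) (hu : Fam u) (hb : Bes u) :
    Bes (win a b w s t u) := by
  intro c
  have hcont : Continuous fun y => ‖∑ n, c n * u n y‖ ^ 2 := by
    have : Continuous fun y => ∑ n, c n * u n y :=
      continuous_finsetSum _ fun n _ => continuous_const.mul (hu.smooth n).continuous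
    exact this.norm.pow 2
  have hsupp : HasCompactSupport fun y => ‖∑ n, c n * u n y‖ ^ 2 := by
    have h1 : HasCompactSupport fun y => ∑ n, c n * u n y := by
      have hK : IsCompact (⋃ n, tsupport (u n)) := isCompact_iUnion fun n => hu.supp n
      refine HasCompactSupport.of_support_subset_isCompact hK ?_
      intro y hy
      by_contra hne
      apply hy
      refine Finset.sum_eq_zero fun n _ => ?_
      have : u n y = 0 := by
        by_contra h
        exact hne (Set.mem_iUnion.2 ⟨n, subset_tsupport _ h⟩)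
      rw [this, mul_zero]
    exact h1.comp_left (g := fun z : ℂ => ‖z‖ ^ 2) (by simp)
  refine le_trans ?_ (hb c)
  apply integral_mono_of_nonneg
  · exact Filter.Eventually.of_forall fun y => by positivity
  · exact hcont.integrable_of_hasCompactSupport hsupp
  · refine Filter.Eventually.of_forall fun y => ?_
    show ‖∑ n, c n * win a b w s t u n y‖ ^ 2 ≤ ‖∑ n, c n * u n y‖ ^ 2
    have h1 : ∑ n, c n * win a b w s t u n y
        = ((chi a b d w s t (rho u y) : ℝ) : ℂ) * ∑ n, c n * u n y := by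
      rw [mul_sum]
      refine sum_congr rfl fun n _ => ?_
      unfold win
      ring
    rw [h1, norm_mul, Complex.norm_real, Real.norm_of_nonneg (win_chi_nonneg hT d w s t _)]
    have h2 := win_chi_le_one hT d w s t (rho u y)
    have h3 := win_chi_nonneg hT d w s t (rho u y)
    have h4 : chi a b d w s t (rho u y) * ‖∑ n, c n * u n y‖ ≤ 1 * ‖∑ n, c n * u n y‖ :=
      mul_le_mul_of_nonneg_right h2 (norm_nonneg _)
    rw [one_mul] at h4
    exact pow_le_pow_left₀ (mul_nonneg h3 (norm_nonneg _)) h4 2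

end Pool.Agent.LTHD
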