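import Mathlib
import Pool.Agent.LTHD.Defs
import Pool.Agent.LTHD.Win

open Real Finset MeasureTheory Matrix ComplexOrder
open Pool.Agent.LiebT2

set_option autoImplicit false

namespace Pool.Agent.LTHD

variable {d k N : ℕ}

section trans

variable {a b : ℝ → ℝ} {D : ℝ}

lemma ims_a_le (hT : Trans a b D) (x : ℝ) : a x ≤ 1 := by
  have h1 := hT.sq x
  have h2 := hT.na x
  nlinarith [sq_nonneg (b x)]

lemma ims_b_le (hT : Trans a b D) (x : ℝ) : b x ≤ 1 := by
  have h1 := hT.sq x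
  have h2 := hT.nb x
  nlinarith [sq_nonneg (a x)]

lemma ims_b_one (hT : Trans a b D) {x : ℝ} (hx : x ≤ 0) : b x = 1 := by
  have h1 := hT.sq x
  rw [hT.a0 x hx] at h1
  have h2 := hT.nb x
  nlinarith

lemma ims_a_one (hT : Trans a b D) {x : ℝ} (hx : 1 ≤ x) : a x = 1 := by
  have h1 := hT.sq x
  rw [hT.b1 x hx] at h1
  have h2 := hT.na x
  nlinarith

lemma ims_da (hT : Trans a b D) {x : ℝ} (hx : x ≤ 0 ∨ 1 ≤ x) : deriv a x = 0 := by
  rcases hx with hx | hx
  · apply IsLocalMin.deriv_eq_zero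
    refine Filter.Eventually.of_forall fun y => ?_
    rw [hT.a0 x hx]
    exact hT.na y
  · apply IsLocalMax.deriv_eq_zero
    refine Filter.Eventually.of_forall fun y => ?_
    rw [ims_a_one hT hx]
    exact ims_a_le hT y

lemma ims_db (hT : Trans a b D) {x : ℝ} (hx : x ≤ 0 ∨ 1 ≤ x) : deriv b x = 0 := by
  rcases hx with hx | hx
  · apply IsLocalMax.deriv_eq_zero
    refine Filter.Eventually.of_forall fun y => ?_
    rw [ims_b_one hT hx]
    exact ims_b_le hT y
  · apply IsLocalMin.deriv_eq_zero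
    refine Filter.Eventually.of_forall fun y => ?_
    rw [hT.b1 x hx]
    exact hT.nb y

lemma ims_ab (hT : Trans a b D) (x : ℝ) : a x * deriv a x + b x * deriv b x = 0 := by
  have ha : HasDerivAt a (deriv a x) x := (hT.ca.differentiable one_ne_zero x).hasDerivAt
  have hb : HasDerivAt b (deriv b x) x := (hT.cb.differentiable one_ne_zero x).hasDerivAt
  have h1 : HasDerivAt (fun y => a y ^ 2 + b y ^ 2)
      (2 * a x * deriv a x + 2 * b x * deriv b x) x := by
    have h2 := (ha.pow 2).add (hb.pow 2)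
    refine h2.congr_deriv ?_
    push_cast
    ring
  have h2 : HasDerivAt (fun y => a y ^ 2 + b y ^ 2) 0 x := by
    have : (fun y => a y ^ 2 + b y ^ 2) = fun _ => (1 : ℝ) := funext hT.sq
    rw [this]
    exact hasDerivAt_const x 1
  have h3 := h1.unique h2
  linarith

lemma ims_D (hT : Trans a b D) : 0 ≤ D := le_trans (by positivity) (hT.dd 0)

/-- numbers in the telescoping sums -/
lemma ims_sums (hT : Trans a b D) (x : ℕ → ℝ) (hx : ∀ i, x (i + 1) ≤ x i - 1) (m : ℕ)
    (hm : x m ≤ 0) :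
    (∑ i ∈ range m, (a (x i) * b (x (i + 1))) ^ 2 = 1 - b (x 0) ^ 2) ∧
    (∑ i ∈ range m, (a (x i) * b (x (i + 1))) *
      (deriv a (x i) * b (x (i + 1)) + a (x i) * deriv b (x (i + 1))) =
        -(b (x 0) * deriv b (x 0))) ∧
    (∑ i ∈ range m, (deriv a (x i) * b (x (i + 1)) + a (x i) * deriv b (x (i + 1))) ^ 2
      ≤ D - deriv b (x 0) ^ 2) := by
  -- dichotomy
  have key : ∀ i, (b (x (i + 1)) = 1 ∧ deriv b (x (i + 1)) = 0) ∨
      (a (x i) = 1 ∧ deriv a (x i) = 0 ∧ b (x i) = 0 ∧ deriv b (x i) = 0) := by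
    intro i
    rcases le_total (x i) 1 with h | h
    · left
      have h1 : x (i + 1) ≤ 0 := by linarith [hx i]
      exact ⟨ims_b_one hT h1, ims_db hT (Or.inl h1)⟩
    · right
      exact ⟨ims_a_one hT h, ims_da hT (Or.inr h), hT.b1 _ h, ims_db hT (Or.inr h)⟩
  have hbm : b (x m) = 1 := ims_b_one hT hm
  have hdbm : deriv b (x m) = 0 := ims_db hT (Or.inl hm)
  refine ⟨?_, ?_, ?_⟩
  · have h1 : ∀ i ∈ range m, (a (x i) * b (x (i + 1))) ^ 2 =
        b (x (i + 1)) ^ 2 - b (x i) ^ 2 := by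
      intro i _
      have h2 := hT.sq (x i)
      rcases key i with ⟨h3, _⟩ | ⟨h3, _, h4, _⟩
      · rw [h3]; linarith
      · rw [h3, h4]; ring
    rw [sum_congr rfl h1, Finset.sum_range_sub (fun i => b (x i) ^ 2), hbm]
    ring
  · have h1 : ∀ i ∈ range m, (a (x i) * b (x (i + 1))) *
        (deriv a (x i) * b (x (i + 1)) + a (x i) * deriv b (x (i + 1))) =
        b (x (i + 1)) * deriv b (x (i + 1)) - b (x i) * deriv b (x i) := by
      intro i _
      have h2 := ims_ab hT (x i)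
      rcases key i with ⟨h3, h4⟩ | ⟨h3, h4, h5, h6⟩
      · rw [h3, h4]; linarith
      · rw [h3, h4, h5, h6]; ring
    rw [sum_congr rfl h1, Finset.sum_range_sub (fun i => b (x i) * deriv b (x i)), hdbm]
    ring
  · have h1 : ∀ i ∈ range m, (deriv a (x i) * b (x (i + 1)) + a (x i) * deriv b (x (i + 1))) ^ 2 =
        (deriv a (x i) ^ 2 + deriv b (x i) ^ 2) +
          (deriv b (x (i + 1)) ^ 2 - deriv b (x i) ^ 2) := by
      intro i _
      rcases key i with ⟨h3, h4⟩ | ⟨h3, h4, h5, h6⟩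
      · rw [h3, h4]; ring
      · rw [h3, h4, h6]; ring
    rw [sum_congr rfl h1, sum_add_distrib, Finset.sum_range_sub (fun i => deriv b (x i) ^ 2), hdbm]
    have h2 : ∑ i ∈ range m, (deriv a (x i) ^ 2 + deriv b (x i) ^ 2) ≤ D := by
      by_cases hex : ∃ i0 ∈ range m, 0 < x i0 ∧ x i0 < 1
      · obtain ⟨i0, hi0, hi1, hi2⟩ := hex
        have hmono : ∀ i j, i < j → x j ≤ x i - 1 := by
          intro i j hij
          induction j, hij using Nat.le_induction with
          | base => exact hx i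
          | succ j hj ih => linarith [hx j]
        rw [Finset.sum_eq_single i0]
        · exact hT.dd _
        · intro j _ hne
          have : x j ≤ 0 ∨ 1 ≤ x j := by
            rcases lt_or_gt_of_ne hne with h | h
            · right; linarith [hmono j i0 h]
            · left; linarith [hmono i0 j h]
          rw [ims_da hT this, ims_db hT this]
          ring
        · intro h; exact absurd hi0 h
      · rw [Finset.sum_eq_zero]
        · exact ims_D hT
        · intro j hj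
          have : x j ≤ 0 ∨ 1 ≤ x j := by
            by_contra hcon
            push Not at hcon
            exact hex ⟨j, hj, hcon⟩
          rw [ims_da hT this, ims_db hT this]
          ring
    have h3 : (0 : ℝ) ^ 2 = 0 := by norm_num
    linarith

end trans

/-- derivative of the density -/
noncomputable def drho (u : Fin N → (Fin d → ℝ) → ℂ) (x : Fin d → ℝ) (j : Fin d) : ℝ :=
  ∑ n, 2 * inner ℝ (u n x) (fderiv ℝ (u n) x (Pi.single j 1))

lemma ims_hasFDerivAt_rho {u : Fin N → (Fin d → ℝ) → ℂ} (hu : Fam u) (x : Fin d → ℝ) :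
    HasFDerivAt (rho u) (fderiv ℝ (rho u) x) x :=
  ((win_contDiff_rho hu).differentiable one_ne_zero x).hasFDerivAt

lemma ims_fderiv_rho {u : Fin N → (Fin d → ℝ) → ℂ} (hu : Fam u) (x : Fin d → ℝ) (j : Fin d) :
    fderiv ℝ (rho u) x (Pi.single j 1) = drho u x j := by
  have h1 : ∀ n, HasFDerivAt (fun y => ‖u n y‖ ^ 2)
      (2 • (innerSL ℝ (u n x)).comp (fderiv ℝ (u n) x)) x := by
    intro n
    exact ((hu.smooth n).differentiable one_ne_zero x).hasFDerivAt.norm_sq
  have h2 : HasFDerivAt (fun y => ∑ n, ‖u n y‖ ^ 2)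
      (∑ n, 2 • (innerSL ℝ (u n x)).comp (fderiv ℝ (u n) x)) x :=
    HasFDerivAt.fun_sum fun n _ => h1 n
  have h3 : rho u = fun y => ∑ n, ‖u n y‖ ^ 2 := rfl
  rw [h3, h2.fderiv, drho]
  simp
  refine sum_congr rfl fun n _ => ?_
  ring

lemma ims_hasDerivAt_chi {a b : ℝ → ℝ} {D : ℝ} (hT : Trans a b D) {w s t : ℝ}
    {r : ℝ} (hr : 0 < r) :
    HasDerivAt (chi a b d w s t)
      (2 / (d * r * w) * (deriv a ((2 / (d : ℝ) * Real.log r - s) / w) *
        b ((2 / (d : ℝ) * Real.log r - t) / w) + a ((2 / (d : ℝ) * Real.log r - s) / w) *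
        deriv b ((2 / (d : ℝ) * Real.log r - t) / w))) r := by
  have h1 : chi a b d w s t =ᶠ[nhds r] fun r => a ((2 / (d : ℝ) * Real.log r - s) / w) *
      b ((2 / (d : ℝ) * Real.log r - t) / w) := by
    filter_upwards [lt_mem_nhds hr] with r' hr'
    unfold chi
    rw [if_neg (not_le.2 hr')]
  refine HasDerivAt.congr_of_eventuallyEq ?_ h1
  have hl : ∀ s, HasDerivAt (fun r => (2 / (d : ℝ) * Real.log r - s) / w)
      (2 / (d * r * w)) r := by
    intro s
    have h2 := (((Real.hasDerivAt_log hr.ne').const_mul (2 / (d : ℝ))).sub_const s).div_const w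
    refine h2.congr_deriv ?_
    rw [div_mul_eq_mul_div, div_div, ← div_eq_mul_inv, div_div]
    ring
  have ha : HasDerivAt a (deriv a ((2 / (d : ℝ) * Real.log r - s) / w))
      ((2 / (d : ℝ) * Real.log r - s) / w) := (hT.ca.differentiable one_ne_zero _).hasDerivAt
  have hb : HasDerivAt b (deriv b ((2 / (d : ℝ) * Real.log r - t) / w))
      ((2 / (d : ℝ) * Real.log r - t) / w) := (hT.cb.differentiable one_ne_zero _).hasDerivAt
  have h3 := (ha.comp r (hl s)).mul (hb.comp r (hl t))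
  refine h3.congr_deriv ?_
  simp only [Function.comp_apply]
  ring

/-- kinetic energy density of a product with a function of the density -/
lemma ims_dens {u : Fin N → (Fin d → ℝ) → ℂ} (hu : Fam u) (x : Fin d → ℝ) {g : ℝ → ℝ} {g' : ℝ}
    (hg : HasDerivAt g g' (rho u x)) :
    dens (fun n y => ((g (rho u y) : ℝ) : ℂ) * u n y) x =
      g (rho u x) ^ 2 * dens u x + (∑ j, drho u x j ^ 2) * (g' ^ 2 * rho u x + g (rho u x) * g') := by
  have h1 : ∀ n j, fderiv ℝ (fun y => ((g (rho u y) : ℝ) : ℂ) * u n y) x (Pi.single j 1) =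
      g (rho u x) • fderiv ℝ (u n) x (Pi.single j 1) + (g' * drho u x j) • u n x := by
    intro n j
    have h2 : HasFDerivAt (fun y => g (rho u y)) (g' • fderiv ℝ (rho u) x) x :=
      hg.comp_hasFDerivAt x (ims_hasFDerivAt_rho hu x)
    have h3 : HasFDerivAt (u n) (fderiv ℝ (u n) x) x :=
      ((hu.smooth n).differentiable one_ne_zero x).hasFDerivAt
    have h4 := h2.smul h3
    have h5 : (fun y => ((g (rho u y) : ℝ) : ℂ) * u n y) = fun y => g (rho u y) • u n y := by
      funext y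
      exact (Complex.real_smul).symm
    rw [h5]
    have h6 : fderiv ℝ (fun y => g (rho u y) • u n y) x = _ := h4.fderiv
    rw [h6]
    simp only [ContinuousLinearMap.add_apply, ContinuousLinearMap.smul_apply,
      ContinuousLinearMap.smulRight_apply]
    rw [ims_fderiv_rho hu, smul_eq_mul]
  have h2 : ∀ n j, ‖fderiv ℝ (fun y => ((g (rho u y) : ℝ) : ℂ) * u n y) x (Pi.single j 1)‖ ^ 2 =
      g (rho u x) ^ 2 * ‖fderiv ℝ (u n) x (Pi.single j 1)‖ ^ 2 +
      (g' * drho u x j) ^ 2 * ‖u n x‖ ^ 2 +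
      g (rho u x) * (g' * drho u x j) * (2 * inner ℝ (u n x) (fderiv ℝ (u n) x (Pi.single j 1))) := by
    intro n j
    rw [h1, norm_add_sq_real, norm_smul, norm_smul, mul_pow, mul_pow, Real.norm_eq_abs,
      Real.norm_eq_abs, sq_abs, sq_abs, real_inner_smul_left, real_inner_smul_right,
      real_inner_comm]
    ring
  unfold LiebT2.dens
  simp_rw [h2]
  rw [Finset.sum_comm]
  have h3 : ∀ j, ∑ n, (g (rho u x) ^ 2 * ‖fderiv ℝ (u n) x (Pi.single j 1)‖ ^ 2 +
      (g' * drho u x j) ^ 2 * ‖u n x‖ ^ 2 +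
      g (rho u x) * (g' * drho u x j) *
        (2 * inner ℝ (u n x) (fderiv ℝ (u n) x (Pi.single j 1)))) =
      g (rho u x) ^ 2 * (∑ n, ‖fderiv ℝ (u n) x (Pi.single j 1)‖ ^ 2) +
      drho u x j ^ 2 * (g' ^ 2 * rho u x + g (rho u x) * g') := by
    intro j
    rw [sum_add_distrib, sum_add_distrib, ← mul_sum, ← mul_sum, ← mul_sum]
    have h4 : ∑ n, ‖u n x‖ ^ 2 = rho u x := rfl
    have h5 : ∑ n, 2 * inner ℝ (u n x) (fderiv ℝ (u n) x (Pi.single j 1)) = drho u x j := rfl
    rw [h4, h5]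
    ring
  rw [sum_congr rfl fun j _ => h3 j, sum_add_distrib, ← mul_sum, ← sum_mul, Finset.sum_comm]

/-- Cauchy-Schwarz -/
lemma ims_cs (u : Fin N → (Fin d → ℝ) → ℂ) (x : Fin d → ℝ) :
    ∑ j, drho u x j ^ 2 ≤ 4 * rho u x * dens u x := by
  have h1 : ∀ j, drho u x j ^ 2 ≤
      4 * rho u x * ∑ n, ‖fderiv ℝ (u n) x (Pi.single j 1)‖ ^ 2 := by
    intro j
    have h2 : |drho u x j| ≤ 2 * ∑ n, ‖u n x‖ * ‖fderiv ℝ (u n) x (Pi.single j 1)‖ := by
      rw [drho, mul_sum]
      refine (abs_sum_le_sum_abs _ _).trans (sum_le_sum fun n _ => ?_)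
      rw [abs_mul, abs_of_pos (by norm_num : (0 : ℝ) < 2)]
      gcongr
      exact abs_real_inner_le_norm _ _
    have h3 := Finset.sum_mul_sq_le_sq_mul_sq univ (fun n => ‖u n x‖)
      (fun n => ‖fderiv ℝ (u n) x (Pi.single j 1)‖)
    have h4 : drho u x j ^ 2 ≤
        (2 * ∑ n, ‖u n x‖ * ‖fderiv ℝ (u n) x (Pi.single j 1)‖) ^ 2 := by
      rw [← sq_abs]
      exact pow_le_pow_left₀ (abs_nonneg _) h2 2
    have h5 : rho u x = ∑ n, ‖u n x‖ ^ 2 := rfl
    rw [h5]
    nlinarith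
  refine (sum_le_sum fun j _ => h1 j).trans (le_of_eq ?_)
  rw [← mul_sum, Finset.sum_comm]
  rfl

/-- pointwise form -/
lemma ims_point {a b : ℝ → ℝ} {D : ℝ} (hT : Trans a b D) {w η t₀ : ℝ} (hw : 0 < w) (hwη : w ≤ η)
    {m : ℕ} {u : Fin N → (Fin d → ℝ) → ℂ} (hd : 1 ≤ d) (hu : Fam u)
    (htop : ∀ x, 0 < rho u x → 2 / (d : ℝ) * Real.log (rho u x) ≤ t₀ + m * η) (x : Fin d → ℝ) :
    ∑ i ∈ range m, dens (win a b w (t₀ + i * η) (t₀ + (i + 1 : ℕ) * η) u) x
      ≤ (1 + 16 * D / (w * d) ^ 2) * dens u x := by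
  have hdens0 : 0 ≤ dens u x := by unfold LiebT2.dens; positivity
  have hD := ims_D hT
  have hd' : (0 : ℝ) < d := by exact_mod_cast (by omega : 0 < d)
  have hrho0 : 0 ≤ rho u x := by unfold rho; positivity
  rcases hrho0.eq_or_lt with h0 | h0
  · -- the density vanishes
    have h1 : ∀ i ∈ range m,
        dens (win a b w (t₀ + i * η) (t₀ + (i + 1 : ℕ) * η) u) x = 0 := by
      intro i _
      have hg : HasDerivAt (chi a b d w (t₀ + i * η) (t₀ + (i + 1 : ℕ) * η)) 0 (rho u x) := by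
        rw [← h0]
        have h2 : chi a b d w (t₀ + i * η) (t₀ + (i + 1 : ℕ) * η) =ᶠ[nhds 0] fun _ => 0 := by
          filter_upwards [gt_mem_nhds (Real.exp_pos (d * (t₀ + i * η) / 2))] with r' hr'
          exact win_chi_zero hT hw hd hr'
        exact (hasDerivAt_const (0 : ℝ) (0 : ℝ)).congr_of_eventuallyEq h2
      have h3 := ims_dens hu x hg
      have h4 : chi a b d w (t₀ + i * η) (t₀ + (i + 1 : ℕ) * η) (rho u x) = 0 := by
        rw [← h0]
        unfold chi
        rw [if_pos le_rfl]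
      have h5 : win a b w (t₀ + i * η) (t₀ + (i + 1 : ℕ) * η) u =
        fun n y => ((chi a b d w (t₀ + i * η) (t₀ + (i + 1 : ℕ) * η) (rho u y) : ℝ) : ℂ) *
          u n y := rfl
      rw [h5, h3, h4]
      ring
    rw [sum_congr rfl h1, sum_const_zero]
    positivity
  · set r := rho u x with hr
    set v : ℝ := 2 / (d : ℝ) * Real.log r with hv
    set X : ℕ → ℝ := fun i => (v - (t₀ + i * η)) / w with hX
    have hstep : ∀ i, X (i + 1) ≤ X i - 1 := by
      intro i
      rw [hX]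
      simp only
      rw [div_sub_one hw.ne', div_le_div_iff_of_pos_right hw]
      push_cast
      linarith
    have hXm : X m ≤ 0 := by
      rw [hX]
      simp only
      apply div_nonpos_of_nonpos_of_nonneg _ hw.le
      have := htop x h0
      linarith
    obtain ⟨s1, s2, s3⟩ := ims_sums hT X hstep m hXm
    set P := ∑ j, drho u x j ^ 2 with hP
    have hPcs : P ≤ 4 * r * dens u x := ims_cs u x
    have hP0 : 0 ≤ P := by positivity
    set κ : ℝ := 2 / (d * r * w) with hκ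
    have hκ0 : 0 < κ := by positivity
    set c : ℕ → ℝ := fun i => a (X i) * b (X (i + 1)) with hc
    set e : ℕ → ℝ := fun i => deriv a (X i) * b (X (i + 1)) + a (X i) * deriv b (X (i + 1)) with he
    have h1 : ∀ i ∈ range m, dens (win a b w (t₀ + i * η) (t₀ + (i + 1 : ℕ) * η) u) x =
        c i ^ 2 * dens u x + P * ((κ * e i) ^ 2 * r + c i * (κ * e i)) := by
      intro i _
      have h2 := ims_hasDerivAt_chi (d := d) hT (w := w) (s := t₀ + i * η)
        (t := t₀ + (i + 1 : ℕ) * η) h0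
      have h3 := ims_dens hu x h2
      have h5 : win a b w (t₀ + i * η) (t₀ + (i + 1 : ℕ) * η) u =
        fun n y => ((chi a b d w (t₀ + i * η) (t₀ + (i + 1 : ℕ) * η) (rho u y) : ℝ) : ℂ) *
          u n y := rfl
      have h6 : chi a b d w (t₀ + i * η) (t₀ + (i + 1 : ℕ) * η) (rho u x) = c i := by
        unfold chi
        rw [if_neg (not_le.2 h0)]
      rw [h5, h3, h6]
    rw [sum_congr rfl h1]
    have h2 : ∑ i ∈ range m, (c i ^ 2 * dens u x + P * ((κ * e i) ^ 2 * r + c i * (κ * e i))) =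
        (∑ i ∈ range m, c i ^ 2) * dens u x + P * (κ ^ 2 * r * (∑ i ∈ range m, e i ^ 2) +
          κ * (∑ i ∈ range m, c i * e i)) := by
      rw [sum_mul, mul_sum, mul_sum, ← sum_add_distrib, mul_sum, ← sum_add_distrib]
      refine sum_congr rfl fun i _ => ?_
      ring
    rw [h2]
    have e1 : ∑ i ∈ range m, c i ^ 2 = 1 - b (X 0) ^ 2 := s1
    have e2 : ∑ i ∈ range m, c i * e i = -(b (X 0) * deriv b (X 0)) := s2
    have e3 : ∑ i ∈ range m, e i ^ 2 ≤ D - deriv b (X 0) ^ 2 := s3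
    rw [e1, e2]
    set β := b (X 0) with hβ
    set β' := deriv b (X 0) with hβ'
    set T := dens u x with hT'
    have h3 : κ ^ 2 * r * (∑ i ∈ range m, e i ^ 2) ≤ κ ^ 2 * r * (D - β' ^ 2) := by gcongr
    have h4 : P * (κ ^ 2 * r * (∑ i ∈ range m, e i ^ 2) + κ * -(β * β')) ≤
        P * (κ ^ 2 * r * (D - β' ^ 2) + κ * -(β * β')) := by gcongr
    refine (add_le_add_right h4 _).trans ?_
    -- the bottom family
    have h5 : 0 ≤ β ^ 2 * T + P * (κ ^ 2 * r * β' ^ 2 + κ * (β * β')) := by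
      have h6 : P / (4 * r) ≤ T := by
        rw [div_le_iff₀ (by positivity)]
        linarith
      have h7 : β ^ 2 * (P / (4 * r)) ≤ β ^ 2 * T := by gcongr
      have h8 : 0 ≤ β ^ 2 * (P / (4 * r)) + P * (κ ^ 2 * r * β' ^ 2 + κ * (β * β')) := by
        have h9 : β ^ 2 * (P / (4 * r)) + P * (κ ^ 2 * r * β' ^ 2 + κ * (β * β')) =
            P * (β + 2 * r * κ * β') ^ 2 / (4 * r) := by
          field_simp
          ring
        rw [h9]
        positivity
      linarith
    have h6 : P * (κ ^ 2 * r * D) ≤ 16 * D / (w * d) ^ 2 * T := by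
      have h7 : P * (κ ^ 2 * r * D) ≤ (4 * r * T) * (κ ^ 2 * r * D) := by gcongr
      refine h7.trans (le_of_eq ?_)
      rw [hκ]
      field_simp
      ring
    have h7 : (1 - β ^ 2) * T + P * (κ ^ 2 * r * (D - β' ^ 2) + κ * -(β * β')) =
        T + P * (κ ^ 2 * r * D) - (β ^ 2 * T + P * (κ ^ 2 * r * β' ^ 2 + κ * (β * β'))) := by
      ring
    rw [h7]
    have h8 : (1 + 16 * D / (w * d) ^ 2) * T = T + 16 * D / (w * d) ^ 2 * T := by ring
    rw [h8]
    linarith

theorem ims {a b : ℝ → ℝ} {D : ℝ} (hT : Trans a b D) {w η t₀ : ℝ} (hw : 0 < w) (hwη : w ≤ η) {m : ℕ}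
    {u : Fin N → (Fin d → ℝ) → ℂ} (hd : 1 ≤ d) (hu : Fam u)
    (htop : ∀ x, 0 < rho u x → 2 / (d : ℝ) * Real.log (rho u x) ≤ t₀ + m * η) :
    ∑ i ∈ range m, kin (win a b w (t₀ + i * η) (t₀ + (i + 1 : ℕ) * η) u)
      ≤ (1 + 16 * D / (w * d) ^ 2) * kin u := by
  have hint : ∀ {v : Fin N → (Fin d → ℝ) → ℂ}, Fam v → Integrable (dens v) := by
    intro v hv
    obtain ⟨R, _, hR⟩ := hv.van
    exact integrable_of_van (continuous_dens hv) (van_dens fun n => (hR n).2)
  have hwin : ∀ i : ℕ, Fam (win a b w (t₀ + i * η) (t₀ + (i + 1 : ℕ) * η) u) := fun i =>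
    fam_win hT hw hd hu
  unfold kin
  rw [← integral_finsetSum _ (fun i _ => hint (hwin i)), ← integral_const_mul]
  apply integral_mono
  · exact integrable_finsetSum _ fun i _ => hint (hwin i)
  · exact (hint hu).const_mul _
  · intro x
    exact ims_point hT hw hwη hd hu htop x

end Pool.Agent.LTHD
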