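import Mathlib
import Pool.Agent.LTHD.Defs

open Real Finset MeasureTheory Matrix ComplexOrder
open Pool.Agent.LiebT2

set_option autoImplicit false

namespace Pool.Agent.LTHD

variable {d k N : ℕ}

/-- lower Stirling type bound -/
theorem kcAsym_gamma_ge {x : ℝ} (hx : 0 < x) : x ^ x * Real.exp (-x) ≤ Real.Gamma (x + 1) := by
  rw [Real.Gamma_eq_integral (by positivity)]
  have h0 : IntegrableOn (fun t : ℝ => Real.exp (-t) * t ^ (x + 1 - 1)) (Set.Ioi 0) :=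
    Real.GammaIntegral_convergent (by positivity)
  have hsub : Set.Ioi x ⊆ Set.Ioi (0 : ℝ) := Set.Ioi_subset_Ioi hx.le
  have h1 : ∫ t in Set.Ioi x, Real.exp (-t) * t ^ (x + 1 - 1) ≤
      ∫ t in Set.Ioi (0 : ℝ), Real.exp (-t) * t ^ (x + 1 - 1) := by
    refine setIntegral_mono_set h0 ?_ (Filter.Eventually.of_forall hsub)
    refine (ae_restrict_iff' measurableSet_Ioi).mpr (Filter.Eventually.of_forall fun t ht => ?_)
    have ht0 : 0 < t := ht
    positivity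
  refine le_trans ?_ h1
  have h2 : x ^ x * Real.exp (-x) = ∫ t in Set.Ioi x, x ^ x * Real.exp (-t) := by
    rw [integral_const_mul, integral_exp_neg_Ioi]
  rw [h2]
  refine setIntegral_mono_on ((integrableOn_exp_neg_Ioi x).const_mul _) (h0.mono_set hsub)
    measurableSet_Ioi fun t ht => ?_
  have ht0 : x < t := ht
  rw [mul_comm, show x + 1 - 1 = x by ring]
  exact mul_le_mul_of_nonneg_left (Real.rpow_le_rpow hx.le ht0.le hx.le) (Real.exp_pos _).le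

/-- upper Stirling type bound -/
theorem kcAsym_gamma_le {x θ : ℝ} (hx : 0 < x) (hθ : 0 < θ) (hθ1 : θ < 1) :
    Real.Gamma (x + 1) ≤ (x / (θ * Real.exp 1)) ^ x * (1 - θ)⁻¹ := by
  rw [Real.Gamma_eq_integral (by positivity)]
  have h0 : IntegrableOn (fun t : ℝ => Real.exp (-t) * t ^ (x + 1 - 1)) (Set.Ioi 0) :=
    Real.GammaIntegral_convergent (by positivity)
  have hneg : -(1 - θ) < 0 := by linarith
  have h2 : (x / (θ * Real.exp 1)) ^ x * (1 - θ)⁻¹ =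
      ∫ t in Set.Ioi (0 : ℝ), (x / (θ * Real.exp 1)) ^ x * Real.exp (-(1 - θ) * t) := by
    rw [integral_const_mul, integral_exp_mul_Ioi hneg]
    simp only [mul_zero, Real.exp_zero]
    rw [neg_div_neg_eq, one_div]
  rw [h2]
  refine setIntegral_mono_on h0 ((integrableOn_exp_mul_Ioi hneg 0).const_mul _)
    measurableSet_Ioi fun t ht => ?_
  have ht0 : 0 < t := ht
  rw [show x + 1 - 1 = x by ring]
  have h3 : Real.exp (-t) = Real.exp (-(1 - θ) * t) * Real.exp (-(θ * t)) := by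
    rw [← Real.exp_add]; congr 1; ring
  rw [h3, mul_assoc, mul_comm]
  refine mul_le_mul_of_nonneg_right ?_ (Real.exp_pos _).le
  -- `exp (-θ t) t^x ≤ (x/(θ e))^x`
  have h4 : Real.exp (-(θ * t)) = (Real.exp (-(θ * t / x))) ^ x := by
    rw [← Real.exp_mul]; congr 1; field_simp
  rw [h4, ← Real.mul_rpow (Real.exp_pos _).le ht0.le]
  refine Real.rpow_le_rpow (by positivity) ?_ hx.le
  have h5 : θ * t / x ≤ Real.exp (θ * t / x - 1) := by
    have := Real.add_one_le_exp (θ * t / x - 1)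
    linarith
  rw [le_div_iff₀ (by positivity)]
  have h6 : Real.exp (-(θ * t / x)) * t * (θ * Real.exp 1) =
      x * ((θ * t / x) * (Real.exp (-(θ * t / x)) * Real.exp 1)) := by
    field_simp
  rw [h6]
  have h7 : (θ * t / x) * (Real.exp (-(θ * t / x)) * Real.exp 1) ≤ 1 := by
    calc (θ * t / x) * (Real.exp (-(θ * t / x)) * Real.exp 1)
        ≤ Real.exp (θ * t / x - 1) * (Real.exp (-(θ * t / x)) * Real.exp 1) :=
          mul_le_mul_of_nonneg_right h5 (by positivity)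
      _ = 1 := by
          rw [← Real.exp_add, ← Real.exp_add]
          rw [show θ * t / x - 1 + (-(θ * t / x) + 1) = 0 by ring, Real.exp_zero]
  nlinarith

theorem kcAsym_Kc_eq {d : ℕ} (hd : 0 < d) :
    Kc d = (d : ℝ) / ((d : ℝ) + 2) * (4 * π) * (Real.Gamma ((d : ℝ) / 2 + 1)) ^ (2 / (d : ℝ)) := by
  have hd' : (0 : ℝ) < d := by exact_mod_cast hd
  have hG : 0 < Real.Gamma ((d : ℝ) / 2 + 1) := Real.Gamma_pos_of_pos (by positivity)
  unfold Kc om
  rw [Real.div_rpow (by positivity) hG.le]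
  have h1 : (√π ^ d) ^ (2 / (d : ℝ)) = π := by
    rw [← Real.rpow_natCast, ← Real.rpow_mul (Real.sqrt_nonneg _)]
    rw [show (d : ℝ) * (2 / d) = 2 by field_simp]
    rw [Real.rpow_two, Real.sq_sqrt Real.pi_pos.le]
  rw [h1]
  have hGp : 0 < Real.Gamma ((d : ℝ) / 2 + 1) ^ (2 / (d : ℝ)) := Real.rpow_pos_of_pos hG _
  field_simp
  ring

theorem Kc_ge {d : ℕ} (hd : 2 ≤ d) : (d : ℝ) ≤ Kc d := by
  have hd0 : 0 < d := by omega
  have hd' : (2 : ℝ) ≤ d := by exact_mod_cast hd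
  have hx : (0 : ℝ) < (d : ℝ) / 2 := by positivity
  rw [kcAsym_Kc_eq hd0]
  have h1 := kcAsym_gamma_ge hx
  have h2 : (d : ℝ) / 2 / Real.exp 1 ≤ (Real.Gamma ((d : ℝ) / 2 + 1)) ^ (2 / (d : ℝ)) := by
    have h3 : ((d : ℝ) / 2) ^ ((d : ℝ) / 2) * Real.exp (-((d : ℝ) / 2)) =
        ((d : ℝ) / 2 / Real.exp 1) ^ ((d : ℝ) / 2) := by
      rw [Real.div_rpow hx.le (Real.exp_pos 1).le, ← Real.exp_mul, one_mul, Real.exp_neg]
      rfl
    rw [h3] at h1
    have h4 := Real.rpow_le_rpow (by positivity) h1 (show 0 ≤ 2 / (d : ℝ) by positivity)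
    rw [← Real.rpow_mul (by positivity), show (d : ℝ) / 2 * (2 / d) = 1 by field_simp,
      Real.rpow_one] at h4
    exact h4
  have hpi : 3.14 < π := Real.pi_gt_d2
  have he : Real.exp 1 < 2.7182818286 := Real.exp_one_lt_d9
  have h5 : (1 : ℝ) / 2 ≤ (d : ℝ) / ((d : ℝ) + 2) := by
    rw [div_le_div_iff₀ (by norm_num) (by positivity)]; linarith
  have h6 : (d : ℝ) * (π * 2⁻¹) / (Real.exp 1 / 2) * (1 / 2) ≤
      (d : ℝ) / ((d : ℝ) + 2) * (4 * π) * (Real.Gamma ((d : ℝ) / 2 + 1)) ^ (2 / (d : ℝ)) := by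
    calc (d : ℝ) * (π * 2⁻¹) / (Real.exp 1 / 2) * (1 / 2)
        = 1 / 2 * (4 * π) * ((d : ℝ) / 2 / Real.exp 1) * (1 / 2) := by
          field_simp
          try ring
      _ ≤ 1 / 2 * (4 * π) * ((d : ℝ) / 2 / Real.exp 1) := by
          have : 0 ≤ 1 / 2 * (4 * π) * ((d : ℝ) / 2 / Real.exp 1) := by positivity
          linarith
      _ ≤ (d : ℝ) / ((d : ℝ) + 2) * (4 * π) * (Real.Gamma ((d : ℝ) / 2 + 1)) ^ (2 / (d : ℝ)) := by
          gcongr
  have h7 : (d : ℝ) ≤ 1 / 2 * (4 * π) * ((d : ℝ) / 2 / Real.exp 1) := by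
    rw [show 1 / 2 * (4 * π) * ((d : ℝ) / 2 / Real.exp 1) = π * d / Real.exp 1 by ring]
    rw [le_div_iff₀ (Real.exp_pos 1)]
    nlinarith
  calc (d : ℝ) ≤ 1 / 2 * (4 * π) * ((d : ℝ) / 2 / Real.exp 1) := h7
    _ ≤ (d : ℝ) / ((d : ℝ) + 2) * (4 * π) * (Real.Gamma ((d : ℝ) / 2 + 1)) ^ (2 / (d : ℝ)) := by
        gcongr

theorem Kc_le {δ : ℝ} (hδ : 0 < δ) : ∃ d₀ : ℕ, ∀ d : ℕ, d₀ ≤ d →
    Kc d ≤ (1 + δ) * (2 * π * d / Real.exp 1) := by
  -- `θ = 1/(1+δ/2)`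
  set θ : ℝ := (1 + δ / 2)⁻¹ with hθ
  have hθ0 : 0 < θ := by positivity
  have hθ1 : θ < 1 := inv_lt_one_of_one_lt₀ (by linarith)
  set c : ℝ := (1 - θ)⁻¹ with hc
  have hc0 : 0 < c := by
    have : 0 < 1 - θ := by linarith
    positivity
  have hlim : Filter.Tendsto (fun d : ℕ => c ^ (2 / (d : ℝ))) Filter.atTop (nhds 1) := by
    have h1 : Filter.Tendsto (fun d : ℕ => 2 / (d : ℝ)) Filter.atTop (nhds 0) :=
      tendsto_const_div_atTop_nhds_zero_nat 2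
    have h2 := (Real.continuous_const_rpow hc0.ne').tendsto (0 : ℝ)
    rw [Real.rpow_zero] at h2
    exact h2.comp h1
  have hev : ∀ᶠ d : ℕ in Filter.atTop, c ^ (2 / (d : ℝ)) < (1 + δ) / (1 + δ / 2) := by
    refine hlim.eventually (gt_mem_nhds ?_)
    rw [lt_div_iff₀ (by positivity)]; linarith
  obtain ⟨d₀, hd₀⟩ := Filter.eventually_atTop.mp hev
  refine ⟨max d₀ 1, fun d hd => ?_⟩
  have hd1 : 0 < d := by have := le_trans (le_max_right d₀ 1) hd; omega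
  have hd2 := hd₀ d (le_trans (le_max_left d₀ 1) hd)
  have hd' : (0 : ℝ) < d := by exact_mod_cast hd1
  have hx : (0 : ℝ) < (d : ℝ) / 2 := by positivity
  rw [kcAsym_Kc_eq hd1]
  have h1 := kcAsym_gamma_le hx hθ0 hθ1
  have hG : 0 < Real.Gamma ((d : ℝ) / 2 + 1) := Real.Gamma_pos_of_pos (by positivity)
  have h4 := Real.rpow_le_rpow hG.le h1 (show 0 ≤ 2 / (d : ℝ) by positivity)
  rw [Real.mul_rpow (by positivity) hc0.le, ← Real.rpow_mul (by positivity),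
    show (d : ℝ) / 2 * (2 / d) = 1 by field_simp, Real.rpow_one] at h4
  have h5 : (Real.Gamma ((d : ℝ) / 2 + 1)) ^ (2 / (d : ℝ)) ≤
      (d : ℝ) / 2 / (θ * Real.exp 1) * ((1 + δ) / (1 + δ / 2)) :=
    h4.trans (mul_le_mul_of_nonneg_left hd2.le (by positivity))
  have h6 : (d : ℝ) / 2 / (θ * Real.exp 1) * ((1 + δ) / (1 + δ / 2)) =
      (d : ℝ) / (2 * Real.exp 1) * (1 + δ) := by
    rw [hθ]; field_simp
  rw [h6] at h5
  have h7 : (d : ℝ) / ((d : ℝ) + 2) ≤ 1 := by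
    rw [div_le_one (by positivity)]; linarith
  calc (d : ℝ) / ((d : ℝ) + 2) * (4 * π) * (Real.Gamma ((d : ℝ) / 2 + 1)) ^ (2 / (d : ℝ))
      ≤ 1 * (4 * π) * ((d : ℝ) / (2 * Real.exp 1) * (1 + δ)) := by gcongr
    _ = (1 + δ) * (2 * π * d / Real.exp 1) := by field_simp; ring

end Pool.Agent.LTHD
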