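import Mathlib
import Pool.Agent.LTHD.Defs

open Real Finset MeasureTheory Matrix ComplexOrder
open Pool.Agent.LiebT2

set_option autoImplicit false

namespace Pool.Agent.LTHD

variable {d k N : ℕ}

theorem exists_trans : ∃ (a b : ℝ → ℝ) (D : ℝ), 0 ≤ D ∧ Trans a b D := by
  set S : ℝ → ℝ := Real.smoothTransition with hS
  have hSc : ContDiff ℝ 1 S := Real.smoothTransition.contDiff
  have hS0 : ∀ x, x ≤ 0 → S x = 0 := fun x hx => Real.smoothTransition.zero_of_nonpos hx
  have hS1 : ∀ x, 1 ≤ x → S x = 1 := fun x hx => Real.smoothTransition.one_of_one_le hx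
  have hSn : ∀ x, 0 ≤ S x := fun x => Real.smoothTransition.nonneg x
  have hSl : ∀ x, S x ≤ 1 := fun x => Real.smoothTransition.le_one x
  have hder : ∀ x, HasDerivAt S (deriv S x) x := fun x =>
    (hSc.differentiable (by norm_num) x).hasDerivAt
  have hcd : Continuous (deriv S) := hSc.continuous_deriv (by norm_num)
  -- derivative bound
  obtain ⟨K, hK⟩ : ∃ K : ℝ, ∀ x, |deriv S x| ≤ K := by
    obtain ⟨K, hK⟩ := (isCompact_Icc (a := (0 : ℝ)) (b := 1)).exists_bound_of_continuousOn
      (f := deriv S) hcd.continuousOn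
    refine ⟨max K 0, fun x => ?_⟩
    rcases lt_or_ge x 0 with hx | hx
    · have : deriv S x = 0 := by
        have : S =ᶠ[nhds x] fun _ => (0 : ℝ) := by
          filter_upwards [gt_mem_nhds hx] with y hy
          exact hS0 y hy.le
        rw [this.deriv_eq]; simp
      rw [this]; simp
    · rcases lt_or_ge 1 x with hx1 | hx1
      · have : deriv S x = 0 := by
          have : S =ᶠ[nhds x] fun _ => (1 : ℝ) := by
            filter_upwards [lt_mem_nhds hx1] with y hy
            exact hS1 y hy.le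
          rw [this.deriv_eq]; simp
        rw [this]; simp
      · exact le_trans (by simpa using hK x ⟨hx, hx1⟩) (le_max_left _ _)
  have hK0 : 0 ≤ K := le_trans (abs_nonneg _) (hK 0)
  have ha : ∀ x, HasDerivAt (fun x => Real.sin (π / 2 * S x))
      (Real.cos (π / 2 * S x) * (π / 2 * deriv S x)) x := fun x =>
    ((hder x).const_mul (π / 2)).sin
  have hb : ∀ x, HasDerivAt (fun x => Real.cos (π / 2 * S x))
      (-Real.sin (π / 2 * S x) * (π / 2 * deriv S x)) x := fun x =>
    ((hder x).const_mul (π / 2)).cos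
  refine ⟨fun x => Real.sin (π / 2 * S x), fun x => Real.cos (π / 2 * S x), (π / 2 * K) ^ 2,
    by positivity, ?_, ?_, ?_, ?_, ?_, ?_, ?_, ?_⟩
  · exact Real.contDiff_sin.comp (contDiff_const.mul hSc)
  · exact Real.contDiff_cos.comp (contDiff_const.mul hSc)
  · intro x; exact Real.sin_sq_add_cos_sq _
  · intro x
    apply Real.sin_nonneg_of_nonneg_of_le_pi
    · have := hSn x; positivity
    · nlinarith [hSl x, hSn x, Real.pi_pos]
  · intro x
    apply Real.cos_nonneg_of_neg_pi_div_two_le_of_le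
    · have := hSn x
      have : 0 ≤ π / 2 * S x := by positivity
      linarith [Real.pi_pos]
    · nlinarith [hSl x, hSn x, Real.pi_pos]
  · intro x hx
    simp [hS0 x hx]
  · intro x hx
    simp [hS1 x hx]
  · intro x
    rw [(ha x).deriv, (hb x).deriv]
    have h1 : (Real.cos (π / 2 * S x) * (π / 2 * deriv S x)) ^ 2
        + (-Real.sin (π / 2 * S x) * (π / 2 * deriv S x)) ^ 2 = (π / 2 * deriv S x) ^ 2 := by
      have := Real.sin_sq_add_cos_sq (π / 2 * S x)
      calc _ = (Real.sin (π / 2 * S x) ^ 2 + Real.cos (π / 2 * S x) ^ 2)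
            * (π / 2 * deriv S x) ^ 2 := by ring
        _ = _ := by rw [this, one_mul]
    rw [h1, mul_pow, mul_pow]
    have : deriv S x ^ 2 ≤ K ^ 2 := by
      rw [← sq_abs (deriv S x)]
      exact pow_le_pow_left₀ (abs_nonneg _) (hK x) 2
    exact mul_le_mul_of_nonneg_left this (by positivity)

theorem exists_loc : ∃ (f : ℝ → ℝ) (B C : ℝ), 0 < B ∧ 0 < C ∧ Loc f B C := by
  let φ : ContDiffBump (0 : ℝ) := ⟨1 / 4, 1 / 2, by norm_num, by norm_num⟩
  have hφc : ContDiff ℝ 1 (φ : ℝ → ℝ) := φ.contDiff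
  have hsupp : ∀ x : ℝ, 1 / 2 ≤ |x| → φ x = 0 := fun x hx =>
    φ.zero_of_le_dist (by
      show (1 / 2 : ℝ) ≤ dist x 0
      rw [Real.dist_eq, sub_zero]
      exact hx)
  have hcs : HasCompactSupport (φ : ℝ → ℝ) := φ.hasCompactSupport
  have hcont : Continuous (φ : ℝ → ℝ) := hφc.continuous
  have hint : Integrable (fun x => φ x ^ 2) := by
    apply Continuous.integrable_of_hasCompactSupport (hcont.pow 2)
    exact hcs.comp_left (g := fun y : ℝ => y ^ 2) (by simp)
  have hpos : 0 < ∫ x, φ x ^ 2 := by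
    rw [integral_pos_iff_support_of_nonneg (fun x => sq_nonneg _) hint]
    have hop : IsOpen (Function.support fun x => φ x ^ 2) :=
      (hcont.pow 2).isOpen_support
    refine hop.measure_pos volume ⟨0, ?_⟩
    have : φ 0 = 1 := φ.one_of_mem_closedBall (by simp [φ])
    simp [this]
  set c : ℝ := (∫ x, φ x ^ 2) with hc
  have hcd : Continuous (deriv (φ : ℝ → ℝ)) := hφc.continuous_deriv (by norm_num)
  refine ⟨fun x => (√c)⁻¹ * φ x, c⁻¹, max 1 (∫ x, deriv (fun x => (√c)⁻¹ * φ x) x ^ 2), by positivity,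
    by positivity, ?_, ?_, ?_, ?_, ?_⟩
  · exact contDiff_const.mul hφc
  · intro x hx
    simp only [hsupp x hx, mul_zero]
  · simp only [mul_pow]
    rw [integral_const_mul, ← hc, inv_pow, Real.sq_sqrt hpos.le]
    exact inv_mul_cancel₀ hpos.ne'
  · intro x
    simp only [mul_pow, inv_pow]
    rw [Real.sq_sqrt hpos.le]
    have h1 : φ x ^ 2 ≤ 1 := pow_le_one₀ φ.nonneg φ.le_one
    have : 0 ≤ c⁻¹ := by positivity
    nlinarith
  · exact le_max_right _ _

end Pool.Agent.LTHD
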