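import Mathlib
import Pool.Agent.LTHD.Base

/-!
# [LTHD:Ortho] orthonormal families have the Bessel property
-/

open Real Finset MeasureTheory Matrix
open Pool.Agent.LiebT2

set_option autoImplicit false

namespace Pool.Agent.LTHD

variable {d k N : ℕ}

/-- orthonormal families have the Bessel property (with equality) -/
theorem bes_of_ortho {v : Fin N → (Fin d → ℝ) → ℂ} (hv : Fam v)
    (ho : ∀ n m, ∫ y, star (v n y) * v m y = if n = m then (1 : ℂ) else 0) : Bes v := by
  intro c
  have hcont : ∀ n, Continuous (v n) := fun n => (hv.smooth n).continuous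
  have hint : ∀ n m, Integrable (fun y => star (v n y) * v m y) := by
    intro n m
    apply Continuous.integrable_of_hasCompactSupport
    · exact (continuous_star.comp (hcont n)).mul (hcont m)
    · exact (hv.supp m).mul_left
  have hC : (((∫ y, ‖∑ n, c n * v n y‖ ^ 2 : ℝ)) : ℂ) = ((∑ n, ‖c n‖ ^ 2 : ℝ) : ℂ) := by
    rw [← integral_complex_ofReal]
    have e : ∀ y, ((‖∑ n, c n * v n y‖ ^ 2 : ℝ) : ℂ)
        = ∑ n, ∑ m, star (c n) * c m * (star (v n y) * v m y) := by
      intro y
      have h1 : ((‖∑ n, c n * v n y‖ ^ 2 : ℝ) : ℂ)
          = star (∑ n, c n * v n y) * (∑ m, c m * v m y) := by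
        rw [RCLike.star_def, ← Complex.normSq_eq_norm_sq, Complex.normSq_eq_conj_mul_self]
      rw [h1, star_sum, Finset.sum_mul_sum]
      apply Finset.sum_congr rfl
      intro n _
      apply Finset.sum_congr rfl
      intro m _
      rw [star_mul']
      ring
    simp only [e]
    rw [integral_finsetSum _ fun n _ => integrable_finsetSum _ fun m _ => (hint n m).const_mul _]
    have e2 : ∀ n, ∫ y, ∑ m, star (c n) * c m * (star (v n y) * v m y) = star (c n) * c n := by
      intro n
      rw [integral_finsetSum _ fun m _ => (hint n m).const_mul _]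
      simp only [integral_const_mul, ho]
      simp
    simp only [e2]
    push_cast
    apply Finset.sum_congr rfl
    intro n _
    rw [RCLike.star_def, ← Complex.normSq_eq_conj_mul_self, Complex.normSq_eq_norm_sq]
    push_cast
    rfl
  exact (Complex.ofReal_injective hC).le

end Pool.Agent.LTHD
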