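import Mathlib
import Pool.Agent.LTHD.Defs

open Real Finset MeasureTheory Matrix ComplexOrder
open Pool.Agent.LiebT2

set_option autoImplicit false

namespace Pool.Agent.LTHD

variable {d k N : ℕ}

/-- the entropy function is at most `1/e` -/
private lemma nml_le (x : ℝ) (hx : 0 ≤ x) : -(37 / 100) ≤ x * Real.log x := by
  rcases hx.eq_or_lt with h | h
  · rw [← h]; norm_num
  · have h1 := Real.add_one_le_exp (-Real.log x - 1)
    have h2 : Real.exp (-Real.log x - 1) = x⁻¹ * (Real.exp 1)⁻¹ := by
      rw [Real.exp_sub, Real.exp_neg, Real.exp_log h]; rfl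
    rw [h2] at h1
    have h3 : (Real.exp 1)⁻¹ ≤ 37 / 100 := by
      rw [inv_le_comm₀ (Real.exp_pos 1) (by norm_num)]
      have := Real.exp_one_gt_d9
      norm_num at this ⊢
      linarith
    have h4 : x * (-Real.log x) ≤ (Real.exp 1)⁻¹ := by
      have : x * (-Real.log x) ≤ x * (x⁻¹ * (Real.exp 1)⁻¹) :=
        mul_le_mul_of_nonneg_left (by linarith) h.le
      rwa [mul_inv_cancel_left₀ h.ne'] at this
    nlinarith

private lemma nml_nonpos (x : ℝ) (hx : 0 ≤ x) (hx1 : x ≤ 1) : x * Real.log x ≤ 0 :=
  mul_nonpos_of_nonneg_of_nonpos hx (Real.log_nonpos hx hx1)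

private lemma exp_one_le_three : Real.exp 1 ≤ 3 := by
  have := Real.exp_one_lt_d9; linarith

private lemma Pw_ge {K C lam s E x r v τ η : ℝ} (hd : 2 ≤ d) (hx : 0 < x) (hx1 : x ≤ 1)
    (hr : 0 < r) (hv : v = 2 / (d : ℝ) * Real.log r) (hE : E = Real.exp (v + τ)) (hτ0 : 0 ≤ τ)
    (hτ : τ ≤ 2 * η) (hη : 2 * η ≤ 1) (hs : 0 ≤ s) (hs1 : s ≤ 1) (hK : 0 ≤ K) (hC : 0 ≤ C)
    (hl : 1 ≤ lam) :
    r ^ (1 + 2 / (d : ℝ)) * ((1 - s) * K * (x + 2 / d * (x * Real.log x)) - 3 * C / lam * x
      + s * (2 * π * d / Real.exp 1) * ((1 - 2 * η) * x + 6 / d * (x * Real.log x)))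
      ≤ Pw d K C lam s E (x * r) := by
  have hd0 : (0 : ℝ) < d := by
    have : 0 < d := by omega
    exact_mod_cast this
  have hrq : r ^ (1 + 2 / (d : ℝ)) = r * Real.exp v := by
    rw [Real.rpow_add hr, Real.rpow_one, Real.rpow_def_of_pos hr, hv, mul_comm (Real.log r)]
  have hxq : (x * r) ^ (1 + 2 / (d : ℝ)) = x ^ (1 + 2 / (d : ℝ)) * (r * Real.exp v) := by
    rw [Real.mul_rpow hx.le hr.le, hrq]
  have hxq2 : x + 2 / d * (x * Real.log x) ≤ x ^ (1 + 2 / (d : ℝ)) := by
    rw [Real.rpow_add hx, Real.rpow_one, Real.rpow_def_of_pos hx]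
    have := Real.add_one_le_exp (Real.log x * (2 / (d : ℝ)))
    nlinarith
  have hlog : Real.log (E ^ ((d : ℝ) / 2) / (x * r)) = τ * (d / 2) - Real.log x := by
    have hEp : 0 < E := by rw [hE]; exact Real.exp_pos _
    rw [Real.log_div (by positivity) (by positivity), Real.log_rpow hEp, hE, Real.log_exp,
      Real.log_mul hx.ne' hr.ne', hv]
    field_simp
    ring
  have hEE : E = Real.exp v * Real.exp τ := by rw [hE, Real.exp_add]
  have het : 1 ≤ Real.exp τ := Real.one_le_exp hτ0
  have het3 : Real.exp τ ≤ 3 :=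
    (Real.exp_le_exp.2 (by linarith : τ ≤ 1)).trans exp_one_le_three
  unfold Pw
  rw [hxq, hlog, hrq]
  have hR : 0 < r * Real.exp v := mul_pos hr (Real.exp_pos v)
  set R := r * Real.exp v with hRdef
  set D := 2 * π * d / Real.exp 1 with hD
  have hDp : 0 < D := by rw [hD]; positivity
  have hxl := nml_nonpos x hx.le hx1
  -- three pieces
  have h1 : R * ((1 - s) * K * (x + 2 / d * (x * Real.log x))) ≤
      (1 - s) * K * (x ^ (1 + 2 / (d : ℝ)) * R) := by
    have h : 0 ≤ R * ((1 - s) * K) := mul_nonneg hR.le (mul_nonneg (by linarith) hK)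
    nlinarith [mul_le_mul_of_nonneg_left hxq2 h]
  have h2 : C * E / lam * (x * r) ≤ R * (3 * C / lam * x) := by
    have : C * E / lam * (x * r) = (R * (C / lam * x)) * Real.exp τ := by
      rw [hEE, hRdef]; ring
    rw [this]
    have h : 0 ≤ R * (C / lam * x) := by positivity
    have := mul_le_mul_of_nonneg_left het3 h
    calc _ ≤ R * (C / lam * x) * 3 := this
      _ = R * (3 * C / lam * x) := by ring
  have h3 : R * ((1 - 2 * η) * x + 6 / d * (x * Real.log x)) ≤
      E * (x * r - 2 / (d : ℝ) * (x * r * (τ * (d / 2) - Real.log x))) := by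
    have e1 : E * (x * r - 2 / (d : ℝ) * (x * r * (τ * (d / 2) - Real.log x))) =
        R * (Real.exp τ * ((1 - τ) * x + 2 / d * (x * Real.log x))) := by
      rw [hEE, hRdef]
      field_simp
      ring
    rw [e1]
    apply mul_le_mul_of_nonneg_left _ hR.le
    have a1 : (1 - 2 * η) * x ≤ Real.exp τ * ((1 - τ) * x) := by
      have : 0 ≤ (1 - τ) * x := mul_nonneg (by linarith) hx.le
      nlinarith
    have a2 : 6 / d * (x * Real.log x) ≤ Real.exp τ * (2 / d * (x * Real.log x)) := by
      have : 2 / (d : ℝ) * (x * Real.log x) ≤ 0 :=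
        mul_nonpos_of_nonneg_of_nonpos (by positivity) hxl
      have e2 : 6 / (d : ℝ) * (x * Real.log x) = 3 * (2 / d * (x * Real.log x)) := by ring
      rw [e2]
      nlinarith
    linarith
  have h4 : R * (s * D * ((1 - 2 * η) * x + 6 / d * (x * Real.log x))) ≤
      s * D * E * (x * r - 2 / (d : ℝ) * (x * r * (τ * (d / 2) - Real.log x))) := by
    have h : 0 ≤ s * D := mul_nonneg hs hDp.le
    have := mul_le_mul_of_nonneg_left h3 h
    linarith
  linarith

private lemma Pw_zero {K C lam s E : ℝ} : Pw d K C lam s E 0 = 0 := by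
  unfold Pw
  have : (0 : ℝ) ^ (1 + 2 / (d : ℝ)) = 0 := by
    apply Real.zero_rpow; positivity
  rw [this]; simp

theorem ptwise {a b : ℝ → ℝ} {D : ℝ} (hT : Trans a b D) {w η t₀ : ℝ} (hw : 0 < w) (hwη : w ≤ η)
    (hη : 2 * η ≤ 1) {m : ℕ} (hd : 2 ≤ d) {K C lam s δ : ℝ} (hK : (d : ℝ) ≤ K)
    (hK' : K ≤ (1 + δ) * (2 * π * d / Real.exp 1)) (hδ : 0 ≤ δ) (hC : 0 < C) (hl : 1 ≤ lam)
    (hs : 0 ≤ s) (hs1 : s ≤ 1) {r : ℝ} (hr : 0 ≤ r)
    (htop : 0 < r → 2 / (d : ℝ) * Real.log r ≤ t₀ + m * η) :
    K * r ^ (1 + 2 / (d : ℝ)) * (1 - s * (δ + 2 * η) - 3 * C / (lam * d))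
      - 13 / d * K * (zn w η t₀ m (2 / (d : ℝ) * Real.log r) * r ^ (1 + 2 / (d : ℝ)))
      - (K + 3 * C + 6) * Real.exp (t₀ + w) * r
    ≤ ∑ i ∈ range m, Pw d K C lam s (Real.exp (t₀ + (i + 1 : ℕ) * η + w))
        (chi a b d w (t₀ + i * η) (t₀ + (i + 1 : ℕ) * η) r ^ 2 * r) := by
  have hd0 : (0 : ℝ) < d := by
    have : 0 < d := by omega
    exact_mod_cast this
  have hK0 : 0 < K := by linarith
  have hη0 : 0 < η := by linarith
  rcases hr.eq_or_lt with h0 | h0
  · rw [← h0]
    have : (0 : ℝ) ^ (1 + 2 / (d : ℝ)) = 0 := by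
      apply Real.zero_rpow; positivity
    rw [this]
    simp [Pw_zero]
  have htop' := htop h0
  set v := 2 / (d : ℝ) * Real.log r with hv
  set R := r ^ (1 + 2 / (d : ℝ)) with hR
  have hRv : R = r * Real.exp v := by
    rw [hR, Real.rpow_add h0, Real.rpow_one, Real.rpow_def_of_pos h0, hv, mul_comm (Real.log r)]
  have hRp : 0 < R := by rw [hR]; positivity
  -- the transition amplitudes
  obtain ⟨A, hA⟩ : ∃ A : ℕ → ℝ, ∀ i : ℕ, A i = a ((v - (t₀ + i * η)) / w) ^ 2 := ⟨_, fun i => rfl⟩
  have hA0 : ∀ i : ℕ, v ≤ t₀ + i * η → A i = 0 := by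
    intro i hi
    rw [hA, hT.a0 _ (div_nonpos_of_nonpos_of_nonneg (by linarith) hw.le)]; norm_num
  have hA1 : ∀ i : ℕ, t₀ + i * η + w ≤ v → A i = 1 := by
    intro i hi
    have h1 : 1 ≤ (v - (t₀ + i * η)) / w := by
      rw [le_div_iff₀ hw]; linarith
    have h2 := hT.sq ((v - (t₀ + i * η)) / w)
    rw [hT.b1 _ h1] at h2
    rw [hA]; linarith
  have hAnn : ∀ i, 0 ≤ A i := by intro i; rw [hA]; positivity
  have hAle : ∀ i, A i ≤ 1 := by
    intro i
    have h2 := hT.sq ((v - (t₀ + i * η)) / w)
    rw [hA]; nlinarith [sq_nonneg (b ((v - (t₀ + i * η)) / w))]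
  have hcast : ∀ i : ℕ, ((i + 1 : ℕ) : ℝ) = (i : ℝ) + 1 := by intro i; push_cast; ring
  -- the window weights
  have hx : ∀ i : ℕ, chi a b d w (t₀ + i * η) (t₀ + (i + 1 : ℕ) * η) r ^ 2 = A i - A (i + 1) := by
    intro i
    unfold chi
    rw [if_neg (not_le.2 h0), ← hv, mul_pow]
    have h2 := hT.sq ((v - (t₀ + (i + 1 : ℕ) * η)) / w)
    rw [← hA] at h2
    rw [← hA]
    have h3 : b ((v - (t₀ + (i + 1 : ℕ) * η)) / w) ^ 2 = 1 - A (i + 1) := by linarith
    rw [h3]
    by_cases hc : v ≤ t₀ + (i + 1 : ℕ) * η
    · rw [hA0 (i + 1) hc]; ring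
    · push Not at hc
      rw [hA1 i (by rw [hcast] at hc; nlinarith)]; ring
  have hx0 : ∀ i, 0 ≤ A i - A (i + 1) := by intro i; rw [← hx]; positivity
  have hx1 : ∀ i, A i - A (i + 1) ≤ 1 := by
    intro i; have := hAle i; have := hAnn (i + 1); linarith
  simp only [hx]
  -- lower bound for each window
  set Dd := 2 * π * d / Real.exp 1 with hDd
  have hDp : 0 < Dd := by rw [hDd]; positivity
  have hW : ∀ i ∈ range m, R * (((1 - s) * K - 3 * C / lam + s * Dd * (1 - 2 * η)) *
      (A i - A (i + 1)) + ((1 - s) * K * (2 / d) + s * Dd * (6 / d)) *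
      ((A i - A (i + 1)) * Real.log (A i - A (i + 1)))) ≤
      Pw d K C lam s (Real.exp (t₀ + (i + 1 : ℕ) * η + w)) ((A i - A (i + 1)) * r) := by
    intro i _
    rcases (hx0 i).eq_or_lt with h | h
    · rw [← h]; simp [Pw_zero]
    · -- location of v
      have hl1 : t₀ + i * η < v := by
        by_contra hc
        push Not at hc
        rw [hA0 i hc] at h
        have := hAnn (i + 1)
        linarith
      have hl2 : v < t₀ + (i + 1 : ℕ) * η + w := by
        by_contra hc
        push Not at hc
        rw [hA1 (i + 1) hc] at h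
        have := hAle i
        linarith
      have key := Pw_ge (d := d) (K := K) (C := C) (lam := lam) (s := s) (η := η)
        (E := Real.exp (t₀ + (i + 1 : ℕ) * η + w)) (τ := t₀ + (i + 1 : ℕ) * η + w - v)
        hd h (hx1 i) h0 hv (by congr 1; ring) (by linarith) (by rw [hcast]; linarith) hη
        hs hs1 hK0.le hC.le hl
      rw [← hR, ← hDd] at key
      calc _ = R * ((1 - s) * K * ((A i - A (i + 1)) +
            2 / d * ((A i - A (i + 1)) * Real.log (A i - A (i + 1)))) -
            3 * C / lam * (A i - A (i + 1)) + s * Dd * ((1 - 2 * η) * (A i - A (i + 1)) +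
            6 / d * ((A i - A (i + 1)) * Real.log (A i - A (i + 1))))) := by ring
        _ ≤ _ := key
  have hsum := Finset.sum_le_sum hW
  rw [← Finset.mul_sum, Finset.sum_add_distrib, ← Finset.mul_sum, ← Finset.mul_sum,
    Finset.sum_range_sub'] at hsum
  have hAm : A m = 0 := hA0 m htop'
  rw [hAm, sub_zero] at hsum
  set H := ∑ i ∈ range m, (A i - A (i + 1)) * Real.log (A i - A (i + 1)) with hH
  -- values off the zones
  have hb : ∀ x : ℝ, x = 0 ∨ x = 1 → x * Real.log x = 0 := by
    intro x hx; rcases hx with h | h <;> simp [h]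
  -- numerical facts
  have hDd1 : Dd ≤ (2312 / 1000) * d := by
    rw [hDd, div_le_iff₀ (Real.exp_pos 1)]
    have h1 := Real.exp_one_gt_d9
    have h2 := Real.pi_lt_d4
    nlinarith
  have hDdK : Dd ≤ (2312 / 1000) * K := by linarith
  have hcoef0 : 0 ≤ (1 - s) * K * (2 / d) + s * Dd * (6 / d) := by
    have : 0 ≤ 1 - s := by linarith
    positivity
  have hzn0 : 0 ≤ zn w η t₀ m v := by unfold zn; split_ifs <;> norm_num
  have hfac : 1 - s * (δ + 2 * η) - 3 * C / (lam * d) ≤ 1 := by
    have h1 : 0 ≤ s * (δ + 2 * η) := by positivity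
    have h2 : 0 ≤ 3 * C / (lam * d) := by
      have : 0 < lam := by linarith
      positivity
    linarith
  have hlam : 0 < lam := by linarith
  by_cases hcase : t₀ + w ≤ v
  · -- the good region
    have hA0' : A 0 = 1 := hA1 0 (by simpa using hcase)
    refine le_trans ?_ hsum
    rw [hA0']
    -- entropy bound
    have hHz : -(74 / 100) * zn w η t₀ m v ≤ H := by
      by_cases hz : ∃ i ∈ range (m + 1), t₀ + i * η < v ∧ v < t₀ + i * η + w
      · have hz1 : zn w η t₀ m v = 1 := by unfold zn; rw [if_pos hz]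
        rw [hz1]
        obtain ⟨j, hj, hj1, hj2⟩ := hz
        have hAlt : ∀ i : ℕ, i < j → A i = 1 := by
          intro i hi
          apply hA1
          have : (i : ℝ) + 1 ≤ j := by exact_mod_cast hi
          nlinarith
        have hAgt : ∀ i : ℕ, j < i → A i = 0 := by
          intro i hi
          apply hA0
          have : (j : ℝ) + 1 ≤ i := by exact_mod_cast hi
          nlinarith
        have hterm : ∀ i ∈ range m, (-(37 / 100) : ℝ) * ((if i = j then 1 else 0) +
            (if i + 1 = j then 1 else 0)) ≤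
            (A i - A (i + 1)) * Real.log (A i - A (i + 1)) := by
          intro i _
          by_cases h1 : i = j
          · have h2 : ¬ (i + 1 = j) := by omega
            rw [if_pos h1, if_neg h2]
            have := nml_le _ (hx0 i)
            linarith
          · by_cases h2 : i + 1 = j
            · rw [if_neg h1, if_pos h2]
              have := nml_le _ (hx0 i)
              linarith
            · rw [if_neg h1, if_neg h2]
              rw [hb]
              · norm_num
              · rcases lt_or_gt_of_ne h1 with h3 | h3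
                · left
                  rw [hAlt i h3, hAlt (i + 1) (by omega)]; ring
                · left
                  rw [hAgt i h3, hAgt (i + 1) (by omega)]; ring
        have hs2 := Finset.sum_le_sum hterm
        rw [← Finset.mul_sum, Finset.sum_add_distrib] at hs2
        have c1 : ∑ i ∈ range m, (if i = j then (1 : ℝ) else 0) ≤ 1 := by
          rw [Finset.sum_ite_eq']
          split_ifs <;> norm_num
        have c2 : ∑ i ∈ range m, (if i + 1 = j then (1 : ℝ) else 0) ≤ 1 := by
          rcases Nat.eq_zero_or_pos j with hj0 | hj0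
          · rw [Finset.sum_eq_zero]
            · norm_num
            · intro i _; rw [if_neg (by omega)]
          · have : ∀ i ∈ range m, (if i + 1 = j then (1 : ℝ) else 0) =
                (if i = j - 1 then (1 : ℝ) else 0) := by
              intro i _
              by_cases h : i + 1 = j
              · rw [if_pos h, if_pos (by omega)]
              · rw [if_neg h, if_neg (by omega)]
            rw [Finset.sum_congr rfl this, Finset.sum_ite_eq']
            split_ifs <;> norm_num
        linarith
      · have hz1 : zn w η t₀ m v = 0 := by unfold zn; rw [if_neg hz]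
        rw [hz1]
        push Not at hz
        have hA01 : ∀ i ∈ range (m + 1), A i = 0 ∨ A i = 1 := by
          intro i hi
          by_cases h : v ≤ t₀ + i * η
          · left; exact hA0 i h
          · right; exact hA1 i (hz i hi (by linarith [not_le.1 h]))
        have : H = 0 := by
          apply Finset.sum_eq_zero
          intro i hi
          rw [Finset.mem_range] at hi
          apply hb
          have h1 := hx0 i
          have h2 := hA01 i (Finset.mem_range.2 (by omega))
          have h3 := hA01 (i + 1) (Finset.mem_range.2 (by omega))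
          rcases h2 with h2 | h2 <;> rcases h3 with h3 | h3 <;> rw [h2, h3] at h1 ⊢
          · left; ring
          · exfalso; linarith
          · right; ring
          · left; ring
        rw [this]; norm_num
    -- main coefficient
    have hmain : K * (1 - s * (δ + 2 * η) - 3 * C / (lam * d)) ≤
        (1 - s) * K - 3 * C / lam + s * Dd * (1 - 2 * η) := by
      have h1 : 3 * C / lam ≤ K * (3 * C / (lam * d)) := by
        have : K * (3 * C / (lam * d)) = (K / d) * (3 * C / lam) := by
          field_simp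
        rw [this]
        have h2 : 1 ≤ K / d := by rw [le_div_iff₀ hd0]; linarith
        have h3 : 0 ≤ 3 * C / lam := by positivity
        nlinarith
      have h2 : K * (1 - δ) ≤ Dd := by
        rcases le_or_gt δ 1 with h | h
        · have : K * (1 - δ) ≤ (1 + δ) * Dd * (1 - δ) :=
            mul_le_mul_of_nonneg_right hK' (by linarith)
          nlinarith [mul_nonneg (mul_nonneg hδ hδ) hDp.le]
        · nlinarith
      have h3 : K * (1 - δ - 2 * η) ≤ Dd * (1 - 2 * η) := by
        have h4 : K * (1 - δ) * (1 - 2 * η) ≤ Dd * (1 - 2 * η) :=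
          mul_le_mul_of_nonneg_right h2 (by linarith)
        have h5 : 0 ≤ K * (δ * (2 * η)) := by positivity
        nlinarith
      have h6 := mul_le_mul_of_nonneg_left h3 hs
      nlinarith
    have hcoef : (1 - s) * K * (2 / d) + s * Dd * (6 / d) ≤ 13 / d * K / (74 / 100) := by
      have e1 : (1 - s) * K * (2 / d) + s * Dd * (6 / d) =
        ((1 - s) * K * 2 + s * Dd * 6) / d := by ring
      have e2 : 13 / d * K / (74 / 100) = (13 * K / (74 / 100)) / d := by ring
      rw [e1, e2]
      apply div_le_div_of_nonneg_right _ hd0.le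
      have := mul_le_mul_of_nonneg_left hDdK hs
      nlinarith [mul_nonneg hs hK0.le]
    have hex : 0 ≤ (K + 3 * C + 6) * Real.exp (t₀ + w) * r := by positivity
    have g1 : ((1 - s) * K * (2 / d) + s * Dd * (6 / d)) * (-(74 / 100) * zn w η t₀ m v) ≤
        ((1 - s) * K * (2 / d) + s * Dd * (6 / d)) * H :=
      mul_le_mul_of_nonneg_left hHz hcoef0
    have g2 : -(13 / d * K * zn w η t₀ m v) ≤
        ((1 - s) * K * (2 / d) + s * Dd * (6 / d)) * (-(74 / 100) * zn w η t₀ m v) := by
      have := mul_le_mul_of_nonneg_right hcoef (show 0 ≤ (74 / 100) * zn w η t₀ m v by positivity)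
      have e : 13 / d * K / (74 / 100) * (74 / 100 * zn w η t₀ m v) =
          13 / d * K * zn w η t₀ m v := by ring
      rw [e] at this
      linarith
    have g3 : K * (1 - s * (δ + 2 * η) - 3 * C / (lam * d)) - 13 / d * K * zn w η t₀ m v ≤
        ((1 - s) * K - 3 * C / lam + s * Dd * (1 - 2 * η)) * 1 +
        ((1 - s) * K * (2 / d) + s * Dd * (6 / d)) * H := by linarith
    have g4 := mul_le_mul_of_nonneg_left g3 hRp.le
    nlinarith
  · -- below the lowest window
    push Not at hcase
    have hRle : R ≤ Real.exp (t₀ + w) * r := by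
      rw [hRv, mul_comm]
      exact mul_le_mul_of_nonneg_right (Real.exp_le_exp.2 hcase.le) h0.le
    have hAi : ∀ i : ℕ, 1 ≤ i → A i = 0 := by
      intro i hi
      apply hA0
      have : (1 : ℝ) ≤ i := by exact_mod_cast hi
      nlinarith
    have hC6 : -((3 * C + 6) * R) ≤ ∑ i ∈ range m, Pw d K C lam s
        (Real.exp (t₀ + (i + 1 : ℕ) * η + w)) ((A i - A (i + 1)) * r) := by
      rcases Nat.eq_zero_or_pos m with hm | hm
      · rw [hm, Finset.range_zero, Finset.sum_empty]
        have : 0 ≤ (3 * C + 6) * R := by positivity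
        linarith
      · rw [Finset.sum_eq_single_of_mem 0 (Finset.mem_range.2 hm) (by
          intro i _ hi
          rw [hAi i (by omega), hAi (i + 1) (by omega)]; simp [Pw_zero])]
        rcases (hx0 0).eq_or_lt with h | h
        · rw [← h, zero_mul, Pw_zero]
          have : 0 ≤ (3 * C + 6) * R := by positivity
          linarith
        · have hl1 : t₀ < v := by
            by_contra hc
            push Not at hc
            rw [hA0 0 (by simpa using hc)] at h
            have := hAnn (0 + 1)
            linarith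
          have key := Pw_ge (d := d) (K := 0) (C := C) (lam := lam) (s := s) (η := η)
            (E := Real.exp (t₀ + (0 + 1 : ℕ) * η + w)) (τ := t₀ + (0 + 1 : ℕ) * η + w - v)
            hd h (hx1 0) h0 hv (by congr 1; ring) (by rw [hcast]; push_cast; linarith)
            (by rw [hcast]; push_cast; linarith) hη hs hs1 le_rfl hC.le hl
          have hmono : Pw d 0 C lam s (Real.exp (t₀ + (0 + 1 : ℕ) * η + w))
              ((A 0 - A (0 + 1)) * r) ≤ Pw d K C lam s (Real.exp (t₀ + (0 + 1 : ℕ) * η + w))
              ((A 0 - A (0 + 1)) * r) := by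
            unfold Pw
            have : 0 ≤ (1 - s) * K * ((A 0 - A (0 + 1)) * r) ^ (1 + 2 / (d : ℝ)) := by
              have h1 : 0 ≤ 1 - s := by linarith
              have h2 : 0 ≤ (A 0 - A (0 + 1)) * r := mul_nonneg (hx0 0) h0.le
              positivity
            linarith
          refine le_trans ?_ (key.trans hmono)
          rw [← hR, ← hDd]
          have hnl := nml_le _ (hx0 0)
          have hxx := hx1 0
          have hxx0 := hx0 0
          set x := A 0 - A (0 + 1) with hxdef
          have b1 : 3 * C / lam * x ≤ 3 * C := by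
            have : 3 * C / lam ≤ 3 * C := div_le_self (by positivity) hl
            have h3 : 0 ≤ 3 * C / lam := by positivity
            nlinarith
          have b2 : -6 ≤ s * Dd * ((1 - 2 * η) * x + 6 / d * (x * Real.log x)) := by
            have c1 : 6 / (d : ℝ) * (-(37 / 100)) ≤ 6 / (d : ℝ) * (x * Real.log x) :=
              mul_le_mul_of_nonneg_left hnl (by positivity)
            have c2 : 0 ≤ (1 - 2 * η) * x := mul_nonneg (by linarith) hxx0
            have c3 : 0 ≤ s * Dd := mul_nonneg hs hDp.le
            have c4 : s * Dd * (6 / (d : ℝ) * (-(37 / 100))) ≤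
                s * Dd * ((1 - 2 * η) * x + 6 / d * (x * Real.log x)) :=
              mul_le_mul_of_nonneg_left (by linarith) c3
            have c5 : s * Dd * (6 / (d : ℝ) * (37 / 100)) ≤ 6 := by
              have : s * Dd ≤ 2312 / 1000 * d := by
                have := mul_le_mul_of_nonneg_right hs1 hDp.le
                linarith
              calc s * Dd * (6 / (d : ℝ) * (37 / 100))
                  ≤ (2312 / 1000 * d) * (6 / (d : ℝ) * (37 / 100)) :=
                    mul_le_mul_of_nonneg_right this (by positivity)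
                _ = 2312 / 1000 * 6 * (37 / 100) := by field_simp
                _ ≤ 6 := by norm_num
            linarith
          have b3 : -(3 * C + 6) ≤ (1 - s) * 0 * (x + 2 / ↑d * (x * Real.log x)) -
              3 * C / lam * x + s * Dd * ((1 - 2 * η) * x + 6 / ↑d * (x * Real.log x)) := by
            linarith
          have := mul_le_mul_of_nonneg_left b3 hRp.le
          linarith
    refine le_trans ?_ hC6
    have f1 : K * R * (1 - s * (δ + 2 * η) - 3 * C / (lam * d)) ≤ K * R * 1 :=
      mul_le_mul_of_nonneg_left hfac (by positivity)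
    have f2 : 0 ≤ 13 / d * K * (zn w η t₀ m v * R) := by positivity
    have f3 : (K + 3 * C + 6) * R ≤ (K + 3 * C + 6) * (Real.exp (t₀ + w) * r) :=
      mul_le_mul_of_nonneg_left hRle (by positivity)
    linarith

end Pool.Agent.LTHD
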