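import Mathlib
import Pool.Agent.LTHD.Defs

open Real Finset MeasureTheory Matrix ComplexOrder
open Pool.Agent.LiebT2

set_option autoImplicit false

namespace Pool.Agent.LTHD

variable {d k N : ℕ}

theorem continuous_ka {f : ℝ → ℝ} {B C : ℝ} (hf : Loc f B C) (l : ℝ) :
    Continuous (ka f l) := by
  have h1 : Continuous f := hf.smooth.continuous
  unfold ka
  fun_prop

theorem ka_nonneg (f : ℝ → ℝ) {l : ℝ} (hl : 0 < l) (z : ℝ) : 0 ≤ ka f l z := by
  unfold ka
  positivity

theorem ka_zero {f : ℝ → ℝ} {B C : ℝ} (hf : Loc f B C) {l : ℝ} (hl : 0 < l) {z : ℝ}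
    (hz : l / 2 ≤ |z|) : ka f l z = 0 := by
  unfold ka
  rw [hf.supp (z / l)]
  · simp
  · rw [abs_div, abs_of_pos hl, le_div_iff₀ hl]
    linarith

theorem cont_single (j : Fin d) : Continuous (fun z : ℝ => (Pi.single j z : Fin d → ℝ)) := by
  rw [continuous_pi_iff]
  intro i
  by_cases h : i = j
  · subst h
    simpa using continuous_id'
  · simp only [Pi.single_apply, if_neg h]
    exact continuous_const

theorem continuous_Av {v : Fin N → (Fin d → ℝ) → ℂ} (hv : Fam v) {f : ℝ → ℝ} {B C : ℝ}
    (hf : Loc f B C) {l : ℝ} (hl : 0 < l) (j : Fin d) :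
    Continuous (Av v f l j) ∧ HasCompactSupport (Av v f l j) ∧ ∀ x, 0 ≤ Av v f l j x := by
  refine ⟨?_, ?_, ?_⟩
  · have e : Av v f l j = fun x => ∫ z in Set.Icc (-(l / 2)) (l / 2),
        ka f l z * rho v (x + Pi.single j z) := by
      funext x
      unfold Av
      symm
      apply setIntegral_eq_integral_of_forall_compl_eq_zero
      intro z hz
      rw [ka_zero hf hl, zero_mul]
      by_contra h
      rw [not_le] at h
      exact hz ⟨(abs_lt.mp h).1.le, (abs_lt.mp h).2.le⟩
    rw [e]
    apply continuous_parametric_integral_of_continuous _ isCompact_Icc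
    have h1 := continuous_ka hf l
    have h2 := continuous_rho hv
    have h3 := cont_single j
    exact (h1.comp continuous_snd).mul
      (h2.comp (continuous_fst.add (h3.comp continuous_snd)))
  · obtain ⟨R, _, hR⟩ := hv.van
    apply HasCompactSupport.intro (isCompact_closedBall (0 : Fin d → ℝ) (R + l / 2))
    intro y hy
    rw [mem_closedBall_zero_iff, not_le] at hy
    unfold Av
    have : ∀ z, ka f l z * rho v (y + Pi.single j z) = 0 := by
      intro z
      rcases le_or_gt (l / 2) |z| with hz | hz
      · rw [ka_zero hf hl hz, zero_mul]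
      · rw [van_rho (fun n => (hR n).1), mul_zero]
        have h1 : ‖(Pi.single j z : Fin d → ℝ)‖ = |z| := by
          rw [Pi.norm_single, Real.norm_eq_abs]
        have h2 := norm_sub_le (y + Pi.single j z) (Pi.single j z)
        rw [add_sub_cancel_right, h1] at h2
        linarith
    simp [this]
  · intro x
    unfold Av
    apply integral_nonneg
    intro z
    exact mul_nonneg (ka_nonneg f hl z) (rho_nonneg v _)

end Pool.Agent.LTHD
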