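import Mathlib
import Pool.Agent.LTHD.Defs

/-!
# The bath tub inequality for localised families
-/

open Real Finset MeasureTheory Matrix ComplexOrder
open Pool.Agent.LiebT2

set_option autoImplicit false

namespace Pool.Agent.LTHD

variable {d k N : ℕ}

private theorem helper23_bath_one {J : ℕ} {l : ℝ} (hl : 0 < l) (p : Fin J → ℝ) (w : Fin J → ℝ)
    {r : ℝ} (hw0 : ∀ m, 0 ≤ w m) (hw1 : ∀ m, w m ≤ l⁻¹) (hsum : ∑ m, w m = r)
    (h2 : ∑ m, max (π ^ 2 * r ^ 2 - p m ^ 2) 0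
      ≤ l * (2 / 3 * π ^ 2 * r ^ 3) + π ^ 2 * r ^ 2) :
    π ^ 2 / 3 * r ^ 3 ≤ ∑ m, p m ^ 2 * w m + l⁻¹ * π ^ 2 * r ^ 2 := by
  have h1 : π ^ 2 * r ^ 2 * r - ∑ m, p m ^ 2 * w m
      ≤ l⁻¹ * ∑ m, max (π ^ 2 * r ^ 2 - p m ^ 2) 0 := by
    have e1 : π ^ 2 * r ^ 2 * r - ∑ m, p m ^ 2 * w m
        = ∑ m, (π ^ 2 * r ^ 2 - p m ^ 2) * w m := by
      have e2 : π ^ 2 * r ^ 2 * r = ∑ m, π ^ 2 * r ^ 2 * w m := by
        rw [← Finset.mul_sum, hsum]
      rw [e2, ← Finset.sum_sub_distrib]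
      refine Finset.sum_congr rfl fun m _ => ?_
      ring
    rw [e1, Finset.mul_sum]
    refine Finset.sum_le_sum fun m _ => ?_
    calc (π ^ 2 * r ^ 2 - p m ^ 2) * w m
        ≤ max (π ^ 2 * r ^ 2 - p m ^ 2) 0 * w m :=
          mul_le_mul_of_nonneg_right (le_max_left _ _) (hw0 m)
      _ ≤ max (π ^ 2 * r ^ 2 - p m ^ 2) 0 * l⁻¹ :=
          mul_le_mul_of_nonneg_left (hw1 m) (le_max_right _ _)
      _ = l⁻¹ * max (π ^ 2 * r ^ 2 - p m ^ 2) 0 := mul_comm _ _
  have h3 : l⁻¹ * ∑ m, max (π ^ 2 * r ^ 2 - p m ^ 2) 0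
      ≤ l⁻¹ * (l * (2 / 3 * π ^ 2 * r ^ 3) + π ^ 2 * r ^ 2) :=
    mul_le_mul_of_nonneg_left h2 (inv_nonneg.2 hl.le)
  have h4 : l⁻¹ * (l * (2 / 3 * π ^ 2 * r ^ 3) + π ^ 2 * r ^ 2)
      = 2 / 3 * π ^ 2 * r ^ 3 + l⁻¹ * π ^ 2 * r ^ 2 := by
    field_simp
  have h5 : π ^ 2 * r ^ 2 * r = π ^ 2 * r ^ 3 := by ring
  linarith

theorem bath {N J : ℕ} {C : Matrix (Fin N × Fin J) (Fin N × Fin J) ℂ} (hC : C.PosSemidef) {l : ℝ}
    (hl : 0 < l) (p : Fin J → ℝ)
    (h1 : ∀ (m : Fin J) (c : Fin N × Fin J → ℂ),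
      ∑ n, ‖(C.mulVec c) (n, m)‖ ^ 2 ≤ l⁻¹ * (star c ⬝ᵥ C.mulVec c).re)
    (h2 : ∀ r : ℝ, 0 ≤ r → ∑ m, max (π ^ 2 * r ^ 2 - p m ^ 2) 0
      ≤ l * (2 / 3 * π ^ 2 * r ^ 3) + π ^ 2 * r ^ 2) :
    π ^ 2 / 3 * (trace (C * C * C)).re ≤ ∑ n, ∑ m, p m ^ 2 * (C (n, m) (n, m)).re
      + l⁻¹ * π ^ 2 * (trace (C * C)).re := by
  classical
  have hH : C.IsHermitian := hC.isHermitian
  obtain ⟨U, r, hr0, hUU, hspec⟩ : ∃ (U : Matrix (Fin N × Fin J) (Fin N × Fin J) ℂ)
      (r : Fin N × Fin J → ℝ), (∀ a, 0 ≤ r a) ∧ star U * U = 1 ∧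
      C = U * diagonal (fun a => (r a : ℂ)) * star U := by
    refine ⟨(hH.eigenvectorUnitary : Matrix _ _ ℂ), hH.eigenvalues, hC.eigenvalues_nonneg,
      Unitary.coe_star_mul_self _, ?_⟩
    have h := hH.spectral_theorem
    rw [Unitary.conjStarAlgAut_apply] at h
    exact h
  have hUU' : U * star U = 1 := mul_eq_one_comm.1 hUU
  set D : Matrix (Fin N × Fin J) (Fin N × Fin J) ℂ := diagonal (fun a => (r a : ℂ)) with hD
  -- the columns have norm one
  have hcol : ∀ a, ∑ i, ‖U i a‖ ^ 2 = 1 := by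
    intro a
    have h := congrFun (congrFun hUU a) a
    rw [Matrix.mul_apply, Matrix.one_apply_eq] at h
    have h' := congrArg Complex.re h
    rw [Complex.re_sum, Complex.one_re] at h'
    rw [← h']
    refine Finset.sum_congr rfl fun i _ => ?_
    rw [Matrix.star_apply, Complex.star_def, ← Complex.normSq_eq_conj_mul_self,
      Complex.ofReal_re, Complex.normSq_eq_norm_sq]
  -- eigenvectors
  have heig : ∀ a i, (C.mulVec (fun i => U i a)) i = (r a : ℂ) * U i a := by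
    intro a i
    have h : C * U = U * D := by
      rw [hspec, Matrix.mul_assoc, hUU, Matrix.mul_one]
    have h' := congrFun (congrFun h i) a
    rw [Matrix.mul_apply, hD, Matrix.mul_diagonal] at h'
    rw [Matrix.mulVec, dotProduct, h', mul_comm]
  have hdiag : ∀ i, (C i i).re = ∑ a, r a * ‖U i a‖ ^ 2 := by
    intro i
    rw [hspec, Matrix.mul_apply, Complex.re_sum]
    refine Finset.sum_congr rfl fun a _ => ?_
    rw [hD, Matrix.mul_diagonal, Matrix.star_apply, Complex.star_def]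
    have h : U i a * (r a : ℂ) * (starRingEnd ℂ) (U i a)
        = ((r a * ‖U i a‖ ^ 2 : ℝ) : ℂ) := by
      rw [mul_right_comm, Complex.mul_conj, Complex.normSq_eq_norm_sq]
      push_cast
      ring
    rw [h, Complex.ofReal_re]
  have htr2 : (trace (C * C)).re = ∑ a, r a ^ 2 := by
    have h : C * C = U * (D * D) * star U := by
      rw [hspec]
      calc U * D * star U * (U * D * star U) = U * D * (star U * U) * D * star U := by
            simp only [Matrix.mul_assoc]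
        _ = U * (D * D) * star U := by rw [hUU]; simp only [Matrix.mul_assoc, Matrix.one_mul]
    rw [h, Matrix.trace_mul_comm, ← Matrix.mul_assoc, hUU, Matrix.one_mul, hD,
      Matrix.diagonal_mul_diagonal, Matrix.trace_diagonal, Complex.re_sum]
    refine Finset.sum_congr rfl fun a _ => ?_
    rw [← Complex.ofReal_mul, Complex.ofReal_re, sq]
  have htr3 : (trace (C * C * C)).re = ∑ a, r a ^ 3 := by
    have h : C * C * C = U * (D * D * D) * star U := by
      rw [hspec]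
      calc U * D * star U * (U * D * star U) * (U * D * star U)
            = U * D * (star U * U) * D * (star U * U) * D * star U := by
            simp only [Matrix.mul_assoc]
        _ = U * (D * D * D) * star U := by
            rw [hUU]; simp only [Matrix.mul_assoc, Matrix.one_mul]
    rw [h, Matrix.trace_mul_comm, ← Matrix.mul_assoc, hUU, Matrix.one_mul, hD,
      Matrix.diagonal_mul_diagonal, Matrix.diagonal_mul_diagonal, Matrix.trace_diagonal,
      Complex.re_sum]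
    refine Finset.sum_congr rfl fun a _ => ?_
    rw [← Complex.ofReal_mul, ← Complex.ofReal_mul, Complex.ofReal_re]
    ring
  -- the weights
  have hw1 : ∀ a m, r a * ∑ n, ‖U (n, m) a‖ ^ 2 ≤ l⁻¹ := by
    intro a m
    have h := h1 m (fun i => U i a)
    have e1 : ∑ n, ‖(C.mulVec (fun i => U i a)) (n, m)‖ ^ 2
        = r a * (r a * ∑ n, ‖U (n, m) a‖ ^ 2) := by
      rw [Finset.mul_sum, Finset.mul_sum]
      refine Finset.sum_congr rfl fun n _ => ?_
      rw [heig, norm_mul, Complex.norm_real, Real.norm_eq_abs, mul_pow, sq_abs]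
      ring
    have e2 : (star (fun i => U i a) ⬝ᵥ C.mulVec (fun i => U i a)).re = r a := by
      rw [dotProduct, Complex.re_sum]
      have e3 : ∀ i, (star (fun i => U i a) i * (C.mulVec (fun i => U i a)) i).re
          = r a * ‖U i a‖ ^ 2 := by
        intro i
        rw [heig, Pi.star_apply, Complex.star_def]
        have h : (starRingEnd ℂ) (U i a) * ((r a : ℂ) * U i a)
            = ((r a * ‖U i a‖ ^ 2 : ℝ) : ℂ) := by
          rw [mul_left_comm, ← Complex.normSq_eq_conj_mul_self, Complex.normSq_eq_norm_sq]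
          push_cast
          ring
        rw [h, Complex.ofReal_re]
      rw [Finset.sum_congr rfl fun i _ => e3 i, ← Finset.mul_sum, hcol, mul_one]
    rw [e1, e2] at h
    rcases (hr0 a).eq_or_lt with h0 | h0
    · rw [← h0, zero_mul]
      exact inv_nonneg.2 hl.le
    · exact le_of_mul_le_mul_left (by rwa [mul_comm l⁻¹] at h) h0
  have hw0 : ∀ a m, 0 ≤ r a * ∑ n, ‖U (n, m) a‖ ^ 2 := fun a m =>
    mul_nonneg (hr0 a) (Finset.sum_nonneg fun n _ => sq_nonneg _)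
  have hws : ∀ a, ∑ m, r a * ∑ n, ‖U (n, m) a‖ ^ 2 = r a := by
    intro a
    rw [← Finset.mul_sum, Finset.sum_comm]
    have h := hcol a
    rw [Fintype.sum_prod_type] at h
    rw [h, mul_one]
  have key : ∀ a, π ^ 2 / 3 * r a ^ 3 ≤ ∑ m, p m ^ 2 * (r a * ∑ n, ‖U (n, m) a‖ ^ 2)
      + l⁻¹ * π ^ 2 * r a ^ 2 := fun a =>
    helper23_bath_one hl p _ (hw0 a) (hw1 a) (hws a) (h2 (r a) (hr0 a))
  have hsum := Finset.sum_le_sum fun a (_ : a ∈ (Finset.univ : Finset (Fin N × Fin J))) => key a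
  rw [Finset.sum_add_distrib, ← Finset.mul_sum, ← Finset.mul_sum] at hsum
  rw [htr2, htr3]
  have e : ∑ a, ∑ m, p m ^ 2 * (r a * ∑ n, ‖U (n, m) a‖ ^ 2)
      = ∑ n, ∑ m, p m ^ 2 * (C (n, m) (n, m)).re := by
    rw [Finset.sum_comm]
    rw [Finset.sum_comm (s := (Finset.univ : Finset (Fin N)))]
    refine Finset.sum_congr rfl fun m _ => ?_
    rw [← Finset.mul_sum, ← Finset.mul_sum]
    congr 1
    simp only [hdiag, Finset.mul_sum]
    rw [Finset.sum_comm]
  rw [← e]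
  exact hsum

private theorem helper23_freq_aux {a c : ℝ} (ha : 0 ≤ a) (hc : 0 < c) (n : ℕ) :
    c * ∑ i ∈ range n, max (a ^ 2 - (c * ((i : ℝ) + 1)) ^ 2) 0
      ≤ a ^ 2 * min (c * n) a - (min (c * n) a) ^ 3 / 3 := by
  induction n with
  | zero => simp [ha]
  | succ n ih =>
    rw [Finset.sum_range_succ, mul_add]
    push_cast
    have hn : (0 : ℝ) ≤ n := Nat.cast_nonneg n
    have hy : 0 ≤ c * n := mul_nonneg hc.le hn
    by_cases h : c * ((n : ℝ) + 1) ≤ a
    · have h' : c * n ≤ a := by nlinarith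
      rw [min_eq_left h'] at ih
      rw [min_eq_left h, max_eq_left (by nlinarith)]
      have h3 : 0 ≤ c ^ 2 * (2 * (c * ((n : ℝ) + 1)) + c * n) := by positivity
      nlinarith
    · push Not at h
      have h0 : a ^ 2 - (c * ((n : ℝ) + 1)) ^ 2 ≤ 0 := by nlinarith
      rw [min_eq_right h.le, max_eq_right h0]
      have hm0 : 0 ≤ min (c * n) a := le_min hy ha
      have hm1 : min (c * n) a ≤ a := min_le_right _ _
      have h3 : 0 ≤ (a - min (c * n) a) ^ 2 * (2 * a + min (c * n) a) := by positivity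
      nlinarith

theorem bath_freq {l : ℝ} (hl : 0 < l) (M : ℕ) (r : ℝ) (hr : 0 ≤ r) :
    ∑ m : Fin (2 * M + 1), max (π ^ 2 * r ^ 2 - fq l M m ^ 2) 0
      ≤ l * (2 / 3 * π ^ 2 * r ^ 3) + π ^ 2 * r ^ 2 := by
  have hπ := Real.pi_pos
  set a : ℝ := π * r with ha
  set c : ℝ := 2 * π / l with hc
  have ha0 : 0 ≤ a := mul_nonneg hπ.le hr
  have hc0 : 0 < c := by positivity
  have e1 : ∑ m : Fin (2 * M + 1), max (π ^ 2 * r ^ 2 - fq l M m ^ 2) 0
      = ∑ m ∈ range (2 * M + 1), max (a ^ 2 - (c * ((m : ℝ) - M)) ^ 2) 0 := by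
    rw [← Fin.sum_univ_eq_sum_range (fun m : ℕ => max (a ^ 2 - (c * ((m : ℝ) - M)) ^ 2) 0)]
    refine Finset.sum_congr rfl fun m _ => ?_
    unfold fq
    congr 2
    · rw [ha, mul_pow]
    · rw [hc]; ring
  have e2 : ∑ m ∈ range (2 * M + 1), max (a ^ 2 - (c * ((m : ℝ) - M)) ^ 2) 0
      = ∑ m ∈ range M, max (a ^ 2 - (c * ((m : ℝ) - M)) ^ 2) 0 + max (a ^ 2) 0
        + ∑ i ∈ range M, max (a ^ 2 - (c * ((i : ℝ) + 1)) ^ 2) 0 := by
    have h : 2 * M + 1 = M + 1 + M := by ring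
    rw [h, Finset.sum_range_add, Finset.sum_range_succ, sub_self, mul_zero]
    congr 1
    · simp
    · refine Finset.sum_congr rfl fun i _ => ?_
      congr 4
      push_cast
      ring
  have e3 : ∑ m ∈ range M, max (a ^ 2 - (c * ((m : ℝ) - M)) ^ 2) 0
      = ∑ i ∈ range M, max (a ^ 2 - (c * ((i : ℝ) + 1)) ^ 2) 0 := by
    rw [← Finset.sum_range_reflect]
    refine Finset.sum_congr rfl fun i hi => ?_
    have hi' := Finset.mem_range.1 hi
    congr 2
    have h : ((M - 1 - i : ℕ) : ℝ) = (M : ℝ) - 1 - i := by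
      rw [Nat.cast_sub (by omega), Nat.cast_sub (by omega)]
      push_cast
      ring
    rw [h]
    ring
  have h1 := helper23_freq_aux ha0 hc0 M
  have hm0 : 0 ≤ min (c * M) a := le_min (by positivity) ha0
  have hm1 : min (c * M) a ≤ a := min_le_right _ _
  have h3 : 0 ≤ (a - min (c * M) a) ^ 2 * (2 * a + min (c * M) a) := by positivity
  have h4 : c * ∑ i ∈ range M, max (a ^ 2 - (c * ((i : ℝ) + 1)) ^ 2) 0 ≤ 2 / 3 * a ^ 3 := by
    nlinarith
  have h5 : ∑ i ∈ range M, max (a ^ 2 - (c * ((i : ℝ) + 1)) ^ 2) 0 ≤ 2 / 3 * a ^ 3 / c := by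
    rw [le_div_iff₀ hc0]
    linarith
  have h6 : 2 / 3 * a ^ 3 / c = l * (1 / 3 * π ^ 2 * r ^ 3) := by
    rw [ha, hc]
    field_simp
  rw [e1, e2, e3, max_eq_left (sq_nonneg a)]
  have h7 : a ^ 2 = π ^ 2 * r ^ 2 := by rw [ha, mul_pow]
  rw [← h7]
  rw [h6] at h5
  linarith

end Pool.Agent.LTHD
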