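import Mathlib
import Pool.Agent.LTHD.Defs

open Real Finset MeasureTheory Matrix ComplexOrder
open Pool.Agent.LiebT2

set_option autoImplicit false

namespace Pool.Agent.LTHD

variable {d k N : ℕ}

lemma vanish_closed {l : ℝ} (hl : 0 < l) {E : Type*} [NormedAddCommGroup E] {h : ℝ → E}
    (hc : Continuous h) (h0 : ∀ x, l / 2 < |x| → h x = 0) : ∀ x, l / 2 ≤ |x| → h x = 0 := by
  intro x hx
  have h1 : IsClosed {x | h x = 0} := isClosed_eq hc continuous_const
  have h2 : (Metric.closedBall (0 : ℝ) (l / 2))ᶜ ⊆ {x | h x = 0} := by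
    intro y hy
    apply h0
    rw [Set.mem_compl_iff, mem_closedBall_zero_iff, not_le, Real.norm_eq_abs] at hy
    exact hy
  have h3 : x ∈ closure (Metric.closedBall (0 : ℝ) (l / 2))ᶜ := by
    rw [closure_compl, interior_closedBall _ (by positivity : l / 2 ≠ 0), Set.mem_compl_iff,
      mem_ball_zero_iff, not_lt, Real.norm_eq_abs]
    exact hx
  exact h1.closure_subset_iff.mpr h2 h3

lemma integral_of_vanish {l : ℝ} {E : Type*} [NormedAddCommGroup E] [NormedSpace ℝ E]
    {g : ℝ → E} (hg : ∀ x, l / 2 ≤ |x| → g x = 0) :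
    ∫ x, g x = ∫ x in (-(l / 2))..(l / 2), g x := by
  rw [intervalIntegral.integral_eq_integral_of_support_subset]
  intro x hx
  by_contra hcon
  apply hx
  apply hg
  by_contra h
  rw [not_le, abs_lt] at h
  exact hcon ⟨h.1, h.2.le⟩

/-- Bessel's inequality on an interval. -/
lemma bessel_iv {l : ℝ} (hl : 0 < l) {h : ℝ → ℂ} (hc : Continuous h)
    (h0' : ∀ x, l / 2 < |x| → h x = 0) (M : ℕ) :
    ∑ m : Fin (2 * M + 1), ‖(((1 / √l : ℝ)) : ℂ) * ∫ x, h x *
      Complex.exp (-(Complex.I * (fq l M m : ℝ) * x))‖ ^ 2 ≤ ∫ x, ‖h x‖ ^ 2 := by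
  have h0 := vanish_closed hl hc h0'
  have hab : -(l / 2) < l / 2 := by linarith
  have hT : l / 2 - -(l / 2) = l := by ring
  have hL2 : MemLp h 2 (volume.restrict (Set.Ioc (-(l / 2)) (l / 2))) := by
    have h1 : HasCompactSupport h := by
      apply HasCompactSupport.intro (isCompact_Icc (a := -(l / 2)) (b := l / 2))
      intro x hx
      apply h0
      by_contra hcon
      rw [not_le, abs_lt] at hcon
      exact hx ⟨hcon.1.le, hcon.2.le⟩
    exact (hc.memLp_of_hasCompactSupport h1).restrict _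
  have hs := hasSum_sq_fourierCoeffOn hab hL2
  rw [hT, smul_eq_mul] at hs
  have hsl : √l ≠ 0 := (Real.sqrt_pos.mpr hl).ne'
  have hterm : ∀ m : Fin (2 * M + 1), ‖(((1 / √l : ℝ)) : ℂ) * ∫ x, h x *
      Complex.exp (-(Complex.I * (fq l M m : ℝ) * x))‖ ^ 2 =
      l * ‖fourierCoeffOn hab h (((m : ℕ) : ℤ) - M)‖ ^ 2 := by
    intro m
    rw [fourierCoeffOn_eq_integral, integral_of_vanish (l := l) (g := fun x : ℝ => h x *
      Complex.exp (-(Complex.I * (fq l M m : ℝ) * x))) (fun x hx => by rw [h0 x hx, zero_mul])]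
    have h2 : ∀ x : ℝ, (fourier (-(((m : ℕ) : ℤ) - M)) (x : AddCircle (l / 2 - -(l / 2)))) • h x =
        h x * Complex.exp (-(Complex.I * (fq l M m : ℝ) * x)) := by
      intro x
      rw [fourier_coe_apply, smul_eq_mul, mul_comm]
      congr 2
      unfold fq
      rw [hT]
      push_cast
      ring
    rw [intervalIntegral.integral_congr (fun x _ => h2 x), norm_mul, norm_smul, hT]
    rw [Complex.norm_real, Real.norm_eq_abs, Real.norm_eq_abs, abs_of_pos (by positivity),
      abs_of_pos (by positivity), mul_pow, mul_pow, div_pow, Real.sq_sqrt hl.le]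
    field_simp
  simp only [hterm]
  rw [← Finset.mul_sum, integral_of_vanish (l := l) (g := fun x => ‖h x‖ ^ 2)
    (fun x hx => by rw [h0 x hx]; simp)]
  have h3 : ∑ m : Fin (2 * M + 1), ‖fourierCoeffOn hab h (((m : ℕ) : ℤ) - M)‖ ^ 2 ≤
      l⁻¹ * ∫ x in (-(l / 2))..(l / 2), ‖h x‖ ^ 2 := by
    have hinj : Function.Injective (fun m : Fin (2 * M + 1) => (((m : ℕ) : ℤ) - M)) := by
      intro a b hab
      simp only at hab
      apply Fin.ext
      omega
    rw [← Finset.sum_image (s := Finset.univ) (g := fun m : Fin (2 * M + 1) => (((m : ℕ) : ℤ) - M))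
      (f := fun n : ℤ => ‖fourierCoeffOn hab h n‖ ^ 2) (fun a _ b _ hab => hinj hab)]
    exact sum_le_hasSum _ (fun _ _ => by positivity) hs
  calc l * ∑ m : Fin (2 * M + 1), ‖fourierCoeffOn hab h (((m : ℕ) : ℤ) - M)‖ ^ 2
      ≤ l * (l⁻¹ * ∫ x in (-(l / 2))..(l / 2), ‖h x‖ ^ 2) := by gcongr
    _ = _ := by rw [← mul_assoc, mul_inv_cancel₀ hl.ne', one_mul]

section param

variable {W : Type*} [NormedAddCommGroup W] [NormedSpace ℝ W] [FiniteDimensional ℝ W]

/-- A `C¹` function of the parameter. -/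
lemma contDiff_line {φ : ℝ × W → ℂ} (hφ : ContDiff ℝ 1 φ) {R : ℝ}
    (h0 : ∀ x w, R ≤ |x| → φ (x, w) = 0) {φ' : ℝ → W → (W →L[ℝ] ℂ)}
    (hφ' : ∀ x w, HasFDerivAt (fun w => φ (x, w)) (φ' x w) w) :
    ContDiff ℝ 1 (fun w => ∫ x, φ (x, w)) ∧
      ∀ w v, fderiv ℝ (fun w => ∫ x, φ (x, w)) w v = ∫ x, φ' x w v := by
  have hproper : ProperSpace W := FiniteDimensional.proper_real W
  have hK : IsCompact (Set.Icc (-R) R) := isCompact_Icc
  have hx : ∀ x, x ∉ Set.Icc (-R) R → ∀ w, φ (x, w) = 0 := by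
    intro x hx w
    apply h0
    by_contra hcon
    rw [not_le, abs_lt] at hcon
    exact hx ⟨hcon.1.le, hcon.2.le⟩
  have hx' : ∀ x, x ∉ Set.Icc (-R) R → ∀ w, φ' x w = 0 := by
    intro x hxx w
    have h1 : (fun w => φ (x, w)) = fun _ => 0 := by
      funext w
      exact hx x hxx w
    have h2 := hφ' x w
    rw [h1] at h2
    exact h2.unique (hasFDerivAt_const 0 w)
  have hcomp : ∀ x w, φ' x w = (fderiv ℝ φ (x, w)).comp (ContinuousLinearMap.inr ℝ ℝ W) := by
    intro x w
    have h1 : HasFDerivAt (fun w : W => (x, w)) (ContinuousLinearMap.inr ℝ ℝ W) w :=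
      hasFDerivAt_prodMk_right x w
    have h2 := ((hφ.differentiable one_ne_zero (x, w)).hasFDerivAt).comp w h1
    exact (hφ' x w).unique h2
  have hcont : Continuous (Function.uncurry fun w x => φ' x w) := by
    have h1 : (Function.uncurry fun w x => φ' x w) =
        fun p : W × ℝ => (fderiv ℝ φ (p.2, p.1)).comp (ContinuousLinearMap.inr ℝ ℝ W) := by
      funext p
      exact hcomp p.2 p.1
    rw [h1]
    exact ((hφ.continuous_fderiv one_ne_zero).comp (continuous_snd.prodMk continuous_fst)).clm_comp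
      continuous_const
  have e1 : (fun w => ∫ x, φ (x, w)) = fun w => ∫ x in Set.Icc (-R) R, φ (x, w) := by
    funext w
    exact (setIntegral_eq_integral_of_forall_compl_eq_zero fun y hy => hx y hy w).symm
  have e2 : ∀ w, ∫ x, φ' x w = ∫ x in Set.Icc (-R) R, φ' x w := fun w =>
    (setIntegral_eq_integral_of_forall_compl_eq_zero fun y hy => hx' y hy w).symm
  have hd : ∀ w, HasFDerivAt (fun w => ∫ x, φ (x, w)) (∫ x, φ' x w) w := by
    intro w₀
    rw [e1, e2]
    obtain ⟨C, hC⟩ := ((isCompact_closedBall w₀ 1).prod hK).exists_bound_of_continuousOn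
      hcont.continuousOn
    refine hasFDerivAt_integral_of_dominated_of_fderiv_le (s := Metric.closedBall w₀ 1)
      (bound := fun _ => C) (F := fun w x => φ (x, w)) (F' := fun w x => φ' x w)
      (Metric.closedBall_mem_nhds w₀ one_pos) ?_ ?_ ?_ ?_ ?_ ?_
    · exact Filter.Eventually.of_forall fun w =>
        (hφ.continuous.comp (Continuous.prodMk_left w)).aestronglyMeasurable
    · exact (hφ.continuous.comp (Continuous.prodMk_left w₀)).continuousOn.integrableOn_compact hK
    · exact (hcont.comp (Continuous.prodMk_right w₀)).aestronglyMeasurable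
    · rw [ae_restrict_iff' hK.measurableSet]
      exact Filter.Eventually.of_forall fun y hy x hx => hC (x, y) ⟨hx, hy⟩
    · exact integrableOn_const (hK.measure_lt_top).ne
    · exact Filter.Eventually.of_forall fun y x _ => hφ' y x
  refine ⟨?_, fun w v => ?_⟩
  · rw [contDiff_one_iff_fderiv]
    refine ⟨fun w => (hd w).differentiableAt, ?_⟩
    have h1 : fderiv ℝ (fun w => ∫ x, φ (x, w)) = fun w => ∫ x in Set.Icc (-R) R, φ' x w := by
      funext w
      rw [(hd w).fderiv, e2]
    rw [h1]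
    exact continuous_parametric_integral_of_continuous hcont hK
  · rw [(hd w).fderiv, ContinuousLinearMap.integral_apply]
    have h2 : Continuous (fun x => φ' x w) := hcont.comp (Continuous.prodMk_right w)
    apply h2.integrable_of_hasCompactSupport
    exact HasCompactSupport.intro hK fun x hx => hx' x hx w

end param

/-- one component -/
lemma FG_comp {g : (Fin (k + 1) → ℝ) → ℂ} (hg : ContDiff ℝ 1 g) {R : ℝ} (hR : Van R g)
    (c : ℂ) (p : ℝ) :
    ContDiff ℝ 1 (fun w : Fin k → ℝ => c * ∫ x : ℝ, g (cL k (x, w)) *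
      Complex.exp (-(Complex.I * (p : ℝ) * x))) ∧
    ∀ (w : Fin k → ℝ) (j : Fin k), fderiv ℝ (fun w : Fin k → ℝ => c * ∫ x : ℝ, g (cL k (x, w)) *
      Complex.exp (-(Complex.I * (p : ℝ) * x))) w (Pi.single j 1) =
      c * ∫ x : ℝ, fderiv ℝ g (cL k (x, w)) (Pi.single j.succ 1) *
        Complex.exp (-(Complex.I * (p : ℝ) * x)) := by
  have hexp : ContDiff ℝ 1 (fun q : ℝ × (Fin k → ℝ) =>
      Complex.exp (-(Complex.I * (p : ℝ) * q.1))) := by
    apply ContDiff.cexp
    apply ContDiff.neg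
    apply ContDiff.mul contDiff_const
    exact Complex.ofRealCLM.contDiff.comp contDiff_fst
  have hφ : ContDiff ℝ 1 (fun q : ℝ × (Fin k → ℝ) => g (cL k q) *
      Complex.exp (-(Complex.I * (p : ℝ) * q.1))) := (hg.comp (cL k).contDiff).mul hexp
  have h1 : ∀ (x : ℝ) (w : Fin k → ℝ), HasFDerivAt (fun w => g (cL k (x, w)))
      ((fderiv ℝ g (cL k (x, w))).comp
        ((cL k).toContinuousLinearMap.comp (ContinuousLinearMap.inr ℝ ℝ (Fin k → ℝ)))) w := by
    intro x w
    have h1 : HasFDerivAt (fun y : Fin k → ℝ => (x, y)) (ContinuousLinearMap.inr ℝ ℝ (Fin k → ℝ))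
      w := hasFDerivAt_prodMk_right x w
    have h2 : HasFDerivAt (fun y : Fin k → ℝ => cL k (x, y))
        ((cL k).toContinuousLinearMap.comp (ContinuousLinearMap.inr ℝ ℝ (Fin k → ℝ))) w :=
      ((cL k).toContinuousLinearMap.hasFDerivAt).comp w h1
    exact (hg.differentiable one_ne_zero (cL k (x, w))).hasFDerivAt.comp w h2
  obtain ⟨h2, h3⟩ := contDiff_line hφ (R := R) (fun x w hx => by
    rw [hR _ (hx.trans (norm_cL_ge1 k x w)), zero_mul])
    (fun x w => (h1 x w).mul_const (Complex.exp (-(Complex.I * (p : ℝ) * x))))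
  refine ⟨contDiff_const.mul h2, fun w j => ?_⟩
  rw [fderiv_const_mul (h2.differentiable one_ne_zero w)]
  rw [_root_.smul_apply, h3, smul_eq_mul]
  congr 2
  funext x
  rw [_root_.smul_apply, smul_eq_mul, mul_comm]
  congr 1
  exact congrArg (fderiv ℝ g (cL k (x, w))) (cL_succ j)

lemma FG_van {g : (Fin (k + 1) → ℝ) → ℂ} {R : ℝ} (hR : Van R g) (c : ℂ) (p : ℝ) :
    Van R (fun w : Fin k → ℝ => c * ∫ x : ℝ, g (cL k (x, w)) *
      Complex.exp (-(Complex.I * (p : ℝ) * x))) := by
  intro w hw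
  have h1 : ∀ x : ℝ, g (cL k (x, w)) = 0 := fun x => hR _ (hw.trans (norm_cL_ge2 k x w))
  simp [h1]

/-- Four-a -/
theorem fam_FG {g : Fin N → (Fin (k + 1) → ℝ) → ℂ} (hg : Fam g) {l : ℝ} (hl : 0 < l) (M : ℕ) :
    Fam (FG g l M) := by
  obtain ⟨R, _, hR⟩ := hg.van
  refine ⟨fun i => ?_, fun i => ?_⟩
  · exact (FG_comp (hg.smooth _) (hR _).1 _ _).1
  · apply HasCompactSupport.intro (isCompact_closedBall (0 : Fin k → ℝ) R)
    intro y hy
    rw [mem_closedBall_zero_iff, not_le] at hy
    exact FG_van (hR _).1 _ _ y hy.le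

theorem kin_FG {g : Fin N → (Fin (k + 1) → ℝ) → ℂ} (hg : Fam g) {l : ℝ} (hl : 0 < l)
    (hs : ∀ n z, l / 2 ≤ |z 0| → g n z = 0) (M : ℕ) :
    (∑ i, fq l M (finProdFinEquiv.symm i).2 ^ 2 * (∫ w, ‖FG g l M i w‖ ^ 2)) + kin (FG g l M)
      ≤ kin g := by
  obtain ⟨R, hR0, hR⟩ := hg.van
  have hF := fam_FG hg hl M
  obtain ⟨R', hR0', hR'⟩ := hF.van
  -- vanishing of derivatives
  have hs' : ∀ n (w : Fin k → ℝ) (x : ℝ), l / 2 < |x| → fderiv ℝ (g n) (cL k (x, w)) = 0 := by
    intro n w x hx
    have h1 : g n =ᶠ[nhds (cL k (x, w))] fun _ => 0 := by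
      have h2 : IsOpen {z : Fin (k + 1) → ℝ | l / 2 < |z 0|} :=
        isOpen_lt continuous_const (continuous_apply 0).abs
      filter_upwards [h2.mem_nhds (show cL k (x, w) ∈ {z : Fin (k + 1) → ℝ | l / 2 < |z 0|} by
        rw [cL_apply]; exact hx)] with z hz
      exact hs n z (le_of_lt hz)
    rw [h1.fderiv_eq, fderiv_const_apply]
  have hcl : ∀ w : Fin k → ℝ, Continuous (fun x : ℝ => cL k (x, w)) := fun w =>
    (cL k).continuous.comp (Continuous.prodMk_left w)
  have hbes : ∀ n (w : Fin k → ℝ) (v : Fin (k + 1) → ℝ),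
      ∑ m : Fin (2 * M + 1), ‖(((1 / √l : ℝ)) : ℂ) * ∫ x, fderiv ℝ (g n) (cL k (x, w)) v *
      Complex.exp (-(Complex.I * (fq l M m : ℝ) * x))‖ ^ 2 ≤
        ∫ x, ‖fderiv ℝ (g n) (cL k (x, w)) v‖ ^ 2 := by
    intro n w v
    apply bessel_iv hl
    · exact ((hg.continuous_fderiv n).comp (hcl w)).clm_apply continuous_const
    · intro x hx
      rw [hs' n w x hx, _root_.zero_apply]
  -- integration by parts
  have hparts : ∀ n (w : Fin k → ℝ) (p : ℝ),
      ∫ x, fderiv ℝ (g n) (cL k (x, w)) (Pi.single 0 1) *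
        Complex.exp (-(Complex.I * (p : ℝ) * x)) =
      (Complex.I * p) * ∫ x, g n (cL k (x, w)) * Complex.exp (-(Complex.I * (p : ℝ) * x)) := by
    intro n w p
    have hexp : ∀ x : ℝ, HasDerivAt (fun x : ℝ => Complex.exp (-(Complex.I * (p : ℝ) * x)))
        (Complex.exp (-(Complex.I * (p : ℝ) * x)) * (-(Complex.I * p))) x := by
      intro x
      apply HasDerivAt.cexp
      have h1 : HasDerivAt (fun x : ℝ => (x : ℂ)) 1 x := Complex.ofRealCLM.hasDerivAt
      have h2 := (h1.const_mul (Complex.I * (p : ℝ))).neg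
      rw [mul_one] at h2
      exact h2
    have hd : ∀ x : ℝ, HasDerivAt (fun x : ℝ => g n (cL k (x, w)) *
        Complex.exp (-(Complex.I * (p : ℝ) * x)))
        (fderiv ℝ (g n) (cL k (x, w)) (Pi.single 0 1) * Complex.exp (-(Complex.I * (p : ℝ) * x)) +
        g n (cL k (x, w)) * (Complex.exp (-(Complex.I * (p : ℝ) * x)) * (-(Complex.I * p)))) x :=
      fun x => (hasDerivAt_sl hg n x w).mul (hexp x)
    have hcexp : Continuous (fun x : ℝ => Complex.exp (-(Complex.I * (p : ℝ) * x))) := by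
      fun_prop
    have hi1 : Integrable (fun x : ℝ => fderiv ℝ (g n) (cL k (x, w)) (Pi.single 0 1) *
        Complex.exp (-(Complex.I * (p : ℝ) * x))) := by
      apply Continuous.integrable_of_hasCompactSupport
      · exact (((hg.continuous_fderiv n).comp (hcl w)).clm_apply continuous_const).mul hcexp
      · apply HasCompactSupport.intro (isCompact_Icc (a := -(l / 2)) (b := l / 2))
        intro x hx
        rw [hs' n w x (by
          by_contra hcon
          rw [not_lt, abs_le] at hcon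
          exact hx hcon), _root_.zero_apply, zero_mul]
    have hi2 : Integrable (fun x : ℝ => g n (cL k (x, w)) *
        Complex.exp (-(Complex.I * (p : ℝ) * x))) := by
      apply Continuous.integrable_of_hasCompactSupport
      · exact ((hg.continuous n).comp (hcl w)).mul hcexp
      · apply HasCompactSupport.intro (isCompact_Icc (a := -(l / 2)) (b := l / 2))
        intro x hx
        rw [hs n _ (by
          rw [cL_apply]
          change l / 2 ≤ |x|
          by_contra hcon
          rw [not_le, abs_lt] at hcon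
          exact hx ⟨hcon.1.le, hcon.2.le⟩), zero_mul]
    have hi3 : Integrable (fun x : ℝ => g n (cL k (x, w)) *
        (Complex.exp (-(Complex.I * (p : ℝ) * x)) * (-(Complex.I * p)))) := by
      have := hi2.mul_const (-(Complex.I * p))
      refine this.congr (Filter.Eventually.of_forall fun x => ?_)
      simp only
      ring
    have h1 := integral_eq_zero_of_hasDerivAt_of_integrable hd (hi1.add hi3) hi2
    rw [integral_add hi1 hi3] at h1
    have h2 : ∫ x : ℝ, g n (cL k (x, w)) *
        (Complex.exp (-(Complex.I * (p : ℝ) * x)) * (-(Complex.I * p))) =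
        (-(Complex.I * p)) * ∫ x : ℝ, g n (cL k (x, w)) *
          Complex.exp (-(Complex.I * (p : ℝ) * x)) := by
      rw [← integral_const_mul]
      congr 1
      funext x
      ring
    rw [h2] at h1
    linear_combination h1
  -- pointwise bound
  have hpt : ∀ w : Fin k → ℝ, ∑ i, fq l M (finProdFinEquiv.symm i).2 ^ 2 * ‖FG g l M i w‖ ^ 2 +
      LiebT2.dens (FG g l M) w ≤ ∫ x, LiebT2.dens g (cL k (x, w)) := by
    intro w
    have hI : ∀ n (v : Fin (k + 1) → ℝ),
        Integrable (fun x => ‖fderiv ℝ (g n) (cL k (x, w)) v‖ ^ 2) := by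
      intro n v
      apply Continuous.integrable_of_hasCompactSupport
      · exact ((((hg.continuous_fderiv n).comp (hcl w)).clm_apply continuous_const).norm).pow 2
      · apply HasCompactSupport.intro (isCompact_Icc (a := -(l / 2)) (b := l / 2))
        intro x hx
        rw [hs' n w x (by
          by_contra hcon
          rw [not_lt, abs_le] at hcon
          exact hx hcon), _root_.zero_apply, norm_zero, zero_pow two_ne_zero]
    have e1 : ∫ x, LiebT2.dens g (cL k (x, w)) = ∑ n,
        ((∫ x, ‖fderiv ℝ (g n) (cL k (x, w)) (Pi.single 0 1)‖ ^ 2) + ∑ i : Fin k,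
        ∫ x, ‖fderiv ℝ (g n) (cL k (x, w)) (Pi.single i.succ 1)‖ ^ 2) := by
      unfold LiebT2.dens
      rw [integral_finsetSum _ (fun n _ => integrable_finsetSum _ fun i _ => hI n _)]
      apply Finset.sum_congr rfl
      intro n _
      rw [integral_finsetSum _ (fun i _ => hI n _), Fin.sum_univ_succ]
    have e2 : ∑ i, fq l M (finProdFinEquiv.symm i).2 ^ 2 * ‖FG g l M i w‖ ^ 2 =
        ∑ n, ∑ m : Fin (2 * M + 1), ‖(((1 / √l : ℝ)) : ℂ) *
          ∫ x, fderiv ℝ (g n) (cL k (x, w)) (Pi.single 0 1) *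
          Complex.exp (-(Complex.I * (fq l M m : ℝ) * x))‖ ^ 2 := by
      rw [← finProdFinEquiv.sum_comp, Fintype.sum_prod_type]
      apply Finset.sum_congr rfl
      intro n _
      apply Finset.sum_congr rfl
      intro m _
      unfold FG
      rw [Equiv.symm_apply_apply, hparts, mul_left_comm, norm_mul (Complex.I * _), mul_pow,
        norm_mul Complex.I, Complex.norm_I, one_mul, Complex.norm_real, Real.norm_eq_abs, sq_abs]
    have e3 : LiebT2.dens (FG g l M) w = ∑ n, ∑ i : Fin k, ∑ m : Fin (2 * M + 1),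
        ‖(((1 / √l : ℝ)) : ℂ) *
          ∫ x, fderiv ℝ (g n) (cL k (x, w)) (Pi.single i.succ 1) *
          Complex.exp (-(Complex.I * (fq l M m : ℝ) * x))‖ ^ 2 := by
      unfold LiebT2.dens
      rw [← finProdFinEquiv.sum_comp, Fintype.sum_prod_type]
      apply Finset.sum_congr rfl
      intro n _
      rw [Finset.sum_comm]
      apply Finset.sum_congr rfl
      intro i _
      apply Finset.sum_congr rfl
      intro m _
      have h1 := (FG_comp (hg.smooth n) (hR n).1 (((1 / √l : ℝ)) : ℂ) (fq l M m)).2 w i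
      rw [← h1]
      unfold FG
      rw [Equiv.symm_apply_apply]
    rw [e1, e2, e3, ← Finset.sum_add_distrib]
    apply Finset.sum_le_sum
    intro n _
    apply add_le_add (hbes n w _)
    apply Finset.sum_le_sum
    intro i _
    exact hbes n w _
  -- integration
  have hiF : ∀ i, Integrable (fun w => ‖FG g l M i w‖ ^ 2) := by
    intro i
    apply integrable_of_van (R := R')
    · exact ((hF.continuous i).norm).pow 2
    · intro w hw
      simp only
      rw [(hR' i).1 w hw, norm_zero, zero_pow two_ne_zero]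
  have hiD : Integrable (fun w => LiebT2.dens (FG g l M) w) :=
    integrable_of_van (continuous_dens hF) (van_dens fun n => (hR' n).2)
  have hsum : Integrable (fun w => ∑ i, fq l M (finProdFinEquiv.symm i).2 ^ 2 *
      ‖FG g l M i w‖ ^ 2) := integrable_finsetSum _ fun i _ => (hiF i).const_mul _
  have hprod := integrable_cL (continuous_dens hg) (van_dens fun n => (hR n).2)
  have e4 : kin g = ∫ w, ∫ x, LiebT2.dens g (cL k (x, w)) := by
    unfold kin
    rw [integral_cL, Measure.volume_eq_prod, integral_prod_symm _ hprod]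
  have e5 : (∑ i, fq l M (finProdFinEquiv.symm i).2 ^ 2 * (∫ w, ‖FG g l M i w‖ ^ 2)) +
      kin (FG g l M) = ∫ w, (∑ i, fq l M (finProdFinEquiv.symm i).2 ^ 2 * ‖FG g l M i w‖ ^ 2 +
      LiebT2.dens (FG g l M) w) := by
    rw [integral_add hsum hiD, integral_finsetSum _ (fun i _ => (hiF i).const_mul _)]
    unfold kin
    congr 1
    apply Finset.sum_congr rfl
    intro i _
    rw [integral_const_mul]
  rw [e4, e5]
  exact integral_mono (hsum.add hiD) hprod.integral_prod_right hpt

end Pool.Agent.LTHD
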