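import Mathlib
import Pool.Agent.LTHD.Defs
import Pool.Agent.LTHD.FourA

open Real Finset MeasureTheory Matrix ComplexOrder
open Pool.Agent.LiebT2

set_option autoImplicit false

namespace Pool.Agent.LTHD

variable {d k N : ℕ}

/-- Parseval's identity on an interval, as a limit of symmetric partial sums. -/
private lemma parseval_iv {l : ℝ} (hl : 0 < l) {h : ℝ → ℂ} (hc : Continuous h)
    (h0 : ∀ x, l / 2 ≤ |x| → h x = 0) :
    Filter.Tendsto (fun M : ℕ => ∑ m : Fin (2 * M + 1), ‖(((1 / √l : ℝ)) : ℂ) * ∫ x, h x *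
      Complex.exp (-(Complex.I * (fq l M m : ℝ) * x))‖ ^ 2) Filter.atTop
      (nhds (∫ x, ‖h x‖ ^ 2)) := by
  have hab : -(l / 2) < l / 2 := by linarith
  have hT : l / 2 - -(l / 2) = l := by ring
  have hL2 : MemLp h 2 (volume.restrict (Set.Ioc (-(l / 2)) (l / 2))) := by
    have h1 : HasCompactSupport h := by
      apply HasCompactSupport.intro (isCompact_Icc (a := -(l / 2)) (b := l / 2))
      intro x hx
      apply h0
      by_contra hcon
      rw [not_le, abs_lt] at hcon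
      exact hx ⟨hcon.1.le, hcon.2.le⟩
    exact (hc.memLp_of_hasCompactSupport h1).restrict _
  have hs := hasSum_sq_fourierCoeffOn hab hL2
  rw [hT, smul_eq_mul] at hs
  have hterm : ∀ (M : ℕ) (m : Fin (2 * M + 1)), ‖(((1 / √l : ℝ)) : ℂ) * ∫ x, h x *
      Complex.exp (-(Complex.I * (fq l M m : ℝ) * x))‖ ^ 2 =
      l * ‖fourierCoeffOn hab h (((m : ℕ) : ℤ) - M)‖ ^ 2 := by
    intro M m
    rw [fourierCoeffOn_eq_integral, integral_of_vanish (l := l) (g := fun x : ℝ => h x *
      Complex.exp (-(Complex.I * (fq l M m : ℝ) * x))) (fun x hx => by rw [h0 x hx, zero_mul])]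
    have h2 : ∀ x : ℝ, (fourier (-(((m : ℕ) : ℤ) - M)) (x : AddCircle (l / 2 - -(l / 2)))) • h x =
        h x * Complex.exp (-(Complex.I * (fq l M m : ℝ) * x)) := by
      intro x
      rw [fourier_coe_apply, smul_eq_mul, mul_comm]
      congr 2
      unfold fq
      rw [hT]
      push_cast
      ring
    rw [intervalIntegral.integral_congr (fun x _ => h2 x), norm_mul, norm_smul, hT]
    rw [Complex.norm_real, Real.norm_eq_abs, Real.norm_eq_abs, abs_of_pos (by positivity),
      abs_of_pos (by positivity), mul_pow, mul_pow, div_pow, Real.sq_sqrt hl.le]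
    field_simp
  simp only [hterm]
  have hsum : ∀ M : ℕ, ∑ m : Fin (2 * M + 1), l * ‖fourierCoeffOn hab h (((m : ℕ) : ℤ) - M)‖ ^ 2 =
      l * ∑ n ∈ Finset.Icc (-(M : ℤ)) M, ‖fourierCoeffOn hab h n‖ ^ 2 := by
    intro M
    rw [← Finset.mul_sum]
    congr 1
    apply Finset.sum_bij (fun (m : Fin (2 * M + 1)) _ => (((m : ℕ) : ℤ) - M))
    · intro m _
      rw [Finset.mem_Icc]
      have := m.2
      constructor <;> omega
    · intro a _ b _ hab
      apply Fin.ext
      omega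
    · intro n hn
      rw [Finset.mem_Icc] at hn
      refine ⟨⟨(n + M).toNat, by omega⟩, Finset.mem_univ _, ?_⟩
      simp only
      omega
    · intro m _
      rfl
  simp only [hsum]
  have hfs : Filter.Tendsto (fun M : ℕ => Finset.Icc (-(M : ℤ)) M) Filter.atTop Filter.atTop := by
    apply Filter.tendsto_atTop_finset_of_monotone
    · intro a b hab
      apply Finset.Icc_subset_Icc
      · have : (a : ℤ) ≤ b := by exact_mod_cast hab
        omega
      · exact_mod_cast hab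
    · intro x
      refine ⟨x.natAbs, ?_⟩
      rw [Finset.mem_Icc]
      constructor <;> omega
  have h3 : Filter.Tendsto (fun M : ℕ => ∑ n ∈ Finset.Icc (-(M : ℤ)) M,
      ‖fourierCoeffOn hab h n‖ ^ 2) Filter.atTop
      (nhds (l⁻¹ * ∫ x in (-(l / 2))..(l / 2), ‖h x‖ ^ 2)) := hs.comp hfs
  have h4 := h3.const_mul l
  rw [← mul_assoc, mul_inv_cancel₀ hl.ne', one_mul] at h4
  rw [integral_of_vanish (l := l) (g := fun x => ‖h x‖ ^ 2) (fun x hx => by rw [h0 x hx]; simp)]
  exact h4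

/-- reindexing the density of the coefficient family -/
private lemma rho_FG_eq (g : Fin N → (Fin (k + 1) → ℝ) → ℂ) (l : ℝ) (M : ℕ) (w : Fin k → ℝ) :
    rho (FG g l M) w = ∑ n, ∑ m : Fin (2 * M + 1), ‖(((1 / √l : ℝ)) : ℂ) *
      ∫ x, g n (cL k (x, w)) * Complex.exp (-(Complex.I * (fq l M m : ℝ) * x))‖ ^ 2 := by
  unfold rho
  rw [← finProdFinEquiv.sum_comp, Fintype.sum_prod_type]
  apply Finset.sum_congr rfl
  intro n _
  apply Finset.sum_congr rfl
  intro m _
  unfold FG
  rw [Equiv.symm_apply_apply]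

private lemma slice_cont {g : Fin N → (Fin (k + 1) → ℝ) → ℂ} (hg : Fam g) (n : Fin N) (w : Fin k → ℝ) :
    Continuous (fun x : ℝ => g n (cL k (x, w))) :=
  (hg.continuous n).comp ((cL k).continuous.comp (Continuous.prodMk_left w))

private lemma slice_van {g : Fin N → (Fin (k + 1) → ℝ) → ℂ} {l : ℝ}
    (hs : ∀ n z, l / 2 ≤ |z 0| → g n z = 0) (n : Fin N) (w : Fin k → ℝ) :
    ∀ x : ℝ, l / 2 ≤ |x| → g n (cL k (x, w)) = 0 := by
  intro x hx
  apply hs
  rw [cL_apply]
  exact hx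

private lemma integral_rho_slice {g : Fin N → (Fin (k + 1) → ℝ) → ℂ} (hg : Fam g) {l : ℝ}
    (hs : ∀ n z, l / 2 ≤ |z 0| → g n z = 0) (w : Fin k → ℝ) :
    ∫ x, rho g (cL k (x, w)) = ∑ n, ∫ x, ‖g n (cL k (x, w))‖ ^ 2 := by
  unfold rho
  rw [integral_finsetSum]
  intro n _
  apply Continuous.integrable_of_hasCompactSupport
  · exact ((slice_cont hg n w).norm).pow 2
  · apply HasCompactSupport.intro (isCompact_Icc (a := -(l / 2)) (b := l / 2))
    intro x hx
    rw [slice_van hs n w x (by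
      by_contra hcon
      rw [not_le, abs_lt] at hcon
      exact hx ⟨hcon.1.le, hcon.2.le⟩), norm_zero, zero_pow two_ne_zero]

/-- Four-b -/
theorem rho_FG {g : Fin N → (Fin (k + 1) → ℝ) → ℂ} (hg : Fam g) {l : ℝ} (hl : 0 < l)
    (hs : ∀ n z, l / 2 ≤ |z 0| → g n z = 0) (w : Fin k → ℝ) :
    Filter.Tendsto (fun M => rho (FG g l M) w) Filter.atTop
      (nhds (∫ x, rho g (cL k (x, w)))) := by
  simp only [rho_FG_eq]
  rw [integral_rho_slice hg hs w]
  exact tendsto_finsetSum _ fun n _ => parseval_iv hl (slice_cont hg n w) (slice_van hs n w)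

theorem rho_FG_le {g : Fin N → (Fin (k + 1) → ℝ) → ℂ} (hg : Fam g) {l : ℝ} (hl : 0 < l)
    (hs : ∀ n z, l / 2 ≤ |z 0| → g n z = 0) (M : ℕ) (w : Fin k → ℝ) :
    rho (FG g l M) w ≤ ∫ x, rho g (cL k (x, w)) := by
  rw [rho_FG_eq, integral_rho_slice hg hs w]
  exact Finset.sum_le_sum fun n _ => bessel_iv hl (slice_cont hg n w)
    (fun x hx => slice_van hs n w x hx.le) M

end Pool.Agent.LTHD
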