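import Mathlib
import Pool.Agent.LTHD.Defs
import Pool.Agent.LTHD.FourA

open Real Finset MeasureTheory Matrix ComplexOrder
open Pool.Agent.LiebT2

set_option autoImplicit false

namespace Pool.Agent.LTHD

variable {d k N : ℕ}

/-- the test function attached to a coefficient vector -/
private noncomputable def tf {J : ℕ} (G : Fin J → (Fin k → ℝ) → ℂ) (c : Fin J → ℂ)
    (w : Fin k → ℝ) : ℂ := ∑ i, star (c i) * G i w

private lemma tf_cont {J : ℕ} {G : Fin J → (Fin k → ℝ) → ℂ} (hG : Fam G) (c : Fin J → ℂ) :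
    Continuous (tf G c) := by
  unfold tf
  exact continuous_finsetSum _ fun i _ => continuous_const.mul (hG.continuous i)

private lemma tf_van {J : ℕ} {G : Fin J → (Fin k → ℝ) → ℂ} {R : ℝ} (hR : ∀ i, Van R (G i))
    (c : Fin J → ℂ) : Van R (tf G c) := by
  intro w hw
  unfold tf
  apply Finset.sum_eq_zero
  intro i _
  rw [hR i w hw, mul_zero]

private lemma hcs_of_van {E : Type*} [NormedAddCommGroup E] {F : (Fin k → ℝ) → E} {R : ℝ}
    (hR : Van R F) : HasCompactSupport F := by
  apply HasCompactSupport.intro (isCompact_closedBall (0 : Fin k → ℝ) R)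
  intro y hy
  rw [mem_closedBall_zero_iff, not_le] at hy
  exact hR y hy.le

/-- Gram matrix times a vector -/
private lemma gram_mulVec {J : ℕ} {G : Fin J → (Fin k → ℝ) → ℂ} (hG : Fam G) (c : Fin J → ℂ)
    (i : Fin J) : ((gram G).mulVec c) i = ∫ w, G i w * star (tf G c w) := by
  obtain ⟨R, _, hR⟩ := hG.van
  have hint : ∀ n m, Integrable (fun y => G n y * star (G m y)) := fun n m =>
    integrable_of_van (continuous_mul_star hG n m) (van_mul_star (fun n => (hR n).1) n m)
  have e1 : (fun w => G i w * star (tf G c w)) = fun w => ∑ j, (G i w * star (G j w)) * c j := by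
    funext w
    unfold tf
    rw [star_sum, Finset.mul_sum]
    apply Finset.sum_congr rfl
    intro j _
    rw [star_mul', star_star]
    ring
  rw [e1, integral_finsetSum _ (fun j _ => (hint i j).mul_const _)]
  simp only [Matrix.mulVec, dotProduct]
  apply Finset.sum_congr rfl
  intro j _
  rw [integral_mul_const]
  rfl

/-- the quadratic form of the Gram matrix -/
private lemma gram_form {J : ℕ} {G : Fin J → (Fin k → ℝ) → ℂ} (hG : Fam G) (c : Fin J → ℂ) :
    (star c ⬝ᵥ (gram G).mulVec c).re = ∫ w, ‖tf G c w‖ ^ 2 := by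
  obtain ⟨R, _, hR⟩ := hG.van
  have hT := tf_van (fun i => (hR i).1) c
  have hint : ∀ i, Integrable (fun w => G i w * star (tf G c w)) := by
    intro i
    apply integrable_of_van (R := R) ((hG.continuous i).mul (tf_cont hG c).star)
    intro w hw
    show G i w * star (tf G c w) = 0
    rw [hT w hw, star_zero, mul_zero]
  have e1 : star c ⬝ᵥ (gram G).mulVec c = ∫ w, ((‖tf G c w‖ ^ 2 : ℝ) : ℂ) := by
    have e2 : ∀ w, ((‖tf G c w‖ ^ 2 : ℝ) : ℂ) = ∑ i, star (c i) * (G i w * star (tf G c w)) := by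
      intro w
      have e3 : ((‖tf G c w‖ ^ 2 : ℝ) : ℂ) = (∑ i, star (c i) * G i w) * star (tf G c w) := by
        rw [Complex.ofReal_pow, ← Complex.mul_conj']
        rfl
      rw [e3, Finset.sum_mul]
      apply Finset.sum_congr rfl
      intro i _
      rw [mul_assoc]
    rw [integral_congr_ae (Filter.Eventually.of_forall e2)]
    rw [integral_finsetSum _ (fun i _ => (hint i).const_mul _)]
    simp only [dotProduct]
    apply Finset.sum_congr rfl
    intro i _
    rw [integral_const_mul, gram_mulVec hG]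
    rfl
  rw [e1, integral_complex_ofReal, Complex.ofReal_re]

/-- Four-c -/
theorem gram_FG {g : Fin N → (Fin (k + 1) → ℝ) → ℂ} (hg : Fam g)
    (hC : ∀ (p : ℝ) (φ : (Fin k → ℝ) → ℂ), Continuous φ → HasCompactSupport φ →
      ∑ n, ‖∫ z : Fin (k + 1) → ℝ, g n z * Complex.exp (-(Complex.I * p * z 0)) *
        star (φ (Fin.tail z))‖ ^ 2 ≤ ∫ w, ‖φ w‖ ^ 2) {l : ℝ} (hl : 0 < l) (M : ℕ)
    (m : Fin (2 * M + 1)) (c : Fin (N * (2 * M + 1)) → ℂ) :
    ∑ n, ‖((gram (FG g l M)).mulVec c) (finProdFinEquiv (n, m))‖ ^ 2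
      ≤ l⁻¹ * (star c ⬝ᵥ (gram (FG g l M)).mulVec c).re := by
  have hF := fam_FG hg hl M
  obtain ⟨R, _, hR⟩ := hg.van
  obtain ⟨R', _, hR'⟩ := hF.van
  have hTc := tf_cont hF c
  have hTv := tf_van (fun i => (hR' i).1) c
  rw [gram_form hF]
  have key : ∀ n, ((gram (FG g l M)).mulVec c) (finProdFinEquiv (n, m)) =
      (((1 / √l : ℝ)) : ℂ) * ∫ z : Fin (k + 1) → ℝ, g n z *
        Complex.exp (-(Complex.I * (fq l M m : ℝ) * z 0)) *
        star (tf (FG g l M) c (Fin.tail z)) := by
    intro n
    have hcF : Continuous (fun z : Fin (k + 1) → ℝ => g n z *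
        Complex.exp (-(Complex.I * (fq l M m : ℝ) * z 0)) *
        star (tf (FG g l M) c (Fin.tail z))) := by
      apply Continuous.mul
      · apply (hg.continuous n).mul
        fun_prop
      · apply Continuous.star
        apply hTc.comp
        exact continuous_pi fun i => continuous_apply i.succ
    have hvF : Van R (fun z : Fin (k + 1) → ℝ => g n z *
        Complex.exp (-(Complex.I * (fq l M m : ℝ) * z 0)) *
        star (tf (FG g l M) c (Fin.tail z))) := by
      intro z hz
      show g n z * Complex.exp (-(Complex.I * (fq l M m : ℝ) * z 0)) *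
        star (tf (FG g l M) c (Fin.tail z)) = 0
      rw [(hR n).1 z hz, zero_mul, zero_mul]
    rw [gram_mulVec hF, integral_cL, Measure.volume_eq_prod,
      integral_prod_symm _ (integrable_cL hcF hvF), ← integral_const_mul]
    congr 1
    funext w
    unfold FG
    rw [Equiv.symm_apply_apply, mul_assoc, ← integral_mul_const]
    congr 1
  have e1 : ∀ n, ‖((gram (FG g l M)).mulVec c) (finProdFinEquiv (n, m))‖ ^ 2 =
      l⁻¹ * ‖∫ z : Fin (k + 1) → ℝ, g n z *
        Complex.exp (-(Complex.I * (fq l M m : ℝ) * z 0)) *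
        star (tf (FG g l M) c (Fin.tail z))‖ ^ 2 := by
    intro n
    rw [key, norm_mul, mul_pow, Complex.norm_real, Real.norm_eq_abs, sq_abs, div_pow,
      Real.sq_sqrt hl.le, one_pow, one_div]
  simp only [e1]
  rw [← Finset.mul_sum]
  exact mul_le_mul_of_nonneg_left (hC _ _ hTc (hcs_of_van hTv)) (inv_nonneg.mpr hl.le)

end Pool.Agent.LTHD
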