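import Mathlib
import Pool.Agent.LTHD.Defs
import Pool.Agent.LTHD.Bath
import Pool.Agent.LTHD.FourA
import Pool.Agent.LTHD.FourB
import Pool.Agent.LTHD.FourC

open Real Finset MeasureTheory Matrix ComplexOrder
open Pool.Agent.LiebT2

set_option autoImplicit false

namespace Pool.Agent.LTHD

variable {d k N : ℕ}

/-- `tr C^2 ≤ (tr C)^2` for positive semidefinite matrices -/
private lemma trace_sq_le {ι : Type*} [Fintype ι] [DecidableEq ι] {C : Matrix ι ι ℂ}
    (hC : C.PosSemidef) : (trace (C * C)).re ≤ (trace C).re ^ 2 := by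
  obtain ⟨V, r, h1, h2, hd⟩ := exists_diag hC.isHermitian
  have hd' : cj V C = diagonal (fun i => (r i : ℂ)) := hd
  have hr : ∀ i, 0 ≤ r i := by
    intro i
    have h := posSemidef_cj (V := V) hC
    rw [hd'] at h
    have h3 := h.diag_nonneg (i := i)
    rw [diagonal_apply_eq] at h3
    exact_mod_cast h3
  have e1 : (trace (C * C)).re = ∑ i, r i ^ 2 := by
    rw [← trace_cj h2 (C * C), cj_mul h2, hd', diagonal_mul_diagonal, trace_diagonal,
      Complex.re_sum]
    apply Finset.sum_congr rfl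
    intro i _
    rw [← Complex.ofReal_mul, Complex.ofReal_re, sq]
  have e2 : (trace C).re = ∑ i, r i := by
    rw [← trace_cj h2 C, hd', trace_diagonal, Complex.re_sum]
    apply Finset.sum_congr rfl
    intro i _
    rw [Complex.ofReal_re]
  rw [e1, e2, sq, Finset.sum_mul]
  apply Finset.sum_le_sum
  intro i _
  rw [sq]
  exact mul_le_mul_of_nonneg_left (Finset.single_le_sum (fun j _ => hr j) (Finset.mem_univ i)) (hr i)

/-- diagonal of the Gram matrix -/
private lemma gram_diag {J : ℕ} (v : Fin J → (Fin k → ℝ) → ℂ) (i : Fin J) :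
    (gram v i i).re = ∫ w, ‖v i w‖ ^ 2 := by
  unfold Pool.Agent.LiebT2.gram
  rw [Matrix.of_apply]
  have e : ∀ y, v i y * star (v i y) = ((‖v i y‖ ^ 2 : ℝ) : ℂ) := by
    intro y
    rw [Complex.ofReal_pow, ← Complex.mul_conj']
    rfl
  rw [integral_congr_ae (Filter.Eventually.of_forall e), integral_complex_ofReal, Complex.ofReal_re]

/-- trace of the Gram matrix -/
private lemma trace_gram {J : ℕ} {v : Fin J → (Fin k → ℝ) → ℂ} (hv : Fam v) :
    (trace (gram v)).re = ∫ w, rho v w := by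
  obtain ⟨R, _, hR⟩ := hv.van
  unfold rho
  rw [integral_finsetSum]
  · rw [trace, Complex.re_sum]
    apply Finset.sum_congr rfl
    intro i _
    rw [diag_apply, gram_diag]
  · intro i _
    apply integrable_of_van (R := R) ((hv.continuous i).norm.pow 2)
    intro z hz
    simp [(hR i).1 z hz]

private lemma trace_submatrix_eq {ι κ : Type*} [Fintype ι] [Fintype κ] (e : ι ≃ κ)
    (G : Matrix κ κ ℂ) : trace (G.submatrix e e) = trace G := by
  unfold trace
  exact e.sum_comp (fun i => G i i)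

private lemma submatrix_mulVec_eq {ι κ : Type*} [Fintype ι] [Fintype κ] (e : ι ≃ κ)
    (G : Matrix κ κ ℂ) (c : ι → ℂ) (i : ι) :
    ((G.submatrix e e).mulVec c) i = (G.mulVec (c ∘ e.symm)) (e i) := by
  simp only [Matrix.mulVec, dotProduct, Matrix.submatrix_apply, Function.comp]
  rw [← e.sum_comp]
  apply Finset.sum_congr rfl
  intro j _
  rw [e.symm_apply_apply]

private lemma submatrix_form_eq {ι κ : Type*} [Fintype ι] [Fintype κ] (e : ι ≃ κ)
    (G : Matrix κ κ ℂ) (c : ι → ℂ) :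
    star c ⬝ᵥ (G.submatrix e e).mulVec c = star (c ∘ e.symm) ⬝ᵥ G.mulVec (c ∘ e.symm) := by
  simp only [dotProduct]
  rw [← e.sum_comp]
  apply Finset.sum_congr rfl
  intro j _
  rw [submatrix_mulVec_eq]
  simp [Pi.star_apply]

/-- the density integrated over the first variable -/
private lemma cont_line {g : Fin N → (Fin (k + 1) → ℝ) → ℂ} (hg : Fam g) {R : ℝ}
    (hR : ∀ n, Van R (g n)) : Continuous (fun w : Fin k → ℝ => ∫ x, rho g (cL k (x, w))) := by
  have h0 : ∀ (w : Fin k → ℝ) (x : ℝ), x ∉ Set.Icc (-R) R → rho g (cL k (x, w)) = 0 := by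
    intro w x hx
    apply van_rho hR
    refine le_trans ?_ (norm_cL_ge1 k x w)
    by_contra hcon
    rw [not_le, abs_lt] at hcon
    exact hx ⟨hcon.1.le, hcon.2.le⟩
  have e : (fun w : Fin k → ℝ => ∫ x, rho g (cL k (x, w))) =
      fun w => ∫ x in Set.Icc (-R) R, rho g (cL k (x, w)) := by
    funext w
    exact (setIntegral_eq_integral_of_forall_compl_eq_zero fun x hx => h0 w x hx).symm
  rw [e]
  apply continuous_parametric_integral_of_continuous _ isCompact_Icc
  exact (continuous_rho hg).comp ((cL k).continuous.comp (continuous_snd.prodMk continuous_fst))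

private lemma van_line {g : Fin N → (Fin (k + 1) → ℝ) → ℂ} {R : ℝ}
    (hR : ∀ n, Van R (g n)) : Van R (fun w : Fin k → ℝ => ∫ x, rho g (cL k (x, w))) := by
  intro w hw
  have : ∀ x : ℝ, rho g (cL k (x, w)) = 0 := fun x => van_rho hR _ (hw.trans (norm_cL_ge2 k x w))
  simp [this]

/-- the inequality for fixed `l` and `M` -/
private lemma bl_lM {g : Fin N → (Fin (k + 1) → ℝ) → ℂ} (hg : Fam g)
    (hC : ∀ (p : ℝ) (φ : (Fin k → ℝ) → ℂ), Continuous φ → HasCompactSupport φ →
      ∑ n, ‖∫ z : Fin (k + 1) → ℝ, g n z * Complex.exp (-(Complex.I * p * z 0)) *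
        star (φ (Fin.tail z))‖ ^ 2 ≤ ∫ w, ‖φ w‖ ^ 2)
    {Z : (Fin k → ℝ) → ℝ} (hZ : Continuous Z) (hZc : HasCompactSupport Z) (hZ0 : ∀ w, 0 ≤ Z w)
    {l : ℝ} (hl : 0 < l) (hs : ∀ n z, l / 2 ≤ |z 0| → g n z = 0) (M : ℕ) :
    (∫ w, Z w ^ 2 * rho (FG g l M) w)
      ≤ kin g + l⁻¹ * π ^ 2 * (∫ w, ∫ x, rho g (cL k (x, w))) ^ 2
        + ll k * (√3 / π) * (∫ w, Z w ^ (k + 3)) := by
  have hpi := Real.pi_pos
  have hF := fam_FG hg hl M
  have h3 : (0 : ℝ) < √3 := Real.sqrt_pos.mpr (by norm_num)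
  have h1 := claim_all k _ (FG g l M) hF Z hZ hZc hZ0 (√3 / π) (by positivity)
  have e : ((√3 / π)⁻¹) ^ 2 = π ^ 2 / 3 := by
    rw [inv_div, div_pow, Real.sq_sqrt (by norm_num)]
  rw [e] at h1
  have hGp : (gram (FG g l M)).PosSemidef := posSemidef_gram hF
  set G := gram (FG g l M) with hG
  set C : Matrix (Fin N × Fin (2 * M + 1)) (Fin N × Fin (2 * M + 1)) ℂ :=
    G.submatrix finProdFinEquiv finProdFinEquiv with hCdef
  have hCp : C.PosSemidef := hGp.submatrix _
  have hb := bath hCp hl (fq l M) (by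
    intro m c
    have h := gram_FG hg hC hl M m (c ∘ finProdFinEquiv.symm)
    rw [← hG] at h
    rw [hCdef, submatrix_form_eq]
    refine le_trans (le_of_eq ?_) h
    apply Finset.sum_congr rfl
    intro n _
    rw [submatrix_mulVec_eq]) (fun r hr => bath_freq hl M r hr)
  have t3 : trace (C * C * C) = trace (G * G * G) := by
    rw [hCdef, Matrix.submatrix_mul_equiv, Matrix.submatrix_mul_equiv, trace_submatrix_eq]
  have t2 : trace (C * C) = trace (G * G) := by
    rw [hCdef, Matrix.submatrix_mul_equiv, trace_submatrix_eq]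
  rw [t3, t2] at hb
  have hd : ∑ n, ∑ m, fq l M m ^ 2 * (C (n, m) (n, m)).re =
      ∑ i, fq l M (finProdFinEquiv.symm i).2 ^ 2 * (∫ w, ‖FG g l M i w‖ ^ 2) := by
    rw [← finProdFinEquiv.sum_comp, Fintype.sum_prod_type]
    apply Finset.sum_congr rfl
    intro n _
    apply Finset.sum_congr rfl
    intro m _
    rw [hCdef, Matrix.submatrix_apply, hG, gram_diag, Equiv.symm_apply_apply]
  rw [hd] at hb
  have hk := kin_FG hg hl hs M
  have htr : (trace (G * G)).re ≤ (∫ w, ∫ x, rho g (cL k (x, w))) ^ 2 := by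
    refine le_trans (trace_sq_le hGp) ?_
    rw [hG, trace_gram hF]
    obtain ⟨R, _, hR⟩ := hg.van
    obtain ⟨R', _, hR'⟩ := hF.van
    apply pow_le_pow_left₀
    · exact integral_nonneg fun w => rho_nonneg _ w
    · apply integral_mono
      · exact integrable_of_van (continuous_rho hF) (van_rho fun n => (hR' n).1)
      · exact integrable_of_van (cont_line hg fun n => (hR n).1) (van_line fun n => (hR n).1)
      · intro w
        exact rho_FG_le hg hl hs M w
  have htr' : l⁻¹ * π ^ 2 * (trace (G * G)).re ≤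
      l⁻¹ * π ^ 2 * (∫ w, ∫ x, rho g (cL k (x, w))) ^ 2 :=
    mul_le_mul_of_nonneg_left htr (by positivity)
  linarith

/-- Four-d -/
theorem bl {g : Fin N → (Fin (k + 1) → ℝ) → ℂ} (hg : Fam g)
    (hC : ∀ (p : ℝ) (φ : (Fin k → ℝ) → ℂ), Continuous φ → HasCompactSupport φ →
      ∑ n, ‖∫ z : Fin (k + 1) → ℝ, g n z * Complex.exp (-(Complex.I * p * z 0)) *
        star (φ (Fin.tail z))‖ ^ 2 ≤ ∫ w, ‖φ w‖ ^ 2)
    {Z : (Fin k → ℝ) → ℝ} (hZ : Continuous Z) (hZc : HasCompactSupport Z) (hZ0 : ∀ w, 0 ≤ Z w) :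
    (∫ w, Z w ^ 2 * (∫ x, rho g (cL k (x, w))))
      ≤ kin g + ll k * (√3 / π) * (∫ w, Z w ^ (k + 3)) := by
  obtain ⟨R, hR0, hR⟩ := hg.van
  have hRg : ∀ n, Van R (g n) := fun n => (hR n).1
  have hcl := cont_line hg hRg
  have hvl := van_line hRg
  set T : ℝ := ∫ w, ∫ x, rho g (cL k (x, w)) with hT
  -- the inequality for fixed `l`
  have key : ∀ l : ℝ, 2 * R ≤ l → (∫ w, Z w ^ 2 * (∫ x, rho g (cL k (x, w))))
      ≤ kin g + l⁻¹ * π ^ 2 * T ^ 2 + ll k * (√3 / π) * (∫ w, Z w ^ (k + 3)) := by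
    intro l hl2
    have hl : 0 < l := by linarith
    have hs : ∀ n z, l / 2 ≤ |z 0| → g n z = 0 := by
      intro n z hz
      apply hRg n z
      have := norm_le_pi_norm z 0
      rw [Real.norm_eq_abs] at this
      linarith
    have hlim : Filter.Tendsto (fun M => ∫ w, Z w ^ 2 * rho (FG g l M) w) Filter.atTop
        (nhds (∫ w, Z w ^ 2 * (∫ x, rho g (cL k (x, w))))) := by
      apply tendsto_integral_of_dominated_convergence
        (fun w => Z w ^ 2 * (∫ x, rho g (cL k (x, w))))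
      · intro M
        exact ((hZ.pow 2).mul (continuous_rho (fam_FG hg hl M))).aestronglyMeasurable
      · apply integrable_of_van (R := R) ((hZ.pow 2).mul hcl)
        intro w hw
        have h := hvl w hw
        simp only at h
        simp [h]
      · intro M
        refine Filter.Eventually.of_forall fun w => ?_
        rw [Real.norm_eq_abs, abs_of_nonneg (mul_nonneg (sq_nonneg _) (rho_nonneg _ _))]
        exact mul_le_mul_of_nonneg_left (rho_FG_le hg hl hs M w) (sq_nonneg _)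
      · exact Filter.Eventually.of_forall fun w => (rho_FG hg hl hs w).const_mul _
    exact le_of_tendsto' hlim fun M => bl_lM hg hC hZ hZc hZ0 hl hs M
  have hlim2 : Filter.Tendsto (fun l : ℝ => kin g + l⁻¹ * π ^ 2 * T ^ 2 +
      ll k * (√3 / π) * (∫ w, Z w ^ (k + 3))) Filter.atTop
      (nhds (kin g + 0 * π ^ 2 * T ^ 2 + ll k * (√3 / π) * (∫ w, Z w ^ (k + 3)))) := by
    apply Filter.Tendsto.add_const
    apply Filter.Tendsto.const_add
    apply Filter.Tendsto.mul_const
    apply Filter.Tendsto.mul_const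
    exact tendsto_inv_atTop_zero
  have h := ge_of_tendsto hlim2 (Filter.eventually_atTop.mpr ⟨2 * R, key⟩)
  simpa using h

end Pool.Agent.LTHD
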