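import Mathlib
import Pool.Agent.LTHD.Defs
import Pool.Agent.LTHD.FourD

/-!
# CG-a: the slice inequality
-/

open Real Finset MeasureTheory Matrix ComplexOrder
open Pool.Agent.LiebT2

set_option autoImplicit false

namespace Pool.Agent.LTHD

variable {d k N : ℕ}

theorem CGa_fam {v : Fin N → (Fin (k + 1) → ℝ) → ℂ} (hv : Fam v) {f : ℝ → ℝ}
    (hf : ContDiff ℝ 1 f) (l y : ℝ) :
    Fam (fun n z => (((1 / √l) * f ((z 0 - y) / l) : ℝ) : ℂ) * v n z) := by
  refine ⟨fun n => ?_, fun n => ?_⟩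
  · have h1 : ContDiff ℝ 1 (fun z : Fin (k + 1) → ℝ => (1 / √l) * f ((z 0 - y) / l)) := by
      apply contDiff_const.mul
      apply hf.comp
      exact ((contDiff_apply ℝ ℝ (0 : Fin (k + 1))).sub contDiff_const).div_const l
    exact (Complex.ofRealCLM.contDiff.comp h1).mul (hv.smooth n)
  · exact (hv.supp n).mul_left

/-- Bessel's inequality -/
theorem CGa_bessel {v : Fin N → (Fin d → ℝ) → ℂ} (hv : Fam v) (hb : Bes v)
    {F : (Fin d → ℝ) → ℂ} (hF : Continuous F) (hFc : HasCompactSupport F) :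
    ∑ n, ‖∫ z, v n z * star (F z)‖ ^ 2 ≤ ∫ z, ‖F z‖ ^ 2 := by
  set c : Fin N → ℂ := fun n => ∫ z, v n z * star (F z) with hc
  have hi : ∀ n, Integrable (fun z => v n z * star (F z)) := fun n =>
    ((hv.continuous n).mul hF.star).integrable_of_hasCompactSupport (hv.supp n).mul_right
  have hS : ∫ z, (∑ n, star (c n) * v n z) * star (F z) = ((∑ n, ‖c n‖ ^ 2 : ℝ) : ℂ) := by
    have e1 : ∀ z, (∑ n, star (c n) * v n z) * star (F z) =
        ∑ n, star (c n) * (v n z * star (F z)) := by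
      intro z
      rw [Finset.sum_mul]
      exact Finset.sum_congr rfl fun n _ => by ring
    simp only [e1]
    rw [integral_finsetSum _ (fun n _ => (hi n).const_mul _)]
    push_cast
    refine Finset.sum_congr rfl fun n _ => ?_
    rw [integral_const_mul]
    have h := Complex.mul_conj (c n)
    rw [Complex.normSq_eq_norm_sq] at h
    rw [mul_comm]
    exact_mod_cast h
  have hhc : Continuous (fun z => ∑ n, star (c n) * v n z) :=
    continuous_finsetSum _ fun n _ => continuous_const.mul (hv.continuous n)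
  obtain ⟨R, _, hR⟩ := hv.van
  have hh2 : Integrable (fun z => ‖∑ n, star (c n) * v n z‖ ^ 2) := by
    apply integrable_of_van (R := R) ((hhc.norm).pow 2)
    intro z hz
    have : ∑ n, star (c n) * v n z = 0 :=
      Finset.sum_eq_zero fun n _ => by rw [(hR n).1 z hz, mul_zero]
    show ‖∑ n, star (c n) * v n z‖ ^ 2 = 0
    rw [this, norm_zero]
    norm_num
  have hF2 : Integrable (fun z => ‖F z‖ ^ 2) := by
    apply ((hF.norm).pow 2).integrable_of_hasCompactSupport
    obtain ⟨R', _, hR'⟩ := exists_van hFc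
    apply HasCompactSupport.intro (isCompact_closedBall (0 : Fin d → ℝ) R')
    intro z hz
    rw [mem_closedBall_zero_iff, not_le] at hz
    simp [hR' z hz.le]
  have hint : Integrable (fun z => (∑ n, star (c n) * v n z) * star (F z)) := by
    apply (hhc.mul hF.star).integrable_of_hasCompactSupport
    apply HasCompactSupport.mul_left
    obtain ⟨R', _, hR'⟩ := exists_van hFc
    apply HasCompactSupport.intro (isCompact_closedBall (0 : Fin d → ℝ) R')
    intro z hz
    rw [mem_closedBall_zero_iff, not_le] at hz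
    simp [hR' z hz.le]
  have h1 : ∑ n, ‖c n‖ ^ 2 = ∫ z, ((∑ n, star (c n) * v n z) * star (F z)).re := by
    have h2 := integral_re hint
    have h3 : (∫ z, (∑ n, star (c n) * v n z) * star (F z)).re = ∑ n, ‖c n‖ ^ 2 := by
      rw [hS, Complex.ofReal_re]
    rw [← h3]
    exact h2.symm
  have h2 : ∫ z, ((∑ n, star (c n) * v n z) * star (F z)).re ≤
      ∫ z, (1 / 2 * ‖∑ n, star (c n) * v n z‖ ^ 2 + 1 / 2 * ‖F z‖ ^ 2) := by
    apply integral_mono hint.re ((hh2.const_mul _).add (hF2.const_mul _))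
    intro z
    show ((∑ n, star (c n) * v n z) * star (F z)).re ≤
      1 / 2 * ‖∑ n, star (c n) * v n z‖ ^ 2 + 1 / 2 * ‖F z‖ ^ 2
    refine (Complex.re_le_norm _).trans ?_
    rw [norm_mul, norm_star]
    nlinarith [sq_nonneg (‖∑ n, star (c n) * v n z‖ - ‖F z‖)]
  rw [integral_add (hh2.const_mul _) (hF2.const_mul _), integral_const_mul,
    integral_const_mul] at h2
  have h3 := hb fun n => star (c n)
  simp only [norm_star] at h3
  change ∑ n, ‖c n‖ ^ 2 ≤ _
  linarith

theorem CGa_norm {f : ℝ → ℝ} {B C : ℝ} (hf : Loc f B C) {l : ℝ} (hl : 0 < l) (y : ℝ) :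
    ∫ x : ℝ, l⁻¹ * f ((x - y) / l) ^ 2 = 1 := by
  rw [integral_const_mul]
  have h1 : ∫ x : ℝ, f ((x - y) / l) ^ 2 = ∫ x : ℝ, f (x / l) ^ 2 :=
    integral_sub_right_eq_self (μ := volume) (fun x => f (x / l) ^ 2) y
  rw [h1]
  have h2 := Measure.integral_comp_div (fun x => f x ^ 2) l
  rw [h2, hf.norm, abs_of_pos hl]
  simp [hl.ne']

/-- CG-a -/
theorem cg_slice {v : Fin N → (Fin (k + 1) → ℝ) → ℂ} (hv : Fam v) (hb : Bes v) {f : ℝ → ℝ} {B C : ℝ}
    (hf : Loc f B C) {l : ℝ} (hl : 0 < l) (y : ℝ) {Z : (Fin k → ℝ) → ℝ} (hZ : Continuous Z)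
    (hZc : HasCompactSupport Z) (hZ0 : ∀ w, 0 ≤ Z w) :
    (∫ w, Z w ^ 2 * Av v f l 0 (cL k (y, w)))
      ≤ kin (fun n z => (((1 / √l) * f ((z 0 - y) / l) : ℝ) : ℂ) * v n z)
        + ll k * (√3 / π) * ∫ w, Z w ^ (k + 3) := by
  have hg := CGa_fam hv hf.smooth l y
  set g : Fin N → (Fin (k + 1) → ℝ) → ℂ :=
    fun n z => (((1 / √l) * f ((z 0 - y) / l) : ℝ) : ℂ) * v n z with hgdef
  have hsq : (√l) ^ 2 = l := Real.sq_sqrt hl.le
  have hsl : (√l) ≠ 0 := (Real.sqrt_pos.2 hl).ne'
  have hamp : ∀ x : ℝ, ‖(((1 / √l) * f ((x - y) / l) : ℝ) : ℂ)‖ ^ 2 = l⁻¹ * f ((x - y) / l) ^ 2 := by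
    intro x
    rw [Complex.norm_real, Real.norm_eq_abs, sq_abs, mul_pow, div_pow, hsq]
    ring
  -- the slices
  have hsl2 : ∀ w, (∫ x, rho g (cL k (x, w))) = Av v f l 0 (cL k (y, w)) := by
    intro w
    have e1 : ∀ x, rho g (cL k (x, w)) = l⁻¹ * f ((x - y) / l) ^ 2 * rho v (cL k (x, w)) := by
      intro x
      unfold rho
      rw [Finset.mul_sum]
      refine Finset.sum_congr rfl fun n _ => ?_
      have e0 : (cL k (x, w)) 0 = x := by rw [cL_apply]; rfl
      rw [hgdef]
      simp only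
      rw [e0, norm_mul, mul_pow, hamp]
    have e2 : (∫ x, rho g (cL k (x, w))) =
        ∫ z, (fun x => l⁻¹ * f ((x - y) / l) ^ 2 * rho v (cL k (x, w))) (z + y) := by
      rw [integral_add_right_eq_self (μ := volume)
        (fun x => l⁻¹ * f ((x - y) / l) ^ 2 * rho v (cL k (x, w))) y]
      simp only [e1]
    rw [e2]
    unfold Av
    congr 1
    funext z
    have e3 : cL k (y, w) + Pi.single 0 z = cL k (z + y, w) := by
      rw [cL_apply, cL_apply]
      funext i
      refine Fin.cases ?_ (fun j => ?_) i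
      · simp [add_comm]
      · simp [Fin.succ_ne_zero]
    rw [e3]
    unfold ka
    simp only [add_sub_cancel_right]
  have hbl := bl hg ?_ hZ hZc hZ0
  · simp only [hsl2] at hbl
    exact hbl
  -- the Bessel property
  intro p φ hφ hφc
  set A : ℝ → ℂ := fun x => (((1 / √l) * f ((x - y) / l) : ℝ) : ℂ) * Complex.exp (Complex.I * p * x)
    with hA
  have hAc : Continuous A := by
    have := hf.smooth.continuous
    rw [hA]
    fun_prop
  have hAn : ∀ x, ‖A x‖ ^ 2 = l⁻¹ * f ((x - y) / l) ^ 2 := by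
    intro x
    have e1 : ‖Complex.exp (Complex.I * p * x)‖ = 1 := by
      have : Complex.I * (p : ℂ) * (x : ℂ) = ((p * x : ℝ) : ℂ) * Complex.I := by
        push_cast; ring
      rw [this]
      exact Complex.norm_exp_ofReal_mul_I _
    rw [hA]
    simp only
    rw [norm_mul, e1, mul_one, hamp]
  have hA0 : ∀ x, l / 2 ≤ |x - y| → A x = 0 := by
    intro x hx
    rw [hA]
    simp only
    rw [hf.supp ((x - y) / l)]
    · simp
    · rw [abs_div, abs_of_pos hl, le_div_iff₀ hl]
      linarith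
  set F : (Fin (k + 1) → ℝ) → ℂ := fun z => A (z 0) * φ (Fin.tail z) with hFdef
  have htail : Continuous (fun z : Fin (k + 1) → ℝ => Fin.tail z) :=
    continuous_pi fun i => continuous_apply _
  have hF : Continuous F := (hAc.comp (continuous_apply 0)).mul (hφ.comp htail)
  have hFc : HasCompactSupport F := by
    obtain ⟨R, _, hR⟩ := exists_van hφc
    apply HasCompactSupport.intro (isCompact_closedBall (0 : Fin (k + 1) → ℝ) (max R (|y| + l / 2)))
    intro z hz
    rw [mem_closedBall_zero_iff, not_le] at hz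
    by_contra hne
    have h1 : A (z 0) ≠ 0 := left_ne_zero_of_mul hne
    have h2 : φ (Fin.tail z) ≠ 0 := right_ne_zero_of_mul hne
    have h3 : |z 0 - y| < l / 2 := by
      by_contra h
      exact h1 (hA0 _ (not_lt.1 h))
    have h4 : ‖Fin.tail z‖ < R := by
      by_contra h
      exact h2 (hR _ (not_lt.1 h))
    apply absurd hz
    rw [not_lt, pi_norm_le_iff_of_nonneg (le_max_of_le_right (by positivity))]
    intro i
    refine Fin.cases ?_ (fun j => ?_) i
    · rw [Real.norm_eq_abs]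
      refine le_trans ?_ (le_max_right _ _)
      have h5 : |z 0| ≤ |z 0 - y| + |y| := by
        have := abs_add_le (z 0 - y) y
        simpa using this
      linarith
    · exact ((norm_le_pi_norm (Fin.tail z) j).trans h4.le).trans (le_max_left _ _)
  have hbes := CGa_bessel hv hb hF hFc
  have e1 : ∀ n, (∫ z : Fin (k + 1) → ℝ, g n z * Complex.exp (-(Complex.I * p * z 0)) *
      star (φ (Fin.tail z))) = ∫ z, v n z * star (F z) := by
    intro n
    congr 1
    funext z
    rw [hFdef, hgdef, hA]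
    simp only [RCLike.star_def, map_mul, Complex.conj_ofReal]
    rw [← Complex.exp_conj]
    simp only [map_mul, Complex.conj_ofReal, Complex.conj_I]
    rw [show -Complex.I * (p : ℂ) * ((z 0 : ℝ) : ℂ) = -(Complex.I * p * z 0) by ring]
    ring
  simp only [e1]
  refine hbes.trans (le_of_eq ?_)
  rw [integral_cL k (fun z => ‖F z‖ ^ 2)]
  have e2 : ∀ q : ℝ × (Fin k → ℝ), ‖F (cL k q)‖ ^ 2 =
      (l⁻¹ * f ((q.1 - y) / l) ^ 2) * ‖φ q.2‖ ^ 2 := by
    intro q
    rw [hFdef]
    simp only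
    rw [norm_mul, mul_pow, cL_apply, Fin.cons_zero, Fin.tail_cons, hAn]
  simp only [e2]
  rw [Measure.volume_eq_prod, integral_prod_mul (fun x : ℝ => l⁻¹ * f ((x - y) / l) ^ 2)
    (fun w => ‖φ w‖ ^ 2), CGa_norm hf hl y, one_mul]

end Pool.Agent.LTHD
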