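import Mathlib
import Pool.Agent.LTHD.Defs

/-!
# [LTHD:CGb] localisation in the first variable: IMS formula integrated over the shift
-/

open Real Finset MeasureTheory Matrix ComplexOrder
open Pool.Agent.LiebT2

set_option autoImplicit false

namespace Pool.Agent.LTHD

variable {d k N : ℕ}

/-- the cross term -/
noncomputable def crs (v : Fin N → (Fin (k + 1) → ℝ) → ℂ) (z : Fin (k + 1) → ℝ) : ℝ :=
  ∑ n, inner ℝ (fderiv ℝ (v n) z (Pi.single 0 1)) (v n z)

/-- derivative factor -/
noncomputable def psl (f : ℝ → ℝ) (l s : ℝ) : ℝ := (1 / √l) * (deriv f (s / l) / l)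

/-- factor -/
noncomputable def phl (f : ℝ → ℝ) (l s : ℝ) : ℝ := (1 / √l) * f (s / l)

theorem continuous_phl {f : ℝ → ℝ} {B C : ℝ} (hf : Loc f B C) (l : ℝ) :
    Continuous (phl f l) := by
  have h1 : Continuous f := hf.smooth.continuous
  unfold phl
  fun_prop

theorem continuous_psl {f : ℝ → ℝ} {B C : ℝ} (hf : Loc f B C) (l : ℝ) :
    Continuous (psl f l) := by
  have h1 : Continuous (deriv f) := hf.smooth.continuous_deriv le_rfl
  unfold psl
  fun_prop

theorem deriv_loc_zero {f : ℝ → ℝ} {B C : ℝ} (hf : Loc f B C) {x : ℝ} (hx : 1 / 2 < |x|) :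
    deriv f x = 0 := by
  have h1 : f =ᶠ[nhds x] fun _ => 0 := by
    have h2 : ∀ᶠ y in nhds x, 1 / 2 < |y| := (continuous_abs.tendsto x).eventually (lt_mem_nhds hx)
    filter_upwards [h2] with y hy
    exact hf.supp y hy.le
  rw [h1.deriv_eq]
  simp

theorem hasDerivAt_phl {f : ℝ → ℝ} {B C : ℝ} (hf : Loc f B C) (l s : ℝ) :
    HasDerivAt (phl f l) (psl f l s) s := by
  have h1 : HasDerivAt f (deriv f (s / l)) (s / l) :=
    (hf.smooth.differentiable one_ne_zero (s / l)).hasDerivAt
  have h2 : HasDerivAt (fun s : ℝ => s / l) (1 / l) s := (hasDerivAt_id s).div_const l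
  have h3 := (h1.comp s h2).const_mul (1 / √l)
  refine h3.congr_deriv ?_
  unfold psl
  ring

theorem hasFDerivAt_loc {f : ℝ → ℝ} {B C : ℝ} (hf : Loc f B C) (l y : ℝ)
    (z : Fin (k + 1) → ℝ) :
    HasFDerivAt (fun z : Fin (k + 1) → ℝ => phl f l (z 0 - y))
      (psl f l (z 0 - y) • (ContinuousLinearMap.proj (R := ℝ) (φ := fun _ : Fin (k + 1) => ℝ) 0)) z := by
  have h1 : HasFDerivAt (fun z : Fin (k + 1) → ℝ => z 0 - y)
      (ContinuousLinearMap.proj (R := ℝ) (φ := fun _ : Fin (k + 1) => ℝ) 0) z :=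
    (hasFDerivAt_apply 0 z).sub_const y
  exact HasDerivAt.comp_hasFDerivAt (f := fun z : Fin (k + 1) → ℝ => z 0 - y)
    (h₂ := phl f l) z (hasDerivAt_phl hf l (z 0 - y)) h1

theorem fderiv_mul_loc {v : Fin N → (Fin (k + 1) → ℝ) → ℂ} (hv : Fam v) {f : ℝ → ℝ} {B C : ℝ}
    (hf : Loc f B C) (l y : ℝ) (n : Fin N) (z : Fin (k + 1) → ℝ) (i : Fin (k + 1)) :
    fderiv ℝ (fun z => (((1 / √l) * f ((z 0 - y) / l) : ℝ) : ℂ) * v n z) z (Pi.single i 1) =
      phl f l (z 0 - y) • fderiv ℝ (v n) z (Pi.single i 1) +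
        (psl f l (z 0 - y) * (Pi.single i 1 : Fin (k + 1) → ℝ) 0) • v n z := by
  have h0 : (fun z => (((1 / √l) * f ((z 0 - y) / l) : ℝ) : ℂ) * v n z) =
      fun z => phl f l (z 0 - y) • v n z := by
    funext z
    rw [Complex.real_smul]
    rfl
  rw [h0]
  have h1 := (hasFDerivAt_loc hf l y z).smul
    ((hv.smooth n).differentiable one_ne_zero z).hasFDerivAt
  have h2 : HasFDerivAt (fun z => phl f l (z 0 - y) • v n z) _ z := h1
  rw [h2.fderiv]
  simp

theorem dens_loc {v : Fin N → (Fin (k + 1) → ℝ) → ℂ} (hv : Fam v) {f : ℝ → ℝ} {B C : ℝ}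
    (hf : Loc f B C) (l y : ℝ) (z : Fin (k + 1) → ℝ) :
    LiebT2.dens (fun n z => (((1 / √l) * f ((z 0 - y) / l) : ℝ) : ℂ) * v n z) z =
      phl f l (z 0 - y) ^ 2 * LiebT2.dens v z + 2 * (phl f l (z 0 - y) * psl f l (z 0 - y)) * crs v z +
        psl f l (z 0 - y) ^ 2 * rho v z := by
  unfold LiebT2.dens crs rho
  simp only [fderiv_mul_loc hv hf]
  rw [Finset.mul_sum, Finset.mul_sum, Finset.mul_sum, ← Finset.sum_add_distrib,
    ← Finset.sum_add_distrib]
  apply Finset.sum_congr rfl
  intro n _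
  rw [Fin.sum_univ_succ, Fin.sum_univ_succ]
  have h1 : ∀ i : Fin k, ‖phl f l (z 0 - y) • fderiv ℝ (v n) z (Pi.single i.succ 1) +
        (psl f l (z 0 - y) * (Pi.single i.succ 1 : Fin (k + 1) → ℝ) 0) • v n z‖ ^ 2 =
      phl f l (z 0 - y) ^ 2 * ‖fderiv ℝ (v n) z (Pi.single i.succ 1)‖ ^ 2 := by
    intro i
    rw [Pi.single_eq_of_ne (Fin.succ_ne_zero i).symm, mul_zero, zero_smul, add_zero, norm_smul,
      mul_pow, Real.norm_eq_abs, sq_abs]
  simp only [h1]
  rw [← Finset.mul_sum, Pi.single_eq_same, mul_one, norm_add_sq_real, norm_smul, norm_smul,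
    inner_smul_left, inner_smul_right, mul_pow, mul_pow, Real.norm_eq_abs, Real.norm_eq_abs,
    sq_abs, sq_abs]
  simp only [conj_trivial]
  ring

theorem continuous_crs {v : Fin N → (Fin (k + 1) → ℝ) → ℂ} (hv : Fam v) :
    Continuous (crs v) := by
  unfold crs
  exact continuous_finsetSum _ fun n _ =>
    ((hv.continuous_fderiv n).clm_apply continuous_const).inner (hv.continuous n)

/-- the localised density as a function of both variables -/
noncomputable def DL (v : Fin N → (Fin (k + 1) → ℝ) → ℂ) (f : ℝ → ℝ) (l : ℝ)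
    (p : ℝ × (Fin (k + 1) → ℝ)) : ℝ :=
  phl f l (p.2 0 - p.1) ^ 2 * LiebT2.dens v p.2 +
    2 * (phl f l (p.2 0 - p.1) * psl f l (p.2 0 - p.1)) * crs v p.2 +
    psl f l (p.2 0 - p.1) ^ 2 * rho v p.2

theorem continuous_DL {v : Fin N → (Fin (k + 1) → ℝ) → ℂ} (hv : Fam v) {f : ℝ → ℝ} {B C : ℝ}
    (hf : Loc f B C) (l : ℝ) : Continuous (DL v f l) := by
  have h1 := continuous_phl hf l
  have h2 := continuous_psl hf l
  have h3 := continuous_dens hv
  have h4 := continuous_crs hv
  have h5 := continuous_rho hv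
  have h6 : Continuous fun p : ℝ × (Fin (k + 1) → ℝ) => p.2 0 - p.1 :=
    ((continuous_apply 0).comp continuous_snd).sub continuous_fst
  unfold DL
  exact ((((h1.comp h6).pow 2).mul (h3.comp continuous_snd)).add
    ((continuous_const.mul ((h1.comp h6).mul (h2.comp h6))).mul (h4.comp continuous_snd))).add
    (((h2.comp h6).pow 2).mul (h5.comp continuous_snd))

theorem phl_zero {f : ℝ → ℝ} {B C : ℝ} (hf : Loc f B C) {l : ℝ} (hl : 0 < l) {s : ℝ}
    (hs : l / 2 < |s|) : phl f l s = 0 ∧ psl f l s = 0 := by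
  have h1 : 1 / 2 < |s / l| := by
    rw [abs_div, abs_of_pos hl, lt_div_iff₀ hl]; linarith
  unfold phl psl
  rw [hf.supp _ h1.le, deriv_loc_zero hf h1]
  simp

theorem DL_zero {v : Fin N → (Fin (k + 1) → ℝ) → ℂ} (hv : Fam v) {f : ℝ → ℝ} {B C : ℝ}
    (hf : Loc f B C) {l : ℝ} (hl : 0 < l) : ∃ R : ℝ, 0 < R ∧
      (∀ y z, R ≤ ‖z‖ → DL v f l (y, z) = 0) ∧ (∀ y z, R < |y| → DL v f l (y, z) = 0) := by
  obtain ⟨R, hR0, hR⟩ := hv.van
  have hcrs : ∀ z, R ≤ ‖z‖ → crs v z = 0 := by
    intro z hz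
    unfold crs
    apply Finset.sum_eq_zero
    intro n _
    rw [(hR n).1 z hz, inner_zero_right]
  have h1 : ∀ y z, R ≤ ‖z‖ → DL v f l (y, z) = 0 := by
    intro y z hz
    unfold DL
    simp only
    rw [van_dens (fun n => (hR n).2) z hz, hcrs z hz, van_rho (fun n => (hR n).1) z hz]
    ring
  refine ⟨R + l / 2, by positivity, ?_, ?_⟩
  · intro y z hz
    exact h1 y z (by linarith)
  · intro y z hy
    by_cases hz : R ≤ ‖z‖
    · exact h1 y z hz
    · push Not at hz
      have h2 : |z 0| ≤ ‖z‖ := norm_le_pi_norm z 0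
      have h3 : l / 2 < |z 0 - y| := by
        have h4 := abs_sub_abs_le_abs_sub y (z 0)
        rw [abs_sub_comm] at h4
        linarith
      obtain ⟨h5, h6⟩ := phl_zero hf hl h3
      unfold DL
      simp only
      rw [h5, h6]
      ring

theorem kin_loc {v : Fin N → (Fin (k + 1) → ℝ) → ℂ} (hv : Fam v) {f : ℝ → ℝ} {B C : ℝ}
    (hf : Loc f B C) (l y : ℝ) :
    kin (fun n z => (((1 / √l) * f ((z 0 - y) / l) : ℝ) : ℂ) * v n z) =
      ∫ z, DL v f l (y, z) := by
  unfold kin
  congr 1
  funext z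
  rw [dens_loc hv hf]
  rfl

theorem cg_cont {v : Fin N → (Fin (k + 1) → ℝ) → ℂ} (hv : Fam v) {f : ℝ → ℝ} {B C : ℝ}
    (hf : Loc f B C) {l : ℝ} (hl : 0 < l) :
    Continuous (fun y => kin (fun n z => (((1 / √l) * f ((z 0 - y) / l) : ℝ) : ℂ) * v n z)) ∧
    HasCompactSupport (fun y => kin (fun n z => (((1 / √l) * f ((z 0 - y) / l) : ℝ) : ℂ) * v n z)) := by
  obtain ⟨R, hR0, hR1, hR2⟩ := DL_zero hv hf hl
  simp only [kin_loc hv hf]
  constructor
  · have e : (fun y => ∫ z, DL v f l (y, z)) = fun y => ∫ z in Metric.closedBall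
        (0 : Fin (k + 1) → ℝ) R, DL v f l (y, z) := by
      funext y
      symm
      apply setIntegral_eq_integral_of_forall_compl_eq_zero
      intro z hz
      apply hR1
      rw [mem_closedBall_zero_iff, not_le] at hz
      exact hz.le
    rw [e]
    have hc : Continuous (Function.uncurry fun y z => DL v f l (y, z)) := continuous_DL hv hf l
    exact continuous_parametric_integral_of_continuous hc (isCompact_closedBall _ _)
  · apply HasCompactSupport.intro (isCompact_closedBall (0 : ℝ) R)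
    intro y hy
    rw [mem_closedBall_zero_iff, not_le, Real.norm_eq_abs] at hy
    simp only [hR2 y _ hy, integral_zero]

theorem integral_phl_sq {f : ℝ → ℝ} {B C : ℝ} (hf : Loc f B C) {l : ℝ} (hl : 0 < l) :
    ∫ s, phl f l s ^ 2 = 1 := by
  have h1 : (fun s => phl f l s ^ 2) = fun s => (1 / l) * (fun x => f x ^ 2) (s / l) := by
    funext s
    unfold phl
    rw [mul_pow, div_pow, Real.sq_sqrt hl.le]
    ring
  rw [h1, integral_const_mul, Measure.integral_comp_div (fun x => f x ^ 2) l, hf.norm,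
    abs_of_pos hl]
  simp [hl.ne']

theorem integral_psl_sq {f : ℝ → ℝ} {B C : ℝ} (hf : Loc f B C) {l : ℝ} (hl : 0 < l) :
    ∫ s, psl f l s ^ 2 ≤ C / l ^ 2 := by
  have h1 : (fun s => psl f l s ^ 2) = fun s => (1 / l ^ 3) * (fun x => deriv f x ^ 2) (s / l) := by
    funext s
    unfold psl
    rw [mul_pow, div_pow, Real.sq_sqrt hl.le]
    field_simp
  rw [h1, integral_const_mul, Measure.integral_comp_div (fun x => deriv f x ^ 2) l,
    abs_of_pos hl, smul_eq_mul]
  have h2 : 1 / l ^ 3 * (l * ∫ x, deriv f x ^ 2) = (∫ x, deriv f x ^ 2) / l ^ 2 := by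
    field_simp
  rw [h2]
  exact div_le_div_of_nonneg_right hf.energy (by positivity)

theorem compact_phl {f : ℝ → ℝ} {B C : ℝ} (hf : Loc f B C) {l : ℝ} (hl : 0 < l) :
    HasCompactSupport (phl f l) := by
  apply HasCompactSupport.intro (isCompact_closedBall (0 : ℝ) (l / 2))
  intro y hy
  rw [mem_closedBall_zero_iff, not_le, Real.norm_eq_abs] at hy
  exact (phl_zero hf hl hy).1

theorem compact_psl {f : ℝ → ℝ} {B C : ℝ} (hf : Loc f B C) {l : ℝ} (hl : 0 < l) :
    HasCompactSupport (psl f l) := by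
  apply HasCompactSupport.intro (isCompact_closedBall (0 : ℝ) (l / 2))
  intro y hy
  rw [mem_closedBall_zero_iff, not_le, Real.norm_eq_abs] at hy
  exact (phl_zero hf hl hy).2

theorem integral_phl_psl {f : ℝ → ℝ} {B C : ℝ} (hf : Loc f B C) {l : ℝ} (hl : 0 < l) :
    ∫ s, phl f l s * psl f l s = 0 := by
  have hc1 := continuous_phl hf l
  have hc2 := continuous_psl hf l
  have h1 : ∀ s, HasDerivAt (fun s => phl f l s ^ 2) (2 * (phl f l s * psl f l s)) s := by
    intro s
    refine ((hasDerivAt_phl hf l s).pow 2).congr_deriv ?_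
    norm_num
    ring
  have h2 : Integrable (fun s => 2 * (phl f l s * psl f l s)) :=
    (continuous_const.mul (hc1.mul hc2)).integrable_of_hasCompactSupport
      (((compact_phl hf hl).mul_right).mul_left)
  have h3 : Integrable (fun s => phl f l s ^ 2) := by
    have : (fun s => phl f l s ^ 2) = fun s => phl f l s * phl f l s := by
      funext s; ring
    rw [this]
    exact (hc1.mul hc1).integrable_of_hasCompactSupport ((compact_phl hf hl).mul_right)
  have h4 := integral_eq_zero_of_hasDerivAt_of_integrable h1 h2 h3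
  rw [integral_const_mul] at h4
  linarith

/-- CG-b -/
theorem cg_ims {v : Fin N → (Fin (k + 1) → ℝ) → ℂ} (hv : Fam v) {f : ℝ → ℝ} {B C : ℝ}
    (hf : Loc f B C) {l : ℝ} (hl : 0 < l) :
    (∫ y, kin (fun n z => (((1 / √l) * f ((z 0 - y) / l) : ℝ) : ℂ) * v n z))
      ≤ kin v + C / l ^ 2 * (∫ z, rho v z) := by
  obtain ⟨R, hR0, hR1, hR2⟩ := DL_zero hv hf hl
  have hc1 := continuous_phl hf l
  have hc2 := continuous_psl hf l
  simp only [kin_loc hv hf]
  have hint : Integrable (DL v f l) (volume.prod volume) := by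
    apply (continuous_DL hv hf l).integrable_of_hasCompactSupport
    apply HasCompactSupport.intro (K := Metric.closedBall (0 : ℝ) R ×ˢ
      Metric.closedBall (0 : Fin (k + 1) → ℝ) R) ((isCompact_closedBall _ _).prod
      (isCompact_closedBall _ _))
    rintro ⟨y, z⟩ hp
    simp only [Set.mem_prod, mem_closedBall_zero_iff, not_and_or, not_le] at hp
    rcases hp with hp | hp
    · exact hR2 y z (by rwa [Real.norm_eq_abs] at hp)
    · exact hR1 y z hp.le
  rw [integral_integral_swap (f := fun y z => DL v f l (y, z)) hint]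
  have hi1 : Integrable (fun s => phl f l s ^ 2) := by
    have : (fun s => phl f l s ^ 2) = fun s => phl f l s * phl f l s := by
      funext s; ring
    rw [this]
    exact (hc1.mul hc1).integrable_of_hasCompactSupport ((compact_phl hf hl).mul_right)
  have hi2 : Integrable (fun s => phl f l s * psl f l s) :=
    (hc1.mul hc2).integrable_of_hasCompactSupport ((compact_phl hf hl).mul_right)
  have hi3 : Integrable (fun s => psl f l s ^ 2) := by
    have : (fun s => psl f l s ^ 2) = fun s => psl f l s * psl f l s := by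
      funext s; ring
    rw [this]
    exact (hc2.mul hc2).integrable_of_hasCompactSupport ((compact_psl hf hl).mul_right)
  have hinner : ∀ z : Fin (k + 1) → ℝ, (∫ y, DL v f l (y, z)) =
      LiebT2.dens v z + (∫ s, psl f l s ^ 2) * rho v z := by
    intro z
    have e1 : ∀ F : ℝ → ℝ, (∫ y, F (z 0 - y)) = ∫ s, F s := fun F =>
      integral_sub_left_eq_self F volume (z 0)
    have j1 : Integrable (fun y => phl f l (z 0 - y) ^ 2) := hi1.comp_sub_left (z 0)
    have j2 : Integrable (fun y => phl f l (z 0 - y) * psl f l (z 0 - y)) :=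
      hi2.comp_sub_left (z 0)
    have j3 : Integrable (fun y => psl f l (z 0 - y) ^ 2) := hi3.comp_sub_left (z 0)
    unfold DL
    simp only
    rw [integral_add, integral_add, integral_mul_const, integral_mul_const, integral_mul_const,
      integral_const_mul, e1 (fun s => phl f l s ^ 2), e1 (fun s => phl f l s * psl f l s),
      e1 (fun s => psl f l s ^ 2), integral_phl_sq hf hl, integral_phl_psl hf hl]
    · ring
    · exact j1.mul_const _
    · exact (j2.const_mul 2).mul_const _
    · exact (j1.mul_const _).add ((j2.const_mul 2).mul_const _)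
    · exact j3.mul_const _
  simp only [hinner]
  have hcd := continuous_dens hv
  have hcr := continuous_rho hv
  obtain ⟨R', hR'0, hR'⟩ := hv.van
  have hid : Integrable (LiebT2.dens v) := by
    apply hcd.integrable_of_hasCompactSupport
    apply HasCompactSupport.intro (isCompact_closedBall (0 : Fin (k + 1) → ℝ) R')
    intro z hz
    rw [mem_closedBall_zero_iff, not_le] at hz
    exact van_dens (fun n => (hR' n).2) z hz.le
  have hir : Integrable (rho v) := by
    apply hcr.integrable_of_hasCompactSupport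
    apply HasCompactSupport.intro (isCompact_closedBall (0 : Fin (k + 1) → ℝ) R')
    intro z hz
    rw [mem_closedBall_zero_iff, not_le] at hz
    exact van_rho (fun n => (hR' n).1) z hz.le
  rw [integral_add hid (hir.const_mul _), integral_const_mul]
  have h0 : 0 ≤ ∫ z, rho v z := integral_nonneg fun z => rho_nonneg v z
  have h1 := integral_psl_sq hf hl
  have h2 := mul_le_mul_of_nonneg_right h1 h0
  unfold kin
  linarith

end Pool.Agent.LTHD
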