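import Mathlib
import Pool.Agent.LTHD.Defs
import Pool.Agent.LTHD.CGa
import Pool.Agent.LTHD.CGb
import Pool.Agent.LTHD.Av

/-!
# [LTHD:CGc] the localised inequality in the first direction, in potential form

Slice inequality `cg_slice` integrated over the position `y` of the slice, with the IMS formula
`cg_ims`.
-/

open Real Finset MeasureTheory Matrix ComplexOrder
open Pool.Agent.LiebT2

set_option autoImplicit false

namespace Pool.Agent.LTHD

variable {d k N : ℕ}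

/-- integral over `Fin (k + 1) → ℝ` as an iterated integral -/
theorem CGc_iter {F : (Fin (k + 1) → ℝ) → ℝ} (hF : Continuous F) {R : ℝ} (hR : Van R F) :
    (∫ z, F z) = ∫ y, ∫ w, F (cL k (y, w)) := by
  rw [integral_cL, Measure.volume_eq_prod, integral_prod _ (integrable_cL hF hR)]

/-- the slice integrals are integrable -/
theorem CGc_int {F : (Fin (k + 1) → ℝ) → ℝ} (hF : Continuous F) {R : ℝ} (hR : Van R F) :
    Integrable (fun y => ∫ w, F (cL k (y, w))) :=
  (integrable_cL hF hR).integral_prod_left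

/-- CG-c -/
theorem cg_zero {v : Fin N → (Fin (k + 1) → ℝ) → ℂ} (hv : Fam v) (hb : Bes v) {f : ℝ → ℝ} {B C : ℝ}
    (hf : Loc f B C) {l : ℝ} (hl : 0 < l) {Z : (Fin (k + 1) → ℝ) → ℝ} (hZ : Continuous Z)
    (hZc : HasCompactSupport Z) (hZ0 : ∀ w, 0 ≤ Z w) :
    (∫ z, Z z ^ 2 * Av v f l 0 z)
      ≤ kin v + C / l ^ 2 * (∫ z, rho v z) + ll k * (√3 / π) * (∫ z, Z z ^ (k + 3)) := by
  obtain ⟨R, hR0, hR⟩ := exists_van hZc
  obtain ⟨hA, _, _⟩ := continuous_Av hv hf hl (0 : Fin (k + 1))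
  have hF1 : Continuous (fun z => Z z ^ 2 * Av v f l 0 z) := (hZ.pow 2).mul hA
  have hV1 : Van R (fun z => Z z ^ 2 * Av v f l 0 z) := by
    intro z hz
    show Z z ^ 2 * Av v f l 0 z = 0
    rw [hR z hz]
    ring
  have hF2 : Continuous (fun z => Z z ^ (k + 3)) := hZ.pow _
  have hV2 : Van R (fun z => Z z ^ (k + 3)) := by
    intro z hz
    show Z z ^ (k + 3) = 0
    rw [hR z hz, zero_pow (by omega)]
  obtain ⟨hK1, hK2⟩ := cg_cont hv hf hl
  have hK : Integrable (fun y => kin (fun n z => (((1 / √l) * f ((z 0 - y) / l) : ℝ) : ℂ) * v n z)) :=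
    hK1.integrable_of_hasCompactSupport hK2
  have hs : ∀ y : ℝ, (∫ w, Z (cL k (y, w)) ^ 2 * Av v f l 0 (cL k (y, w)))
      ≤ kin (fun n z => (((1 / √l) * f ((z 0 - y) / l) : ℝ) : ℂ) * v n z)
        + ll k * (√3 / π) * ∫ w, Z (cL k (y, w)) ^ (k + 3) := by
    intro y
    refine cg_slice hv hb hf hl y (Z := fun w => Z (cL k (y, w))) ?_ ?_ fun w => hZ0 _
    · exact hZ.comp ((cL k).continuous.comp (continuous_const.prodMk continuous_id))
    · apply HasCompactSupport.intro (isCompact_closedBall (0 : Fin k → ℝ) R)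
      intro w hw
      rw [mem_closedBall_zero_iff, not_le] at hw
      exact hR _ (hw.le.trans (norm_cL_ge2 k y w))
  have hI1 := CGc_int hF1 hV1
  have hI2 := CGc_int hF2 hV2
  have h1 := integral_mono hI1 (hK.add (hI2.const_mul (ll k * (√3 / π)))) hs
  have h2 : (∫ y, (kin (fun n z => (((1 / √l) * f ((z 0 - y) / l) : ℝ) : ℂ) * v n z)
        + ll k * (√3 / π) * ∫ w, Z (cL k (y, w)) ^ (k + 3)))
      = (∫ y, kin (fun n z => (((1 / √l) * f ((z 0 - y) / l) : ℝ) : ℂ) * v n z))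
        + ll k * (√3 / π) * ∫ y, ∫ w, Z (cL k (y, w)) ^ (k + 3) := by
    rw [integral_add hK (hI2.const_mul _), integral_const_mul]
  have h3 := cg_ims hv hf hl
  have e1 : (∫ z, Z z ^ 2 * Av v f l 0 z) =
      ∫ y, ∫ w, Z (cL k (y, w)) ^ 2 * Av v f l 0 (cL k (y, w)) := CGc_iter hF1 hV1
  have e2 : (∫ z, Z z ^ (k + 3)) = ∫ y, ∫ w, Z (cL k (y, w)) ^ (k + 3) := CGc_iter hF2 hV2
  rw [e1, e2]
  refine h1.trans ?_
  show (∫ y, (kin (fun n z => (((1 / √l) * f ((z 0 - y) / l) : ℝ) : ℂ) * v n z)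
        + ll k * (√3 / π) * ∫ w, Z (cL k (y, w)) ^ (k + 3))) ≤ _
  rw [h2]
  linarith

end Pool.Agent.LTHD
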