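import Mathlib
import Pool.Agent.LTHD.Defs
import Pool.Agent.LTHD.CGc

/-!
# CG-d: the Cwikel-Goedicke type bound in an arbitrary direction, by swapping coordinates
-/

open Real Finset MeasureTheory Matrix ComplexOrder
open Pool.Agent.LiebT2

set_option autoImplicit false

namespace Pool.Agent.LTHD

variable {d k N : ℕ}

theorem swap_swap' (j i : Fin (k + 1)) : Equiv.swap 0 j (Equiv.swap 0 j i) = i := by
  rw [← Equiv.Perm.mul_apply, Equiv.swap_mul_self, Equiv.Perm.one_apply]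

/-- swap of the coordinates `0` and `j` as a continuous linear equivalence -/
noncomputable def swP (j : Fin (k + 1)) : (Fin (k + 1) → ℝ) ≃L[ℝ] (Fin (k + 1) → ℝ) :=
  ContinuousLinearEquiv.piCongrLeft ℝ (fun _ => ℝ) (Equiv.swap 0 j)

theorem swP_apply (j : Fin (k + 1)) (z : Fin (k + 1) → ℝ) (i : Fin (k + 1)) :
    swP j z i = z (Equiv.swap 0 j i) := by
  have h := Equiv.piCongrLeft_apply_apply (P := fun _ : Fin (k + 1) => ℝ) (Equiv.swap 0 j) z
    (Equiv.swap 0 j i)
  rw [swap_swap'] at h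
  exact h

theorem swP_single (j i : Fin (k + 1)) (t : ℝ) :
    swP j (Pi.single i t) = Pi.single (Equiv.swap 0 j i) t := by
  funext m
  rw [swP_apply]
  by_cases h : m = Equiv.swap 0 j i
  · subst h
    rw [swap_swap']
    simp
  · rw [Pi.single_eq_of_ne h, Pi.single_eq_of_ne]
    intro h2
    apply h
    rw [← h2, swap_swap']

theorem integral_swP (j : Fin (k + 1)) (F : (Fin (k + 1) → ℝ) → ℝ) :
    ∫ z, F (swP j z) = ∫ z, F z := by
  have h := (volume_measurePreserving_piCongrLeft (fun _ : Fin (k + 1) => ℝ)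
    (Equiv.swap 0 j)).integral_comp' (g := F)
  exact h

theorem rho_swP (v : Fin N → (Fin (k + 1) → ℝ) → ℂ) (j : Fin (k + 1)) (z : Fin (k + 1) → ℝ) :
    rho (fun n z => v n (swP j z)) z = rho v (swP j z) := rfl

theorem Fam_swP {v : Fin N → (Fin (k + 1) → ℝ) → ℂ} (hv : Fam v) (j : Fin (k + 1)) :
    Fam (fun n z => v n (swP j z)) :=
  ⟨fun n => (hv.smooth n).comp (swP j).contDiff,
    fun n => (hv.supp n).comp_homeomorph (swP j).toHomeomorph⟩

theorem dens_swP {v : Fin N → (Fin (k + 1) → ℝ) → ℂ} (hv : Fam v) (j : Fin (k + 1))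
    (z : Fin (k + 1) → ℝ) : LiebT2.dens (fun n z => v n (swP j z)) z = LiebT2.dens v (swP j z) := by
  unfold LiebT2.dens
  refine Finset.sum_congr rfl fun n _ => ?_
  have h1 : ∀ i : Fin (k + 1), fderiv ℝ (fun z => v n (swP j z)) z (Pi.single i 1)
      = fderiv ℝ (v n) (swP j z) (Pi.single (Equiv.swap 0 j i) 1) := by
    intro i
    have h2 : HasFDerivAt (fun z => v n (swP j z))
        ((fderiv ℝ (v n) (swP j z)).comp (swP j).toContinuousLinearMap) z :=
      ((hv.smooth n).differentiable one_ne_zero (swP j z)).hasFDerivAt.comp z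
        (swP j).toContinuousLinearMap.hasFDerivAt
    rw [h2.fderiv, ContinuousLinearMap.comp_apply]
    exact congrArg _ (swP_single j i 1)
  rw [Finset.sum_congr rfl fun i _ => by rw [h1 i]]
  exact Equiv.sum_comp (Equiv.swap 0 j)
    (fun i => ‖fderiv ℝ (v n) (swP j z) (Pi.single i 1)‖ ^ 2)

theorem kin_swP {v : Fin N → (Fin (k + 1) → ℝ) → ℂ} (hv : Fam v) (j : Fin (k + 1)) :
    kin (fun n z => v n (swP j z)) = kin v := by
  unfold kin
  rw [← integral_swP j (LiebT2.dens v)]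
  exact integral_congr_ae (Filter.Eventually.of_forall fun z => dens_swP hv j z)

theorem Av_swP (v : Fin N → (Fin (k + 1) → ℝ) → ℂ) (f : ℝ → ℝ) (l : ℝ) (j : Fin (k + 1))
    (z : Fin (k + 1) → ℝ) :
    Av (fun n z => v n (swP j z)) f l 0 z = Av v f l j (swP j z) := by
  unfold Av
  congr 1
  funext t
  rw [rho_swP, map_add, swP_single, Equiv.swap_apply_left]

/-- CG-d -/
theorem cg_swap {v : Fin N → (Fin (k + 1) → ℝ) → ℂ} (hv : Fam v) (hb : Bes v) {f : ℝ → ℝ} {B C : ℝ}
    (hf : Loc f B C) {l : ℝ} (hl : 0 < l) (j : Fin (k + 1)) {Z : (Fin (k + 1) → ℝ) → ℝ}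
    (hZ : Continuous Z) (hZc : HasCompactSupport Z) (hZ0 : ∀ w, 0 ≤ Z w) :
    ∫ z, Z z ^ 2 * Av v f l j z
      ≤ kin v + C / l ^ 2 * (∫ z, rho v z) + ll k * (√3 / π) * ∫ z, Z z ^ (k + 3) := by
  have hb' : Bes (fun n z => v n (swP j z)) := by
    intro c
    have h := hb c
    rw [← integral_swP j (fun y => ‖∑ n, c n * v n y‖ ^ 2)] at h
    exact h
  have h := cg_zero (Fam_swP hv j) hb' hf hl (Z := fun z => Z (swP j z))
    (hZ.comp (swP j).continuous) (hZc.comp_homeomorph (swP j).toHomeomorph)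
    (fun w => hZ0 _)
  rw [kin_swP hv j] at h
  have h1 : ∫ z, Z (swP j z) ^ 2 * Av (fun n z => v n (swP j z)) f l 0 z
      = ∫ z, Z z ^ 2 * Av v f l j z := by
    rw [← integral_swP j (fun z => Z z ^ 2 * Av v f l j z)]
    refine integral_congr_ae (Filter.Eventually.of_forall fun z => ?_)
    show Z (swP j z) ^ 2 * Av (fun n z => v n (swP j z)) f l 0 z
      = Z (swP j z) ^ 2 * Av v f l j (swP j z)
    rw [Av_swP]
  have h2 : ∫ z, rho (fun n z => v n (swP j z)) z = ∫ z, rho v z :=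
    integral_swP j (rho v)
  have h3 : ∫ z, Z (swP j z) ^ (k + 3) = ∫ z, Z z ^ (k + 3) :=
    integral_swP j (fun z => Z z ^ (k + 3))
  rw [h1, h2, h3] at h
  exact h

end Pool.Agent.LTHD
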