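import Mathlib
import Pool.Agent.LTHD.Defs

/-!
# [LTHD:CG] optimisation over the height of the potential

`cg_opt`: from the potential form to the kinetic form with the constant `Kc`. Used in `CG.lean`.
-/

open Real Finset MeasureTheory Matrix ComplexOrder
open Pool.Agent.LiebT2

set_option autoImplicit false

namespace Pool.Agent.LTHD

variable {d k N : ℕ}

/-- optimisation over the height of the potential -/
theorem opt_const_c (k : ℕ) {T J : ℝ} (h : ∀ s : ℝ, 0 < s →
    s ^ 2 * J ≤ T + ll k * (√3 / π) * (s ^ (k + 3) * J)) : Kc (k + 1) * J ≤ T := by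
  have hpi := Real.pi_pos
  have h3p : 0 < √(3 : ℝ) := Real.sqrt_pos.mpr (by norm_num)
  set d : ℝ := ((k + 1 : ℕ) : ℝ) with hd
  have hd0 : 0 < d := by rw [hd]; positivity
  set C : ℝ := ll k * (√3 / π) with hC
  have hC0 : 0 < C := mul_pos (ll_pos k) (by positivity)
  have hom := om_pos (k + 1)
  set s : ℝ := (2 / (C * (d + 2))) ^ (1 / d) with hs
  have hb0 : 0 < 2 / (C * (d + 2)) := by positivity
  have hs0 : 0 < s := Real.rpow_pos_of_pos hb0 _
  have hsd : s ^ (k + 1) = 2 / (C * (d + 2)) := by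
    rw [hs, ← Real.rpow_natCast, ← Real.rpow_mul hb0.le]
    have : 1 / d * ((k + 1 : ℕ) : ℝ) = 1 := by rw [← hd]; field_simp
    rw [this, Real.rpow_one]
  have hs2 : s ^ 2 = (2 / (C * (d + 2))) ^ (2 / d) := by
    rw [hs, ← Real.rpow_natCast, ← Real.rpow_mul hb0.le]
    congr 1
    push_cast
    ring
  have hX : 2 / (C * (d + 2)) = (2 * π) ^ (k + 1) / om (k + 1) := by
    have h1 := ll_eq k
    rw [← hd] at h1
    have h2 : C * (d + 2) = √3 * (ll k * (2 / π) * (d + 2) / 2) := by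
      rw [hC]
      field_simp
    rw [h2, h1]
    field_simp
  have hpow : ((2 * π) ^ (k + 1) : ℝ) ^ (2 / d) = (2 * π) ^ 2 := by
    rw [← Real.rpow_natCast (2 * π) (k + 1), ← Real.rpow_mul (by positivity), ← hd]
    have : d * (2 / d) = (2 : ℕ) := by field_simp; norm_num
    rw [this, Real.rpow_natCast]
  have hs2' : s ^ 2 = (2 * π) ^ 2 / om (k + 1) ^ (2 / d) := by
    rw [hs2, hX, Real.div_rpow (by positivity) hom.le, hpow]
  have hh := h s hs0
  have e1 : s ^ (k + 3) = s ^ 2 * s ^ (k + 1) := by ring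
  rw [e1, hsd] at hh
  have e2 : C * (s ^ 2 * (2 / (C * (d + 2))) * J) = s ^ 2 * (2 / (d + 2)) * J := by
    field_simp
  rw [e2] at hh
  have e3 : Kc (k + 1) = s ^ 2 * (d / (d + 2)) := by
    unfold Kc
    rw [← hd, hs2']
    ring
  rw [e3]
  have e4 : s ^ 2 * (d / (d + 2)) * J = s ^ 2 * J - s ^ 2 * (2 / (d + 2)) * J := by
    field_simp
    ring
  rw [e4]
  linarith

/-- from the potential form to the kinetic form -/
theorem cg_opt {A : (Fin (k + 1) → ℝ) → ℝ} (hA : Continuous A) (hAc : HasCompactSupport A)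
    (hA0 : ∀ x, 0 ≤ A x) {T : ℝ} (h : ∀ Z : (Fin (k + 1) → ℝ) → ℝ, Continuous Z →
      HasCompactSupport Z → (∀ w, 0 ≤ Z w) →
      (∫ z, Z z ^ 2 * A z) ≤ T + ll k * (√3 / π) * (∫ z, Z z ^ (k + 3))) :
    Kc (k + 1) * (∫ x, A x ^ (1 + 2 / ((k + 1 : ℕ) : ℝ))) ≤ T := by
  apply opt_const_c
  intro s hs
  set d : ℝ := ((k + 1 : ℕ) : ℝ) with hd
  have hd0 : 0 < d := by rw [hd]; positivity
  have h1 := h (fun y => s * A y ^ (1 / d))
    (continuous_const.mul (hA.rpow_const fun y => Or.inr (by positivity)))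
    (by
      refine HasCompactSupport.mono hAc ?_
      intro y hy
      rw [Function.mem_support] at hy ⊢
      intro hz
      apply hy
      rw [hz, Real.zero_rpow (by positivity), mul_zero])
    (fun y => mul_nonneg hs.le (Real.rpow_nonneg (hA0 y) _))
  have e1 : ∀ y, (s * A y ^ (1 / d)) ^ 2 * A y = s ^ 2 * A y ^ (1 + 2 / d) := by
    intro y
    have hr := hA0 y
    rw [mul_pow, mul_assoc]
    congr 1
    rw [← Real.rpow_natCast (A y ^ (1 / d)) 2, ← Real.rpow_mul hr]
    have h2 : (1 / d * ((2 : ℕ) : ℝ)) = 2 / d := by push_cast; ring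
    rw [h2, add_comm (1 : ℝ) (2 / d), Real.rpow_add_one' hr (by positivity)]
  have e2 : ∀ y, (s * A y ^ (1 / d)) ^ (k + 3) = s ^ (k + 3) * A y ^ (1 + 2 / d) := by
    intro y
    have hr := hA0 y
    rw [mul_pow]
    congr 1
    rw [← Real.rpow_natCast (A y ^ (1 / d)) (k + 3), ← Real.rpow_mul hr]
    congr 1
    rw [hd]
    push_cast
    field_simp
    ring
  simp only [e1, e2] at h1
  rw [integral_const_mul, integral_const_mul] at h1
  exact h1

end Pool.Agent.LTHD
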