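import Mathlib
import Pool.Agent.LTHD.Defs
import Pool.Agent.LTHD.CGopt
import Pool.Agent.LTHD.CGd
import Pool.Agent.LTHD.Av

/-!
# [LTHD:CG] the localised inequality in one direction
-/

open Real Finset MeasureTheory Matrix ComplexOrder
open Pool.Agent.LiebT2

set_option autoImplicit false

namespace Pool.Agent.LTHD

variable {d k N : ℕ}

/-- CG-e -/
theorem cg {v : Fin N → (Fin d → ℝ) → ℂ} (hd : 1 ≤ d) (hv : Fam v) (hb : Bes v) {f : ℝ → ℝ} {B C : ℝ}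
    (hf : Loc f B C) {l : ℝ} (hl : 0 < l) (j : Fin d) :
    Kc d * (∫ x, Av v f l j x ^ (1 + 2 / (d : ℝ))) ≤ kin v + C / l ^ 2 * (∫ y, rho v y) := by
  obtain ⟨k, rfl⟩ : ∃ k, d = k + 1 := ⟨d - 1, by omega⟩
  obtain ⟨h1, h2, h3⟩ := continuous_Av hv hf hl j
  exact cg_opt h1 h2 h3 fun Z hZ hZc hZ0 => cg_swap hv hb hf hl j hZ hZc hZ0

end Pool.Agent.LTHD
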