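import Mathlib
import Pool.Agent.LTHD.Defs

open Real Finset MeasureTheory Matrix ComplexOrder
open Pool.Agent.LiebT2

set_option autoImplicit false

namespace Pool.Agent.LTHD

variable {d k N : ℕ}

namespace OneVar

theorem pow_sub_le {p x y M : ℝ} (hp : 0 < p) (hx : 0 < x) (hxy : x ≤ y) (hyM : y ≤ M) :
    y ^ p - x ^ p ≤ p * M ^ p * (Real.log y - Real.log x) := by
  have hy : 0 < y := hx.trans_le hxy
  have hM : 0 < M := hy.trans_le hyM
  have h1 : x ^ p = y ^ p * Real.exp (-(p * (Real.log y - Real.log x))) := by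
    rw [Real.rpow_def_of_pos hx, Real.rpow_def_of_pos hy, ← Real.exp_add]
    congr 1
    ring
  have h2 : 1 - p * (Real.log y - Real.log x) ≤ Real.exp (-(p * (Real.log y - Real.log x))) := by
    have := Real.add_one_le_exp (-(p * (Real.log y - Real.log x)))
    linarith
  have h3 : 0 ≤ Real.log y - Real.log x := sub_nonneg.2 (Real.log_le_log hx hxy)
  have h4 : 0 ≤ y ^ p := by positivity
  have h5 : y ^ p ≤ M ^ p := Real.rpow_le_rpow hy.le hyM hp.le
  rw [h1]
  nlinarith [mul_le_mul_of_nonneg_left h2 h4, mul_nonneg (mul_nonneg hp.le h3) (sub_nonneg.2 h5)]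

theorem breg_pos {p M a m : ℝ} (hp : 0 < p) (ha : 0 < a) (haM : a ≤ M) (hm : 0 < m) (hmM : m ≤ M) :
    a ^ (1 + p) - m ^ (1 + p) - (1 + p) * m ^ p * (a - m)
      ≤ (1 + p) * p * M ^ p * (a * (Real.log a - Real.log m) - a + m) := by
  set G : ℝ → ℝ := fun x => (1 + p) * p * M ^ p * (x * (Real.log x - Real.log m) - x + m)
    - (x ^ (1 + p) - m ^ (1 + p) - (1 + p) * m ^ p * (x - m)) with hG
  have hder : ∀ x : ℝ, 0 < x → HasDerivAt G ((1 + p) * p * M ^ p * (Real.log x - Real.log m)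
      - ((1 + p) * x ^ p - (1 + p) * m ^ p)) x := by
    intro x hx
    have h1 : HasDerivAt (fun x : ℝ => x * (Real.log x - Real.log m) - x + m)
        (Real.log x - Real.log m) x := by
      have := (((hasDerivAt_id x).mul ((Real.hasDerivAt_log hx.ne').sub_const (Real.log m))).sub
        (hasDerivAt_id x)).add_const m
      refine this.congr_deriv ?_
      simp only [id]
      field_simp
      ring
    have h2 : HasDerivAt (fun x : ℝ => x ^ (1 + p) - m ^ (1 + p) - (1 + p) * m ^ p * (x - m))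
        ((1 + p) * x ^ p - (1 + p) * m ^ p) x := by
      have h3 : HasDerivAt (fun x : ℝ => x ^ (1 + p)) ((1 + p) * x ^ p) x := by
        have := Real.hasDerivAt_rpow_const (x := x) (p := 1 + p) (Or.inl hx.ne')
        simpa using this
      have := (h3.sub_const (m ^ (1 + p))).sub
        (((hasDerivAt_id x).sub_const m).const_mul ((1 + p) * m ^ p))
      refine this.congr_deriv ?_
      ring
    exact (h1.const_mul _).sub h2
  have hGm : G m = 0 := by simp [hG]
  have hq : 0 < 1 + p := by linarith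
  suffices h : 0 ≤ G a by
    simp only [hG] at h
    linarith
  rw [← hGm]
  rcases le_total m a with hma | ham
  · have hmono : MonotoneOn G (Set.Icc m a) := by
      apply monotoneOn_of_deriv_nonneg (convex_Icc m a)
      · intro x hx
        exact (hder x (hm.trans_le hx.1)).continuousAt.continuousWithinAt
      · intro x hx
        rw [interior_Icc] at hx
        exact (hder x (hm.trans hx.1)).differentiableAt.differentiableWithinAt
      · intro x hx
        rw [interior_Icc] at hx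
        rw [(hder x (hm.trans hx.1)).deriv]
        have := pow_sub_le hp hm hx.1.le (hx.2.le.trans haM)
        nlinarith [mul_le_mul_of_nonneg_left this hq.le]
    exact hmono (Set.left_mem_Icc.2 hma) (Set.right_mem_Icc.2 hma) hma
  · have hanti : AntitoneOn G (Set.Icc a m) := by
      apply antitoneOn_of_deriv_nonpos (convex_Icc a m)
      · intro x hx
        exact (hder x (ha.trans_le hx.1)).continuousAt.continuousWithinAt
      · intro x hx
        rw [interior_Icc] at hx
        exact (hder x (ha.trans hx.1)).differentiableAt.differentiableWithinAt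
      · intro x hx
        rw [interior_Icc] at hx
        rw [(hder x (ha.trans hx.1)).deriv]
        have := pow_sub_le hp (ha.trans hx.1) hx.2.le hmM
        nlinarith [mul_le_mul_of_nonneg_left this hq.le]
    exact hanti (Set.left_mem_Icc.2 ham) (Set.right_mem_Icc.2 ham) ham

theorem breg {p M a m : ℝ} (hp : 0 < p) (ha : 0 ≤ a) (haM : a ≤ M) (hm : 0 < m) (hmM : m ≤ M) :
    a ^ (1 + p) - m ^ (1 + p) - (1 + p) * m ^ p * (a - m)
      ≤ (1 + p) * p * M ^ p * (a * (Real.log a - Real.log m) - a + m) := by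
  rcases ha.eq_or_lt with rfl | ha
  · have hM : 0 < M := hm.trans_le hmM
    have h1 : (0 : ℝ) ^ (1 + p) = 0 := Real.zero_rpow (by linarith)
    have h2 : m ^ (1 + p) = m * m ^ p := by rw [Real.rpow_add hm, Real.rpow_one]
    have h3 : m ^ p ≤ M ^ p := Real.rpow_le_rpow hm.le hmM hp.le
    have h4 : 0 ≤ m ^ p := by positivity
    rw [h1, h2]
    have h5 : 0 ≤ M ^ p := by positivity
    nlinarith [mul_nonneg (mul_nonneg hp.le hm.le) (sub_nonneg.2 h3),
      mul_nonneg (mul_nonneg (mul_nonneg hp.le hp.le) hm.le) h5]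
  · exact breg_pos hp ha haM hm hmM

/-- first regime -/
theorem log_le1 {a m : ℝ} (ha : 0 ≤ a) (hm : 0 < m) :
    a * (Real.log a - Real.log m) - a + m ≤ (a - m) ^ 2 / m := by
  rcases ha.eq_or_lt with rfl | ha
  · simp
    rw [sq, mul_div_assoc, div_self hm.ne', mul_one]
  · have h1 : Real.log a - Real.log m ≤ a / m - 1 := by
      rw [← Real.log_div ha.ne' hm.ne']
      exact Real.log_le_sub_one_of_pos (by positivity)
    have h2 := mul_le_mul_of_nonneg_left h1 ha.le
    have h3 : (a - m) ^ 2 / m = a * (a / m - 1) - a + m := by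
      field_simp
      ring
    rw [h3]
    linarith

/-- second regime -/
theorem log_le2 {a S m : ℝ} (ha : 0 ≤ a) (haS : a ≤ S) :
    a * (Real.log a - Real.log m) - a + m ≤ a * (Real.log S - Real.log m) - a + m := by
  rcases ha.eq_or_lt with rfl | ha
  · simp
  · have := mul_le_mul_of_nonneg_left (Real.log_le_log ha haS) ha.le
    linarith

theorem mlog_le {m S k0 : ℝ} (hm : 0 < m) (hk0 : 2 ≤ k0) (hS : Real.exp k0 * m < S) :
    m * (Real.log S - Real.log m) ≤ S * (k0 * Real.exp (-k0)) := by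
  have hS0 : 0 < S := lt_trans (by positivity) hS
  set t := Real.log S - Real.log m with ht
  have h1 : k0 ≤ t := by
    have h := Real.log_le_log (by positivity) hS.le
    rw [Real.log_mul (Real.exp_pos _).ne' hm.ne', Real.log_exp] at h
    linarith
  have h2 : m = S * Real.exp (-t) := by
    rw [ht, neg_sub, Real.exp_sub, Real.exp_log hm, Real.exp_log hS0]
    field_simp
  have h3 : t * Real.exp (-t) ≤ k0 * Real.exp (-k0) := by
    have h4 : t ≤ k0 * Real.exp (t - k0) := by
      have h5 := Real.add_one_le_exp (t - k0)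
      nlinarith [mul_le_mul_of_nonneg_left h5 (by linarith : (0:ℝ) ≤ k0)]
    have h6 := mul_le_mul_of_nonneg_right h4 (Real.exp_pos (-t)).le
    rw [mul_assoc, ← Real.exp_add] at h6
    rwa [show t - k0 + -t = -k0 by ring] at h6
  rw [h2]
  calc S * Real.exp (-t) * t = S * (t * Real.exp (-t)) := by ring
    _ ≤ S * (k0 * Real.exp (-k0)) := mul_le_mul_of_nonneg_left h3 hS0.le

/-- continuous probability kernels supported in `[-L, L]` -/
structure Ker (κ : ℝ → ℝ) (L : ℝ) : Prop where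
  cont : Continuous κ
  nn : ∀ z, 0 ≤ κ z
  supp : ∀ z, L < |z| → κ z = 0
  one : ∫ z, κ z = 1

variable {κ : ℝ → ℝ} {L : ℝ}

theorem Ker.int (hκ : Ker κ L) {h : ℝ → ℝ} (hh : Continuous h) :
    Integrable (fun z => κ z * h z) := by
  apply (hκ.cont.mul hh).integrable_of_hasCompactSupport
  apply HasCompactSupport.intro (isCompact_Icc (a := -L) (b := L))
  intro z hz
  show κ z * h z = 0
  rw [hκ.supp z, zero_mul]
  by_contra hc
  exact hz (abs_le.1 (not_lt.1 hc))

theorem Ker.mono (hκ : Ker κ L) {h1 h2 : ℝ → ℝ} (c1 : Continuous h1) (c2 : Continuous h2)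
    (h : ∀ z, |z| ≤ L → h1 z ≤ h2 z) : (∫ z, κ z * h1 z) ≤ ∫ z, κ z * h2 z := by
  apply integral_mono (hκ.int c1) (hκ.int c2)
  intro z
  rcases le_or_gt |z| L with hz | hz
  · exact mul_le_mul_of_nonneg_left (h z hz) (hκ.nn z)
  · simp [hκ.supp z hz]

theorem Ker.const (hκ : Ker κ L) (c : ℝ) : (∫ z, κ z * c) = c := by
  rw [integral_mul_const, hκ.one, one_mul]

/-- linear combinations -/
theorem Ker.lin3 (hκ : Ker κ L) {h1 h2 : ℝ → ℝ} (c1 : Continuous h1) (c2 : Continuous h2)
    (u v w : ℝ) : (∫ z, κ z * (u * h1 z + v * h2 z + w))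
      = u * (∫ z, κ z * h1 z) + v * (∫ z, κ z * h2 z) + w := by
  have h : (fun z => κ z * (u * h1 z + v * h2 z + w))
      = fun z => (u * (κ z * h1 z) + v * (κ z * h2 z)) + κ z * w := by
    funext z
    ring
  have i1 := (hκ.int c1).const_mul u
  have i2 := (hκ.int c2).const_mul v
  have i3 : Integrable (fun z => κ z * w) := hκ.int continuous_const
  have i12 : Integrable (fun z => u * (κ z * h1 z) + v * (κ z * h2 z)) := i1.add i2
  rw [h, integral_add i12 i3, integral_add i1 i2, integral_const_mul, integral_const_mul, hκ.const]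

/-- the double integral of a squared difference -/
theorem Ker.inner (hκ : Ker κ L) {h : ℝ → ℝ} (c : Continuous h) (z : ℝ) :
    (∫ z', κ z * κ z' * (h z - h z') ^ 2)
      = κ z * (h z ^ 2 + (-2 * ∫ z', κ z' * h z') * h z + ∫ z', κ z' * h z' ^ 2) := by
  have h0 : (fun z' => κ z * κ z' * (h z - h z') ^ 2)
      = fun z' => κ z * (κ z' * ((-2 * h z) * h z' + 1 * h z' ^ 2 + h z ^ 2)) := by
    funext z'
    ring
  rw [h0, integral_const_mul, hκ.lin3 (h1 := h) (h2 := fun z => h z ^ 2) c (by fun_prop)]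
  ring

theorem Ker.double (hκ : Ker κ L) {h : ℝ → ℝ} (c : Continuous h) :
    (∫ z, ∫ z', κ z * κ z' * (h z - h z') ^ 2)
      = 2 * (∫ z, κ z * h z ^ 2) - 2 * (∫ z, κ z * h z) ^ 2 := by
  simp_rw [hκ.inner c]
  have h0 : (fun z => κ z * (h z ^ 2 + (-2 * ∫ z', κ z' * h z') * h z + ∫ z', κ z' * h z' ^ 2))
      = fun z => κ z * (1 * h z ^ 2 + (-2 * ∫ z', κ z' * h z') * h z + ∫ z', κ z' * h z' ^ 2) := by
    funext z
    ring
  rw [h0, hκ.lin3 (h1 := fun z => h z ^ 2) (h2 := h) (by fun_prop) c]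
  ring

theorem Ker.double_nn (hκ : Ker κ L) (h : ℝ → ℝ) :
    0 ≤ (∫ z, ∫ z', κ z * κ z' * (h z - h z') ^ 2) := by
  apply integral_nonneg
  intro z
  apply integral_nonneg
  intro z'
  exact mul_nonneg (mul_nonneg (hκ.nn z) (hκ.nn z')) (sq_nonneg _)

/-- variance of squares -/
theorem Ker.var_le (hκ : Ker κ L) {g : ℝ → ℝ} (hg : Continuous g) {S : ℝ}
    (hS : ∀ z, |z| ≤ L → g z ^ 2 ≤ S) :
    (∫ z, ∫ z', κ z * κ z' * (g z ^ 2 - g z' ^ 2) ^ 2)
      ≤ 4 * S * ∫ z, ∫ z', κ z * κ z' * (g z - g z') ^ 2 := by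
  rw [← integral_const_mul]
  have key : ∀ z, (∫ z', κ z * κ z' * (g z ^ 2 - g z' ^ 2) ^ 2)
      ≤ 4 * S * ∫ z', κ z * κ z' * (g z - g z') ^ 2 := by
    intro z
    rw [← integral_const_mul]
    have e1 : (fun z' => κ z * κ z' * (g z ^ 2 - g z' ^ 2) ^ 2)
        = fun z' => κ z' * (κ z * (g z ^ 2 - g z' ^ 2) ^ 2) := by
      funext z'
      ring
    have e2 : (fun z' => 4 * S * (κ z * κ z' * (g z - g z') ^ 2))
        = fun z' => κ z' * (4 * S * (κ z * (g z - g z') ^ 2)) := by
      funext z'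
      ring
    rw [e1, e2]
    apply hκ.mono
    · fun_prop
    · fun_prop
    · intro z' hz'
      rcases le_or_gt |z| L with hz | hz
      · have h1 := hS z hz
        have h2 := hS z' hz'
        have h3 : (g z + g z') ^ 2 ≤ 4 * S := by nlinarith [sq_nonneg (g z - g z')]
        have h4 := mul_le_mul_of_nonneg_right h3 (sq_nonneg (g z - g z'))
        have h5 := mul_le_mul_of_nonneg_left h4 (hκ.nn z)
        calc κ z * (g z ^ 2 - g z' ^ 2) ^ 2 = κ z * ((g z + g z') ^ 2 * (g z - g z') ^ 2) := by ring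
          _ ≤ κ z * (4 * S * (g z - g z') ^ 2) := h5
          _ = 4 * S * (κ z * (g z - g z') ^ 2) := by ring
      · simp [hκ.supp z hz]
  apply integral_mono _ _ key
  · have c2 : Continuous (fun z => g z ^ 2) := hg.pow 2
    simp_rw [hκ.inner c2]
    apply hκ.int
    fun_prop
  · apply Integrable.const_mul
    simp_rw [hκ.inner hg]
    apply hκ.int
    fun_prop


/-- the entropy bound -/
theorem Ker.ent_le (hκ : Ker κ L) (hL : 0 ≤ L) {g : ℝ → ℝ} (hg : Continuous g)
    (hg0 : ∀ z, 0 ≤ g z) {T : ℝ}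
    (hgt : ∀ z z', |z| ≤ L → |z'| ≤ L → (g z - g z') ^ 2 ≤ T) {k0 : ℝ} (hk0 : 2 ≤ k0)
    (hm : 0 < ∫ z, κ z * g z ^ 2) :
    (∫ z, κ z * (g z ^ 2 * (Real.log (g z ^ 2) - Real.log (∫ z, κ z * g z ^ 2)) - g z ^ 2
      + ∫ z, κ z * g z ^ 2)) ≤
      2 * Real.exp k0 * (∫ z, ∫ z', κ z * κ z' * (g z - g z') ^ 2)
        + 4 * k0 * Real.exp (-k0) * T := by
  set m := ∫ z, κ z * g z ^ 2 with hmdef
  have hT : 0 ≤ T := (sq_nonneg _).trans (hgt 0 0 (by simpa using hL) (by simpa using hL))
  have hDD := hκ.double_nn g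
  have hent : Continuous (fun z => g z ^ 2 * (Real.log (g z ^ 2) - Real.log m) - g z ^ 2 + m) := by
    have h1 : Continuous (fun r : ℝ => r * (Real.log r - Real.log m) - r + m) := by
      have : (fun r : ℝ => r * (Real.log r - Real.log m) - r + m)
          = fun r => r * Real.log r - r * Real.log m - r + m := by
        funext r
        ring
      rw [this]
      exact ((Real.continuous_mul_log.sub (continuous_id.mul continuous_const)).sub
        continuous_id).add continuous_const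
    exact h1.comp (hg.pow 2)
  have hne : (Set.Icc (-L) L).Nonempty := ⟨0, by constructor <;> linarith⟩
  obtain ⟨z0, hz0, hmax⟩ := isCompact_Icc.exists_isMaxOn hne (hg.pow 2).continuousOn
  obtain ⟨z1, hz1, hmin⟩ := isCompact_Icc.exists_isMinOn hne (hg.pow 2).continuousOn
  set S := g z0 ^ 2 with hS
  have hS1 : ∀ z, |z| ≤ L → g z ^ 2 ≤ S := fun z hz => hmax (abs_le.1 hz)
  have hS2 : ∀ z, |z| ≤ L → g z1 ^ 2 ≤ g z ^ 2 := fun z hz => hmin (abs_le.1 hz)
  have hk0' : 0 ≤ k0 := by linarith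
  rcases le_or_gt S (Real.exp k0 * m) with hc | hc
  · -- first regime
    have h1 : (∫ z, κ z * (g z ^ 2 * (Real.log (g z ^ 2) - Real.log m) - g z ^ 2 + m))
        ≤ ∫ z, κ z * ((g z ^ 2 - m) ^ 2 / m) := by
      apply hκ.mono hent (by fun_prop)
      intro z _
      exact log_le1 (sq_nonneg _) hm
    have h2 : (∫ z, κ z * ((g z ^ 2 - m) ^ 2 / m))
        = (∫ z, ∫ z', κ z * κ z' * (g z ^ 2 - g z' ^ 2) ^ 2) / (2 * m) := by
      rw [hκ.double (h := fun z => g z ^ 2) (by fun_prop)]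
      have h3 : (fun z => κ z * ((g z ^ 2 - m) ^ 2 / m))
          = fun z => κ z * (1 / m * (g z ^ 2) ^ 2 + (-2) * g z ^ 2 + m) := by
        funext z
        field_simp
        ring
      rw [h3, hκ.lin3 (h1 := fun z => (g z ^ 2) ^ 2) (h2 := fun z => g z ^ 2) (by fun_prop)
        (by fun_prop), ← hmdef]
      field_simp
      ring
    have h3 := hκ.var_le hg hS1
    have h4 : (∫ z, ∫ z', κ z * κ z' * (g z ^ 2 - g z' ^ 2) ^ 2) / (2 * m)
        ≤ 2 * Real.exp k0 * (∫ z, ∫ z', κ z * κ z' * (g z - g z') ^ 2) := by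
      rw [div_le_iff₀ (by positivity)]
      nlinarith [mul_le_mul_of_nonneg_right hc hDD]
    have h5 : 0 ≤ 4 * k0 * Real.exp (-k0) * T := by positivity
    linarith
  · -- second regime
    have hS0 : 0 < S := lt_trans (by positivity) hc
    have h1 : (∫ z, κ z * (g z ^ 2 * (Real.log (g z ^ 2) - Real.log m) - g z ^ 2 + m))
        ≤ ∫ z, κ z * (g z ^ 2 * (Real.log S - Real.log m) - g z ^ 2 + m) := by
      apply hκ.mono hent (by fun_prop)
      intro z hz
      exact log_le2 (sq_nonneg _) (hS1 z hz)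
    have h2 : (∫ z, κ z * (g z ^ 2 * (Real.log S - Real.log m) - g z ^ 2 + m))
        = m * (Real.log S - Real.log m) := by
      have h3 : (fun z => κ z * (g z ^ 2 * (Real.log S - Real.log m) - g z ^ 2 + m))
          = fun z => κ z * ((Real.log S - Real.log m) * g z ^ 2 + (-1) * g z ^ 2 + m) := by
        funext z
        ring
      rw [h3, hκ.lin3 (h1 := fun z => g z ^ 2) (h2 := fun z => g z ^ 2) (by fun_prop)
        (by fun_prop), ← hmdef]
      ring
    have h3 := mlog_le hm hk0 hc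
    have h4 : g z1 ^ 2 ≤ m := by
      have h := hκ.mono (h1 := fun _ => g z1 ^ 2) (h2 := fun z => g z ^ 2) (by fun_prop)
        (by fun_prop) hS2
      rwa [hκ.const] at h
    have h5 : 4 * m ≤ S := by
      have h6 : (4 : ℝ) ≤ Real.exp k0 := by
        have h7 := Real.add_one_le_exp (1 : ℝ)
        have h8 : Real.exp 2 ≤ Real.exp k0 := Real.exp_le_exp.2 hk0
        have h9 : Real.exp 2 = Real.exp 1 * Real.exp 1 := by
          rw [← Real.exp_add]
          norm_num
        nlinarith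
      nlinarith
    have h6 : g z1 ≤ g z0 / 2 := by
      have := hg0 z0
      apply le_of_sq_le_sq _ (by linarith)
      nlinarith
    have h7 := hgt z0 z1 (abs_le.2 hz0) (abs_le.2 hz1)
    have h8 : S ≤ 4 * T := by
      have h9 := hg0 z0
      have h10 : (g z0 / 2) ^ 2 ≤ (g z0 - g z1) ^ 2 := by
        apply pow_le_pow_left₀ (by linarith)
        linarith
      nlinarith
    have h9 : 0 ≤ k0 * Real.exp (-k0) := by positivity
    have h10 := mul_le_mul_of_nonneg_right h8 h9
    have h11 : 0 ≤ 2 * Real.exp k0 * (∫ z, ∫ z', κ z * κ z' * (g z - g z') ^ 2) := by positivity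
    calc (∫ z, κ z * (g z ^ 2 * (Real.log (g z ^ 2) - Real.log m) - g z ^ 2 + m))
        ≤ m * (Real.log S - Real.log m) := h1.trans h2.le
      _ ≤ S * (k0 * Real.exp (-k0)) := h3
      _ ≤ 4 * T * (k0 * Real.exp (-k0)) := h10
      _ ≤ _ := by linarith

theorem Ker.main (hκ : Ker κ L) (hL : 0 ≤ L) {g : ℝ → ℝ} (hg : Continuous g)
    (hg0 : ∀ z, 0 ≤ g z) {M : ℝ} (hM0 : 0 < M) (hM : ∀ z, g z ^ 2 ≤ M) {T : ℝ}
    (hgt : ∀ z z', |z| ≤ L → |z'| ≤ L → (g z - g z') ^ 2 ≤ T) {k0 : ℝ} (hk0 : 2 ≤ k0)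
    {p : ℝ} (hp : 0 < p) :
    (∫ z, κ z * (g z ^ 2) ^ (1 + p)) - (∫ z, κ z * g z ^ 2) ^ (1 + p) ≤
      (1 + p) * p * M ^ p * (2 * Real.exp k0 * (∫ z, ∫ z', κ z * κ z' * (g z - g z') ^ 2)
        + 4 * k0 * Real.exp (-k0) * T) := by
  have hT : 0 ≤ T := (sq_nonneg _).trans (hgt 0 0 (by simpa using hL) (by simpa using hL))
  have hDD := hκ.double_nn g
  have hk0' : 0 ≤ k0 := by linarith
  have hm0 : 0 ≤ ∫ z, κ z * g z ^ 2 :=
    integral_nonneg fun z => mul_nonneg (hκ.nn z) (sq_nonneg _)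
  have cpow : Continuous (fun z => (g z ^ 2) ^ (1 + p)) :=
    (hg.pow 2).rpow_const fun _ => Or.inr (by linarith)
  rcases hm0.eq_or_lt with hm | hm
  · have h1 : (∫ z, κ z * (g z ^ 2) ^ (1 + p)) = 0 := by
      have h2 := (integral_eq_zero_iff_of_nonneg
        (fun z => mul_nonneg (hκ.nn z) (sq_nonneg (g z))) (hκ.int (hg.pow 2))).1 hm.symm
      apply integral_eq_zero_of_ae
      filter_upwards [h2] with z hz
      have hz' : κ z * g z ^ 2 = 0 := hz
      show κ z * (g z ^ 2) ^ (1 + p) = 0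
      rcases mul_eq_zero.1 hz' with h | h
      · rw [h, zero_mul]
      · rw [h, Real.zero_rpow (by linarith), mul_zero]
    rw [h1, ← hm, Real.zero_rpow (by linarith), sub_zero]
    positivity
  · set m := ∫ z, κ z * g z ^ 2 with hmdef
    have hmM : m ≤ M := by
      have h := hκ.mono (h1 := fun z => g z ^ 2) (h2 := fun _ => M) (by fun_prop)
        (by fun_prop) (fun z _ => hM z)
      rwa [hκ.const] at h
    have hent : Continuous (fun z => g z ^ 2 * (Real.log (g z ^ 2) - Real.log m) - g z ^ 2 + m) := by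
      have h1 : Continuous (fun r : ℝ => r * (Real.log r - Real.log m) - r + m) := by
        have : (fun r : ℝ => r * (Real.log r - Real.log m) - r + m)
            = fun r => r * Real.log r - r * Real.log m - r + m := by
          funext r
          ring
        rw [this]
        exact ((Real.continuous_mul_log.sub (continuous_id.mul continuous_const)).sub
          continuous_id).add continuous_const
      exact h1.comp (hg.pow 2)
    have h1 : (∫ z, κ z * ((g z ^ 2) ^ (1 + p) - m ^ (1 + p) - (1 + p) * m ^ p * (g z ^ 2 - m)))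
        ≤ ∫ z, κ z * ((1 + p) * p * M ^ p *
          (g z ^ 2 * (Real.log (g z ^ 2) - Real.log m) - g z ^ 2 + m)) := by
      apply hκ.mono
      · exact (cpow.sub continuous_const).sub (by fun_prop)
      · exact continuous_const.mul hent
      · intro z _
        exact breg hp (sq_nonneg _) (hM z) hm hmM
    have h2 : (∫ z, κ z * ((g z ^ 2) ^ (1 + p) - m ^ (1 + p) - (1 + p) * m ^ p * (g z ^ 2 - m)))
        = (∫ z, κ z * (g z ^ 2) ^ (1 + p)) - m ^ (1 + p) := by
      have h3 : (fun z => κ z * ((g z ^ 2) ^ (1 + p) - m ^ (1 + p)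
            - (1 + p) * m ^ p * (g z ^ 2 - m)))
          = fun z => κ z * (1 * (g z ^ 2) ^ (1 + p) + (-((1 + p) * m ^ p)) * g z ^ 2
            + (-m ^ (1 + p) + (1 + p) * m ^ p * m)) := by
        funext z
        ring
      rw [h3, hκ.lin3 (h1 := fun z => (g z ^ 2) ^ (1 + p)) (h2 := fun z => g z ^ 2) cpow
        (by fun_prop), ← hmdef]
      ring
    have h3 : (∫ z, κ z * ((1 + p) * p * M ^ p *
          (g z ^ 2 * (Real.log (g z ^ 2) - Real.log m) - g z ^ 2 + m)))
        = (1 + p) * p * M ^ p * ∫ z, κ z *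
          (g z ^ 2 * (Real.log (g z ^ 2) - Real.log m) - g z ^ 2 + m) := by
      rw [← integral_const_mul]
      congr 1
      funext z
      ring
    have h4 := hκ.ent_le hL hg hg0 hgt hk0 hm
    rw [← hmdef] at h4
    rw [h2, h3] at h1
    exact h1.trans (mul_le_mul_of_nonneg_left h4 (by positivity))

theorem ker_ka {f : ℝ → ℝ} {B C : ℝ} (hf : Loc f B C) {l : ℝ} (hl : 0 < l) :
    Ker (ka f l) (l / 2) where
  cont := by
    have := hf.smooth.continuous
    unfold ka
    fun_prop
  nn z := by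
    unfold ka
    positivity
  supp z hz := by
    unfold ka
    rw [hf.supp (z / l)]
    · simp
    · rw [abs_div, abs_of_pos hl, le_div_iff₀ hl]
      linarith
  one := by
    unfold ka
    rw [integral_const_mul]
    have h := Measure.integral_comp_div (fun x => f x ^ 2) l
    rw [h, hf.norm, abs_of_pos hl]
    simp [hl.ne']


end OneVar

theorem one_var {d : ℕ} (hd : 1 ≤ d) {f : ℝ → ℝ} {B C : ℝ} (hf : Loc f B C) {l : ℝ} (hl : 0 < l)
    {g τ : ℝ → ℝ} (hg : Continuous g) (hg0 : ∀ z, 0 ≤ g z) {M : ℝ} (hM0 : 0 < M)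
    (hM : ∀ z, g z ^ 2 ≤ M) (hτ : Continuous τ) (hτ0 : ∀ z, 0 ≤ τ z)
    (hgt : ∀ z z', |z| ≤ l / 2 → |z'| ≤ l / 2 →
      (g z - g z') ^ 2 ≤ l * ∫ t in (-(l / 2))..(l / 2), τ t) {k0 : ℝ} (hk0 : 2 ≤ k0) :
    (∫ z, ka f l z * (g z ^ 2) ^ (1 + 2 / (d : ℝ))) - (∫ z, ka f l z * g z ^ 2) ^ (1 + 2 / (d : ℝ))
      ≤ (1 + 2 / (d : ℝ)) * (2 / (d : ℝ)) * M ^ (2 / (d : ℝ)) *
        (2 * Real.exp k0 * (∫ z, ∫ z', ka f l z * ka f l z' * (g z - g z') ^ 2)
          + 4 * k0 * Real.exp (-k0) * (l * ∫ t in (-(l / 2))..(l / 2), τ t)) := by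
  have _ := hτ
  have _ := hτ0
  have hd' : 0 < 2 / (d : ℝ) := by
    have : (0 : ℝ) < d := by exact_mod_cast hd
    positivity
  exact (OneVar.ker_ka hf hl).main (by positivity) hg hg0 hM0 hM hgt hk0 hd'

end Pool.Agent.LTHD
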