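import Mathlib
import Pool.Agent.LTHD.Defs
import Pool.Agent.LTHD.OneVar
import Pool.Agent.LTHD.Av
import Pool.Agent.LTHD.Base

open Real Finset MeasureTheory Matrix ComplexOrder
open Pool.Agent.LiebT2

set_option autoImplicit false

namespace Pool.Agent.LTHD

variable {d k N : ℕ}

/-- a direction: `e s` is the shift by `s` -/
structure LsDir (e : ℝ → (Fin d → ℝ)) : Prop where
  cont : Continuous e
  add : ∀ s t, e (s + t) = e s + e t
  nrm : ∀ s, ‖e s‖ = |s|

theorem ls_dir (j : Fin d) : LsDir (fun s : ℝ => (Pi.single j s : Fin d → ℝ)) where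
  cont := cont_single j
  add s t := by rw [Pi.single_add]
  nrm s := by rw [Pi.norm_single, Real.norm_eq_abs]

variable {e : ℝ → (Fin d → ℝ)} {g : (Fin d → ℝ) → ℝ}

theorem LsDir.zero (he : LsDir e) : e 0 = 0 := by
  have := he.nrm 0
  rw [abs_zero] at this
  exact norm_eq_zero.1 this

/-- Fubini for shifts in one direction -/
theorem LsDir.fub (he : LsDir e) {ν : Measure ℝ} [SFinite ν] {κ : ℝ → ℝ} (hκ : Continuous κ)
    (hκi : Integrable κ ν) {D : (Fin d → ℝ) → ℝ} (hD : Continuous D) (hDi : Integrable D) :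
    Integrable (fun p : (Fin d → ℝ) × ℝ => κ p.2 * D (p.1 + e p.2)) (volume.prod ν) ∧
      (∫ x, ∫ z, κ z * D (x + e z) ∂ν) = (∫ z, κ z ∂ν) * ∫ x, D x := by
  have hc : Continuous (fun p : (Fin d → ℝ) × ℝ => κ p.2 * D (p.1 + e p.2)) :=
    (hκ.comp continuous_snd).mul (hD.comp (continuous_fst.add (he.cont.comp continuous_snd)))
  have hI : Integrable (fun p : (Fin d → ℝ) × ℝ => κ p.2 * D (p.1 + e p.2))
      (volume.prod ν) := by
    rw [integrable_prod_iff' hc.aestronglyMeasurable]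
    constructor
    · refine Filter.Eventually.of_forall fun z => ?_
      exact (hDi.comp_add_right (e z)).const_mul (κ z)
    · have e1 : (fun z => ∫ x : Fin d → ℝ, ‖κ z * D (x + e z)‖)
          = fun z => ‖κ z‖ * ∫ x, ‖D x‖ := by
        funext z
        have h1 : (fun x : Fin d → ℝ => ‖κ z * D (x + e z)‖)
            = fun x => ‖κ z‖ * ‖D (x + e z)‖ := by
          funext x
          exact norm_mul _ _
        rw [h1, integral_const_mul, integral_add_right_eq_self (fun x => ‖D x‖) (e z)]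
      show Integrable (fun z => ∫ x : Fin d → ℝ, ‖κ z * D (x + e z)‖) ν
      rw [e1]
      exact hκi.norm.mul_const _
  refine ⟨hI, ?_⟩
  rw [integral_integral_swap (f := fun x z => κ z * D (x + e z)) hI]
  have e2 : (fun z => ∫ x : Fin d → ℝ, κ z * D (x + e z)) = fun z => κ z * ∫ x, D x := by
    funext z
    rw [integral_const_mul, integral_add_right_eq_self D (e z)]
  rw [e2, integral_mul_const]

/-- the Hellinger integral -/
noncomputable def lsH (g : (Fin d → ℝ) → ℝ) (e : ℝ → (Fin d → ℝ)) (s : ℝ) : ℝ :=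
  ∫ x, (g x - g (x + e s)) ^ 2

theorem lsH_nonneg (s : ℝ) : 0 ≤ lsH g e s := integral_nonneg fun _ => sq_nonneg _

theorem LsDir.van (he : LsDir e) {R : ℝ} (hR : ∀ x, R ≤ ‖x‖ → g x = 0) {s S : ℝ} (hs : |s| ≤ S)
    {x : Fin d → ℝ} (hx : R + S ≤ ‖x‖) : g (x + e s) = 0 := by
  refine hR _ ?_
  have h2 := norm_sub_le (x + e s) (e s)
  rw [add_sub_cancel_right, he.nrm] at h2
  linarith

theorem LsDir.cont_F (he : LsDir e) (hg : Continuous g) :
    Continuous (Function.uncurry fun (s : ℝ) (x : Fin d → ℝ) => (g x - g (x + e s)) ^ 2) :=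
  ((hg.comp continuous_snd).sub (hg.comp (continuous_snd.add (he.cont.comp continuous_fst)))).pow 2

theorem LsDir.cont_H (he : LsDir e) (hg : Continuous g) {R : ℝ} (hR : ∀ x, R ≤ ‖x‖ → g x = 0) :
    Continuous (lsH g e) := by
  rw [continuous_iff_continuousAt]
  intro s0
  have hS : 0 ≤ |s0| + 1 := by positivity
  have hc : Continuous fun s => ∫ x in Metric.closedBall (0 : Fin d → ℝ) (R + (|s0| + 1)),
      (g x - g (x + e s)) ^ 2 :=
    continuous_parametric_integral_of_continuous (he.cont_F hg)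
      (isCompact_closedBall (0 : Fin d → ℝ) (R + (|s0| + 1)))
  refine hc.continuousAt.congr ?_
  have h1 : ∀ᶠ s : ℝ in nhds s0, |s| < |s0| + 1 :=
    (continuous_abs.tendsto s0).eventually_lt_const (by linarith)
  filter_upwards [h1] with s hs
  unfold lsH
  apply setIntegral_eq_integral_of_forall_compl_eq_zero
  intro x hx
  rw [mem_closedBall_zero_iff, not_le] at hx
  rw [hR x (by linarith), he.van hR hs.le hx.le]
  simp

theorem LsDir.int_F (he : LsDir e) (hg : Continuous g) {R : ℝ} (hR : ∀ x, R ≤ ‖x‖ → g x = 0)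
    (s : ℝ) : Integrable fun x : Fin d → ℝ => (g x - g (x + e s)) ^ 2 := by
  have hc : Continuous fun x : Fin d → ℝ => (g x - g (x + e s)) ^ 2 :=
    (he.cont_F hg).comp (Continuous.prodMk continuous_const continuous_id)
  apply hc.integrable_of_hasCompactSupport
  apply HasCompactSupport.intro (isCompact_closedBall (0 : Fin d → ℝ) (R + |s|))
  intro x hx
  rw [mem_closedBall_zero_iff, not_le] at hx
  have := abs_nonneg s
  show (g x - g (x + e s)) ^ 2 = 0
  rw [hR x (by linarith), he.van hR le_rfl hx.le]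
  simp

/-- translation of the Hellinger integral -/
theorem LsDir.shift (he : LsDir e) (z z' : ℝ) :
    (∫ x, (g (x + e z) - g (x + e z')) ^ 2) = lsH g e (z' - z) := by
  unfold lsH
  rw [← integral_add_right_eq_self (fun x : Fin d → ℝ => (g x - g (x + e (z' - z))) ^ 2) (e z)]
  congr 1
  funext x
  have : x + e z + e (z' - z) = x + e z' := by
    rw [add_assoc, ← he.add]
    congr 2
    ring
  rw [this]

theorem LsDir.int_shift (he : LsDir e) (hg : Continuous g) {R : ℝ}
    (hR : ∀ x, R ≤ ‖x‖ → g x = 0) (z z' : ℝ) :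
    Integrable fun x : Fin d → ℝ => (g (x + e z) - g (x + e z')) ^ 2 := by
  have h := (he.int_F hg hR (z' - z)).comp_add_right (e z)
  refine h.congr (Filter.Eventually.of_forall fun x => ?_)
  have : x + e z + e (z' - z) = x + e z' := by
    rw [add_assoc, ← he.add]
    congr 2
    ring
  show (g (x + e z) - g (x + e z + e (z' - z))) ^ 2 = _
  rw [this]

theorem LsDir.nmul (he : LsDir e) (hg : Continuous g) {R : ℝ} (hR : ∀ x, R ≤ ‖x‖ → g x = 0)
    (n : ℕ) (s : ℝ) : lsH g e (n * s) ≤ (n : ℝ) ^ 2 * lsH g e s := by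
  have hpt : ∀ x : Fin d → ℝ, (g x - g (x + e (n * s))) ^ 2
      ≤ n * ∑ i ∈ range n, (g (x + e (i * s)) - g (x + e (((i + 1 : ℕ) : ℝ) * s))) ^ 2 := by
    intro x
    have h1 : g x - g (x + e (n * s))
        = ∑ i ∈ range n, (g (x + e (i * s)) - g (x + e (((i + 1 : ℕ) : ℝ) * s))) := by
      have h0 := Finset.sum_range_sub' (fun i : ℕ => g (x + e ((i : ℝ) * s))) n
      rw [h0]
      simp [he.zero]
    rw [h1]
    have h2 := sq_sum_le_card_mul_sum_sq (s := range n) (f := fun i =>
      (g (x + e ((i : ℝ) * s)) - g (x + e (((i + 1 : ℕ) : ℝ) * s))))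
    rw [Finset.card_range] at h2
    exact h2
  have hint : ∀ i : ℕ, Integrable fun x : Fin d → ℝ =>
      (g (x + e (i * s)) - g (x + e (((i + 1 : ℕ) : ℝ) * s))) ^ 2 :=
    fun i => he.int_shift hg hR _ _
  have h3 : lsH g e (n * s) ≤ ∫ x : Fin d → ℝ, n * ∑ i ∈ range n,
      (g (x + e (i * s)) - g (x + e (((i + 1 : ℕ) : ℝ) * s))) ^ 2 := by
    unfold lsH
    apply integral_mono (he.int_F hg hR _)
    · exact (integrable_finsetSum _ fun i _ => hint i).const_mul _
    · exact hpt
  refine h3.trans (le_of_eq ?_)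
  rw [integral_const_mul, integral_finsetSum _ fun i _ => hint i]
  have h4 : ∀ i ∈ range n, (∫ x : Fin d → ℝ,
      (g (x + e (i * s)) - g (x + e (((i + 1 : ℕ) : ℝ) * s))) ^ 2) = lsH g e s := by
    intro i _
    rw [he.shift]
    congr 1
    push_cast
    ring
  rw [Finset.sum_congr rfl h4, Finset.sum_const, Finset.card_range, nsmul_eq_mul]
  ring

theorem LsDir.H_int (he : LsDir e) (hg : Continuous g) {R : ℝ} (hR : ∀ x, R ≤ ‖x‖ → g x = 0)
    {l b : ℝ} (hb : 0 < b) (hbl : b ≤ l) :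
    (∫ s in (-l)..l, lsH g e s) ≤ (2 * l / b) ^ 3 * ∫ s in (-b)..b, lsH g e s := by
  have hl : 0 < l := hb.trans_le hbl
  have hcont := he.cont_H hg hR
  obtain ⟨n, hn⟩ : ∃ n : ℕ, n = ⌈l / b⌉₊ := ⟨_, rfl⟩
  have hlb : 1 ≤ l / b := by rwa [le_div_iff₀ hb, one_mul]
  have hn1 : l / b ≤ n := by rw [hn]; exact Nat.le_ceil _
  have hn2 : (n : ℝ) ≤ 2 * l / b := by
    have := (Nat.ceil_lt_add_one (show 0 ≤ l / b by positivity)).le
    rw [← hn] at this
    have h2 : 2 * l / b = l / b + l / b := by ring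
    rw [h2]
    linarith
  have hn0 : (0 : ℝ) < n := by linarith
  have hnb : l / n ≤ b := by
    rw [div_le_iff₀ hn0]
    rw [div_le_iff₀ hb] at hn1
    linarith
  have hln : 0 < l / n := by positivity
  have h1 : (∫ s in (-l)..l, lsH g e s) = n * ∫ s in (-(l / n))..(l / n), lsH g e (n * s) := by
    rw [intervalIntegral.integral_comp_mul_left (fun s => lsH g e s) hn0.ne']
    have e1 : (n : ℝ) * -(l / n) = -l := by field_simp
    have e2 : (n : ℝ) * (l / n) = l := by field_simp
    rw [e1, e2, smul_eq_mul]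
    field_simp
  have h2 : (∫ s in (-(l / n))..(l / n), lsH g e (n * s))
      ≤ ∫ s in (-(l / n))..(l / n), (n : ℝ) ^ 2 * lsH g e s := by
    apply intervalIntegral.integral_mono_on (by linarith)
    · exact (hcont.comp (continuous_const.mul continuous_id)).intervalIntegrable _ _
    · exact (continuous_const.mul hcont).intervalIntegrable _ _
    · intro s _
      exact he.nmul hg hR n s
  have h3 : (∫ s in (-(l / n))..(l / n), lsH g e s) ≤ ∫ s in (-b)..b, lsH g e s := by
    apply intervalIntegral.integral_mono_interval (by linarith) (by linarith) hnb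
    · exact Filter.Eventually.of_forall fun s => lsH_nonneg s
    · exact hcont.intervalIntegrable _ _
  have h4 : 0 ≤ ∫ s in (-b)..b, lsH g e s :=
    intervalIntegral.integral_nonneg (by linarith) fun s _ => lsH_nonneg s
  rw [intervalIntegral.integral_const_mul] at h2
  rw [h1]
  calc (n : ℝ) * ∫ s in (-(l / n))..(l / n), lsH g e (n * s)
      ≤ n * (n ^ 2 * ∫ s in (-(l / n))..(l / n), lsH g e s) :=
        mul_le_mul_of_nonneg_left h2 hn0.le
    _ ≤ n * (n ^ 2 * ∫ s in (-b)..b, lsH g e s) := by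
        apply mul_le_mul_of_nonneg_left _ hn0.le
        exact mul_le_mul_of_nonneg_left h3 (by positivity)
    _ = (n : ℝ) ^ 3 * ∫ s in (-b)..b, lsH g e s := by ring
    _ ≤ (2 * l / b) ^ 3 * ∫ s in (-b)..b, lsH g e s := by
        apply mul_le_mul_of_nonneg_right _ h4
        exact pow_le_pow_left₀ hn0.le hn2 3

/-- the double integral with two kernels -/
theorem LsDir.kern (he : LsDir e) (hg : Continuous g) {R : ℝ} (hR0 : 0 ≤ R)
    (hR : ∀ x, R ≤ ‖x‖ → g x = 0) {κ : ℝ → ℝ} {l B : ℝ} (hl : 0 < l)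
    (hκ : OneVar.Ker κ (l / 2)) (hB : ∀ z, κ z ≤ B / l) :
    Integrable (fun x => ∫ z, ∫ z', κ z * κ z' * (g (x + e z) - g (x + e z')) ^ 2) ∧
      (∫ x, ∫ z, ∫ z', κ z * κ z' * (g (x + e z) - g (x + e z')) ^ 2)
        ≤ B / l * ∫ s in (-l)..l, lsH g e s := by
  obtain ⟨Φ, hΦ⟩ : ∃ Φ : (Fin d → ℝ) → ℝ × ℝ → ℝ, Φ = fun x p =>
    κ p.1 * κ p.2 * (g (x + e p.1) - g (x + e p.2)) ^ 2 := ⟨_, rfl⟩
  have hκc := hκ.cont
  have hHc := he.cont_H hg hR
  have hΦc : Continuous (Function.uncurry Φ) := by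
    rw [hΦ]
    have c1 : Continuous fun q : (Fin d → ℝ) × (ℝ × ℝ) => g (q.1 + e q.2.1) :=
      hg.comp (continuous_fst.add (he.cont.comp (continuous_fst.comp continuous_snd)))
    have c2 : Continuous fun q : (Fin d → ℝ) × (ℝ × ℝ) => g (q.1 + e q.2.2) :=
      hg.comp (continuous_fst.add (he.cont.comp (continuous_snd.comp continuous_snd)))
    exact ((hκc.comp (continuous_fst.comp continuous_snd)).mul
      (hκc.comp (continuous_snd.comp continuous_snd))).mul ((c1.sub c2).pow 2)
  have hΦs : HasCompactSupport (Function.uncurry Φ) := by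
    apply HasCompactSupport.intro
      (isCompact_closedBall (0 : (Fin d → ℝ) × (ℝ × ℝ)) (R + l / 2))
    rintro ⟨x, z, z'⟩ hx
    rw [mem_closedBall_zero_iff] at hx
    show Φ x (z, z') = 0
    rw [hΦ]
    show κ z * κ z' * (g (x + e z) - g (x + e z')) ^ 2 = 0
    by_cases h1 : l / 2 < |z|
    · rw [hκ.supp z h1]; ring
    by_cases h2 : l / 2 < |z'|
    · rw [hκ.supp z' h2]; ring
    rw [not_lt] at h1 h2
    have hx2 : R + l / 2 ≤ ‖x‖ := by
      by_contra hc
      rw [not_le] at hc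
      apply hx
      rw [Prod.norm_def, Prod.norm_def]
      apply max_le hc.le
      apply max_le
      · show ‖z‖ ≤ _
        rw [Real.norm_eq_abs]; linarith
      · show ‖z'‖ ≤ _
        rw [Real.norm_eq_abs]; linarith
    rw [he.van hR h1 hx2, he.van hR h2 hx2]
    ring
  have hΦi : Integrable (Function.uncurry Φ) (volume.prod volume) :=
    hΦc.integrable_of_hasCompactSupport hΦs
  have hx : ∀ x, (∫ p, Φ x p) = ∫ z, ∫ z', κ z * κ z' * (g (x + e z) - g (x + e z')) ^ 2 := by
    intro x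
    have hc : Continuous (Φ x) := hΦc.comp (Continuous.prodMk continuous_const continuous_id)
    have hs : HasCompactSupport (Φ x) := by
      apply HasCompactSupport.intro (isCompact_closedBall (0 : ℝ × ℝ) (l / 2))
      rintro ⟨z, z'⟩ hx
      rw [mem_closedBall_zero_iff] at hx
      rw [hΦ]
      show κ z * κ z' * (g (x + e z) - g (x + e z')) ^ 2 = 0
      by_cases h1 : l / 2 < |z|
      · rw [hκ.supp z h1]; ring
      by_cases h2 : l / 2 < |z'|
      · rw [hκ.supp z' h2]; ring
      exfalso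
      apply hx
      rw [not_lt] at h1 h2
      rw [Prod.norm_def]
      exact max_le h1 h2
    have h := integral_prod (μ := (volume : Measure ℝ)) (ν := (volume : Measure ℝ)) (Φ x)
      (hc.integrable_of_hasCompactSupport hs)
    rw [Measure.volume_eq_prod, h, hΦ]
  have hx' : (fun x => ∫ p, Φ x p)
      = fun x => ∫ z, ∫ z', κ z * κ z' * (g (x + e z) - g (x + e z')) ^ 2 := funext hx
  have hp : ∀ p : ℝ × ℝ, (∫ x, Φ x p) = κ p.1 * κ p.2 * lsH g e (p.2 - p.1) := by
    intro p
    rw [hΦ]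
    show (∫ x, κ p.1 * κ p.2 * (g (x + e p.1) - g (x + e p.2)) ^ 2) = _
    rw [integral_const_mul, he.shift]
  refine ⟨?_, ?_⟩
  · rw [← hx']
    exact hΦi.integral_prod_left
  · rw [← hx', integral_integral_swap hΦi]
    have hpi : Integrable (fun p : ℝ × ℝ => κ p.1 * κ p.2 * lsH g e (p.2 - p.1))
        ((volume : Measure ℝ).prod volume) := by
      have := hΦi.integral_prod_right
      refine this.congr (Filter.Eventually.of_forall fun p => ?_)
      exact hp p
    have e1 : (∫ p : ℝ × ℝ, ∫ x, Φ x p)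
        = ∫ z, ∫ z', κ z * κ z' * lsH g e (z' - z) := by
      rw [show (fun p : ℝ × ℝ => ∫ x, Φ x p)
        = fun p => κ p.1 * κ p.2 * lsH g e (p.2 - p.1) from funext hp]
      exact integral_prod _ hpi
    rw [e1]
    obtain ⟨J, hJ⟩ : ∃ J : ℝ, J = B / l * ∫ s in (-l)..l, lsH g e s := ⟨_, rfl⟩
    rw [← hJ]
    have hJ2 : J = ∫ s in Set.Icc (-l) l, B / l * lsH g e s := by
      rw [hJ, intervalIntegral.integral_of_le (by linarith), ← integral_Icc_eq_integral_Ioc,
        integral_const_mul]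
    have hkey : ∀ z, (∫ z', κ z * κ z' * lsH g e (z' - z)) ≤ κ z * J := by
      intro z
      by_cases h1 : l / 2 < |z|
      · rw [hκ.supp z h1]; simp
      rw [not_lt] at h1
      have e2 : (fun z' => κ z * κ z' * lsH g e (z' - z))
          = fun z' => κ z * (κ z' * lsH g e (z' - z)) := by
        funext z'
        ring
      rw [e2, integral_const_mul]
      apply mul_le_mul_of_nonneg_left _ (hκ.nn z)
      have e3 : (∫ z', κ z' * lsH g e (z' - z)) = ∫ s, κ (s + z) * lsH g e s := by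
        rw [← integral_sub_right_eq_self (fun s => κ (s + z) * lsH g e s) z]
        congr 1
        funext z'
        rw [sub_add_cancel]
      have e4 : (∫ s, κ (s + z) * lsH g e s) = ∫ s in Set.Icc (-l) l, κ (s + z) * lsH g e s := by
        symm
        apply setIntegral_eq_integral_of_forall_compl_eq_zero
        intro s hs
        rw [hκ.supp, zero_mul]
        by_contra hc
        rw [not_lt, abs_le] at hc
        rw [abs_le] at h1
        exact hs ⟨by linarith [hc.1, h1.2], by linarith [hc.2, h1.1]⟩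
      rw [e3, e4, hJ2]
      apply setIntegral_mono_on
      · exact (((hκc.comp (continuous_id.add continuous_const)).mul hHc).continuousOn).integrableOn_Icc
      · exact ((continuous_const.mul hHc).continuousOn).integrableOn_Icc
      · exact measurableSet_Icc
      · intro s _
        exact mul_le_mul_of_nonneg_right (hB _) (lsH_nonneg s)
    have hκi : Integrable κ := by
      have := hκ.int (h := fun _ => (1 : ℝ)) continuous_const
      simpa using this
    have h5 : (∫ z, ∫ z', κ z * κ z' * lsH g e (z' - z)) ≤ ∫ z, κ z * J :=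
      integral_mono hpi.integral_prod_left (hκi.mul_const J) hkey
    rwa [hκ.const] at h5

/-- Cauchy-Schwarz on an interval -/
theorem ls_cs1 {h : ℝ → ℝ} (hc : Continuous h) {a b : ℝ} (hab : a ≤ b) :
    (∫ t in a..b, h t) ^ 2 ≤ (b - a) * ∫ t in a..b, h t ^ 2 := by
  rcases hab.eq_or_lt with rfl | hlt
  · simp
  obtain ⟨I, hI⟩ : ∃ I : ℝ, I = ∫ t in a..b, h t := ⟨_, rfl⟩
  obtain ⟨c, hcd⟩ : ∃ c : ℝ, c = I / (b - a) := ⟨_, rfl⟩
  have hba : 0 < b - a := by linarith
  have h1 : 0 ≤ ∫ t in a..b, (h t - c) ^ 2 :=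
    intervalIntegral.integral_nonneg hab fun t _ => sq_nonneg _
  have h2 : (∫ t in a..b, (h t - c) ^ 2)
      = (∫ t in a..b, h t ^ 2) - 2 * c * I + c ^ 2 * (b - a) := by
    have e1 : (fun t => (h t - c) ^ 2) = fun t => (h t ^ 2 - 2 * c * h t) + c ^ 2 := by
      funext t
      ring
    have i1 : IntervalIntegrable (fun t => h t ^ 2) volume a b := (hc.pow 2).intervalIntegrable _ _
    have i2 : IntervalIntegrable (fun t => 2 * c * h t) volume a b :=
      (continuous_const.mul hc).intervalIntegrable _ _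
    rw [e1, intervalIntegral.integral_add (i1.sub i2) intervalIntegrable_const,
      intervalIntegral.integral_sub i1 i2, intervalIntegral.integral_const_mul,
      intervalIntegral.integral_const, ← hI, smul_eq_mul]
    ring
  rw [h2] at h1
  rw [← hI]
  have h3 : c * (b - a) = I := by rw [hcd]; field_simp
  have h4 : 0 ≤ (∫ t in a..b, h t ^ 2) - c * I := by
    have : c ^ 2 * (b - a) = c * I := by rw [← h3]; ring
    rw [this] at h1
    linarith
  have h5 := mul_nonneg hba.le h4
  have h6 : (b - a) * ((∫ t in a..b, h t ^ 2) - c * I)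
      = (b - a) * (∫ t in a..b, h t ^ 2) - I ^ 2 := by
    rw [mul_sub]
    congr 1
    rw [← h3]
    ring
  linarith

/-- the energy density in direction `j` -/
noncomputable def lsT (v : Fin N → (Fin d → ℝ) → ℂ) (j : Fin d) (y : Fin d → ℝ) : ℝ :=
  ∑ n, ‖fderiv ℝ (v n) y (Pi.single j 1)‖ ^ 2

theorem lsT_nonneg (v : Fin N → (Fin d → ℝ) → ℂ) (j : Fin d) (y : Fin d → ℝ) : 0 ≤ lsT v j y :=
  Finset.sum_nonneg fun _ _ => by positivity

theorem lsT_cont {v : Fin N → (Fin d → ℝ) → ℂ} (hv : Fam v) (j : Fin d) :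
    Continuous (lsT v j) := by
  unfold lsT
  exact continuous_finsetSum _ fun n _ =>
    (((hv.continuous_fderiv n).clm_apply continuous_const).norm).pow 2

theorem lsT_int {v : Fin N → (Fin d → ℝ) → ℂ} (hv : Fam v) (j : Fin d) :
    Integrable (lsT v j) := by
  apply (lsT_cont hv j).integrable_of_hasCompactSupport
  obtain ⟨R, _, hR⟩ := hv.van
  apply HasCompactSupport.intro (isCompact_closedBall (0 : Fin d → ℝ) R)
  intro y hy
  rw [mem_closedBall_zero_iff, not_le] at hy
  unfold lsT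
  apply Finset.sum_eq_zero
  intro n _
  rw [(hR n).2 y hy.le]
  simp

theorem ls_single_smul (j : Fin d) (t : ℝ) :
    (Pi.single j t : Fin d → ℝ) = t • Pi.single j (1 : ℝ) := by
  funext i
  by_cases h : i = j
  · subst h; simp
  · simp [Pi.single_eq_of_ne h]

theorem ls_hasDeriv (j : Fin d) (x : Fin d → ℝ) (t : ℝ) :
    HasDerivAt (fun t : ℝ => x + (Pi.single j t : Fin d → ℝ)) (Pi.single j (1 : ℝ)) t := by
  have h : (fun t : ℝ => x + (Pi.single j t : Fin d → ℝ))
      = fun t : ℝ => x + t • (Pi.single j (1 : ℝ) : Fin d → ℝ) := by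
    funext t
    rw [ls_single_smul]
  rw [h]
  have h2 := ((hasDerivAt_id t).smul_const (Pi.single j (1 : ℝ) : Fin d → ℝ)).const_add x
  simpa using h2

/-- the square root of the density is controlled by the energy -/
theorem ls_cs {v : Fin N → (Fin d → ℝ) → ℂ} (hv : Fam v) (j : Fin d) (x : Fin d → ℝ) {z z' : ℝ}
    (hz : z ≤ z') :
    (√(rho v (x + Pi.single j z)) - √(rho v (x + Pi.single j z'))) ^ 2
      ≤ (z' - z) * ∫ t in z..z', lsT v j (x + Pi.single j t) := by
  obtain ⟨Lm, hLm⟩ : ∃ Lm : (Fin N → ℂ) →L[ℝ] EuclideanSpace ℂ (Fin N),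
    Lm = (PiLp.continuousLinearEquiv 2 ℝ (fun _ : Fin N => ℂ)).symm.toContinuousLinearMap := ⟨_, rfl⟩
  have hnorm : ∀ w : Fin N → ℂ, ‖Lm w‖ = √(∑ n, ‖w n‖ ^ 2) := by
    intro w
    rw [hLm, EuclideanSpace.norm_eq]
    rfl
  obtain ⟨W, hW⟩ : ∃ W : ℝ → EuclideanSpace ℂ (Fin N),
    W = fun t => Lm (fun n => v n (x + Pi.single j t)) := ⟨_, rfl⟩
  obtain ⟨W', hW'⟩ : ∃ W' : ℝ → EuclideanSpace ℂ (Fin N),
    W' = fun t => Lm (fun n => fderiv ℝ (v n) (x + Pi.single j t) (Pi.single j 1)) := ⟨_, rfl⟩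
  have hd1 : ∀ t, HasDerivAt W (W' t) t := by
    intro t
    rw [hW, hW']
    have h1 : HasDerivAt (fun t => fun n => v n (x + Pi.single j t))
        (fun n => fderiv ℝ (v n) (x + Pi.single j t) (Pi.single j 1)) t := by
      rw [hasDerivAt_pi]
      intro n
      exact ((hv.smooth n).differentiable one_ne_zero _).hasFDerivAt.comp_hasDerivAt t
        (ls_hasDeriv j x t)
    exact Lm.hasFDerivAt.comp_hasDerivAt t h1
  have hc1 : Continuous W' := by
    rw [hW']
    apply Lm.continuous.comp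
    rw [continuous_pi_iff]
    intro n
    exact ((hv.continuous_fderiv n).comp (continuous_const.add (cont_single j))).clm_apply
      continuous_const
  have h1 : (∫ t in z..z', W' t) = W z' - W z :=
    intervalIntegral.integral_eq_sub_of_hasDerivAt (fun t _ => hd1 t)
      (hc1.intervalIntegrable _ _)
  have h2 : |√(rho v (x + Pi.single j z)) - √(rho v (x + Pi.single j z'))|
      ≤ ∫ t in z..z', ‖W' t‖ := by
    have e1 : √(rho v (x + Pi.single j z)) = ‖W z‖ := by rw [hW, hnorm]; rfl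
    have e2 : √(rho v (x + Pi.single j z')) = ‖W z'‖ := by rw [hW, hnorm]; rfl
    rw [e1, e2]
    calc |‖W z‖ - ‖W z'‖| ≤ ‖W z - W z'‖ := abs_norm_sub_norm_le _ _
      _ = ‖∫ t in z..z', W' t‖ := by rw [h1, norm_sub_rev]
      _ ≤ _ := intervalIntegral.norm_integral_le_integral_norm hz
  have h3 : (√(rho v (x + Pi.single j z)) - √(rho v (x + Pi.single j z'))) ^ 2
      ≤ (∫ t in z..z', ‖W' t‖) ^ 2 := by
    rw [← sq_abs]
    exact pow_le_pow_left₀ (abs_nonneg _) h2 2
  refine h3.trans ((ls_cs1 hc1.norm hz).trans (le_of_eq ?_))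
  congr 2
  funext t
  rw [hW', hnorm, Real.sq_sqrt (Finset.sum_nonneg fun _ _ => by positivity)]
  rfl


theorem loss {v : Fin N → (Fin d → ℝ) → ℂ} (hd : 1 ≤ d) (hv : Fam v) {M : ℝ} (hM0 : 0 < M)
    (hM : ∀ x, rho v x ≤ M) {f : ℝ → ℝ} {B C : ℝ} (hf : Loc f B C) {l b : ℝ} (hb : 0 < b)
    (hbl : b ≤ l) {k0 : ℝ} (hk0 : 2 ≤ k0) (j : Fin d) :
    (∫ x, rho v x ^ (1 + 2 / (d : ℝ))) - (∫ x, Av v f l j x ^ (1 + 2 / (d : ℝ)))
      ≤ (1 + 2 / (d : ℝ)) * (2 / (d : ℝ)) * M ^ (2 / (d : ℝ)) *
        (16 * B * Real.exp k0 * (l / b) ^ 2 * DD v j b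
          + 4 * k0 * Real.exp (-k0) * l ^ 2 * kinj v j) := by
  have hl : 0 < l := hb.trans_le hbl
  have hB0 : 0 ≤ B := (sq_nonneg (f 0)).trans (hf.bound 0)
  obtain ⟨R, hR0, hR⟩ := hv.van
  have hRr : ∀ x, R ≤ ‖x‖ → √(rho v x) = 0 := by
    intro x hx
    rw [van_rho (fun n => (hR n).1) x hx, Real.sqrt_zero]
  have he := ls_dir j
  have hg : Continuous fun x => √(rho v x) := (continuous_rho hv).sqrt
  have hker := OneVar.ker_ka hf hl
  obtain ⟨Q, hQ⟩ : ∃ Q : ℝ, Q = (1 + 2 / (d : ℝ)) * (2 / (d : ℝ)) * M ^ (2 / (d : ℝ)) := ⟨_, rfl⟩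
  have hQ0 : 0 ≤ Q := by rw [hQ]; positivity
  obtain ⟨D, hD⟩ : ∃ D : (Fin d → ℝ) → ℝ, D = fun x => ∫ z, ∫ z', ka f l z * ka f l z' *
    (√(rho v (x + Pi.single j z)) - √(rho v (x + Pi.single j z'))) ^ 2 := ⟨_, rfl⟩
  obtain ⟨T, hT⟩ : ∃ T : (Fin d → ℝ) → ℝ, T = fun x =>
    ∫ t in (-(l / 2))..(l / 2), lsT v j (x + Pi.single j t) := ⟨_, rfl⟩
  obtain ⟨A, hA⟩ : ∃ A : (Fin d → ℝ) → ℝ, A = fun x =>
    ∫ z, ka f l z * rho v (x + Pi.single j z) ^ (1 + 2 / (d : ℝ)) := ⟨_, rfl⟩
  have hTc : ∀ x : Fin d → ℝ, Continuous fun t : ℝ => lsT v j (x + Pi.single j t) := fun x =>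
    (lsT_cont hv j).comp (continuous_const.add (cont_single j))
  -- the pointwise inequality
  have hpt : ∀ x, A x - Av v f l j x ^ (1 + 2 / (d : ℝ))
      ≤ Q * (2 * Real.exp k0 * D x + 4 * k0 * Real.exp (-k0) * (l * T x)) := by
    intro x
    have hgz : Continuous fun z : ℝ => √(rho v (x + Pi.single j z)) :=
      hg.comp (continuous_const.add (cont_single j))
    have hcs : ∀ z z' : ℝ, z ≤ z' → |z| ≤ l / 2 → |z'| ≤ l / 2 →
        (√(rho v (x + Pi.single j z)) - √(rho v (x + Pi.single j z'))) ^ 2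
          ≤ l * ∫ t in (-(l / 2))..(l / 2), lsT v j (x + Pi.single j t) := by
      intro z z' hzz hz hz'
      rw [abs_le] at hz hz'
      refine (ls_cs hv j x hzz).trans ?_
      have h1 : (∫ t in z..z', lsT v j (x + Pi.single j t))
          ≤ ∫ t in (-(l / 2))..(l / 2), lsT v j (x + Pi.single j t) := by
        apply intervalIntegral.integral_mono_interval hz.1 hzz hz'.2
        · exact Filter.Eventually.of_forall fun t => lsT_nonneg v j _
        · exact (hTc x).intervalIntegrable _ _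
      have h2 : 0 ≤ ∫ t in z..z', lsT v j (x + Pi.single j t) :=
        intervalIntegral.integral_nonneg hzz fun t _ => lsT_nonneg v j _
      exact mul_le_mul (by linarith) h1 h2 hl.le
    obtain ⟨g', hg'⟩ : ∃ g' : ℝ → ℝ, g' = fun z : ℝ => √(rho v (x + Pi.single j z)) := ⟨_, rfl⟩
    obtain ⟨τ', hτ'⟩ : ∃ τ' : ℝ → ℝ, τ' = fun t : ℝ => lsT v j (x + Pi.single j t) := ⟨_, rfl⟩
    have hg1 : ∀ z, g' z = √(rho v (x + Pi.single j z)) := fun z => by rw [hg']
    have hg2 : ∀ z, g' z ^ 2 = rho v (x + Pi.single j z) := fun z => by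
      rw [hg1]
      exact Real.sq_sqrt (rho_nonneg v _)
    have hg3 : ∀ z, 0 ≤ g' z := fun z => by
      rw [hg1]
      exact Real.sqrt_nonneg _
    have hg4 : ∀ z, g' z ^ 2 ≤ M := fun z => by
      rw [hg2]
      exact hM _
    have hτ3 : ∀ t, 0 ≤ τ' t := fun t => by
      rw [hτ']
      exact lsT_nonneg v j _
    have hgt : ∀ z z', |z| ≤ l / 2 → |z'| ≤ l / 2 →
        (g' z - g' z') ^ 2 ≤ l * ∫ t in (-(l / 2))..(l / 2), τ' t := by
      intro z z' hz hz'
      rw [hg1, hg1, hτ']
      rcases le_total z z' with hzz | hzz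
      · exact hcs z z' hzz hz hz'
      · have h5 := hcs z' z hzz hz' hz
        rw [← neg_sub, neg_sq]
        exact h5
    rw [← hg'] at hgz
    have hτc : Continuous τ' := by
      rw [hτ']
      exact hTc x
    have h := one_var hd hf hl hgz hg3 hM0 hg4 hτc hτ3 hgt hk0
    rw [← hQ] at h
    simp only [hg2] at h
    simp only [hg1] at h
    rw [hτ'] at h
    rw [hA, hD, hT]
    exact h
  -- integrability
  have hqc := continuous_pow_q d
  have hrq : Continuous fun x => rho v x ^ (1 + 2 / (d : ℝ)) := hqc.comp (continuous_rho hv)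
  have hka : Integrable (ka f l) := by
    have := hker.int (h := fun _ => (1 : ℝ)) continuous_const
    simpa using this
  have fA := he.fub (ν := volume) (continuous_ka hf l) hka hrq (integrable_rho_q hv)
  have iA : Integrable A := by rw [hA]; exact fA.1.integral_prod_left
  have vA : (∫ x, A x) = ∫ x, rho v x ^ (1 + 2 / (d : ℝ)) := by
    rw [hA]
    have := fA.2
    rw [hker.one, one_mul] at this
    exact this
  have hAv := continuous_Av hv hf hl j
  have iAv : Integrable fun x => Av v f l j x ^ (1 + 2 / (d : ℝ)) := by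
    apply (hqc.comp hAv.1).integrable_of_hasCompactSupport
    exact hAv.2.1.comp_left (g := fun r : ℝ => r ^ (1 + 2 / (d : ℝ)))
      (Real.zero_rpow (q_pos d).ne')
  have hkB : ∀ z, ka f l z ≤ B / l := by
    intro z
    unfold ka
    rw [div_eq_inv_mul B l]
    exact mul_le_mul_of_nonneg_left (hf.bound _) (by positivity)
  have fD := he.kern hg hR0.le hRr hl hker hkB
  have iD : Integrable D := by rw [hD]; exact fD.1
  have vD : (∫ x, D x) ≤ B / l * ((2 * l / b) ^ 3 * (b * DD v j b)) := by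
    have h1 := he.H_int hg hRr hb hbl
    have h2 : (∫ s in (-b)..b, lsH (fun x => √(rho v x)) (fun s : ℝ => (Pi.single j s : Fin d → ℝ)) s)
        = b * DD v j b := by
      unfold DD
      rw [← mul_assoc, mul_inv_cancel₀ hb.ne', one_mul]
      rfl
    rw [h2] at h1
    rw [hD]
    exact fD.2.trans (mul_le_mul_of_nonneg_left h1 (by positivity))
  have fT := he.fub (ν := volume.restrict (Set.Ioc (-(l / 2)) (l / 2))) (κ := fun _ => (1 : ℝ))
    continuous_const (integrable_const _) (lsT_cont hv j) (lsT_int hv j)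
  have eT : T = fun x => ∫ z, (1 : ℝ) * lsT v j (x + Pi.single j z)
      ∂(volume.restrict (Set.Ioc (-(l / 2)) (l / 2))) := by
    rw [hT]
    funext x
    rw [intervalIntegral.integral_of_le (by linarith)]
    simp only [one_mul]
  have iT : Integrable T := by rw [eT]; exact fT.1.integral_prod_left
  have vT : (∫ x, T x) = l * kinj v j := by
    rw [eT]
    refine fT.2.trans ?_
    have h1 : (∫ z, (1 : ℝ) ∂(volume.restrict (Set.Ioc (-(l / 2)) (l / 2)))) = l := by
      rw [← intervalIntegral.integral_of_le (by linarith), intervalIntegral.integral_const]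
      simp
    rw [h1]
    rfl
  -- integration
  have hmono : (∫ x, (A x - Av v f l j x ^ (1 + 2 / (d : ℝ))))
      ≤ ∫ x, Q * (2 * Real.exp k0 * D x + 4 * k0 * Real.exp (-k0) * (l * T x)) := by
    apply integral_mono (iA.sub iAv)
    · exact (((iD.const_mul _).add ((iT.const_mul l).const_mul _))).const_mul Q
    · exact hpt
  have hR2 : (∫ x, Q * (2 * Real.exp k0 * D x + 4 * k0 * Real.exp (-k0) * (l * T x)))
      = Q * (2 * Real.exp k0 * (∫ x, D x) + 4 * k0 * Real.exp (-k0) * (l * ∫ x, T x)) := by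
    rw [integral_const_mul, integral_add (iD.const_mul _) ((iT.const_mul l).const_mul _),
      integral_const_mul, integral_const_mul, integral_const_mul]
  rw [integral_sub iA iAv, vA, hR2, vT] at hmono
  rw [← hQ]
  refine hmono.trans (mul_le_mul_of_nonneg_left ?_ hQ0)
  have h7 : 2 * Real.exp k0 * (∫ x, D x)
      ≤ 2 * Real.exp k0 * (B / l * ((2 * l / b) ^ 3 * (b * DD v j b))) :=
    mul_le_mul_of_nonneg_left vD (by positivity)
  have h8 : 2 * Real.exp k0 * (B / l * ((2 * l / b) ^ 3 * (b * DD v j b)))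
      = 16 * B * Real.exp k0 * (l / b) ^ 2 * DD v j b := by
    field_simp
    ring
  have h9 : 4 * k0 * Real.exp (-k0) * (l * (l * kinj v j))
      = 4 * k0 * Real.exp (-k0) * l ^ 2 * kinj v j := by ring
  linarith

end Pool.Agent.LTHD
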