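import Mathlib
import Pool.Agent.LTHD.Defs
import Pool.Agent.LTHD.Base

/-!
# [LTHD:Window] the window inequality, core
-/

open Real Finset MeasureTheory Matrix ComplexOrder
open Pool.Agent.LiebT2

set_option autoImplicit false

namespace Pool.Agent.LTHD

variable {d k N : ℕ}

/-! ### auxiliary facts -/

theorem wd_Kc_nonneg (d : ℕ) : 0 ≤ Kc d := by
  unfold Kc
  have h : 0 ≤ om d := by
    unfold om
    have : 0 < Real.Gamma ((d : ℝ) / 2 + 1) := Real.Gamma_pos_of_pos (by positivity)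
    positivity
  positivity

theorem wd_continuous_kinj_int {v : Fin N → (Fin d → ℝ) → ℂ} (hv : Fam v) (j : Fin d) :
    Continuous (fun y => ∑ n, ‖fderiv ℝ (v n) y (Pi.single j 1)‖ ^ 2) :=
  continuous_finsetSum _ fun n _ =>
    (((hv.continuous_fderiv n).clm_apply continuous_const).norm).pow 2

theorem wd_integrable_kinj {v : Fin N → (Fin d → ℝ) → ℂ} (hv : Fam v) (j : Fin d) :
    Integrable (fun y => ∑ n, ‖fderiv ℝ (v n) y (Pi.single j 1)‖ ^ 2) := by
  apply (wd_continuous_kinj_int hv j).integrable_of_hasCompactSupport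
  obtain ⟨R, _, hR⟩ := hv.van
  apply HasCompactSupport.intro (isCompact_closedBall (0 : Fin d → ℝ) R)
  intro y hy
  rw [mem_closedBall_zero_iff, not_le] at hy
  refine Finset.sum_eq_zero fun n _ => ?_
  rw [(hR n).2 y hy.le]
  simp

theorem wd_sum_kinj {v : Fin N → (Fin d → ℝ) → ℂ} (hv : Fam v) : ∑ j, kinj v j = kin v := by
  unfold kinj Pool.Agent.LiebT2.kin
  rw [← integral_finsetSum _ fun j _ => wd_integrable_kinj hv j]
  refine integral_congr_ae (Filter.Eventually.of_forall fun y => ?_)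
  simp only [Pool.Agent.LiebT2.dens]
  exact Finset.sum_comm

theorem wd_kinj_nonneg (v : Fin N → (Fin d → ℝ) → ℂ) (j : Fin d) : 0 ≤ kinj v j :=
  integral_nonneg fun y => Finset.sum_nonneg fun n _ => by positivity

theorem wd_Hs_nonneg (v : Fin N → (Fin d → ℝ) → ℂ) (j : Fin d) (s : ℝ) : 0 ≤ Hs v j s :=
  integral_nonneg fun y => by positivity

theorem wd_DD_nonneg (v : Fin N → (Fin d → ℝ) → ℂ) (j : Fin d) {b : ℝ} (hb : 0 < b) :
    0 ≤ DD v j b := by
  unfold DD
  exact mul_nonneg (by positivity)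
    (intervalIntegral.integral_nonneg (by linarith) fun s _ => wd_Hs_nonneg v j s)

theorem wd_rho_nonneg (v : Fin N → (Fin d → ℝ) → ℂ) (x : Fin d → ℝ) : 0 ≤ rho v x := by
  unfold rho
  positivity

/-- the algebra of the window inequality -/
theorem wd_window_alg {d : ℝ} (hd : 2 ≤ d) {K Iq I0 T SD IL B C E lam k0 s X : ℝ} (hB : 0 < B)
    (hE : 0 < E) (hl : 1 ≤ lam) (hk0 : 2 ≤ k0) (hs : s = 3840 * B * Real.exp k0 * lam / d)
    (hs1 : s ≤ 1) (hSD : 0 ≤ SD) (hT : 0 ≤ T) (hI0 : 0 ≤ I0) (hC : 0 < C)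
    (h1 : d * (K * Iq) ≤ d * (T + C * E / lam * I0)
      + (768 * π * B * Real.exp k0 * lam * E / Real.exp 1 * SD
        + 48 * k0 * Real.exp (-k0) * lam * T))
    (hX : X = 2 * π * d / Real.exp 1 * E * (I0 - 2 / d * IL))
    (h2 : X + π * E / (5 * Real.exp 1) * SD ≤ T) :
    (1 - s) * K * Iq - C * E / lam * I0 + s * (2 * π * d / Real.exp 1) * E * (I0 - 2 / d * IL)
      ≤ (1 + 48 * k0 * Real.exp (-k0) * lam / d) * T := by
  have hd0 : 0 < d := by linarith
  have he : 0 < Real.exp 1 := Real.exp_pos 1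
  have hek : 0 < Real.exp k0 := Real.exp_pos k0
  have hek' : 0 < Real.exp (-k0) := Real.exp_pos (-k0)
  have hπ : 0 < π := Real.pi_pos
  have hs0 : 0 ≤ s := by rw [hs]; positivity
  set P := 48 * k0 * Real.exp (-k0) * lam / d with hP
  have hP0 : 0 ≤ P := by rw [hP]; positivity
  have h1' : K * Iq ≤ T + C * E / lam * I0 + s * (π * E / (5 * Real.exp 1)) * SD + P * T := by
    have e1 : s * (π * E / (5 * Real.exp 1)) * SD
        = (768 * π * B * Real.exp k0 * lam * E / Real.exp 1 * SD) / d := by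
      rw [hs]; field_simp; ring
    have e2 : P * T = (48 * k0 * Real.exp (-k0) * lam * T) / d := by
      rw [hP]; field_simp
    rw [e1, e2]
    have h3 : K * Iq = (d * (K * Iq)) / d := by field_simp
    rw [h3]
    have h4 : T + C * E / lam * I0 + 768 * π * B * Real.exp k0 * lam * E / Real.exp 1 * SD / d
        + 48 * k0 * Real.exp (-k0) * lam * T / d
        = (d * (T + C * E / lam * I0)
      + (768 * π * B * Real.exp k0 * lam * E / Real.exp 1 * SD
        + 48 * k0 * Real.exp (-k0) * lam * T)) / d := by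
      field_simp
      ring
    rw [h4]
    exact div_le_div_of_nonneg_right h1 hd0.le
  have h5 : (1 - s) * (K * Iq) ≤ (1 - s) * (T + C * E / lam * I0
      + s * (π * E / (5 * Real.exp 1)) * SD + P * T) :=
    mul_le_mul_of_nonneg_left h1' (by linarith)
  have h6 : s * (X + π * E / (5 * Real.exp 1) * SD) ≤ s * T := mul_le_mul_of_nonneg_left h2 hs0
  have h7 : s * (2 * π * d / Real.exp 1) * E * (I0 - 2 / d * IL) = s * X := by rw [hX]; ring
  rw [h7]
  have h8 : 0 ≤ s * (C * E / lam * I0) := by positivity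
  have h9 : 0 ≤ s * (s * (π * E / (5 * Real.exp 1)) * SD) := by positivity
  have h10 : 0 ≤ s * (P * T) := by positivity
  nlinarith [h5, h6, h8, h9, h10]

/-- the window inequality, from the localised inequality `hcg`, the loss estimate `hloss` and the
entropic inequality `hent` -/
theorem window_core {v : Fin N → (Fin d → ℝ) → ℂ} (hd : 2 ≤ d) (hv : Fam v) {E : ℝ}
    (hE : 0 < E) {f : ℝ → ℝ} {B C : ℝ} (hB : 0 < B) (hC : 0 < C) {lam : ℝ} (hl : 1 ≤ lam) {k0 : ℝ} (hk0 : 2 ≤ k0) {s : ℝ}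
    (hs : s = 3840 * B * Real.exp k0 * lam / d) (hs1 : s ≤ 1) (hK : Kc d ≤ 3 * d)
    (hcg : ∀ {l : ℝ}, 0 < l → ∀ j : Fin d,
      Kc d * (∫ x, Av v f l j x ^ (1 + 2 / (d : ℝ))) ≤ kin v + C / l ^ 2 * (∫ y, rho v y))
    (hloss : ∀ {l b : ℝ}, 0 < b → b ≤ l → ∀ j : Fin d,
      (∫ x, rho v x ^ (1 + 2 / (d : ℝ))) - (∫ x, Av v f l j x ^ (1 + 2 / (d : ℝ)))
        ≤ (1 + 2 / (d : ℝ)) * (2 / (d : ℝ)) * (E ^ ((d : ℝ) / 2)) ^ (2 / (d : ℝ)) *
          (16 * B * Real.exp k0 * (l / b) ^ 2 * DD v j b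
            + 4 * k0 * Real.exp (-k0) * l ^ 2 * kinj v j))
    (hent : ∀ {b : ℝ}, 0 < b →
      (d : ℝ) / 2 * Real.log (4 * π * b ^ 2) * (∫ y, rho v y)
        + (∫ y, rho v y * Real.log (rho v y)) + 1 / 20 * (∑ j, DD v j b) ≤ b ^ 2 * kin v) :
    (1 - s) * Kc d * (∫ x, rho v x ^ (1 + 2 / (d : ℝ))) - C * E / lam * (∫ x, rho v x)
      + s * (2 * π * d / Real.exp 1) * E *
        ((∫ x, rho v x) - 2 / (d : ℝ) * (∫ x, rho v x * Real.log (E ^ ((d : ℝ) / 2) / rho v x)))
    ≤ (1 + 48 * k0 * Real.exp (-k0) * lam / d) * kin v := by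
  have hdR : (2 : ℝ) ≤ d := by exact_mod_cast hd
  have hd0 : (0 : ℝ) < d := by linarith
  have he : 0 < Real.exp 1 := Real.exp_pos 1
  have hek : 0 < Real.exp k0 := Real.exp_pos k0
  have hek' : 0 < Real.exp (-k0) := Real.exp_pos (-k0)
  have hπ : 0 < π := Real.pi_pos
  have hlam : 0 < lam := by linarith
  have hM0 : 0 < E ^ ((d : ℝ) / 2) := Real.rpow_pos_of_pos hE _
  have hME : (E ^ ((d : ℝ) / 2)) ^ (2 / (d : ℝ)) = E := by
    rw [← Real.rpow_mul hE.le]
    have : (d : ℝ) / 2 * (2 / (d : ℝ)) = 1 := by field_simp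
    rw [this, Real.rpow_one]
  set l := √(lam / E) with hldef
  set b := √(Real.exp 1 / (4 * π * E)) with hbdef
  have hl0 : 0 < l := Real.sqrt_pos.mpr (by positivity)
  have hb0 : 0 < b := Real.sqrt_pos.mpr (by positivity)
  have hl2 : l ^ 2 = lam / E := Real.sq_sqrt (by positivity)
  have hb2 : b ^ 2 = Real.exp 1 / (4 * π * E) := Real.sq_sqrt (by positivity)
  have hbl : b ≤ l := by
    apply Real.sqrt_le_sqrt
    rw [div_le_div_iff₀ (by positivity) hE]
    have h1 : Real.exp 1 < 2.7182818286 := Real.exp_one_lt_d9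
    have h2 : 3 < π := Real.pi_gt_three
    have h3 : Real.exp 1 ≤ 4 * π * lam := by nlinarith
    nlinarith
  have hlb : (l / b) ^ 2 = 4 * π * lam / Real.exp 1 := by
    rw [div_pow, hl2, hb2]
    field_simp
  -- step one
  have hKc := wd_Kc_nonneg d
  have h1j : ∀ j : Fin d, Kc d * (∫ x, rho v x ^ (1 + 2 / (d : ℝ)))
      ≤ (kin v + C * E / lam * (∫ x, rho v x))
        + (768 * π * B * Real.exp k0 * lam * E / Real.exp 1 * DD v j b
          + 48 * k0 * Real.exp (-k0) * lam * kinj v j) := by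
    intro j
    have c1 := hcg hl0 j
    have c2 := hloss hb0 hbl j
    rw [hME, hlb, hl2] at c2
    rw [hl2] at c1
    have c3 : C / (lam / E) = C * E / lam := by field_simp
    rw [c3] at c1
    have hD := wd_DD_nonneg v j hb0
    have hT := wd_kinj_nonneg v j
    set R := 16 * B * Real.exp k0 * (4 * π * lam / Real.exp 1) * DD v j b
          + 4 * k0 * Real.exp (-k0) * (lam / E) * kinj v j with hR
    have hR0 : 0 ≤ R := by rw [hR]; positivity
    have c4 : Kc d * ((∫ x, rho v x ^ (1 + 2 / (d : ℝ))) - (∫ x, Av v f l j x ^ (1 + 2 / (d : ℝ))))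
        ≤ Kc d * ((1 + 2 / (d : ℝ)) * (2 / (d : ℝ)) * E * R) :=
      mul_le_mul_of_nonneg_left c2 hKc
    have c5 : Kc d * ((1 + 2 / (d : ℝ)) * (2 / (d : ℝ)) * E * R) ≤ 12 * E * R := by
      have q1 : 1 + 2 / (d : ℝ) ≤ 2 := by
        have : 2 / (d : ℝ) ≤ 1 := by rw [div_le_one hd0]; exact hdR
        linarith
      have q2 : Kc d * (2 / (d : ℝ)) ≤ 6 := by
        rw [mul_div_assoc', div_le_iff₀ hd0]
        linarith
      have q3 : Kc d * (2 / (d : ℝ)) * (1 + 2 / (d : ℝ)) ≤ 6 * 2 :=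
        mul_le_mul q2 q1 (by positivity) (by norm_num)
      have q4 : Kc d * (2 / (d : ℝ)) * (1 + 2 / (d : ℝ)) * (E * R) ≤ 6 * 2 * (E * R) :=
        mul_le_mul_of_nonneg_right q3 (by positivity)
      calc Kc d * ((1 + 2 / (d : ℝ)) * (2 / (d : ℝ)) * E * R)
          = Kc d * (2 / (d : ℝ)) * (1 + 2 / (d : ℝ)) * (E * R) := by ring
        _ ≤ 6 * 2 * (E * R) := q4
        _ = 12 * E * R := by ring
    have c6 : 12 * E * R = 768 * π * B * Real.exp k0 * lam * E / Real.exp 1 * DD v j b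
          + 48 * k0 * Real.exp (-k0) * lam * kinj v j := by
      rw [hR]; field_simp; ring
    rw [c6] at c5
    linarith [c1, c4, c5, mul_sub (Kc d) (∫ x, rho v x ^ (1 + 2 / (d : ℝ)))
      (∫ x, Av v f l j x ^ (1 + 2 / (d : ℝ)))]
  have h1 : (d : ℝ) * (Kc d * (∫ x, rho v x ^ (1 + 2 / (d : ℝ))))
      ≤ (d : ℝ) * (kin v + C * E / lam * (∫ x, rho v x))
        + (768 * π * B * Real.exp k0 * lam * E / Real.exp 1 * (∑ j, DD v j b)
          + 48 * k0 * Real.exp (-k0) * lam * kin v) := by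
    have s1 := Finset.sum_le_sum fun j (_ : j ∈ (Finset.univ : Finset (Fin d))) => h1j j
    have t1 : ∑ j : Fin d, (768 * π * B * Real.exp k0 * lam * E / Real.exp 1 * DD v j b
        + 48 * k0 * Real.exp (-k0) * lam * kinj v j)
        = 768 * π * B * Real.exp k0 * lam * E / Real.exp 1 * (∑ j, DD v j b)
          + 48 * k0 * Real.exp (-k0) * lam * kin v := by
      rw [Finset.sum_add_distrib, ← Finset.mul_sum, ← Finset.mul_sum, wd_sum_kinj hv]
    rw [Finset.sum_add_distrib, t1, Finset.sum_const, Finset.sum_const, Finset.card_univ,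
      Fintype.card_fin, nsmul_eq_mul, nsmul_eq_mul] at s1
    exact s1
  -- step two
  have e0 := hent hb0
  have hlog : Real.log (4 * π * b ^ 2) = 1 - Real.log E := by
    rw [hb2]
    have : 4 * π * (Real.exp 1 / (4 * π * E)) = Real.exp 1 / E := by field_simp
    rw [this, Real.log_div he.ne' hE.ne', Real.log_exp]
  have i1 := integrable_rho hv
  have i2 : Integrable (fun x => rho v x * Real.log (rho v x)) :=
    integrable_comp_rho hv Real.continuous_mul_log (by simp)
  have hIL : (∫ x, rho v x * Real.log (E ^ ((d : ℝ) / 2) / rho v x))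
      = (d : ℝ) / 2 * Real.log E * (∫ x, rho v x) - ∫ x, rho v x * Real.log (rho v x) := by
    have : (fun x => rho v x * Real.log (E ^ ((d : ℝ) / 2) / rho v x))
        = fun x => (d : ℝ) / 2 * Real.log E * rho v x - rho v x * Real.log (rho v x) := by
      funext x
      rw [mul_log_div hM0, Real.log_rpow hE]
      ring
    rw [this, integral_sub (i1.const_mul _) i2, integral_const_mul]
  set I0 := ∫ x, rho v x with hI0
  set IL := ∫ x, rho v x * Real.log (E ^ ((d : ℝ) / 2) / rho v x) with hILd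
  set IR := ∫ x, rho v x * Real.log (rho v x) with hIRd
  set SD := ∑ j, DD v j b with hSD
  set T := kin v with hT
  have hSD0 : 0 ≤ SD := Finset.sum_nonneg fun j _ => wd_DD_nonneg v j hb0
  have hT0 : 0 ≤ T := kin_nonneg v
  have hI00 : 0 ≤ I0 := integral_nonneg fun x => wd_rho_nonneg v x
  rw [hlog, hb2] at e0
  have h2 : 2 * π * d / Real.exp 1 * E * (I0 - 2 / d * IL) + π * E / (5 * Real.exp 1) * SD
      ≤ T := by
    have e1 : 4 * π * E / Real.exp 1 * ((d : ℝ) / 2 * (1 - Real.log E) * I0 + IR + 1 / 20 * SD)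
        ≤ 4 * π * E / Real.exp 1 * (Real.exp 1 / (4 * π * E) * T) :=
      mul_le_mul_of_nonneg_left e0 (by positivity)
    have e2 : 4 * π * E / Real.exp 1 * (Real.exp 1 / (4 * π * E) * T) = T := by
      field_simp
    have e3 : 4 * π * E / Real.exp 1 * ((d : ℝ) / 2 * (1 - Real.log E) * I0 + IR + 1 / 20 * SD)
        = 2 * π * d / Real.exp 1 * E * (I0 - 2 / d * IL) + π * E / (5 * Real.exp 1) * SD := by
      rw [hIL]
      field_simp
      ring
    rw [e2, e3] at e1
    exact e1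
  exact wd_window_alg hdR hB hE hl hk0 hs hs1 hSD0 hT0 hI00 hC h1 rfl h2

end Pool.Agent.LTHD
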