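import Mathlib
import Pool.Agent.LTHD.Defs
import Pool.Agent.LTHD.CG
import Pool.Agent.LTHD.Loss
import Pool.Agent.LTHD.Ent
import Pool.Agent.LTHD.WindowCore

/-!
# [LTHD:Window] the window inequality
-/

open Real Finset MeasureTheory Matrix ComplexOrder
open Pool.Agent.LiebT2

set_option autoImplicit false

namespace Pool.Agent.LTHD

variable {d k N : ℕ}

theorem window {v : Fin N → (Fin d → ℝ) → ℂ} (hd : 2 ≤ d) (hv : Fam v) (hb : Bes v) {E : ℝ}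
    (hE : 0 < E) (hM : ∀ x, rho v x ≤ E ^ ((d : ℝ) / 2)) {f : ℝ → ℝ} {B C : ℝ} (hB : 0 < B)
    (hC : 0 < C) (hf : Loc f B C) {lam : ℝ} (hl : 1 ≤ lam) {k0 : ℝ} (hk0 : 2 ≤ k0) {s : ℝ}
    (hs : s = 3840 * B * Real.exp k0 * lam / d) (hs1 : s ≤ 1) (hK : Kc d ≤ 3 * d) :
    (1 - s) * Kc d * (∫ x, rho v x ^ (1 + 2 / (d : ℝ))) - C * E / lam * (∫ x, rho v x)
      + s * (2 * π * d / Real.exp 1) * E *
        ((∫ x, rho v x) - 2 / (d : ℝ) * (∫ x, rho v x * Real.log (E ^ ((d : ℝ) / 2) / rho v x)))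
    ≤ (1 + 48 * k0 * Real.exp (-k0) * lam / d) * kin v :=
  window_core hd hv hE hB hC hl hk0 hs hs1 hK (fun hl j => cg (by omega) hv hb hf hl j)
    (fun hb0 hbl j => loss (by omega) hv (Real.rpow_pos_of_pos hE _) hM hf hb0 hbl hk0 j)
    (fun hb0 => entropic hv hb hb0)

end Pool.Agent.LTHD
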