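import Mathlib
import Pool.Agent.LTHD.Base
import Pool.Agent.LTHD.Win
import Pool.Agent.LTHD.TransLoc
import Pool.Agent.LTHD.Ims
import Pool.Agent.LTHD.Window
import Pool.Agent.LTHD.Ptwise
import Pool.Agent.LTHD.KcAsym
import Pool.Agent.LTHD.ChiB

open Real Finset MeasureTheory Matrix ComplexOrder
open Pool.Agent.LiebT2

set_option autoImplicit false

namespace Pool.Agent.LTHD

variable {d k N : ℕ}

theorem zn_nonneg (w η t₀ : ℝ) (m : ℕ) (v : ℝ) : 0 ≤ zn w η t₀ m v := by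
  unfold zn
  split_ifs <;> norm_num

theorem zn_le_one (w η t₀ : ℝ) (m : ℕ) (v : ℝ) : zn w η t₀ m v ≤ 1 := by
  unfold zn
  split_ifs <;> norm_num

/-- the transition zones of different shifts are disjoint -/
theorem sum_zn_le {w η T : ℝ} {I : ℕ} (hw : 0 < w) (hη : η = I * w) (m : ℕ) (v : ℝ) :
    ∑ i ∈ range I, zn w η (T + i * w) m v ≤ 1 := by
  classical
  have key : ∀ i ∈ range I, ∀ i' ∈ range I, i ≠ i' → zn w η (T + i * w) m v ≠ 0 →
      zn w η (T + i' * w) m v = 0 := by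
    intro i hi i' hi' hne h1
    by_contra h2
    have g1 : ∃ j ∈ range (m + 1), T + i * w + j * η < v ∧ v < T + i * w + j * η + w := by
      by_contra hcon
      apply h1
      unfold zn
      rw [if_neg hcon]
    have g2 : ∃ j ∈ range (m + 1), T + i' * w + j * η < v ∧ v < T + i' * w + j * η + w := by
      by_contra hcon
      apply h2
      unfold zn
      rw [if_neg hcon]
    obtain ⟨j, _, a1, a2⟩ := g1
    obtain ⟨j', _, b1, b2⟩ := g2
    rw [hη] at a1 a2 b1 b2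
    have c1 : ((i + j * I : ℕ) : ℝ) * w < ((i' + j' * I : ℕ) : ℝ) * w + w := by
      push_cast
      linarith
    have c2 : ((i' + j' * I : ℕ) : ℝ) * w < ((i + j * I : ℕ) : ℝ) * w + w := by
      push_cast
      linarith
    have d1 : ((i + j * I : ℕ) : ℝ) < ((i' + j' * I : ℕ) : ℝ) + 1 := by
      have : ((i' + j' * I : ℕ) : ℝ) * w + w = (((i' + j' * I : ℕ) : ℝ) + 1) * w := by ring
      rw [this] at c1
      exact lt_of_mul_lt_mul_right c1 hw.le
    have d2 : ((i' + j' * I : ℕ) : ℝ) < ((i + j * I : ℕ) : ℝ) + 1 := by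
      have : ((i + j * I : ℕ) : ℝ) * w + w = (((i + j * I : ℕ) : ℝ) + 1) * w := by ring
      rw [this] at c2
      exact lt_of_mul_lt_mul_right c2 hw.le
    have e1 : i + j * I < i' + j' * I + 1 := by exact_mod_cast d1
    have e2 : i' + j' * I < i + j * I + 1 := by exact_mod_cast d2
    have e : i + j * I = i' + j' * I := by omega
    have hm := congrArg (fun t => t % I) e
    simp only [Nat.add_mul_mod_self_right] at hm
    rw [Nat.mod_eq_of_lt (mem_range.mp hi), Nat.mod_eq_of_lt (mem_range.mp hi')] at hm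
    exact hne hm
  by_cases h : ∃ i ∈ range I, zn w η (T + i * w) m v ≠ 0
  · obtain ⟨i, hi, hz⟩ := h
    rw [Finset.sum_eq_single i (fun i' hi' hne => key i hi i' hi' (Ne.symm hne) hz)
      (fun hcon => absurd hi hcon)]
    exact zn_le_one _ _ _ _ _
  · push Not at h
    rw [Finset.sum_eq_zero h]
    norm_num

theorem measurable_zn (w η t₀ : ℝ) (m : ℕ) : Measurable (zn w η t₀ m) := by
  classical
  unfold zn
  apply Measurable.ite _ measurable_const measurable_const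
  have : {v : ℝ | ∃ i ∈ range (m + 1), t₀ + i * η < v ∧ v < t₀ + i * η + w}
      = ⋃ i ∈ range (m + 1), Set.Ioo (t₀ + i * η) (t₀ + i * η + w) := by
    ext v
    simp only [Set.mem_ofPred_eq, Set.mem_iUnion, Set.mem_Ioo, exists_prop]
  rw [this]
  exact Finset.measurableSet_biUnion _ fun i _ => measurableSet_Ioo

theorem integrable_zn {v : Fin N → (Fin d → ℝ) → ℂ} (hv : Fam v) (w η t₀ : ℝ) (m : ℕ) :
    Integrable (fun x => zn w η t₀ m (2 / (d : ℝ) * Real.log (rho v x)) *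
      rho v x ^ (1 + 2 / (d : ℝ))) := by
  apply (integrable_rho_q hv).mono'
  · apply Measurable.aestronglyMeasurable
    have hc := (continuous_rho hv).measurable
    exact ((measurable_zn w η t₀ m).comp ((Real.measurable_log.comp hc).const_mul _)).mul
      ((continuous_pow_q d).measurable.comp hc)
  · apply Filter.Eventually.of_forall
    intro x
    have h1 : 0 ≤ rho v x ^ (1 + 2 / (d : ℝ)) := Real.rpow_nonneg (rho_nonneg v x) _
    rw [Real.norm_eq_abs, abs_of_nonneg (mul_nonneg (zn_nonneg _ _ _ _ _) h1)]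
    calc _ ≤ 1 * rho v x ^ (1 + 2 / (d : ℝ)) :=
          mul_le_mul_of_nonneg_right (zn_le_one _ _ _ _ _) h1
      _ = _ := one_mul _

/-- a good shift of the windows -/
theorem exists_shift {v : Fin N → (Fin d → ℝ) → ℂ} (hv : Fam v) {w η T : ℝ} {I : ℕ} (hI : 0 < I)
    (hw : 0 < w) (hη : η = I * w) (m : ℕ) : ∃ i ∈ range I,
    (∫ x, zn w η (T + i * w) m (2 / (d : ℝ) * Real.log (rho v x)) * rho v x ^ (1 + 2 / (d : ℝ)))
      ≤ (∫ x, rho v x ^ (1 + 2 / (d : ℝ))) / I := by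
  by_contra hcon
  push Not at hcon
  have h1 : ∑ i ∈ range I, (∫ x, rho v x ^ (1 + 2 / (d : ℝ))) / I
      < ∑ i ∈ range I, ∫ x, zn w η (T + i * w) m (2 / (d : ℝ) * Real.log (rho v x)) *
        rho v x ^ (1 + 2 / (d : ℝ)) :=
    Finset.sum_lt_sum_of_nonempty ⟨0, mem_range.mpr hI⟩ hcon
  have e1 : (∫ x, ∑ i ∈ range I, zn w η (T + i * w) m (2 / (d : ℝ) * Real.log (rho v x)) *
      rho v x ^ (1 + 2 / (d : ℝ))) = ∑ i ∈ range I, ∫ x, zn w η (T + i * w) m
        (2 / (d : ℝ) * Real.log (rho v x)) * rho v x ^ (1 + 2 / (d : ℝ)) :=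
    integral_finsetSum (range I) (fun i _ => integrable_zn hv w η (T + i * w) m)
  rw [Finset.sum_const, card_range, nsmul_eq_mul, mul_div_cancel₀ _ (by positivity), ← e1] at h1
  have h2 : (∫ x, ∑ i ∈ range I, zn w η (T + i * w) m (2 / (d : ℝ) * Real.log (rho v x)) *
      rho v x ^ (1 + 2 / (d : ℝ))) ≤ ∫ x, rho v x ^ (1 + 2 / (d : ℝ)) := by
    apply integral_mono (integrable_finsetSum (range I) fun i _ => integrable_zn hv w η (T + i * w) m)
      (integrable_rho_q hv)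
    intro x
    simp only
    rw [← Finset.sum_mul]
    have h3 : 0 ≤ rho v x ^ (1 + 2 / (d : ℝ)) := Real.rpow_nonneg (rho_nonneg v x) _
    calc _ ≤ 1 * rho v x ^ (1 + 2 / (d : ℝ)) :=
          mul_le_mul_of_nonneg_right (sum_zn_le hw hη m _) h3
      _ = _ := one_mul _
  linarith

theorem assembled {u : Fin N → (Fin d → ℝ) → ℂ} (hd : 2 ≤ d) (hu : Fam u) (hb : Bes u)
    {f : ℝ → ℝ} {B C : ℝ} (hB : 0 < B) (hC : 0 < C) (hf : Loc f B C) {a b : ℝ → ℝ} {D : ℝ}
    (hT : Trans a b D) {lam : ℝ} (hl : 1 ≤ lam) {k0 : ℝ} (hk0 : 2 ≤ k0) {s : ℝ}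
    (hs : s = 3840 * B * Real.exp k0 * lam / d) (hs1 : s ≤ 1) {δ : ℝ} (hδ : 0 ≤ δ)
    (hK : Kc d ≤ 3 * d) (hK' : Kc d ≤ (1 + δ) * (2 * π * d / Real.exp 1)) {w η t₀ : ℝ}
    (hw : 0 < w) (hwη : w ≤ η) (hη : 2 * η ≤ 1) {m : ℕ}
    (htop : ∀ x, 0 < rho u x → 2 / (d : ℝ) * Real.log (rho u x) ≤ t₀ + m * η) :
    Kc d * (∫ x, rho u x ^ (1 + 2 / (d : ℝ))) * (1 - s * (δ + 2 * η) - 3 * C / (lam * d))
      - 13 / d * Kc d * (∫ x, zn w η t₀ m (2 / (d : ℝ) * Real.log (rho u x)) *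
        rho u x ^ (1 + 2 / (d : ℝ)))
      - (Kc d + 3 * C + 6) * Real.exp (t₀ + w) * (∫ x, rho u x)
    ≤ (1 + 48 * k0 * Real.exp (-k0) * lam / d) * ((1 + 16 * D / (w * d) ^ 2) * kin u) := by
  have hd1 : 1 ≤ d := by omega
  have hd0 : (0 : ℝ) < d := by exact_mod_cast hd1
  have hs0 : 0 ≤ s := by rw [hs]; positivity
  set W : ℕ → Fin N → (Fin d → ℝ) → ℂ := fun i => win a b w (t₀ + i * η) (t₀ + (i + 1 : ℕ) * η) u
    with hW
  set E : ℕ → ℝ := fun i => Real.exp (t₀ + (i + 1 : ℕ) * η + w) with hE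
  have hE0 : ∀ i, 0 < E i := fun i => Real.exp_pos _
  have hWf : ∀ i, Fam (W i) := fun i => fam_win hT hw hd1 hu
  have hWb : ∀ i, Bes (W i) := fun i => bes_win hT hw hd1 hu hb
  have hWr : ∀ i x, rho (W i) x
      = chi a b d w (t₀ + i * η) (t₀ + (i + 1 : ℕ) * η) (rho u x) ^ 2 * rho u x :=
    fun i x => rho_win a b w _ _ u x
  have h1 : ∀ i, (∫ x, Pw d (Kc d) C lam s (E i) (rho (W i) x))
      ≤ (1 + 48 * k0 * Real.exp (-k0) * lam / d) * kin (W i) := by
    intro i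
    rw [integral_Pw (hWf i) (Kc d) C lam s (hE0 i)]
    refine window hd (hWf i) (hWb i) (hE0 i) ?_ hB hC hf hl hk0 hs hs1 hK
    intro x
    rw [hWr i x]
    exact chi_bound hT hw hd1 (rho_nonneg u x)
  have hcoef : 0 ≤ 1 + 48 * k0 * Real.exp (-k0) * lam / d := by positivity
  have h2 : ∑ i ∈ range m, (∫ x, Pw d (Kc d) C lam s (E i) (rho (W i) x))
      ≤ (1 + 48 * k0 * Real.exp (-k0) * lam / d) * ((1 + 16 * D / (w * d) ^ 2) * kin u) := by
    calc _ ≤ ∑ i ∈ range m, (1 + 48 * k0 * Real.exp (-k0) * lam / d) * kin (W i) :=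
          Finset.sum_le_sum fun i _ => h1 i
      _ = (1 + 48 * k0 * Real.exp (-k0) * lam / d) * ∑ i ∈ range m, kin (W i) := by
          rw [Finset.mul_sum]
      _ ≤ _ := mul_le_mul_of_nonneg_left (ims hT hw hwη hd1 hu htop) hcoef
  refine le_trans ?_ h2
  have e1 : (∫ x, ∑ i ∈ range m, Pw d (Kc d) C lam s (E i) (rho (W i) x))
      = ∑ i ∈ range m, (∫ x, Pw d (Kc d) C lam s (E i) (rho (W i) x)) :=
    integral_finsetSum (range m) (fun i _ => integrable_Pw (hWf i) (Kc d) C lam s (hE0 i))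
  rw [← e1]
  have i1 := (integrable_rho_q hu).const_mul (Kc d)
  have i1' := i1.mul_const (1 - s * (δ + 2 * η) - 3 * C / (lam * d))
  have i2 := (integrable_zn hu w η t₀ m).const_mul (13 / d * Kc d)
  have i3 := (integrable_rho hu).const_mul ((Kc d + 3 * C + 6) * Real.exp (t₀ + w))
  have e2 : Kc d * (∫ x, rho u x ^ (1 + 2 / (d : ℝ))) * (1 - s * (δ + 2 * η) - 3 * C / (lam * d))
      - 13 / d * Kc d * (∫ x, zn w η t₀ m (2 / (d : ℝ) * Real.log (rho u x)) *
        rho u x ^ (1 + 2 / (d : ℝ)))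
      - (Kc d + 3 * C + 6) * Real.exp (t₀ + w) * (∫ x, rho u x)
      = ∫ x, (Kc d * rho u x ^ (1 + 2 / (d : ℝ)) * (1 - s * (δ + 2 * η) - 3 * C / (lam * d))
      - 13 / d * Kc d * (zn w η t₀ m (2 / (d : ℝ) * Real.log (rho u x)) *
        rho u x ^ (1 + 2 / (d : ℝ)))
      - (Kc d + 3 * C + 6) * Real.exp (t₀ + w) * rho u x) := by
    have g1 : (∫ x, (Kc d * rho u x ^ (1 + 2 / (d : ℝ)) * (1 - s * (δ + 2 * η) - 3 * C / (lam * d))
      - 13 / d * Kc d * (zn w η t₀ m (2 / (d : ℝ) * Real.log (rho u x)) *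
        rho u x ^ (1 + 2 / (d : ℝ)))
      - (Kc d + 3 * C + 6) * Real.exp (t₀ + w) * rho u x))
      = (∫ x, (Kc d * rho u x ^ (1 + 2 / (d : ℝ)) * (1 - s * (δ + 2 * η) - 3 * C / (lam * d))
      - 13 / d * Kc d * (zn w η t₀ m (2 / (d : ℝ) * Real.log (rho u x)) *
        rho u x ^ (1 + 2 / (d : ℝ)))))
      - (∫ x, (Kc d + 3 * C + 6) * Real.exp (t₀ + w) * rho u x) :=
      integral_sub (i1'.sub i2) i3
    have g2 : (∫ x, (Kc d * rho u x ^ (1 + 2 / (d : ℝ)) * (1 - s * (δ + 2 * η) - 3 * C / (lam * d))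
      - 13 / d * Kc d * (zn w η t₀ m (2 / (d : ℝ) * Real.log (rho u x)) *
        rho u x ^ (1 + 2 / (d : ℝ)))))
      = (∫ x, (Kc d * rho u x ^ (1 + 2 / (d : ℝ)) * (1 - s * (δ + 2 * η) - 3 * C / (lam * d))))
      - (∫ x, 13 / d * Kc d * (zn w η t₀ m (2 / (d : ℝ) * Real.log (rho u x)) *
        rho u x ^ (1 + 2 / (d : ℝ)))) := integral_sub i1' i2
    rw [g1, g2, integral_mul_const, integral_const_mul, integral_const_mul, integral_const_mul]
  rw [e2]
  apply integral_mono ((i1'.sub i2).sub i3)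
    (integrable_finsetSum (range m) fun i _ => integrable_Pw (hWf i) (Kc d) C lam s (hE0 i))
  intro x
  simp only [hWr]
  exact ptwise hT hw hwη hη hd (Kc_ge hd) hK' hδ hC hl hs0 hs1 (rho_nonneg u x) (htop x)


theorem exists_k0 {c : ℝ} (hc : 0 < c) : ∃ k0 : ℝ, 2 ≤ k0 ∧ k0 * Real.exp (-k0) ≤ c := by
  have h := Real.tendsto_pow_mul_exp_neg_atTop_nhds_zero 1
  have h1 := (h.eventually (gt_mem_nhds hc)).and (Filter.eventually_ge_atTop 2)
  obtain ⟨k0, h2, h3⟩ := h1.exists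
  refine ⟨k0, h3, ?_⟩
  rw [pow_one] at h2
  exact h2.le

theorem kin_ge_aux {ε : ℝ} (hε : 0 < ε) (hε1 : ε ≤ 1) : ∃ d₀ : ℕ, ∀ d : ℕ, d₀ ≤ d → ∀ (N : ℕ)
    (u : Fin N → (Fin d → ℝ) → ℂ), Fam u → Bes u →
    (1 - ε / d) * Kc d * (∫ x, rho u x ^ (1 + 2 / (d : ℝ))) ≤ kin u := by
  obtain ⟨f, B, C, hB, hC, hf⟩ := exists_loc
  obtain ⟨a, b, D, hD, hT⟩ := exists_trans
  set e : ℝ := ε / 8 with he
  have he0 : 0 < e := by rw [he]; positivity
  have he1 : e ≤ 1 / 8 := by rw [he]; linarith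
  set lam : ℝ := max 1 (3 * C / e) with hlam
  have hl1 : 1 ≤ lam := le_max_left _ _
  have hl0 : 0 < lam := by linarith
  have hlC : 3 * C ≤ e * lam := by
    have : 3 * C / e ≤ lam := le_max_right _ _
    rw [div_le_iff₀ he0] at this
    linarith
  obtain ⟨k0, hk0, hk1⟩ := exists_k0 (c := e / (48 * lam)) (by positivity)
  have hk2 : 48 * k0 * Real.exp (-k0) * lam ≤ e := by
    have := mul_le_mul_of_nonneg_left hk1 (by positivity : 0 ≤ 48 * lam)
    have h2 : 48 * lam * (e / (48 * lam)) = e := by field_simp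
    rw [h2] at this
    linarith
  set Cs : ℝ := 3840 * B * Real.exp k0 * lam with hCs
  have hCs0 : 0 < Cs := by positivity
  set η : ℝ := min (1 / 2) (e / (4 * Cs)) with hη
  have hη0 : 0 < η := lt_min (by norm_num) (by positivity)
  have hη1 : 2 * η ≤ 1 := by
    have : η ≤ 1 / 2 := min_le_left _ _
    linarith
  have hη2 : Cs * (2 * η) ≤ e / 2 := by
    have : η ≤ e / (4 * Cs) := min_le_right _ _
    have h2 := mul_le_mul_of_nonneg_left this (by positivity : 0 ≤ 2 * Cs)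
    have h3 : 2 * Cs * (e / (4 * Cs)) = e / 2 := by field_simp; ring
    rw [h3] at h2
    linarith
  set δ : ℝ := e / (2 * Cs) with hδ
  have hδ0 : 0 < δ := by positivity
  have hδ2 : Cs * δ = e / 2 := by rw [hδ]; field_simp
  set I : ℕ := ⌈13 / e⌉₊ + 1 with hI
  have hI0 : 0 < I := by omega
  have hI1 : (13 : ℝ) ≤ e * I := by
    have h1 : 13 / e ≤ (⌈13 / e⌉₊ : ℝ) := Nat.le_ceil _
    rw [div_le_iff₀ he0] at h1
    have h2 : (I : ℝ) = (⌈13 / e⌉₊ : ℝ) + 1 := by rw [hI]; push_cast; ring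
    rw [h2]
    nlinarith
  have hIr : (0 : ℝ) < I := by exact_mod_cast hI0
  have hIr1 : (1 : ℝ) ≤ I := by exact_mod_cast hI0
  set w : ℝ := η / I with hw
  have hw0 : 0 < w := by positivity
  have hηw : η = I * w := by rw [hw]; field_simp
  have hwη : w ≤ η := by
    rw [hηw]
    nlinarith
  obtain ⟨d1, hd1⟩ := Kc_le hδ0
  obtain ⟨d2, hd2⟩ := Kc_le (δ := 1 / 5) (by norm_num)
  refine ⟨max (max 2 ⌈Cs⌉₊) (max (max d1 d2) ⌈16 * D / (e * w ^ 2)⌉₊), ?_⟩
  intro d hd N u hu hbu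
  have g1 : 2 ≤ d := (le_max_left _ _).trans ((le_max_left _ _).trans hd)
  have g2 : ⌈Cs⌉₊ ≤ d := (le_max_right _ _).trans ((le_max_left _ _).trans hd)
  have g3 : d1 ≤ d := (le_max_left _ _).trans ((le_max_left _ _).trans ((le_max_right _ _).trans hd))
  have g4 : d2 ≤ d := (le_max_right _ _).trans ((le_max_left _ _).trans ((le_max_right _ _).trans hd))
  have g5 : ⌈16 * D / (e * w ^ 2)⌉₊ ≤ d := (le_max_right _ _).trans ((le_max_right _ _).trans hd)
  have hd0 : (0 : ℝ) < d := by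
    have : 0 < d := by omega
    exact_mod_cast this
  have hd2r : (2 : ℝ) ≤ d := by exact_mod_cast g1
  have g2' : Cs ≤ d := (Nat.le_ceil _).trans (by exact_mod_cast g2)
  have g5' : 16 * D / (e * w ^ 2) ≤ d := (Nat.le_ceil _).trans (by exact_mod_cast g5)
  have hKge := Kc_ge g1
  have hKpos : 0 < Kc d := hd0.trans_le hKge
  have hK3 : Kc d ≤ 3 * d := by
    have h1 := hd2 d g4
    have h2 : 2 * π * d / Real.exp 1 ≤ 5 / 2 * d := by
      rw [div_le_iff₀ (Real.exp_pos 1)]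
      have e1 := Real.exp_one_gt_d9
      have e2 := Real.pi_lt_d2
      have h3 : 2 * π ≤ 5 / 2 * Real.exp 1 := by linarith
      have h4 := mul_le_mul_of_nonneg_right h3 hd0.le
      linarith
    linarith
  set J : ℝ := ∫ x, rho u x ^ (1 + 2 / (d : ℝ)) with hJ
  set N₀ : ℝ := ∫ x, rho u x with hN₀
  have hJ0 : 0 ≤ J := integral_nonneg fun x => Real.rpow_nonneg (rho_nonneg u x) _
  have hN0 : 0 ≤ N₀ := integral_nonneg fun x => rho_nonneg u x
  have hkin := kin_nonneg u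
  rcases hJ0.eq_or_lt with hz | hJpos
  · rw [← hz, mul_zero]
    exact hkin
  -- the base point
  set X : ℝ := Kc d * J with hX
  have hX0 : 0 < X := mul_pos hKpos hJpos
  set Q : ℝ := (e / d * X) / ((Kc d + 3 * C + 6) * (N₀ + 1)) with hQ
  have hQ0 : 0 < Q := by positivity
  set T : ℝ := Real.log Q - η with hTdef
  obtain ⟨M, hM1, hM⟩ := exists_bound_rho hu
  set m : ℕ := ⌈(2 / (d : ℝ) * Real.log M - T) / η⌉₊ with hm
  have hmT : 2 / (d : ℝ) * Real.log M ≤ T + m * η := by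
    have h1 : (2 / (d : ℝ) * Real.log M - T) / η ≤ m := Nat.le_ceil _
    rw [div_le_iff₀ hη0] at h1
    linarith
  obtain ⟨i, hi, hsh⟩ := exists_shift hu (T := T) hI0 hw0 hηw m
  rw [mem_range] at hi
  have hiw : 0 ≤ (i : ℝ) * w := by positivity
  have htop : ∀ x, 0 < rho u x → 2 / (d : ℝ) * Real.log (rho u x) ≤ T + i * w + m * η := by
    intro x hx
    have h1 : Real.log (rho u x) ≤ Real.log M := Real.log_le_log hx (hM x)
    have h2 : 2 / (d : ℝ) * Real.log (rho u x) ≤ 2 / (d : ℝ) * Real.log M :=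
      mul_le_mul_of_nonneg_left h1 (by positivity)
    linarith
  have hmain := assembled g1 hu hbu hB hC hf hT hl1 hk0 (s := Cs / d) (by rw [hCs])
    (by rw [div_le_one hd0]; exact g2') hδ0.le hK3 (hd1 d g3) hw0 hwη hη1 htop
  rw [← hJ, ← hN₀, ← hX] at hmain
  set y : ℝ := e / d with hy
  have hy0 : 0 < y := by positivity
  have b1 : Cs / d * (δ + 2 * η) ≤ y := by
    rw [hy, div_mul_eq_mul_div]
    apply div_le_div_of_nonneg_right _ hd0.le
    rw [mul_add]
    linarith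
  have b2 : 3 * C / (lam * d) ≤ y := by
    rw [hy, div_le_div_iff₀ (by positivity) hd0]
    have := mul_le_mul_of_nonneg_right hlC hd0.le
    linarith
  have b3 : 13 / (d : ℝ) * Kc d * (∫ x, zn w η (T + i * w) m (2 / (d : ℝ) * Real.log (rho u x)) *
        rho u x ^ (1 + 2 / (d : ℝ))) ≤ y * X := by
    have h1 := mul_le_mul_of_nonneg_left hsh (by positivity : 0 ≤ 13 / (d : ℝ) * Kc d)
    refine h1.trans ?_
    have h2 : 13 / (d : ℝ) * Kc d * (J / I) = (13 / I) * (X / d) := by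
      rw [hX]
      field_simp
    have h3 : 13 / (I : ℝ) ≤ e := by
      rw [div_le_iff₀ hIr]
      exact hI1
    rw [h2]
    have h4 := mul_le_mul_of_nonneg_right h3 (by positivity : 0 ≤ X / d)
    refine h4.trans (le_of_eq ?_)
    rw [hy]
    ring
  have b4 : (Kc d + 3 * C + 6) * Real.exp (T + i * w + w) * N₀ ≤ y * X := by
    have h1 : T + i * w + w ≤ T + η := by
      have : ((i : ℝ) + 1) ≤ I := by exact_mod_cast hi
      have h2 := mul_le_mul_of_nonneg_right this hw0.le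
      rw [← hηw] at h2
      linarith
    have h2 : Real.exp (T + i * w + w) ≤ Q := by
      calc _ ≤ Real.exp (T + η) := Real.exp_le_exp.mpr h1
        _ = Q := by
            rw [hTdef, sub_add_cancel, Real.exp_log hQ0]
    have h3 : (Kc d + 3 * C + 6) * Real.exp (T + i * w + w) * N₀
        ≤ (Kc d + 3 * C + 6) * Q * (N₀ + 1) := by
      apply mul_le_mul _ (by linarith) hN0 (by positivity)
      exact mul_le_mul_of_nonneg_left h2 (by positivity)
    refine h3.trans (le_of_eq ?_)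
    rw [hQ]
    field_simp
  have b5 : 48 * k0 * Real.exp (-k0) * lam / d ≤ y := div_le_div_of_nonneg_right hk2 hd0.le
  have b6 : 16 * D / (w * d) ^ 2 ≤ y := by
    rw [hy, div_le_div_iff₀ (by positivity) hd0]
    rw [div_le_iff₀ (by positivity)] at g5'
    have h1 := mul_le_mul_of_nonneg_right g5' hd0.le
    have h2 : (d : ℝ) * (e * w ^ 2) * d = e * (w * d) ^ 2 := by ring
    rw [h2] at h1
    exact h1
  have c1 : X * (1 - 4 * y) ≤ X * (1 - Cs / d * (δ + 2 * η) - 3 * C / (lam * d))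
      - 13 / (d : ℝ) * Kc d * (∫ x, zn w η (T + i * w) m (2 / (d : ℝ) * Real.log (rho u x)) *
        rho u x ^ (1 + 2 / (d : ℝ)))
      - (Kc d + 3 * C + 6) * Real.exp (T + i * w + w) * N₀ := by
    have h1 : X * (1 - 2 * y) ≤ X * (1 - Cs / d * (δ + 2 * η) - 3 * C / (lam * d)) :=
      mul_le_mul_of_nonneg_left (by linarith) hX0.le
    linarith
  have c2 : (1 + 48 * k0 * Real.exp (-k0) * lam / d) * ((1 + 16 * D / (w * d) ^ 2) * kin u)
      ≤ (1 + y) * ((1 + y) * kin u) := by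
    apply mul_le_mul (by linarith) _ (by positivity) (by positivity)
    exact mul_le_mul_of_nonneg_right (by linarith) hkin
  have c3 : X * (1 - 4 * y) ≤ (1 + y) * ((1 + y) * kin u) := (c1.trans hmain).trans c2
  have c4 : X * (1 - 8 * y) * (1 + y) ^ 2 ≤ kin u * (1 + y) ^ 2 := by
    have h1 : (1 - 8 * y) * (1 + y) ^ 2 ≤ 1 - 4 * y := by nlinarith [pow_pos hy0 2, pow_pos hy0 3]
    have h2 := mul_le_mul_of_nonneg_left h1 hX0.le
    nlinarith
  have c5 : X * (1 - 8 * y) ≤ kin u := le_of_mul_le_mul_right c4 (by positivity)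
  have c6 : (1 - ε / d) * Kc d * J = X * (1 - 8 * y) := by
    rw [hX, hy, he]
    ring
  rw [c6]
  exact c5

theorem kin_ge' {ε : ℝ} (hε : 0 < ε) : ∃ d₀ : ℕ, ∀ d : ℕ, d₀ ≤ d → ∀ (N : ℕ)
    (u : Fin N → (Fin d → ℝ) → ℂ), Fam u → Bes u →
    (1 - ε / d) * Kc d * (∫ x, rho u x ^ (1 + 2 / (d : ℝ))) ≤ kin u := by
  obtain ⟨d₀, h⟩ := kin_ge_aux (ε := min ε 1) (lt_min hε one_pos) (min_le_right _ _)
  refine ⟨max 2 d₀, fun d hd N u hu hb => ?_⟩
  have h1 := h d ((le_max_right _ _).trans hd) N u hu hb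
  have h2 : 2 ≤ d := (le_max_left _ _).trans hd
  have hd0 : (0 : ℝ) < d := by
    have : 0 < d := by omega
    exact_mod_cast this
  refine le_trans ?_ h1
  apply mul_le_mul_of_nonneg_right _ (integral_nonneg fun x => Real.rpow_nonneg (rho_nonneg u x) _)
  apply mul_le_mul_of_nonneg_right _ (hd0.le.trans (Kc_ge h2))
  have : min ε 1 / (d : ℝ) ≤ ε / d := div_le_div_of_nonneg_right (min_le_left _ _) hd0.le
  linarith

end Pool.Agent.LTHD
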