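import Mathlib
import Pool.Agent.LTHD.Main
import Pool.Agent.LTHD.Ortho

open Real Finset MeasureTheory Matrix
open Pool.Agent.LiebT2

set_option autoImplicit false

namespace Pool.Agent.LTHD

variable {d k N : ℕ}

/-- Bernoulli's inequality in the form used -/
theorem rpow_le_sub {ε : ℝ} (hε : 0 ≤ ε) (hε1 : ε ≤ 1) (hd : 1 ≤ d) :
    (1 - ε) ^ (1 / (d : ℝ)) ≤ 1 - ε / d := by
  have hd0 : (0 : ℝ) < d := by exact_mod_cast hd
  have h1 : (1 : ℝ) ≤ d := by exact_mod_cast hd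
  have h := rpow_one_add_le_one_add_mul_self (s := -ε) (by linarith) (p := 1 / (d : ℝ))
    (by positivity) (by rw [div_le_one hd0]; exact h1)
  have e : (1 : ℝ) + -ε = 1 - ε := by ring
  rw [e] at h
  refine h.trans (le_of_eq ?_)
  ring

theorem lt_euclid_hd {ε : ℝ} (hε : 0 < ε) : ∃ d₀ : ℕ, ∀ d : ℕ, d₀ ≤ d → ∀ (N : ℕ)
    (u : Fin N → EuclideanSpace ℝ (Fin d) → ℂ),
    (∀ n, ContDiff ℝ 1 (u n) ∧ HasCompactSupport (u n)) →
    (∀ n m, ∫ x, star (u n x) * u m x = if n = m then (1 : ℂ) else 0) →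
    (1 - ε / d) * Kc d * ∫ x, (∑ n, ‖u n x‖ ^ 2) ^ (1 + 2 / (d : ℝ))
      ≤ ∑ n, ∫ x, ∑ i : Fin d, ‖fderiv ℝ (u n) x (EuclideanSpace.single i (1 : ℝ))‖ ^ 2 := by
  obtain ⟨d₀, hd₀⟩ := kin_ge' hε
  refine ⟨d₀, fun d hd N u hu ho => ?_⟩
  have hfam := fam_eE hu
  set v : Fin N → (Fin d → ℝ) → ℂ := fun n y => u n (eE d y) with hv
  have hb : Bes v := by
    apply bes_of_ortho hfam
    intro n m
    rw [← ho n m, integral_eE]
  have h := hd₀ d hd N v hfam hb
  have e1 : ∫ x, (∑ n, ‖u n x‖ ^ 2) ^ (1 + 2 / (d : ℝ))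
      = ∫ y, rho v y ^ (1 + 2 / (d : ℝ)) := by
    rw [integral_eE]
    rfl
  have e2 : ∑ n, ∫ x, ∑ i : Fin d, ‖fderiv ℝ (u n) x (EuclideanSpace.single i (1 : ℝ))‖ ^ 2
      = kin v := by
    rw [kin_eq hfam]
    apply Finset.sum_congr rfl
    intro n _
    rw [integral_eE]
    congr 1
    funext y
    unfold dens1
    apply Finset.sum_congr rfl
    intro i _
    rw [hv]
    simp only
    rw [fderiv_eE (hu n).1]
  rw [e1, e2]
  exact h

theorem setK_ge_hd {ε : ℝ} (hε : 0 < ε) (hε1 : ε < 1) : ∃ d₀ : ℕ, 1 ≤ d₀ ∧ ∀ d : ℕ, d₀ ≤ d →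
    ∀ K ∈ setK d, (1 - ε) ^ (1 / (d : ℝ)) * Kc d ≤ K := by
  obtain ⟨d₀, hd₀⟩ := lt_euclid_hd hε
  refine ⟨max 1 d₀, le_max_left _ _, fun d hd K hK => ?_⟩
  have hd1 : 1 ≤ d := (le_max_left _ _).trans hd
  have hdR : (0 : ℝ) < d := by exact_mod_cast hd1
  have hd2 : d₀ ≤ d := (le_max_right _ _).trans hd
  obtain ⟨N, u, hN, hu, ho, rfl⟩ := hK
  have hmain := hd₀ d hd2 N u hu ho
  have hcont : Continuous (fun x => (∑ n, ‖u n x‖ ^ 2) ^ (1 + 2 / (d : ℝ))) := by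
    have h1 : Continuous (fun x => ∑ n, ‖u n x‖ ^ 2) :=
      continuous_finsetSum _ fun n _ => ((hu n).1.continuous.norm).pow 2
    exact h1.rpow_const fun x => Or.inr (by positivity)
  have hpos : 0 < ∫ x, (∑ n, ‖u n x‖ ^ 2) ^ (1 + 2 / (d : ℝ)) := by
    have n0 : Fin N := ⟨0, hN⟩
    obtain ⟨t0, ht0⟩ : ∃ t, u n0 t ≠ 0 := by
      by_contra hcon
      push Not at hcon
      have h1 := ho n0 n0
      rw [if_pos rfl] at h1
      simp [hcon] at h1
    apply hcont.integral_pos_of_hasCompactSupport_nonneg_nonzero (x := t0)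
    · have hK : IsCompact (⋃ n, tsupport (u n)) := isCompact_iUnion fun n => (hu n).2
      apply HasCompactSupport.intro hK
      intro x hx
      have : ∀ n, u n x = 0 := fun n =>
        image_eq_zero_of_notMem_tsupport fun hm => hx (Set.mem_iUnion.mpr ⟨n, hm⟩)
      simp only [this]
      simp only [norm_zero, ne_eq, OfNat.ofNat_ne_zero, not_false_eq_true, zero_pow,
        Finset.sum_const_zero]
      exact Real.zero_rpow (by positivity)
    · intro t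
      exact Real.rpow_nonneg (Finset.sum_nonneg fun n _ => by positivity) _
    · have h1 : 0 < ∑ n, ‖u n t0‖ ^ 2 := by
        apply Finset.sum_pos' (fun n _ => by positivity)
        exact ⟨n0, Finset.mem_univ _, by have := norm_pos_iff.mpr ht0; positivity⟩
      exact (Real.rpow_pos_of_pos h1 _).ne'
  rw [le_div_iff₀ hpos]
  refine le_trans ?_ hmain
  apply mul_le_mul_of_nonneg_right _ hpos.le
  apply mul_le_mul_of_nonneg_right (rpow_le_sub hε.le hε1.le hd1)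
  unfold Kc
  have := om_pos d
  positivity

end Pool.Agent.LTHD
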